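import Pool.Agent.W_1b8d5d_nc.Nl
import Pool.Agent.W_1b8d5d_c1.Defs

/-!
MP_1b8d5d_pr (no corner): from a corner of the time constant to the corner data of the core.
-/

set_option autoImplicit false

open Filter Topology

namespace Pool.Agent.W_1b8d5d_nc

open Pool.Agent.W_1b8d5d_h85

variable {Q : Par} {g : V → ℝ} {μ : ℝ × ℝ → ℝ}

/-- Cramer's rule without division. -/
theorem dt_cramer (v e x : ℝ × ℝ) : dt v e • x = dt x e • v + dt v x • e := by
  refine Prod.ext ?_ ?_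
  · show dt v e * x.1 = dt x e * v.1 + dt v x * e.1
    unfold dt
    ring
  · show dt v e * x.2 = dt x e * v.2 + dt v x * e.2
    unfold dt
    ring

theorem Cor.dt_ne (k : Cor μ) : dt k.v k.e ≠ 0 := by
  intro h0
  have h1 : ∀ x, dt x k.e = 0 := by
    intro x
    have h2 := congrArg k.G (dt_cramer k.v k.e x)
    rw [h0, zero_smul, map_zero, map_add, map_smul, map_smul, k.Gv, k.Ge, smul_zero, add_zero,
      smul_eq_mul, mul_one] at h2
    exact h2.symm
  have h2 : k.e = 0 := by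
    have h3 := h1 (1, 0)
    have h4 := h1 (0, 1)
    unfold dt at h3 h4
    refine Prod.ext ?_ ?_
    · show k.e.1 = 0
      simpa using h4
    · show k.e.2 = 0
      simpa using h3
  have h3 := k.Ye
  rw [h2, map_zero] at h3
  exact zero_ne_one h3

theorem Cor.G_eq (k : Cor μ) (x : ℝ × ℝ) : k.G x = dt x k.e / dt k.v k.e := by
  have h2 := congrArg k.G (dt_cramer k.v k.e x)
  rw [map_smul, map_add, map_smul, map_smul, k.Gv, k.Ge, smul_zero, add_zero, smul_eq_mul,
    smul_eq_mul, mul_one] at h2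
  rw [eq_div_iff k.dt_ne, mul_comm]
  exact h2

theorem Cor.Y_eq (k : Cor μ) (x : ℝ × ℝ) : k.Y x = dt k.v x / dt k.v k.e := by
  have h2 := congrArg k.Y (dt_cramer k.v k.e x)
  rw [map_smul, map_add, map_smul, map_smul, k.Yv, k.Ye, smul_zero, zero_add, smul_eq_mul,
    smul_eq_mul, mul_one] at h2
  rw [eq_div_iff k.dt_ne, mul_comm]
  exact h2

theorem Cor.dec (k : Cor μ) (x : ℝ × ℝ) : x = k.G x • k.v + k.Y x • k.e := by
  have h1 := dt_cramer k.v k.e x
  have h2 : x = (dt k.v k.e)⁻¹ • (dt k.v k.e • x) := by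
    rw [smul_smul, inv_mul_cancel₀ k.dt_ne, one_smul]
  rw [h1, smul_add, smul_smul, smul_smul] at h2
  rw [k.G_eq, k.Y_eq, div_eq_inv_mul, div_eq_inv_mul]
  exact h2

/-- The upper bound in the narrow cone. -/
theorem Cor.upp' (k : Cor μ) (hom : ∀ (c : ℝ) (x : ℝ × ℝ), 0 ≤ c → μ (c • x) = c * μ x) {ε t₀ : ℝ}
    (H : ∀ t : ℝ, 0 < t → t ≤ t₀ →
      μ (k.v + t • k.e) ≤ 1 + (1 + ε) * t ∧ μ (k.v - t • k.e) ≤ 1 + (1 + ε) * t) {x : ℝ × ℝ}
    (hG : 0 < k.G x) (hY : |k.Y x| ≤ t₀ * k.G x) : μ x ≤ k.G x + (1 + ε) * |k.Y x| := by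
  have hx := k.dec x
  rcases lt_trichotomy (k.Y x) 0 with h | h | h
  · rw [abs_of_neg h] at hY ⊢
    have h1 := (H (-k.Y x / k.G x) (div_pos (by linarith) hG) (by rw [div_le_iff₀ hG]; exact hY)).2
    have e1 : x = k.G x • (k.v - (-k.Y x / k.G x) • k.e) := by
      rw [smul_sub, smul_smul, mul_div_cancel₀ _ hG.ne', neg_smul, sub_neg_eq_add]
      exact hx
    have h2 := mul_le_mul_of_nonneg_left h1 hG.le
    rw [← hom _ _ hG.le, ← e1] at h2
    refine h2.trans (le_of_eq ?_)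
    field_simp
  · rw [h, abs_zero, mul_zero, add_zero]
    rw [h, zero_smul, add_zero] at hx
    have h1 : μ x = k.G x := by
      conv_lhs => rw [hx]
      rw [hom _ _ hG.le, k.mu_v, mul_one]
    exact h1.le
  · rw [abs_of_pos h] at hY ⊢
    have h1 := (H (k.Y x / k.G x) (div_pos h hG) (by rw [div_le_iff₀ hG]; exact hY)).1
    have e1 : x = k.G x • (k.v + (k.Y x / k.G x) • k.e) := by
      rw [smul_add, smul_smul, mul_div_cancel₀ _ hG.ne']
      exact hx
    have h2 := mul_le_mul_of_nonneg_left h1 hG.le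
    rw [← hom _ _ hG.le, ← e1] at h2
    refine h2.trans (le_of_eq ?_)
    field_simp

/-- A corner of the time constant gives the corner data `Cnr` of the core. -/
theorem exists_cnr (hg : IsMean Q g) (hc : Continuous μ)
    (hom : ∀ (c : ℝ) (x : ℝ × ℝ), 0 ≤ c → μ (c • x) = c * μ x)
    (hlim : ∀ x : V, Tendsto (fun n : ℕ => g (n • x) / n) atTop (𝓝 (μ (toR x)))) (k : Cor μ) :
    ∃ c : Crd, Pool.Agent.W_1b8d5d_c1.Cnr g c := by
  obtain ⟨c, hp, hq⟩ := exists_crd k.dt_ne
  have hpG : ∀ z, c.p z = k.G (toR z) := fun z => by rw [hp, k.G_eq]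
  have hqY : ∀ z, c.q z = k.Y (toR z) := fun z => by rw [hq, k.Y_eq]
  have hC := c.one_le
  refine ⟨c, ⟨fun z => ?_, fun ε hε => ?_⟩⟩
  · have h1 := k.low (toR z)
    have h2 := mu_le hg hlim z
    have h3 := le_abs_self (k.G (toR z))
    rw [hpG, hqY]
    linarith
  · obtain ⟨t₀, ht₀, H⟩ := k.upp ε hε
    refine ⟨t₀, ht₀, fun η hη => ?_⟩
    have hD : 0 < c.C * (1 + t₀) := by positivity
    obtain ⟨N₀, hN₀⟩ := g_le_mu hg hc hom hlim (ε := η / (c.C * (1 + t₀))) (by positivity)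
    refine ⟨max 1 (c.C * |N₀|), fun z hz hqz => ?_⟩
    have hp1 : 1 ≤ c.p z := (le_max_left _ _).trans hz
    have hp0 : 0 < c.p z := by linarith
    have hp2 : c.C * |N₀| ≤ c.p z := (le_max_right _ _).trans hz
    have hnm : N₀ ≤ nm z := by
      have h1 := (le_abs_self _).trans (c.p_le z)
      have h2 : c.C * |N₀| ≤ c.C * nm z := hp2.trans h1
      exact (le_abs_self _).trans (le_of_mul_le_mul_left h2 (by linarith))
    have h1 := hN₀ z hnm
    have h2 : μ (toR z) ≤ c.p z + (1 + ε) * |c.q z| := by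
      rw [hpG, hqY]
      refine k.upp' hom H ?_ ?_
      · rw [← hpG]
        exact hp0
      · rw [← hpG, ← hqY]
        exact hqz
    have h3 : nm z ≤ c.C * (1 + t₀) * c.p z := by
      have h4 := c.nm_le z
      rw [abs_of_pos hp0] at h4
      have h5 : c.C * (c.p z + |c.q z|) ≤ c.C * (c.p z + t₀ * c.p z) :=
        mul_le_mul_of_nonneg_left (by linarith) (by linarith)
      calc nm z ≤ c.C * (c.p z + |c.q z|) := h4
        _ ≤ c.C * (c.p z + t₀ * c.p z) := h5
        _ = c.C * (1 + t₀) * c.p z := by ring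
    have h4 : η / (c.C * (1 + t₀)) * nm z ≤ η * c.p z := by
      rw [div_mul_eq_mul_div, div_le_iff₀ hD]
      have := mul_le_mul_of_nonneg_left h3 hη.le
      linarith
    linarith

end Pool.Agent.W_1b8d5d_nc
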