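import Pool.Agent.W_1b8d5d_nc.Concl
import Pool.Agent.W_1b8d5d_nc.Cn
import Pool.Agent.W_1b8d5d_h85.FWalks

/-!
MP_1b8d5d_pr (no corner): the final theorem in the form of the frozen statement (`d = 2`, atomless law on `[a, b]`, `0 < a`)
from the core and part (A).
-/

set_option autoImplicit false

open MeasureTheory ProbabilityTheory Filter Topology

namespace Pool.Agent.W_1b8d5d_nc

open Pool.Agent.W_1b8d5d_h85

/-- Part (A): good models. -/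
def PartA1 : Prop := ∀ (a b : ℝ) (ν : Measure ℝ), 0 < a → Law a b ν →
  ∀ (Ω : Type) [MeasurableSpace Ω] (P : Measure Ω) (τ : Edge → Ω → ℝ), IsFPP ν P τ →
    ∃ Q : Par, Pool.Agent.W_1b8d5d_c1.HasModels Q (tm P τ) ∧ IsMean Q (tm P τ)

/-- The core: a corner is impossible. -/
def Core1 : Prop := ∀ (Q : Par) (g : V → ℝ), Pool.Agent.W_1b8d5d_c1.HasModels Q g → IsMean Q g →
  ∀ c : Crd, Pool.Agent.W_1b8d5d_c1.Cnr g c → False

theorem isFPP_of_frozen {ν : Measure ℝ} {Ω : Type} [MeasurableSpace Ω] {P : Measure Ω}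
    (hP : IsProbabilityMeasure P) {τ : (Fin 2 → ℤ) × Fin 2 → Ω → ℝ} (hm : ∀ e, Measurable (τ e))
    (hi : iIndepFun τ P) (hl : ∀ e, P.map (τ e) = ν) : IsFPP ν P fun e => τ (toE e) :=
  ⟨hP, fun e => hm _, hi.precomp toE_injective, fun e => hl _⟩

theorem cast_toF (x : V) : (fun i => ((toF x i : ℤ) : ℝ)) = ![(toR x).1, (toR x).2] := by
  funext i
  fin_cases i <;> rfl

theorem toF_nsmul (n : ℕ) (x : V) : (n : ℤ) • toF x = toF (n • x) := by
  funext i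
  fin_cases i
  · show (n : ℤ) * x.1 = (n • x).1
    rw [Prod.smul_fst, nsmul_eq_mul]
  · show (n : ℤ) * x.2 = (n • x).2
    rw [Prod.smul_snd, nsmul_eq_mul]

/-- The final theorem, from part (A) and the core. -/
theorem final1 (hA : PartA1) (hC : Core1) :
    ∀ (a b : ℝ), 0 < a →
    ∀ (ν : Measure ℝ), IsProbabilityMeasure ν → ν (Set.Icc a b)ᶜ = 0 →
      (∀ x : ℝ, ν ({x} : Set ℝ) = 0) →
    ∀ (Ω : Type) [MeasurableSpace Ω] (P : Measure Ω), IsProbabilityMeasure P →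
    ∀ (τ : (Fin 2 → ℤ) × Fin 2 → Ω → ℝ),
      (∀ e, Measurable (τ e)) → iIndepFun τ P → (∀ e, P.map (τ e) = ν) →
    ∀ (μ : (Fin 2 → ℝ) → ℝ), Continuous μ →
      (∀ (c : ℝ) (x : Fin 2 → ℝ), 0 ≤ c → μ (c • x) = c * μ x) →
      (∀ x : Fin 2 → ℤ, TendstoInMeasure P
        (fun (n : ℕ) (ω : Ω) =>
            sInf {t : ℝ | ∃ (m : ℕ) (p : ℕ → Fin 2 → ℤ), p 0 = 0 ∧ p m = (n : ℤ) • x ∧
              (∀ k < m, ∑ i, |p (k+1) i - p k i| = 1) ∧
              t = ∑ k ∈ Finset.range m, ∑ i : Fin 2,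
                ((if p (k+1) = p k + (Pi.single i (1 : ℤ) : Fin 2 → ℤ) then τ (p k, i) ω else 0) +
                 (if p k = p (k+1) + (Pi.single i (1 : ℤ) : Fin 2 → ℤ) then τ (p (k+1), i) ω else 0))}
            / (n : ℝ))
        atTop (fun _ => μ (fun i => (x i : ℝ)))) →
      (∀ z ∈ {x | μ x ≤ 1}.extremePoints ℝ, ∀ U ∈ 𝓝 z,
        ¬ {y : Fin 2 → ℝ | y ∈ U ∧ μ y ≤ 1 ∧ ∃ (c : Fin 2 → ℝ) (r : ℝ),
          ∑ i, (y i - c i) ^ 2 = r ∧ ∀ x, μ x ≤ 1 → ∑ i, (x i - c i) ^ 2 ≤ r}.Countable) ∧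
      (Perfect ({x | μ x ≤ 1}.extremePoints ℝ) ∧ ¬ ({x | μ x ≤ 1}.extremePoints ℝ).Countable) ∧
      (∀ s : Set (Fin 2 → ℝ), s.Finite → {x | μ x ≤ 1} ≠ convexHull ℝ s) ∧
      (∀ x : Fin 2 → ℝ, x ≠ 0 → ∀ f f' : (Fin 2 → ℝ) →ₗ[ℝ] ℝ,
        (∀ z, f z ≤ μ z) → (∀ z, f' z ≤ μ z) → f x = μ x → f' x = μ x → f = f') ∧
      (∀ x : Fin 2 → ℝ, x ≠ 0 → DifferentiableAt ℝ μ x) := by
  intro a b ha ν hν hsupp hatom Ω _ P hP τ hm hi hl μ hμ hom hlim
  have hlaw : Law a b ν := ⟨hν, hsupp, hatom⟩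
  have hF := isFPP_of_frozen hP hm hi hl
  obtain ⟨Q, hM, hmean⟩ := hA a b ν ha hlaw Ω P _ hF
  have hc' : Continuous (pl μ) := by
    show Continuous fun x : ℝ × ℝ => μ ![x.1, x.2]
    refine hμ.comp ?_
    refine continuous_pi fun i => ?_
    fin_cases i
    · exact continuous_fst
    · exact continuous_snd
  have hom' : ∀ (c : ℝ) (x : ℝ × ℝ), 0 ≤ c → pl μ (c • x) = c * pl μ x := by
    intro c x hcc
    show μ ![c * x.1, c * x.2] = c * μ ![x.1, x.2]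
    rw [← hom c _ hcc]
    congr 1
    funext i
    fin_cases i <;> rfl
  have hlim' : ∀ x : V, Tendsto (fun n : ℕ => tm P (fun e => τ (toE e)) (n • x) / n) atTop
      (𝓝 (pl μ (toR x))) := by
    intro x
    refine tendsto_tm ha hlaw hF ?_
    have h1 := hlim (toF x)
    rw [cast_toF] at h1
    have h2 : (fun (n : ℕ) (ω : Ω) =>
        T (fun e => τ (toE e) ω) 0 (n • x) / (n : ℝ)) = fun (n : ℕ) (ω : Ω) =>
        sInf (pathSet (fun e => τ e ω) ((n : ℤ) • toF x)) / (n : ℝ) := by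
      funext n ω
      rw [toF_nsmul, sInf_pathSet]
    rw [h2]
    exact h1
  have hn : NormLike (pl μ) := normLike hmean hc' hom' hlim'
  refine conclusions hμ hn ⟨fun k => ?_⟩
  obtain ⟨c, hcnr⟩ := exists_cnr hmean hc' hom' hlim' k
  exact hC Q _ hM hmean c hcnr

end Pool.Agent.W_1b8d5d_nc
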