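import Pool.Agent.W_1b8d5d_p.ZDefs

/-!
ZERO TEMPERATURE, general laws: the luck `X = Q u`, `u` uniform on `[0, 1]`, `Q` nondecreasing with values in an interval of length
one, NOT CONCENTRATED NEAR THE TOP (`Qn.nc`). No density, no continuity. The comparison of the slope at the source and at the
target of the monotone transport of a nondecreasing density `h` near `1`. (helper4)
-/

namespace Pool.Agent.W_1b8d5d_nc

open MeasureTheory Set Filter Topology
open Pool.Agent.W_1b8d5d_z (U01 BM)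

noncomputable section

/-- The quantile functions of the laws which are not concentrated near the top. -/
structure Qn (Q : ℝ → ℝ) (θ C : ℝ) : Prop where
  mono : Monotone Q
  th0 : 0 < θ
  C0 : 0 ≤ C
  one : ∀ x y, Q y - Q x ≤ 1
  nc : ∀ u v, 0 ≤ u → u ≤ v → v < 1 → v - u ≤ θ * (1 - u) → (1 - u) * (Q v - Q u) ≤ C * ∫ w in v..1, (Q w - Q v)

/-- The nondecreasing densities near `1`. -/
structure Dn (h : ℝ → ℝ) (δ : ℝ) : Prop where
  mono : Monotone h
  near : ∀ x, |h x - 1| ≤ δ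
  int1 : ∫ x in (0 : ℝ)..1, h x = 1
  δ1 : δ ≤ 1 / 2

/-- The primitive. -/
def Pr (h : ℝ → ℝ) (y : ℝ) : ℝ := ∫ w in (0 : ℝ)..y, h w

theorem bm_ii {f : ℝ → ℝ} (hf : BM f) (x y : ℝ) : IntervalIntegrable f volume x y := by
  obtain ⟨hm, C, hC⟩ := hf
  refine (intervalIntegrable_const (c := C)).mono_fun hm.aestronglyMeasurable (Eventually.of_forall fun z => ?_)
  show ‖f z‖ ≤ ‖C‖
  rw [Real.norm_eq_abs, Real.norm_eq_abs]
  exact (hC z).trans (le_abs_self C)

theorem int_U (f : ℝ → ℝ) : ∫ x, f x ∂U01 = ∫ x in (0 : ℝ)..1, f x := by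
  rw [intervalIntegral.integral_of_le zero_le_one, ← integral_Icc_eq_integral_Ioc]

section dens

variable {h : ℝ → ℝ} {δ : ℝ}

theorem Dn.δ0 (hh : Dn h δ) : 0 ≤ δ := (abs_nonneg _).trans (hh.near 0)

theorem Dn.bm (hh : Dn h δ) : BM h := ⟨hh.mono.measurable, 2, fun x => by
  have h1 := abs_le.1 (hh.near x)
  have h2 := hh.δ1
  rw [abs_le]
  constructor <;> linarith⟩

theorem Dn.lo (hh : Dn h δ) (x : ℝ) : 1 / 2 ≤ h x := by
  have h1 := abs_le.1 (hh.near x)
  have h2 := hh.δ1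
  linarith

theorem Dn.ii (hh : Dn h δ) (x y : ℝ) : IntervalIntegrable h volume x y := bm_ii hh.bm x y

theorem Pr_zero (h : ℝ → ℝ) : Pr h 0 = 0 := by
  unfold Pr
  simp

theorem Dn.pr1 (hh : Dn h δ) : Pr h 1 = 1 := hh.int1

theorem Dn.pr_sub (hh : Dn h δ) (x y : ℝ) : Pr h y - Pr h x = ∫ w in x..y, h w := by
  have h1 := intervalIntegral.integral_add_adjacent_intervals (hh.ii 0 x) (hh.ii x y)
  unfold Pr
  linarith

theorem Dn.pr_lo (hh : Dn h δ) {x y : ℝ} (hxy : x ≤ y) : 1 / 2 * (y - x) ≤ Pr h y - Pr h x := by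
  rw [hh.pr_sub]
  have h1 : ∫ _w in x..y, (1 / 2 : ℝ) ≤ ∫ w in x..y, h w :=
    intervalIntegral.integral_mono_on hxy intervalIntegrable_const (hh.ii x y) fun w _ => hh.lo w
  rw [intervalIntegral.integral_const, smul_eq_mul] at h1
  linarith

theorem Dn.pr_strict (hh : Dn h δ) : StrictMono (Pr h) := by
  intro x y hxy
  have h1 := hh.pr_lo hxy.le
  linarith

theorem Dn.pr_cont (hh : Dn h δ) : Continuous (Pr h) :=
  intervalIntegral.continuous_primitive (fun x y => hh.ii x y) 0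

/-- The mass above `y`, centred. -/
theorem Dn.tail (hh : Dn h δ) (y : ℝ) : ∫ w in y..1, (h w - 1) = y - Pr h y := by
  rw [intervalIntegral.integral_sub (hh.ii y 1) intervalIntegrable_const, ← hh.pr_sub, hh.pr1,
    intervalIntegral.integral_const, smul_eq_mul]
  ring

theorem Dn.ii1 (hh : Dn h δ) (x y : ℝ) : IntervalIntegrable (fun w => h w - 1) volume x y :=
  (hh.ii x y).sub intervalIntegrable_const

/-- The average of `h - 1` over `[y, 1]` is nondecreasing. -/
theorem Dn.avg (hh : Dn h δ) {t v : ℝ} (htv : t ≤ v) (hv : v ≤ 1) :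
    (1 - v) * (t - Pr h t) ≤ (1 - t) * (v - Pr h v) := by
  rw [← hh.tail t, ← hh.tail v, ← intervalIntegral.integral_add_adjacent_intervals (hh.ii1 t v) (hh.ii1 v 1)]
  have h1 : ∫ w in t..v, (h w - 1) ≤ ∫ _w in t..v, (h v - 1) :=
    intervalIntegral.integral_mono_on htv (hh.ii1 t v) intervalIntegrable_const fun w hw => by
      have := hh.mono hw.2
      linarith
  have h2 : ∫ _w in v..1, (h v - 1) ≤ ∫ w in v..1, (h w - 1) :=
    intervalIntegral.integral_mono_on hv intervalIntegrable_const (hh.ii1 v 1) fun w hw => by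
      have := hh.mono hw.1
      linarith
  rw [intervalIntegral.integral_const, smul_eq_mul] at h1 h2
  have h3 := mul_le_mul_of_nonneg_left h1 (by linarith : 0 ≤ 1 - v)
  have h4 := mul_le_mul_of_nonneg_left h2 (by linarith : 0 ≤ v - t)
  nlinarith

theorem Dn.pr_le (hh : Dn h δ) {y : ℝ} (h0 : 0 ≤ y) (h1 : y ≤ 1) : Pr h y ≤ y := by
  have h2 := hh.avg h0 h1
  rw [Pr_zero] at h2
  linarith

theorem Dn.pr_nonneg (hh : Dn h δ) {y : ℝ} (h0 : 0 ≤ y) : 0 ≤ Pr h y := by
  rw [← Pr_zero h]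
  exact hh.pr_strict.monotone h0

theorem Dn.tail_le (hh : Dn h δ) {y : ℝ} (h1 : y ≤ 1) : y - Pr h y ≤ δ * (1 - y) := by
  rw [← hh.tail y]
  have h2 : ∫ w in y..1, (h w - 1) ≤ ∫ _w in y..1, δ :=
    intervalIntegral.integral_mono_on h1 (hh.ii1 y 1) intervalIntegrable_const fun w _ => (abs_le.1 (hh.near w)).2
  rw [intervalIntegral.integral_const, smul_eq_mul] at h2
  linarith

theorem Dn.inv (hh : Dn h δ) {t : ℝ} (h0 : 0 ≤ t) (h1 : t ≤ 1) : ∃ v, t ≤ v ∧ v ≤ 1 ∧ Pr h v = t := by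
  have h2 : t ∈ Icc (Pr h t) (Pr h 1) := ⟨hh.pr_le h0 h1, by rw [hh.pr1]; exact h1⟩
  obtain ⟨v, hv, hv'⟩ := intermediate_value_Icc h1 hh.pr_cont.continuousOn h2
  exact ⟨v, hv.1, hv.2, hv'⟩

/-- The mass of an initial interval. -/
theorem Dn.lint (hh : Dn h δ) {v : ℝ} (h0 : 0 ≤ v) :
    ∫⁻ y in Icc 0 v, ENNReal.ofReal (h y) = ENNReal.ofReal (Pr h v) := by
  have hi : IntegrableOn h (Icc 0 v) := (intervalIntegrable_iff_integrableOn_Icc_of_le h0).1 (hh.ii 0 v)
  rw [← ofReal_integral_eq_lintegral_ofReal hi (Eventually.of_forall fun y => by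
    have := hh.lo y
    show (0 : ℝ) ≤ h y
    linarith)]
  congr 1
  unfold Pr
  rw [intervalIntegral.integral_of_le h0, ← integral_Icc_eq_integral_Ioc]

/-- The transport: the primitive of `h` transports `h dy` to the uniform law. -/
theorem Dn.map (hh : Dn h δ) :
    (U01.withDensity fun y => ENNReal.ofReal (h y)).map (Pr h) = U01 := by
  have hm := hh.pr_cont.measurable
  have hfin : IsFiniteMeasure (U01.withDensity fun y => ENNReal.ofReal (h y)) := by
    refine isFiniteMeasure_withDensity_ofReal ?_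
    exact (hh.bm.int (μ := U01)).2
  have hI : ∀ a, (U01.withDensity fun y => ENNReal.ofReal (h y)) (Pr h ⁻¹' Iic a) =
      ∫⁻ y in (Icc 0 1 ∩ Pr h ⁻¹' Iic a), ENNReal.ofReal (h y) := by
    intro a
    rw [withDensity_apply _ (hm measurableSet_Iic), Measure.restrict_restrict (hm measurableSet_Iic), inter_comm]
  refine Measure.ext_of_Iic _ _ fun a => ?_
  rw [Measure.map_apply hm measurableSet_Iic, hI, Measure.restrict_apply measurableSet_Iic]
  rcases lt_or_ge a 0 with ha | ha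
  · have e1 : Icc (0 : ℝ) 1 ∩ Pr h ⁻¹' Iic a = ∅ := by
      rw [eq_empty_iff_forall_notMem]
      rintro y ⟨hy1, hy2⟩
      have h1 := hh.pr_nonneg hy1.1
      have h2 : Pr h y ≤ a := hy2
      linarith
    have e2 : Iic a ∩ Icc (0 : ℝ) 1 = ∅ := by
      rw [eq_empty_iff_forall_notMem]
      rintro y ⟨hy1, hy2⟩
      have h1 : y ≤ a := hy1
      linarith [hy2.1]
    rw [e1, e2]
    simp
  · obtain ⟨b, hb⟩ : ∃ b, b = min a 1 := ⟨_, rfl⟩
    have hb0 : 0 ≤ b := by rw [hb]; exact le_min ha zero_le_one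
    have hb1 : b ≤ 1 := by rw [hb]; exact min_le_right _ _
    obtain ⟨v, hbv, hv1, hv⟩ := hh.inv hb0 hb1
    have e1 : Icc (0 : ℝ) 1 ∩ Pr h ⁻¹' Iic a = Icc 0 v := by
      ext y
      simp only [mem_inter_iff, mem_Icc, mem_preimage, mem_Iic]
      constructor
      · rintro ⟨⟨h1, h2⟩, h3⟩
        refine ⟨h1, ?_⟩
        rw [← hh.pr_strict.le_iff_le, hv, hb]
        refine le_min h3 ?_
        rw [← hh.pr1]
        exact hh.pr_strict.monotone h2
      · rintro ⟨h1, h2⟩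
        refine ⟨⟨h1, h2.trans hv1⟩, ?_⟩
        have h3 := hh.pr_strict.monotone h2
        rw [hv, hb] at h3
        exact h3.trans (min_le_left _ _)
    have e2 : Iic a ∩ Icc (0 : ℝ) 1 = Icc 0 b := by
      ext y
      simp only [mem_inter_iff, mem_Icc, mem_Iic]
      rw [hb]
      constructor
      · rintro ⟨h1, h2, h3⟩
        exact ⟨h2, le_min h1 h3⟩
      · rintro ⟨h1, h2⟩
        exact ⟨h2.trans (min_le_left _ _), h1, h2.trans (min_le_right _ _)⟩
    rw [e1, e2, hh.lint (hb0.trans hbv), hv, Real.volume_Icc, sub_zero]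

/-- CHANGE OF VARIABLES. -/
theorem Dn.cv (hh : Dn h δ) {G : ℝ → ℝ} (hG : BM G) : ∫ y, h y * G (Pr h y) ∂U01 = ∫ x, G x ∂U01 := by
  have h1 : ∫ x, G x ∂U01 = ∫ x, G x ∂((U01.withDensity fun y => ENNReal.ofReal (h y)).map (Pr h)) := by
    rw [hh.map]
  rw [h1, integral_map hh.pr_cont.measurable.aemeasurable hG.1.aestronglyMeasurable,
    integral_withDensity_eq_integral_toReal_smul (hh.mono.measurable.ennreal_ofReal)
      (Eventually.of_forall fun y => ENNReal.ofReal_lt_top)]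
  refine integral_congr_ae (Eventually.of_forall fun y => ?_)
  show h y * G (Pr h y) = (ENNReal.ofReal (h y)).toReal • G (Pr h y)
  rw [ENNReal.toReal_ofReal (by linarith [hh.lo y]), smul_eq_mul]

theorem Dn.bm_comp (hh : Dn h δ) {G : ℝ → ℝ} (hG : BM G) : BM fun y => G (Pr h y) := hG.comp hh.pr_cont.measurable

/-- Change of variables above a level. -/
theorem Dn.cv' (hh : Dn h δ) {G : ℝ → ℝ} (hG : BM G) {v : ℝ} (h0 : 0 ≤ v) (h1 : v ≤ 1) :
    ∫ y in v..1, h y * G (Pr h y) = ∫ x in (Pr h v)..1, G x := by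
  have ht0 := hh.pr_nonneg h0
  have ht1 : Pr h v ≤ 1 := by
    rw [← hh.pr1]
    exact hh.pr_strict.monotone h1
  obtain ⟨t, ht⟩ : ∃ t, t = Pr h v := ⟨_, rfl⟩
  rw [← ht] at ht0 ht1 ⊢
  have hGi : BM ((Ioc t 1).indicator G) := by
    obtain ⟨C, hC⟩ := hG.2
    refine ⟨hG.1.indicator measurableSet_Ioc, |C|, fun x => ?_⟩
    by_cases hx : x ∈ Ioc t 1
    · rw [indicator_of_mem hx]
      exact (hC x).trans (le_abs_self C)
    · rw [indicator_of_notMem hx, abs_zero]
      exact abs_nonneg C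
  have h2 := hh.cv hGi
  rw [integral_indicator measurableSet_Ioc, Measure.restrict_restrict measurableSet_Ioc] at h2
  have e1 : Ioc t 1 ∩ Icc (0 : ℝ) 1 = Ioc t 1 := by
    rw [inter_eq_left]
    exact fun x hx => ⟨ht0.trans hx.1.le, hx.2⟩
  rw [e1, ← intervalIntegral.integral_of_le ht1] at h2
  rw [← h2, intervalIntegral.integral_of_le h1]
  have e2 : ∫ y, h y * (Ioc t 1).indicator G (Pr h y) ∂U01 =
      ∫ y, (Ioc v 1).indicator (fun y => h y * G (Pr h y)) y ∂U01 := by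
    refine setIntegral_congr_fun measurableSet_Icc fun y hy => ?_
    by_cases hyv : v < y
    · have h3 : Pr h y ∈ Ioc t 1 := ⟨by rw [ht]; exact hh.pr_strict hyv, by
        rw [← hh.pr1]
        exact hh.pr_strict.monotone hy.2⟩
      show h y * (Ioc t 1).indicator G (Pr h y) = (Ioc v 1).indicator (fun y => h y * G (Pr h y)) y
      rw [indicator_of_mem h3, indicator_of_mem (show y ∈ Ioc v 1 from ⟨hyv, hy.2⟩)]
    · have h3 : Pr h y ∉ Ioc t 1 := fun h4 => hyv (by
        have h5 : Pr h v < Pr h y := by rw [← ht]; exact h4.1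
        exact hh.pr_strict.lt_iff_lt.1 h5)
      show h y * (Ioc t 1).indicator G (Pr h y) = (Ioc v 1).indicator (fun y => h y * G (Pr h y)) y
      rw [indicator_of_notMem h3, indicator_of_notMem (show y ∉ Ioc v 1 from fun h4 => hyv h4.1), mul_zero]
  rw [e2, integral_indicator measurableSet_Ioc, Measure.restrict_restrict measurableSet_Ioc]
  have e3 : Ioc v 1 ∩ Icc (0 : ℝ) 1 = Ioc v 1 := by
    rw [inter_eq_left]
    exact fun x hx => ⟨h0.trans hx.1.le, hx.2⟩
  rw [e3]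

end dens

/-- Chebyshev's inequality on `[v, 1]`, the first function has the mean `c`. -/
theorem cheb {F G : ℝ → ℝ} (hF : Monotone F) (hG : Monotone G) (bF : BM F) (bG : BM G) {v c : ℝ} (hv : v ≤ 1)
    (hc : ∫ y in v..1, F y = c * (1 - v)) : c * ∫ y in v..1, G y ≤ ∫ y in v..1, F y * G y := by
  -- a point where `F - c` changes its sign
  obtain ⟨z, hz1, hz2⟩ : ∃ z, (∀ y ∈ Icc v 1, y < z → F y ≤ c) ∧ ∀ y ∈ Icc v 1, z < y → c ≤ F y := by
    by_cases hne : ∃ y ∈ Icc v 1, c ≤ F y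
    · obtain ⟨y0, hy0, hy0c⟩ := hne
      refine ⟨sInf {y | y ∈ Icc v 1 ∧ c ≤ F y}, fun y hy hyz => ?_, fun y hy hyz => ?_⟩
      · by_contra hcon
        push Not at hcon
        have hbd : BddBelow {y | y ∈ Icc v 1 ∧ c ≤ F y} := ⟨v, fun w hw => hw.1.1⟩
        exact absurd (csInf_le hbd (show y ∈ {y | y ∈ Icc v 1 ∧ c ≤ F y} from ⟨hy, hcon.le⟩)) (not_le.2 hyz)
      · obtain ⟨w, hw, hwy⟩ := exists_lt_of_csInf_lt (s := {y | y ∈ Icc v 1 ∧ c ≤ F y}) ⟨y0, hy0, hy0c⟩ hyz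
        exact hw.2.trans (hF hwy.le)
    · push Not at hne
      exact ⟨1, fun y hy _ => (hne y hy).le, fun y hy hy1 => absurd hy.2 (not_le.2 hy1)⟩
  have bFG : BM fun y => F y * G y := bF.mul bG
  have b1 : BM fun y => (F y - c) * (G y - G z) := (bF.sub (BM.const c)).mul (bG.sub (BM.const (G z)))
  have h1 : 0 ≤ ∫ y in v..1, (F y - c) * (G y - G z) := by
    refine intervalIntegral.integral_nonneg hv fun y hy => ?_
    rcases lt_trichotomy y z with hyz | hyz | hyz
    · have h2 := hz1 y hy hyz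
      have h3 := hG hyz.le
      nlinarith
    · rw [hyz, sub_self, mul_zero]
    · have h2 := hz2 y hy hyz
      have h3 := hG hyz.le
      nlinarith
  have h2 : ∫ y in v..1, (F y - c) * (G y - G z) = (∫ y in v..1, F y * G y) - c * (∫ y in v..1, G y) -
      G z * ((∫ y in v..1, F y) - c * (1 - v)) := by
    have e1 : ∀ y, (F y - c) * (G y - G z) = F y * G y - (c * G y + (G z * F y - G z * c)) := fun y => by ring
    simp_rw [e1]
    have i1 := bm_ii bFG v 1
    have i2 := (bm_ii bG v 1).const_mul c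
    have i3 := (bm_ii bF v 1).const_mul (G z)
    have i4 : IntervalIntegrable (fun _ : ℝ => G z * c) volume v 1 := intervalIntegrable_const
    rw [intervalIntegral.integral_sub i1 (i2.add (i3.sub i4)), intervalIntegral.integral_add i2 (i3.sub i4),
      intervalIntegral.integral_sub i3 i4, intervalIntegral.integral_const_mul, intervalIntegral.integral_const_mul,
      intervalIntegral.integral_const, smul_eq_mul]
    ring
  rw [h2, hc] at h1
  linarith

section main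

variable {Q h : ℝ → ℝ} {θ C δ : ℝ}

theorem Qn.bm (hQ : Qn Q θ C) : BM Q := by
  refine ⟨hQ.mono.measurable, |Q 0| + 1, fun x => ?_⟩
  have h1 := hQ.one 0 x
  have h2 := hQ.one x 0
  rw [abs_le]
  constructor
  · linarith [neg_abs_le (Q 0)]
  · linarith [le_abs_self (Q 0)]

theorem Qn.osc (hQ : Qn Q θ C) (x y : ℝ) : |Q y - Q x| ≤ 1 := by
  have h1 := hQ.one y x
  have h2 := hQ.one x y
  rw [abs_le]
  constructor <;> linarith

/-- The gain density. -/
def Dd (Q h : ℝ → ℝ) (y : ℝ) : ℝ := h y * (Q y - Q (Pr h y))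

theorem Dd_bm (hQ : Qn Q θ C) (hh : Dn h δ) : BM (Dd Q h) := hh.bm.mul (hQ.bm.sub (hh.bm_comp hQ.bm))

theorem Dd_nonneg (hQ : Qn Q θ C) (hh : Dn h δ) {y : ℝ} (h0 : 0 ≤ y) (h1 : y ≤ 1) : 0 ≤ Dd Q h y :=
  mul_nonneg (by linarith [hh.lo y]) (sub_nonneg.2 (hQ.mono (hh.pr_le h0 h1)))

/-- One threshold. -/
theorem thr (hQ : Qn Q θ C) (hh : Dn h δ) (hδ : 2 * δ ≤ θ) {v : ℝ} (h0 : 0 ≤ v) (h1 : v ≤ 1) :
    ∫ y in (Pr h v)..1, Dd Q h y ≤ (1 + C) * ∫ y in v..1, Dd Q h y := by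
  obtain ⟨t, ht⟩ : ∃ t, t = Pr h v := ⟨_, rfl⟩
  obtain ⟨s, hs⟩ : ∃ s, s = Pr h t := ⟨_, rfl⟩
  have ht0 : 0 ≤ t := by rw [ht]; exact hh.pr_nonneg h0
  have htv : t ≤ v := by rw [ht]; exact hh.pr_le h0 h1
  have ht1 : t ≤ 1 := htv.trans h1
  have hs0 : 0 ≤ s := by rw [hs]; exact hh.pr_nonneg ht0
  have hst : s ≤ t := by rw [hs]; exact hh.pr_le ht0 ht1
  rw [← ht]
  have bD := Dd_bm hQ hh
  rcases eq_or_lt_of_le h1 with h1' | h1'
  · have e1 : t = 1 := by rw [ht, h1', hh.pr1]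
    rw [e1, h1']
    simp
  -- the good part
  obtain ⟨I, hI⟩ : ∃ I, I = ∫ w in v..1, (Q w - Q v) := ⟨_, rfl⟩
  have hI0 : 0 ≤ I := by
    rw [hI]
    exact intervalIntegral.integral_nonneg h1 fun w hw => sub_nonneg.2 (hQ.mono hw.1)
  obtain ⟨c, hc⟩ : ∃ c, c = (v - t) / (1 - v) := ⟨_, rfl⟩
  have hv1 : 0 < 1 - v := by linarith
  have hc0 : 0 ≤ c := by
    rw [hc]
    exact div_nonneg (by linarith) hv1.le
  have hcv : c * (1 - v) = v - t := by rw [hc]; field_simp
  have hgood : c * I ≤ ∫ y in v..1, Dd Q h y := by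
    have hQb := hQ.bm
    have b1 : BM fun y => h y * Q y := hh.bm.mul hQb
    have b2 : BM fun y => h y * Q (Pr h y) := hh.bm.mul (hh.bm_comp hQb)
    have e1 : ∫ y in v..1, Dd Q h y = (∫ y in v..1, h y * Q y) - ∫ x in t..1, Q x := by
      have h2 : ∀ y, Dd Q h y = h y * Q y - h y * Q (Pr h y) := fun y => by
        unfold Dd
        ring
      simp_rw [h2]
      rw [intervalIntegral.integral_sub (bm_ii b1 v 1) (bm_ii b2 v 1), hh.cv' hQb h0 h1, ht]
    have e2 : ∫ x in t..1, Q x = (∫ x in t..v, Q x) + ∫ x in v..1, Q x :=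
      (intervalIntegral.integral_add_adjacent_intervals (bm_ii hQb t v) (bm_ii hQb v 1)).symm
    have h3 : ∫ x in t..v, Q x ≤ (v - t) * Q v := by
      have h4 : ∫ x in t..v, Q x ≤ ∫ _x in t..v, Q v :=
        intervalIntegral.integral_mono_on htv (bm_ii hQb t v) intervalIntegrable_const fun w hw => hQ.mono hw.2
      rwa [intervalIntegral.integral_const, smul_eq_mul] at h4
    have b3 : BM fun y => h y - 1 := hh.bm.sub (BM.const 1)
    have h5 := cheb (F := fun y => h y - 1) (G := Q) (fun x y hxy => by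
      have := hh.mono hxy
      show h x - 1 ≤ h y - 1
      linarith) hQ.mono b3 hQb h1 (c := c) (by rw [hh.tail v, ← ht, hcv])
    have e3 : ∫ y in v..1, (h y - 1) * Q y = (∫ y in v..1, h y * Q y) - ∫ y in v..1, Q y := by
      rw [← intervalIntegral.integral_sub (bm_ii b1 v 1) (bm_ii hQb v 1)]
      refine intervalIntegral.integral_congr fun y _ => ?_
      show (h y - 1) * Q y = h y * Q y - Q y
      ring
    have e4 : I = (∫ y in v..1, Q y) - (1 - v) * Q v := by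
      rw [hI, intervalIntegral.integral_sub (bm_ii hQb v 1) intervalIntegrable_const, intervalIntegral.integral_const,
        smul_eq_mul]
    rw [e1, e2]
    have e5 : c * I = c * (∫ y in v..1, Q y) - (v - t) * Q v := by
      rw [e4, mul_sub, ← mul_assoc, hcv]
    rw [e5]
    linarith
  -- the bad part
  have hbad : ∫ y in t..v, Dd Q h y ≤ (t - s) * (Q v - Q s) := by
    have h2 : ∫ y in t..v, Dd Q h y ≤ ∫ y in t..v, h y * (Q v - Q s) := by
      refine intervalIntegral.integral_mono_on htv (bm_ii bD t v) (bm_ii (hh.bm.mul (BM.const _)) t v) fun y hy => ?_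
      unfold Dd
      refine mul_le_mul_of_nonneg_left ?_ (by linarith [hh.lo y])
      have h3 := hQ.mono hy.2
      have h4 := hQ.mono (hh.pr_strict.monotone hy.1)
      rw [← hs] at h4
      linarith
    rw [intervalIntegral.integral_mul_const, ← hh.pr_sub, ← ht, ← hs] at h2
    exact h2
  -- the comparison
  have hnc := hQ.nc s v hs0 (hst.trans htv) h1' (by
    have h2 := hh.tail_le h1
    have h3 := hh.tail_le ht1
    rw [← ht] at h2
    rw [← hs] at h3
    have hδ0 := hh.δ0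
    have h4 : δ * (1 - v) ≤ δ * (1 - s) := mul_le_mul_of_nonneg_left (by linarith) hδ0
    have h5 : δ * (1 - t) ≤ δ * (1 - s) := mul_le_mul_of_nonneg_left (by linarith) hδ0
    have h6 : 2 * δ * (1 - s) ≤ θ * (1 - s) := mul_le_mul_of_nonneg_right hδ (by linarith)
    linarith)
  rw [← hI] at hnc
  have havg := hh.avg htv h1
  rw [← ht, ← hs] at havg
  have h2 : (t - s) * (Q v - Q s) ≤ C * (c * I) := by
    have hts : 0 ≤ t - s := by linarith
    have hC0 := hQ.C0
    have hs1 : 0 < 1 - s := by linarith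
    -- `(t - s) (1 - v) ≤ (1 - t) (v - t) ≤ (1 - s) (v - t)`
    have h3 : (t - s) * (1 - v) ≤ (1 - s) * (v - t) := by
      have h4 : (1 - t) * (v - t) ≤ (1 - s) * (v - t) := mul_le_mul_of_nonneg_right (by linarith) (by linarith)
      linarith
    have h5 : t - s ≤ (1 - s) * c := by
      rw [hc, ← mul_div_assoc, le_div_iff₀ hv1]
      exact h3
    have h6 : (t - s) * ((1 - s) * (Q v - Q s)) ≤ (t - s) * (C * I) := mul_le_mul_of_nonneg_left hnc hts
    have h7 : (t - s) * (C * I) ≤ (1 - s) * c * (C * I) := mul_le_mul_of_nonneg_right h5 (mul_nonneg hC0 hI0)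
    have h8 : (1 - s) * ((t - s) * (Q v - Q s)) ≤ (1 - s) * (C * (c * I)) := by
      calc (1 - s) * ((t - s) * (Q v - Q s)) = (t - s) * ((1 - s) * (Q v - Q s)) := by ring
        _ ≤ (1 - s) * c * (C * I) := h6.trans h7
        _ = (1 - s) * (C * (c * I)) := by ring
    exact le_of_mul_le_mul_left h8 hs1
  have h3 := mul_le_mul_of_nonneg_left hgood hQ.C0
  rw [← intervalIntegral.integral_add_adjacent_intervals (bm_ii bD t v) (bm_ii bD v 1)]
  linarith

/-- The layer cake. -/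
theorem layer {D γ₁ γ₂ : ℝ → ℝ} {c : ℝ} (hD : BM D) (m1 : Measurable γ₁) (m2 : Measurable γ₂)
    (h10 : ∀ y, 0 ≤ γ₁ y) (h11 : ∀ y, γ₁ y ≤ 1) (h20 : ∀ y, 0 ≤ γ₂ y) (h21 : ∀ y, γ₂ y ≤ 1)
    (h : ∀ l : ℝ, ∫ y, (if l < γ₁ y then D y else 0) ∂U01 ≤ c * ∫ y, (if l < γ₂ y then D y else 0) ∂U01) :
    ∫ y, γ₁ y * D y ∂U01 ≤ c * ∫ y, γ₂ y * D y ∂U01 := by
  have key : ∀ γ : ℝ → ℝ, Measurable γ → (∀ y, 0 ≤ γ y) → (∀ y, γ y ≤ 1) →
      ∫ y, γ y * D y ∂U01 = ∫ l, ∫ y, (if l < γ y then D y else 0) ∂U01 ∂U01 ∧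
      Integrable (fun l => ∫ y, (if l < γ y then D y else 0) ∂U01) U01 := by
    intro γ mγ g0 g1
    have hm : Measurable fun p : ℝ × ℝ => if p.1 < γ p.2 then D p.2 else 0 :=
      Measurable.ite (measurableSet_lt measurable_fst (mγ.comp measurable_snd)) (hD.1.comp measurable_snd)
        measurable_const
    obtain ⟨K, hK⟩ := hD.2
    have hi : Integrable (fun p : ℝ × ℝ => if p.1 < γ p.2 then D p.2 else 0) (U01.prod U01) := by
      refine Integrable.of_bound hm.aestronglyMeasurable |K| (Eventually.of_forall fun p => ?_)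
      rw [Real.norm_eq_abs]
      split_ifs
      · exact (hK _).trans (le_abs_self K)
      · rw [abs_zero]
        exact abs_nonneg K
    refine ⟨?_, hi.integral_prod_left⟩
    have hsw := integral_integral_swap (μ := U01) (ν := U01) (f := fun l y => if l < γ y then D y else 0) hi
    rw [hsw]
    refine integral_congr_ae (Eventually.of_forall fun y => ?_)
    show γ y * D y = ∫ l, (if l < γ y then D y else 0) ∂U01
    have e1 : (fun l : ℝ => if l < γ y then D y else 0) = (Iio (γ y)).indicator fun _ => D y := by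
      funext l
      by_cases hl : l < γ y
      · rw [if_pos hl, indicator_of_mem (show l ∈ Iio (γ y) from hl)]
      · rw [if_neg hl, indicator_of_notMem (show l ∉ Iio (γ y) from hl)]
    rw [e1, integral_indicator_const _ measurableSet_Iio, smul_eq_mul]
    congr 1
    rw [measureReal_restrict_apply measurableSet_Iio]
    have e2 : Iio (γ y) ∩ Icc (0 : ℝ) 1 = Ico 0 (γ y) ∪ (Iio (γ y) ∩ {1}) := by
      ext l
      simp only [mem_inter_iff, mem_Iio, mem_Icc, mem_union, mem_Ico, mem_singleton_iff]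
      constructor
      · rintro ⟨h1, h2, h3⟩
        exact Or.inl ⟨h2, h1⟩
      · rintro (⟨h1, h2⟩ | ⟨h1, h2⟩)
        · exact ⟨h2, h1, h2.le.trans (g1 y)⟩
        · rw [h2] at h1
          exact absurd h1 (not_lt.2 (g1 y))
    have e3 : Iio (γ y) ∩ {(1 : ℝ)} = ∅ := by
      rw [eq_empty_iff_forall_notMem]
      rintro l ⟨h1, h2⟩
      rw [mem_singleton_iff] at h2
      rw [h2] at h1
      exact absurd h1 (not_lt.2 (g1 y))
    rw [e2, e3, union_empty, Real.volume_real_Ico_of_le (g0 y), sub_zero]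
  obtain ⟨a1, a2⟩ := key γ₁ m1 h10 h11
  obtain ⟨b1, b2⟩ := key γ₂ m2 h20 h21
  rw [a1, b1, ← integral_const_mul]
  exact integral_mono a2 (b2.const_mul c) h

/-- **KEY**: the slope at the target is paid by the slope at the source. -/
theorem key (hQ : Qn Q θ C) (hh : Dn h δ) (hδ : 2 * δ ≤ θ) {γ : ℝ → ℝ} (mγ : Measurable γ) (g0 : ∀ y, 0 ≤ γ y)
    (g1 : ∀ y, γ y ≤ 1) (gm : Monotone γ) :
    ∫ y, γ y * Dd Q h y ∂U01 ≤ (1 + C) * ∫ y, γ (Pr h y) * Dd Q h y ∂U01 := by
  have bD := Dd_bm hQ hh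
  have hC0 := hQ.C0
  refine layer bD mγ (mγ.comp hh.pr_cont.measurable) g0 g1 (fun y => g0 _) (fun y => g1 _) fun l => ?_
  have hnn : 0 ≤ (1 + C) * ∫ y, (if l < γ (Pr h y) then Dd Q h y else 0) ∂U01 := by
    refine mul_nonneg (by linarith) (setIntegral_nonneg measurableSet_Icc fun y hy => ?_)
    split_ifs
    · exact Dd_nonneg hQ hh hy.1 hy.2
    · exact le_rfl
  by_cases hne : ∃ y ∈ Icc (0 : ℝ) 1, l < γ y
  swap
  · push Not at hne
    have e1 : ∫ y, (if l < γ y then Dd Q h y else 0) ∂U01 = 0 := by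
      rw [setIntegral_congr_fun (g := fun _ => (0 : ℝ)) measurableSet_Icc fun y hy => if_neg (not_lt.2 (hne y hy))]
      simp
    rw [e1]
    exact hnn
  obtain ⟨y0, hy0, hy0l⟩ := hne
  obtain ⟨t, ht⟩ : ∃ t, t = sInf {y | y ∈ Icc (0 : ℝ) 1 ∧ l < γ y} := ⟨_, rfl⟩
  have hbd : BddBelow {y | y ∈ Icc (0 : ℝ) 1 ∧ l < γ y} := ⟨0, fun w hw => hw.1.1⟩
  have hnes : {y | y ∈ Icc (0 : ℝ) 1 ∧ l < γ y}.Nonempty := ⟨y0, hy0, hy0l⟩
  have ht0 : 0 ≤ t := by
    rw [ht]
    exact le_csInf hnes fun w hw => hw.1.1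
  have ht1 : t ≤ 1 := by
    rw [ht]
    exact (csInf_le hbd (show y0 ∈ {y | y ∈ Icc (0 : ℝ) 1 ∧ l < γ y} from ⟨hy0, hy0l⟩)).trans hy0.2
  have hup : ∀ y, t < y → l < γ y := by
    intro y hy
    rw [ht] at hy
    obtain ⟨w, hw, hwy⟩ := exists_lt_of_csInf_lt hnes hy
    exact hw.2.trans_le (gm hwy.le)
  have hdn : ∀ y ∈ Icc (0 : ℝ) 1, y < t → ¬ l < γ y := by
    intro y hy hyt hcon
    rw [ht] at hyt
    exact absurd (csInf_le hbd (show y ∈ {y | y ∈ Icc (0 : ℝ) 1 ∧ l < γ y} from ⟨hy, hcon⟩)) (not_le.2 hyt)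
  obtain ⟨v, htv, hv1, hv⟩ := hh.inv ht0 ht1
  have hv0 : 0 ≤ v := ht0.trans htv
  have hth := thr hQ hh hδ hv0 hv1
  rw [hv] at hth
  -- the two sides
  have haux : ∀ (p : ℝ → Prop) [DecidablePred p] (r : ℝ), 0 ≤ r → r ≤ 1 → (∀ y ∈ Icc (0 : ℝ) 1, r < y → p y) →
      (∀ y ∈ Icc (0 : ℝ) 1, y < r → ¬ p y) → ∫ y, (if p y then Dd Q h y else 0) ∂U01 = ∫ y in r..1, Dd Q h y := by
    intro p _ r hr0 hr1 hp1 hp2
    have e1 : ∫ y, (if p y then Dd Q h y else 0) ∂U01 = ∫ y, (Ioc r 1).indicator (Dd Q h) y ∂U01 := by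
      have hne : ∀ᵐ y ∂U01, y ≠ r := by
        refine ae_restrict_of_ae ?_
        rw [ae_iff]
        simp
      have hmem : ∀ᵐ y ∂U01, y ∈ Icc (0 : ℝ) 1 := ae_restrict_mem measurableSet_Icc
      refine integral_congr_ae ?_
      filter_upwards [hne, hmem] with y hy1 hy2
      rcases lt_or_gt_of_ne hy1 with h3 | h3
      · rw [if_neg (hp2 y hy2 h3), indicator_of_notMem (show y ∉ Ioc r 1 from fun h4 => absurd h4.1 (not_lt.2 h3.le))]
      · rw [if_pos (hp1 y hy2 h3), indicator_of_mem (show y ∈ Ioc r 1 from ⟨h3, hy2.2⟩)]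
    rw [e1, integral_indicator measurableSet_Ioc, Measure.restrict_restrict measurableSet_Ioc,
      intervalIntegral.integral_of_le hr1]
    have e3 : Ioc r 1 ∩ Icc (0 : ℝ) 1 = Ioc r 1 := by
      rw [inter_eq_left]
      exact fun x hx => ⟨hr0.trans hx.1.le, hx.2⟩
    rw [e3]
  rw [haux (fun y => l < γ y) t ht0 ht1 (fun y _ hy => hup y hy) hdn,
    haux (fun y => l < γ (Pr h y)) v hv0 hv1 (fun y _ hy => hup _ (by rw [← hv]; exact hh.pr_strict hy))
      (fun y hy hyv => hdn _ ⟨hh.pr_nonneg hy.1, (hh.pr_le hy.1 hy.2).trans hy.2⟩ (by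
        rw [← hv]
        exact hh.pr_strict hyv))]
  exact hth

end main

end

end Pool.Agent.W_1b8d5d_nc
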