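import Pool.Agent.W_1b8d5d_h17p.NcEx17
import Pool.Agent.W_1b8d5d_nc.NcKey
import Mathlib.MeasureTheory.Integral.Layercake

/-!
MP_1b8d5d_pr, Track P, the extension (NC) of the class of laws, proofs row 650 (6): the condition (NC) for the distribution function
gives the condition for the quantile function of the normalised luck; power laws at the minimum. (helper17)
-/

namespace Pool.Agent.W_1b8d5d_nc

open MeasureTheory Set Filter Topology
open Pool.Agent.W_1b8d5d_z (U01 BM)
open Pool.Agent.W_1b8d5d_h17p (exists_quant quant_F1 quant_F2)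

noncomputable section

/-- **(NC)** for a law `ν` on `[a, b]`: it is not concentrated at the scale of its distance from any level near the minimum. -/
def NCF (ν : Measure ℝ) (a b θ C : ℝ) : Prop := ∀ t t', a < t → t ≤ t' → t' ≤ b →
  ν.real (Iic t') ≤ (1 + θ) * ν.real (Iic t) → (t' - t) * ν.real (Iic t) ≤ C * ∫ s in a..t, ν.real (Iic s)

/-- The layer cake formula. -/
theorem cake {Q : ℝ → ℝ} (hm : Monotone Q) (h01 : ∀ u, Q u ∈ Icc (0 : ℝ) 1) {ν : Measure ℝ} (hQ : U01.map Q = ν) {v : ℝ}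
    (h0 : 0 ≤ v) (h1 : v ≤ 1) : ∫ w in v..1, (Q w - Q v) = ∫ r in (0 : ℝ)..(1 - Q v), ν.real (Ici (Q v + r)) := by
  have hi : Integrable (fun w => Q w - Q v) (volume.restrict (Ioc v 1)) := by
    have h := (hm.intervalIntegrable (a := v) (b := 1) (μ := volume)).sub (intervalIntegrable_const (c := Q v))
    exact (intervalIntegrable_iff_integrableOn_Ioc_of_le h1).1 h
  have hnn : 0 ≤ᵐ[volume.restrict (Ioc v 1)] fun w => Q w - Q v := by
    filter_upwards [ae_restrict_mem measurableSet_Ioc] with w hw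
    have := hm hw.1.le
    simp only [Pi.zero_apply]
    linarith
  have hbd : (fun w => Q w - Q v) ≤ᵐ[volume.restrict (Ioc v 1)] fun _ => 1 - Q v :=
    Eventually.of_forall fun w => sub_le_sub_right (h01 w).2 _
  rw [intervalIntegral.integral_of_le h1, hi.integral_eq_integral_Ioc_meas_le hnn hbd,
    intervalIntegral.integral_of_le (by linarith [(h01 v).2])]
  refine setIntegral_congr_fun measurableSet_Ioc fun r hr => ?_
  have hS : MeasurableSet (Q ⁻¹' Ici (Q v + r)) := hm.measurable measurableSet_Ici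
  have e1 : {w : ℝ | r ≤ Q w - Q v} = Q ⁻¹' Ici (Q v + r) := by
    ext w
    simp only [mem_ofPred_eq, mem_preimage, mem_Ici]
    constructor <;> intro h <;> linarith
  simp only [e1]
  rw [measureReal_restrict_apply hS, ← hQ, measureReal_def, measureReal_def, Measure.map_apply hm.measurable measurableSet_Ici,
    Measure.restrict_apply hS]
  congr 2
  ext w
  simp only [mem_inter_iff, mem_preimage, mem_Ici, mem_Icc, mem_Ioc]
  constructor
  · rintro ⟨a1, a2, a3⟩
    exact ⟨a1, by linarith, a3⟩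
  · rintro ⟨a1, a2, a3⟩
    refine ⟨a1, ?_, a3⟩
    by_contra hcon
    have := hm (not_lt.1 hcon)
    linarith [hr.1]

/-- **(NC) FOR THE LAW GIVES `Qn`.** -/
theorem qn_of_ncf {ν : Measure ℝ} [IsProbabilityMeasure ν] {a b θ C : ℝ} (hab : a < b) (hs : ν (Icc a b)ᶜ = 0)
    (hat : ∀ x, ν {x} = 0) (hθ : 0 < θ) (hC : 0 ≤ C) (h : NCF ν a b θ C) :
    ∃ Q : ℝ → ℝ, Qn Q (θ / (1 + θ)) ((1 + θ) * C) ∧ (∀ x, Q x ∈ Icc (0 : ℝ) 1) ∧
      U01.map Q = ν.map fun t => (b - t) / (b - a) := by
  have : NullSingletonClass ν := ⟨hat⟩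
  have hd : 0 < b - a := sub_pos.2 hab
  have hf : Measurable fun t : ℝ => (b - t) / (b - a) := by fun_prop
  have : IsProbabilityMeasure (ν.map fun t => (b - t) / (b - a)) := Measure.isProbabilityMeasure_map hf.aemeasurable
  obtain ⟨ν', hν'⟩ : ∃ ν' : Measure ℝ, ν' = ν.map fun t => (b - t) / (b - a) := ⟨_, rfl⟩
  rw [← hν'] at this ⊢
  -- the two distribution functions
  have hIci : ∀ y, ν'.real (Ici y) = ν.real (Iic (b - (b - a) * y)) := by
    intro y
    rw [hν', measureReal_def, Measure.map_apply hf measurableSet_Ici, measureReal_def]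
    congr 2
    ext t
    simp only [mem_preimage, mem_Ici, mem_Iic]
    rw [le_div_iff₀ hd]
    constructor <;> intro h <;> linarith
  have hIoi : ∀ y, ν'.real (Ioi y) = ν.real (Iic (b - (b - a) * y)) := by
    intro y
    rw [hν', measureReal_def, Measure.map_apply hf measurableSet_Ioi, measureReal_def]
    have e : (fun t : ℝ => (b - t) / (b - a)) ⁻¹' Ioi y = Iio (b - (b - a) * y) := by
      ext t
      simp only [mem_preimage, mem_Ioi, mem_Iio]
      rw [lt_div_iff₀ hd]
      constructor <;> intro h <;> linarith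
    rw [e, measure_congr Iio_ae_eq_Iic]
  have h0' : ν' (Iio 0) = 0 := by
    rw [hν', Measure.map_apply hf measurableSet_Iio]
    refine measure_mono_null (fun t ht => ?_) hs
    simp only [mem_preimage, mem_Iio] at ht
    rw [mem_compl_iff, mem_Icc, not_and_or, not_le, not_le]
    right
    by_contra hcon
    have : 0 ≤ (b - t) / (b - a) := div_nonneg (by linarith [not_lt.1 hcon]) hd.le
    linarith
  have h1' : ν' (Ioi 1) = 0 := by
    rw [hν', Measure.map_apply hf measurableSet_Ioi]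
    refine measure_mono_null (fun t ht => ?_) hs
    simp only [mem_preimage, mem_Ioi] at ht
    rw [lt_div_iff₀ hd] at ht
    rw [mem_compl_iff, mem_Icc, not_and_or, not_le, not_le]
    left
    linarith
  obtain ⟨Q, hm, h01, hQ, -⟩ := exists_quant ν' h0' h1'
  have hθ1 : (0 : ℝ) < 1 + θ := by linarith
  refine ⟨Q, ⟨hm, by positivity, by positivity, fun x y => by linarith [(h01 x).1, (h01 y).2], ?_⟩,
    h01, hQ⟩
  intro u v hu huv hv huv'
  have h1 : 1 - u ≤ (1 + θ) * (1 - v) := by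
    have e : θ / (1 + θ) * (1 - u) = (1 - u) - (1 - u) / (1 + θ) := by field_simp; ring
    rw [e] at huv'
    have h2 : (1 - u) / (1 + θ) ≤ 1 - v := by linarith
    rw [div_le_iff₀ hθ1] at h2
    linarith
  have f1 := quant_F1 hm hQ (hu.trans huv) hv.le
  have f2 := quant_F2 hm hQ hu (huv.trans hv.le)
  have hQQ := hm huv
  obtain ⟨t, ht⟩ : ∃ t, t = b - (b - a) * Q v := ⟨_, rfl⟩
  obtain ⟨t', ht'⟩ : ∃ t', t' = b - (b - a) * Q u := ⟨_, rfl⟩
  rw [hIci, ← ht] at f1
  rw [hIoi, ← ht'] at f2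
  have htt : t ≤ t' := by
    rw [ht, ht']
    have := mul_le_mul_of_nonneg_left hQQ hd.le
    linarith
  have hat : a < t := by
    by_contra hcon
    have h3 : ν.real (Iic t) = 0 := by
      have h4 : ν (Iic t) = 0 := by
        have h5 : ν (Iic a) = 0 := by
          rw [← measure_congr (Iio_ae_eq_Iic (μ := ν) (a := a))]
          refine measure_mono_null (fun x (hx : x < a) => ?_) hs
          rw [mem_compl_iff, mem_Icc, not_and_or, not_le, not_le]
          exact Or.inl hx
        exact measure_mono_null (Iic_subset_Iic.2 (not_lt.1 hcon)) h5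
      simp [Measure.real, h4]
    linarith
  have htb : t' ≤ b := by
    rw [ht']
    have := mul_nonneg hd.le (h01 u).1
    linarith
  have key := h t t' hat htt htb (f2.trans (h1.trans (mul_le_mul_of_nonneg_left f1 hθ1.le)))
  have e2 : ∫ w in v..1, (Q w - Q v) = (b - a)⁻¹ * ∫ s in a..t, ν.real (Iic s) := by
    rw [cake hm h01 hQ (hu.trans huv) hv.le]
    have e3 : ∀ r, ν'.real (Ici (Q v + r)) = ν.real (Iic (t - (b - a) * r)) := fun r => by
      rw [hIci, ht]
      congr 2
      ring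
    simp only [e3]
    rw [intervalIntegral.integral_comp_sub_mul (fun s => ν.real (Iic s)) hd.ne' t, mul_zero, sub_zero, smul_eq_mul]
    congr 2
    rw [ht]
    ring
  rw [e2]
  have e4 : Q v - Q u = (b - a)⁻¹ * (t' - t) := by
    rw [ht, ht']
    field_simp
    ring
  rw [e4]
  have h5 : 0 ≤ t' - t := by linarith
  have a1 : (1 - u) * (t' - t) ≤ (1 + θ) * ν.real (Iic t) * (t' - t) :=
    mul_le_mul_of_nonneg_right (h1.trans (mul_le_mul_of_nonneg_left f1 hθ1.le)) h5
  have a2 := mul_le_mul_of_nonneg_left key hθ1.le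
  have a3 : (1 - u) * (t' - t) ≤ (1 + θ) * (C * ∫ s in a..t, ν.real (Iic s)) := by linarith
  have a4 := mul_le_mul_of_nonneg_left a3 (inv_nonneg.2 hd.le)
  linarith

/-- The same in the form of row 650 (helper4's call). -/
theorem quant_nc {m : Measure ℝ} [IsProbabilityMeasure m] {a b θ C : ℝ} (hab : a < b) (hθ : 0 < θ) (hs : m (Icc a b)ᶜ = 0)
    (hat : ∀ x, m {x} = 0) (_ : ∀ u, 0 < u → 0 < m.real (Iic (a + u)))
    (nc : ∀ t t', a < t → t ≤ t' → t' ≤ b → m.real (Iic t') ≤ (1 + θ) * m.real (Iic t) →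
      (t' - t) * m.real (Iic t) ≤ C * ∫ s in a..t, m.real (Iic s)) :
    ∃ Q : ℝ → ℝ, Qn Q (θ / (1 + θ)) (max ((1 + θ) * C) 0) ∧ (∀ x, Q x ∈ Icc (0 : ℝ) 1) ∧
      U01.map Q = m.map fun t => (b - t) / (b - a) := by
  have h : NCF m a b θ (max C 0) := by
    intro t t' h1 h2 h3 h4
    refine (nc t t' h1 h2 h3 h4).trans (mul_le_mul_of_nonneg_right (le_max_left _ _) ?_)
    exact intervalIntegral.integral_nonneg h1.le fun _ _ => measureReal_nonneg
  have h2 := qn_of_ncf hab hs hat hθ (le_max_right _ _) h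
  rwa [mul_max_of_nonneg _ _ (by linarith : (0 : ℝ) ≤ 1 + θ), mul_zero] at h2

/-- A lower bound of the integral. -/
theorem int_ge (ν : Measure ℝ) [IsProbabilityMeasure ν] {a r t : ℝ} (h1 : a ≤ r) (h2 : r ≤ t) :
    (t - r) * ν.real (Iic r) ≤ ∫ s in a..t, ν.real (Iic s) := by
  have hmono : Monotone fun s => ν.real (Iic s) := fun x y h => measureReal_mono (Iic_subset_Iic.2 h)
  rw [← intervalIntegral.integral_add_adjacent_intervals (hmono.intervalIntegrable (a := a) (b := r))
    (hmono.intervalIntegrable (a := r) (b := t))]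
  have g1 : 0 ≤ ∫ s in a..r, ν.real (Iic s) := intervalIntegral.integral_nonneg h1 fun _ _ => measureReal_nonneg
  have g2 : ∫ _ in r..t, ν.real (Iic r) ≤ ∫ s in r..t, ν.real (Iic s) :=
    intervalIntegral.integral_mono_on h2 intervalIntegrable_const hmono.intervalIntegrable fun s hs => hmono hs.1
  rw [intervalIntegral.integral_const, smul_eq_mul] at g2
  linarith

/-- **POWER LAWS AT THE MINIMUM** satisfy (NC): `c₁ s ^ α ≤ ν (-∞, a + s] ≤ c₂ s ^ α` for `0 < s ≤ ε`; no condition above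
`a + ε`. -/
theorem ncf_of_pow (ν : Measure ℝ) [IsProbabilityMeasure ν] {a b α c₁ c₂ ε : ℝ} (hα : 0 < α) (hc₁ : 0 < c₁)
    (hε : 0 < ε) (h1 : ∀ s, 0 < s → s ≤ ε → c₁ * s ^ α ≤ ν.real (Iic (a + s)))
    (h2 : ∀ s, 0 < s → s ≤ ε → ν.real (Iic (a + s)) ≤ c₂ * s ^ α) : ∃ C, 0 ≤ C ∧ NCF ν a b 1 C := by
  have hmono : Monotone fun s => ν.real (Iic s) := fun x y h => measureReal_mono (Iic_subset_Iic.2 h)
  have hc₂ : 0 < c₂ := by
    have h3 := (h1 ε hε le_rfl).trans (h2 ε hε le_rfl)
    have h4 : 0 < ε ^ α := Real.rpow_pos_of_pos hε α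
    have h5 : c₁ ≤ c₂ := le_of_mul_le_mul_right h3 h4
    linarith
  obtain ⟨R, hR⟩ : ∃ R, R = (2 * c₂ / c₁) ^ (1 / α) := ⟨_, rfl⟩
  have hR0 : 0 < R := by rw [hR]; exact Real.rpow_pos_of_pos (by positivity) _
  have hRα : R ^ α = 2 * c₂ / c₁ := by
    rw [hR, ← Real.rpow_mul (by positivity), one_div, inv_mul_cancel₀ hα.ne', Real.rpow_one]
  obtain ⟨D, hD⟩ : ∃ D, D = 1 + |b - a| / ε := ⟨_, rfl⟩
  have hD1 : 1 ≤ D := by
    have : 0 ≤ |b - a| / ε := by positivity
    linarith
  obtain ⟨C1, hC1⟩ : ∃ C1, C1 = |b - a| / ((ε / 2) * (c₁ * (ε / 2) ^ α)) := ⟨_, rfl⟩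
  obtain ⟨C2, hC2⟩ : ∃ C2, C2 = D * R * c₂ / ((1 / 2) * (c₁ * (1 / 2) ^ α)) := ⟨_, rfl⟩
  have p1 : 0 < (ε / 2) ^ α := Real.rpow_pos_of_pos (by positivity) α
  have p2 : (0 : ℝ) < (1 / 2) ^ α := Real.rpow_pos_of_pos (by norm_num) α
  have hC1' : 0 ≤ C1 := by rw [hC1]; positivity
  have hC2' : 0 < C2 := by rw [hC2]; positivity
  have hmax : 0 ≤ max C1 C2 := hC1'.trans (le_max_left _ _)
  refine ⟨max C1 C2, hmax, ?_⟩
  intro t t' hat htt htb hν
  obtain ⟨s, hs⟩ : ∃ s, s = t - a := ⟨_, rfl⟩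
  obtain ⟨S, hS⟩ : ∃ S, S = t' - a := ⟨_, rfl⟩
  have hs0 : 0 < s := by linarith
  have hsS : s ≤ S := by linarith
  have hSb : S ≤ |b - a| := by
    have := le_abs_self (b - a)
    linarith
  rcases le_or_gt ε s with hεs | hεs
  · have g0 := int_ge ν (a := a) (r := a + ε / 2) (t := t) (by linarith) (by linarith)
    have g1 := h1 (ε / 2) (by linarith) (by linarith)
    have g2 : (t' - t) * ν.real (Iic t) ≤ |b - a| * 1 :=
      mul_le_mul (by linarith) measureReal_le_one measureReal_nonneg (abs_nonneg _)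
    have g3 : (ε / 2) * (c₁ * (ε / 2) ^ α) ≤ (t - (a + ε / 2)) * ν.real (Iic (a + ε / 2)) :=
      mul_le_mul (by linarith) g1 (by positivity) (by linarith)
    have g4 : C1 * ((ε / 2) * (c₁ * (ε / 2) ^ α)) = |b - a| := by rw [hC1]; field_simp
    have g5 : C1 * ((ε / 2) * (c₁ * (ε / 2) ^ α)) ≤ max C1 C2 * ∫ s in a..t, ν.real (Iic s) :=
      mul_le_mul (le_max_left _ _) (g3.trans g0) (by positivity) hmax
    linarith
  · have g0 := int_ge ν (a := a) (r := a + s / 2) (t := t) (by linarith) (by linarith)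
    obtain ⟨S', hS'⟩ : ∃ S', S' = min S ε := ⟨_, rfl⟩
    have t1 : S' ≤ S := hS' ▸ min_le_left _ _
    have t2 : S' ≤ ε := hS' ▸ min_le_right _ _
    have t0 : 0 < S' := by rw [hS']; exact lt_min (hs0.trans_le hsS) hε
    have t3 : S ≤ D * S' := by
      rcases le_total S ε with h3 | h3
      · rw [min_eq_left h3] at hS'
        rw [hS']
        nlinarith
      · rw [min_eq_right h3] at hS'
        rw [hS', hD]
        have : |b - a| / ε * ε = |b - a| := by field_simp
        nlinarith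
    have g1 : S' ≤ R * s := by
      have a1 := h1 S' t0 t2
      have a2 : ν.real (Iic (a + S')) ≤ ν.real (Iic t') := hmono (by linarith)
      have a3 := h2 s hs0 hεs.le
      have e1 : a + s = t := by linarith
      rw [e1] at a3
      rw [← Real.rpow_le_rpow_iff t0.le (by positivity) hα, Real.mul_rpow hR0.le hs0.le, hRα]
      have : c₁ * S' ^ α ≤ c₁ * (2 * c₂ / c₁ * s ^ α) := by
        have e : c₁ * (2 * c₂ / c₁ * s ^ α) = 2 * (c₂ * s ^ α) := by field_simp
        rw [e]
        linarith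
      exact le_of_mul_le_mul_left this hc₁
    have g2 : S ≤ D * R * s := by
      have := mul_le_mul_of_nonneg_left g1 (zero_le_one.trans hD1)
      linarith
    have g3 := h2 s hs0 hεs.le
    have e1 : a + s = t := by linarith
    rw [e1] at g3
    have g4 := h1 (s / 2) (by linarith) (by linarith)
    have sα : 0 ≤ s ^ α := Real.rpow_nonneg hs0.le α
    have hDR : 0 ≤ D * R := mul_nonneg (zero_le_one.trans hD1) hR0.le
    have g5 : (t' - t) * ν.real (Iic t) ≤ (D * R * s) * (c₂ * s ^ α) :=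
      mul_le_mul (by linarith) g3 measureReal_nonneg (mul_nonneg hDR hs0.le)
    have g6 : (s / 2) * (c₁ * (s / 2) ^ α) ≤ (t - (a + s / 2)) * ν.real (Iic (a + s / 2)) :=
      mul_le_mul (by linarith) g4 (by positivity) (by linarith)
    have e3 : (s / 2) ^ α = s ^ α * (1 / 2) ^ α := by
      rw [← Real.mul_rpow hs0.le (by norm_num)]
      congr 1
      ring
    have g7 : (D * R * s) * (c₂ * s ^ α) = C2 * ((s / 2) * (c₁ * (s / 2) ^ α)) := by
      rw [e3, hC2]
      field_simp
    have g8 : C2 * ((s / 2) * (c₁ * (s / 2) ^ α)) ≤ max C1 C2 * ∫ s in a..t, ν.real (Iic s) :=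
      mul_le_mul (le_max_right _ _) (g6.trans g0) (by positivity) hmax
    linarith

/-- **A DENSITY BETWEEN TWO POSITIVE CONSTANTS NEAR THE MINIMUM** (on `[a, a + ε]`; no condition above) gives (NC). -/
theorem ncf_of_dens (ν : Measure ℝ) [IsProbabilityMeasure ν] {a b c C ε : ℝ} (hc : 0 < c) (hε : 0 < ε)
    (ha : ν (Iio a) = 0) (h1 : ENNReal.ofReal c • volume.restrict (Icc a (a + ε)) ≤ ν)
    (h2 : ν.restrict (Icc a (a + ε)) ≤ ENNReal.ofReal C • volume) : ∃ C', 0 ≤ C' ∧ NCF ν a b 1 C' := by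
  refine ncf_of_pow ν (a := a) (b := b) (α := 1) (c₁ := c) (c₂ := max C 0) (ε := ε) one_pos hc hε ?_ ?_
  · intro s hs hsε
    rw [Real.rpow_one]
    have h3 := h1 (Iic (a + s))
    rw [Measure.smul_apply, smul_eq_mul, Measure.restrict_apply measurableSet_Iic] at h3
    have e : Iic (a + s) ∩ Icc a (a + ε) = Icc a (a + s) := by
      ext x
      simp only [mem_inter_iff, mem_Iic, mem_Icc]
      constructor
      · rintro ⟨x1, x2, x3⟩; exact ⟨x2, x1⟩
      · rintro ⟨x1, x2⟩; exact ⟨x2, x1, by linarith⟩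
    rw [e, Real.volume_Icc, show a + s - a = s by ring, ← ENNReal.ofReal_mul hc.le] at h3
    exact (ENNReal.ofReal_le_iff_le_toReal (measure_ne_top ν _)).1 h3
  · intro s hs hsε
    rw [Real.rpow_one]
    have e : ν (Iic (a + s)) ≤ ν.restrict (Icc a (a + ε)) (Icc a (a + s)) := by
      rw [Measure.restrict_apply measurableSet_Icc, inter_eq_left.2 (Icc_subset_Icc le_rfl (by linarith))]
      have e1 : Iic (a + s) = Iio a ∪ Icc a (a + s) := by
        ext x
        simp only [mem_union, mem_Iic, mem_Iio, mem_Icc]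
        constructor
        · intro h
          rcases lt_or_ge x a with h3 | h3
          · exact Or.inl h3
          · exact Or.inr ⟨h3, h⟩
        · rintro (h | h)
          · linarith
          · exact h.2
      rw [e1]
      refine (measure_union_le _ _).trans ?_
      rw [ha, zero_add]
    have h3 := e.trans (h2 (Icc a (a + s)))
    rw [Measure.smul_apply, smul_eq_mul, Real.volume_Icc, show a + s - a = s by ring] at h3
    have h4 : ENNReal.ofReal C * ENNReal.ofReal s ≤ ENNReal.ofReal (max C 0 * s) := by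
      rw [ENNReal.ofReal_mul (le_max_right _ _)]
      exact mul_le_mul_left (ENNReal.ofReal_le_ofReal (le_max_left _ _)) _
    exact ENNReal.toReal_le_of_le_ofReal (mul_nonneg (le_max_right _ _) hs.le) (h3.trans h4)

end

end Pool.Agent.W_1b8d5d_nc
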