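import Pool.Agent.W_1b8d5d_nc.NcOne
import Pool.Agent.W_1b8d5d_p.VL0
import Pool.Agent.W_1b8d5d_h4p.LuckZ

/-!
ZERO TEMPERATURE, general laws: the Efron - Stein inequality for functions with a subgradient in `[0, 1]`. (helper4)
-/

namespace Pool.Agent.W_1b8d5d_nc

open MeasureTheory Set
open Pool.Agent.W_7d29a1_h42
open Pool.Agent.W_1b8d5d_z (U01 BM sc fm Vr int_fm int_sq VarN varN_succ varN_sec_bm SW map_PN)
open Pool.Agent.W_1b8d5d_h4p (bm_sum)

noncomputable section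

variable {Q : ℝ → ℝ} {θ₀ C : ℝ}

/-- One coordinate. -/
theorem es_one (hQ : Qn Q θ₀ C) {γ f : ℝ → ℝ} (hγ : BM γ) (hγ0 : ∀ x, 0 ≤ γ x)
    (hγ1 : ∀ x, γ x ≤ 1) (hf : BM f) (hsub : ∀ x y, f x + γ x * (Q y - Q x) ≤ f y) :
    Vr f ≤ ∫ x, γ x ∂U01 := by
  obtain ⟨m, hm⟩ : ∃ m, m = ∫ x, f x ∂U01 := ⟨_, rfl⟩
  obtain ⟨g, hg⟩ : ∃ g, g = ∫ x, γ x ∂U01 := ⟨_, rfl⟩
  obtain ⟨v, hv⟩ : ∃ v, v = Vr f := ⟨_, rfl⟩
  have h1 : ∀ x y, (f x - f y) ^ 2 ≤ γ x + γ y := by
    intro x y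
    have k1 : f x - f y ≤ γ x := by
      have := hsub x y
      have h2 := hQ.osc x y
      have h3 : γ x * (Q x - Q y) ≤ γ x * 1 := mul_le_mul_of_nonneg_left (by linarith [(abs_le.1 h2).1]) (hγ0 x)
      linarith
    have k2 : f y - f x ≤ γ y := by
      have := hsub y x
      have h2 := hQ.osc y x
      have h3 : γ y * (Q y - Q x) ≤ γ y * 1 := mul_le_mul_of_nonneg_left (by linarith [(abs_le.1 h2).1]) (hγ0 y)
      linarith
    have := hγ0 x
    have := hγ0 y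
    have := hγ1 x
    have := hγ1 y
    rcases le_total (f y) (f x) with h | h
    · nlinarith
    · nlinarith
  have h2 : ∀ y, v + (m - f y) ^ 2 ≤ g + γ y := by
    intro y
    have e1 := int_sq hf (f y)
    rw [← hm, ← hv] at e1
    rw [← e1, hg]
    have e2 : ∫ x, (f x - f y) ^ 2 ∂U01 ≤ ∫ x, (γ x + γ y) ∂U01 :=
      integral_mono (((hf.sub (BM.const (f y))).pow 2).int) (hγ.add (BM.const (γ y))).int fun x => h1 x y
    rw [integral_add hγ.int (integrable_const _)] at e2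
    simpa using e2
  have h3 : ∫ y, (v + (m - f y) ^ 2) ∂U01 ≤ ∫ y, (g + γ y) ∂U01 :=
    integral_mono ((BM.const v).add (((BM.const m).sub hf).pow 2)).int ((BM.const g).add hγ).int h2
  rw [integral_add (integrable_const _) (((BM.const m).sub hf).pow 2).int, integral_add (integrable_const _) hγ.int, ← hg] at h3
  have h4 : ∫ y, (m - f y) ^ 2 ∂U01 = v := by
    rw [hv, Vr, ← hm]
    refine integral_congr_ae (Filter.Eventually.of_forall fun y => ?_)
    show (m - f y) ^ 2 = (f y - m) ^ 2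
    ring
  rw [h4] at h3
  simp only [integral_const, probReal_univ, one_smul] at h3
  rw [← hg, ← hv]
  linarith

/-- EFRON - STEIN for functions with a subgradient in `[0, 1]`. -/
theorem es_key (hQ : Qn Q θ₀ C) (N : ℕ) : ∀ (F : (Fin N → ℝ) → ℝ) (g : Fin N → (Fin N → ℝ) → ℝ),
    SG Q N g F → VarN (PN U01 N) F ≤ ∑ i, ∫ x, g i x ∂(PN U01 N) := by
  induction N with
  | zero =>
    intro F g hF
    have e1 : ∀ x : Fin 0 → ℝ, F x = F 0 := fun x => by rw [Subsingleton.elim x 0]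
    unfold VarN
    simp_rw [e1]
    simp
  | succ N ih =>
    intro F g hF
    have hb := hF.bm hQ
    rw [varN_succ hb, Fin.sum_univ_succ]
    have hone := hF.one hQ
    have h1 : Vr (fm F) ≤ ∫ r, fm (g 0) r ∂U01 := by
      refine es_one hQ (hF.bg 0).fm ?_ ?_ hb.fm ?_
      · exact fun x => integral_nonneg fun z => hF.g0 _ _
      · exact hone.γ1
      · exact hone.sub
    have h2 : ∫ r, VarN (PN U01 N) (sc F r) ∂U01 ≤ ∫ r, ∑ i : Fin N, fm (g i.succ) r ∂U01 := by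
      refine integral_mono (varN_sec_bm hb).int (bm_sum Finset.univ fun i _ => (hF.bg i.succ).fm).int fun r => ?_
      exact ih (sc F r) _ (hF.sec r)
    rw [integral_finsetSum _ fun i _ => (hF.bg i.succ).fm.int] at h2
    rw [int_fm (hF.bg 0)]
    refine add_le_add h1 (h2.trans (le_of_eq ?_))
    exact Finset.sum_congr rfl fun i _ => (int_fm (hF.bg i.succ)).symm

/-- Subgradients on the cube give subgradients in the variables `Q`. -/
theorem toSG {N : ℕ} {g : Fin N → (Fin N → ℝ) → ℝ} {F : (Fin N → ℝ) → ℝ} (hQm : Measurable Q)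
    (hQ1 : ∀ x, Q x ∈ Icc (0 : ℝ) 1) (h : SW N g F) :
    SG Q N (fun i x => g i fun j => Q (x j)) fun x => F fun j => Q (x j) :=
  SG.of_cube hQm hQ1 h.mF h.mg h.g0 h.g1 h.sub

/-- Efron - Stein for the law of `Q`. -/
theorem es_nuN (hQ : Qn Q θ₀ C) (hQ1 : ∀ x, Q x ∈ Icc (0 : ℝ) 1) {ν : Measure ℝ} [IsProbabilityMeasure ν]
    (hν : U01.map Q = ν) {N : ℕ} {F : (Fin N → ℝ) → ℝ} {g : Fin N → (Fin N → ℝ) → ℝ} (hF : SW N g F) :
    ∫ x, (F x - ∫ y, F y ∂(PN ν N)) ^ 2 ∂(PN ν N) ≤ ∫ x, ∑ i, g i x ∂(PN ν N) := by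
  have hQm : Measurable Q := hQ.mono.measurable
  have hm : Measurable fun (x : Fin N → ℝ) (j : Fin N) => Q (x j) :=
    measurable_pi_lambda _ fun j => hQm.comp (measurable_pi_apply j)
  have hint : ∀ f : (Fin N → ℝ) → ℝ, Measurable f → ∫ x, f x ∂(PN ν N) = ∫ x, f (fun j => Q (x j)) ∂(PN U01 N) := by
    intro f hf
    rw [← map_PN hQm hν N, integral_map hm.aemeasurable hf.aestronglyMeasurable]
  have hsg := toSG hQm hQ1 hF
  have h := es_key hQ N _ _ hsg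
  obtain ⟨m, hmm⟩ : ∃ m, m = ∫ y, F y ∂(PN ν N) := ⟨_, rfl⟩
  have hm2 : ∫ y, F (fun j => Q (y j)) ∂(PN U01 N) = m := by rw [hmm, hint F hF.mF]
  rw [← hmm, hint (fun x => (F x - m) ^ 2) ((hF.mF.sub_const m).pow_const 2), hint (fun x => ∑ i, g i x)
    (Finset.measurable_sum _ fun i _ => hF.mg i), integral_finsetSum _ fun i _ => (hsg.bg i).int]
  unfold VarN at h
  rw [hm2] at h
  exact h

end

end Pool.Agent.W_1b8d5d_nc
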