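import Pool.Agent.W_1b8d5d_nc.NcRec
import Pool.Agent.W_1b8d5d_p.LA0

/-!
ZERO TEMPERATURE, general laws (row 650 (1)): luck amplification for laws with `(NC)` (port of `ZKey`, `LA0`). (helper61)
-/

namespace Pool.Agent.W_1b8d5d_nc

open MeasureTheory Set
open Pool.Agent.W_7d29a1_h42
open Pool.Agent.W_1b8d5d_z (U01 BM sc fm Vr int_fm VS Vr_nonneg VS_sec_bm VS_le VS_nonneg SW map_PN)

noncomputable section

variable {Q : ℝ → ℝ} {θ₀ C : ℝ}

private theorem zk_triv {N : ℕ} {Go Fp : (Fin N → ℝ) → ℝ} (hGo : BM Go) (hFp : BM Fp) (h : ∀ x, Go x ≤ Fp x) {B : ℝ}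
    (hB : 1 ≤ B) (s : ℝ) : ∫ x, Go x ∂(PN U01 N) ≤ s + B * ∫ x, max (Fp x - s) 0 ∂(PN U01 N) := by
  have h1 : ∫ x, Go x ∂(PN U01 N) ≤ ∫ x, (s + B * max (Fp x - s) 0) ∂(PN U01 N) := by
    refine integral_mono hGo.int ((BM.const s).add ((hFp.max0 s).const_mul B)).int fun x => ?_
    have h2 := h x
    have h3 := le_max_left (Fp x - s) 0
    have h4 := le_max_right (Fp x - s) 0
    nlinarith
  rw [integral_add (integrable_const _) ((hFp.max0 s).const_mul B).int, integral_const_mul] at h1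
  simpa using h1

/-- One step: from the pointwise inequality to the integrals. -/
private theorem zk_step (hQ : Qn Q θ₀ C) {θ cc P : ℝ} (hθ0 : 0 ≤ θ) (hθ1 : θ ≤ 1 / 2) (hθ2 : 2 * θ ≤ θ₀) (hcc : cc = 1 / (1 + C) * θ)
    {γ f G S k : ℝ → ℝ} (h : SG1 Q γ f) (hG : BM G) (hS : BM S)
    (hk : BM fun y => (1 + θ * (f y - ∫ x, f x ∂U01)) * k y)
    (hmain : ∀ x y, G x + γ x * (Q y - Q x) + cc * (S x - P * (1 + θ * (f y - ∫ x, f x ∂U01))) ≤ k y) :
    ∫ x, G x ∂U01 + cc * (Vr f + ∫ x, S x ∂U01) - cc * P * (1 + θ ^ 2 * Vr f) ≤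
      ∫ y, (1 + θ * (f y - ∫ x, f x ∂U01)) * k y ∂U01 := by
  obtain ⟨m, hm⟩ : ∃ m, m = ∫ x, f x ∂U01 := ⟨_, rfl⟩
  have hf := h.bm hQ
  have hosc : ∀ y, |f y - m| ≤ 1 := fun y => by rw [hm]; exact h.osc_mean hQ y
  have hr0 : ∀ y, 0 ≤ 1 + θ * (f y - m) := fun y => by
    have := abs_le.1 (hosc y)
    nlinarith
  have hτ : Measurable (tau θ f) := tau_meas hQ h hθ0 hθ1
  have e1 := tau_map hQ h hθ0 hθ1 hG
  have e2 := tau_map hQ h hθ0 hθ1 hS
  have e3 := gain hQ h hθ0 hθ1 hθ2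
  rw [← hm] at hk hmain e1 e2 e3 ⊢
  have hr : BM fun y => 1 + θ * (f y - m) := (BM.const 1).add ((hf.sub (BM.const m)).const_mul θ)
  have hQb : BM fun y => Q y - Q (tau θ f y) := by
    refine ⟨hQ.mono.measurable.sub (hQ.mono.measurable.comp hτ), 1, fun y => hQ.osc _ _⟩
  have b1 : BM fun y => (1 + θ * (f y - m)) * G (tau θ f y) := hr.mul (hG.comp hτ)
  have b2 : BM fun y => (1 + θ * (f y - m)) * (γ (tau θ f y) * (Q y - Q (tau θ f y))) :=
    hr.mul ((h.bγ.comp hτ).mul hQb)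
  have b3 : BM fun y => (1 + θ * (f y - m)) * S (tau θ f y) := hr.mul (hS.comp hτ)
  have b4 : BM fun y => (1 + θ * (f y - m)) ^ 2 := hr.pow 2
  have hpt : ∀ y, (1 + θ * (f y - m)) * G (tau θ f y) +
      ((1 + θ * (f y - m)) * (γ (tau θ f y) * (Q y - Q (tau θ f y))) +
        (cc * ((1 + θ * (f y - m)) * S (tau θ f y)) - cc * P * (1 + θ * (f y - m)) ^ 2)) ≤
      (1 + θ * (f y - m)) * k y := by
    intro y
    have h1 := mul_le_mul_of_nonneg_left (hmain (tau θ f y) y) (hr0 y)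
    refine le_trans (le_of_eq ?_) h1
    ring
  have hint := integral_mono (b1.add (b2.add ((b3.const_mul cc).sub (b4.const_mul (cc * P))))).int
    (μ := U01) hk.int hpt
  rw [integral_add b1.int (b2.add ((b3.const_mul cc).sub (b4.const_mul (cc * P)))).int,
    integral_add b2.int ((b3.const_mul cc).sub (b4.const_mul (cc * P))).int,
    integral_sub (b3.const_mul cc).int (b4.const_mul (cc * P)).int, integral_const_mul, integral_const_mul,
    e1, e2] at hint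
  have e4 : ∫ y, (1 + θ * (f y - m)) ^ 2 ∂U01 = 1 + θ ^ 2 * Vr f := by
    have h1 : ∀ y, (1 + θ * (f y - m)) ^ 2 = 1 + (2 * θ * (f y - m) + θ ^ 2 * (f y - m) ^ 2) := fun y => by ring
    have i1 : BM fun y => f y - m := hf.sub (BM.const m)
    simp_rw [h1]
    have h2 : ∫ x, (f x - m) ∂U01 = 0 := by
      rw [integral_sub hf.int (integrable_const _), ← hm]
      simp
    rw [integral_add (integrable_const _) ((i1.const_mul _).add ((i1.pow 2).const_mul _)).int,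
      integral_add (i1.const_mul _).int ((i1.pow 2).const_mul _).int, integral_const_mul, integral_const_mul, h2]
    unfold Vr
    rw [← hm]
    simp
  rw [e4] at hint
  rw [hcc] at hint ⊢
  linarith

theorem key0 (hQ : Qn Q θ₀ C) {θ N0 : ℝ} (hθ0 : 0 ≤ θ) (hθ1 : θ ≤ 1 / 2) (hθ2 : 2 * θ ≤ θ₀) (hN0 : 0 < N0) (N : ℕ) :
    ∀ (F Go Fp : (Fin N → ℝ) → ℝ) (g : Fin N → (Fin N → ℝ) → ℝ) (L ρ s : ℝ), SG Q N g F → BM Go → BM Fp →
      0 ≤ L → 0 < ρ → ρ ≤ 2 * N0 → (∀ x y, Go x + ∑ i, g i x * (Q (y i) - Q (x i)) ≤ Fp y) →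
      ∫ x, Go x ∂(PN U01 N) + (1 / (1 + C) * θ) * (VS N F L - L * (ρ / N0) * Real.exp (θ ^ 2 * L)) ≤
      s + (2 * N0 / ρ) * ∫ x, max (Fp x - s) 0 ∂(PN U01 N) := by
  have hC0 := hQ.C0
  have hcc0 : 0 ≤ 1 / (1 + C) * θ := by positivity
  induction N with
  | zero =>
    intro F Go Fp g L ρ s hF hGo hFp hL hρ0 hρ1 h
    have h1 : ∀ x, Go x ≤ Fp x := fun x => by
      have := h x x
      simpa using this
    have hB : 1 ≤ 2 * N0 / ρ := by rw [le_div_iff₀ hρ0]; linarith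
    have h2 := zk_triv hGo hFp h1 hB s
    have h3 : 0 ≤ L * (ρ / N0) * Real.exp (θ ^ 2 * L) :=
      mul_nonneg (mul_nonneg hL (by positivity)) (Real.exp_pos _).le
    have h4 := mul_nonneg hcc0 h3
    simp only [VS]
    nlinarith
  | succ N ih =>
    intro F Go Fp g L ρ s hF hGo hFp hL hρ0 hρ1 h
    have h1 : ∀ x, Go x ≤ Fp x := fun x => by
      have := h x x
      simpa using this
    have hB : 1 ≤ 2 * N0 / ρ := by rw [le_div_iff₀ hρ0]; linarith
    have htriv := zk_triv hGo hFp h1 hB s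
    have hpen : 0 ≤ L * (ρ / N0) * Real.exp (θ ^ 2 * L) :=
      mul_nonneg (mul_nonneg hL (by positivity)) (Real.exp_pos _).le
    obtain ⟨cc, hcc⟩ : ∃ cc, cc = 1 / (1 + C) * θ := ⟨_, rfl⟩
    rw [← hcc] at hcc0 ih ⊢
    by_cases hcase1 : Vr (fm F) ≤ L
    swap
    · have hVS : VS (N + 1) F L = 0 := by
        simp only [VS]
        rw [if_neg hcase1]
      rw [hVS]
      have h4 := mul_nonneg hcc0 hpen
      nlinarith
    by_cases hcase2 : N0 < ρ
    · have h2 : VS (N + 1) F L ≤ L := VS_le _ _ _ hF.mF hL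
      have h3 : L * 1 ≤ L * (ρ / N0 * Real.exp (θ ^ 2 * L)) := by
        refine mul_le_mul_of_nonneg_left ?_ hL
        have h5 : 1 ≤ ρ / N0 := by rw [le_div_iff₀ hN0]; linarith
        have h6 : 1 ≤ Real.exp (θ ^ 2 * L) := Real.one_le_exp (by positivity)
        nlinarith
      have h4 : cc * (VS (N + 1) F L - L * (ρ / N0) * Real.exp (θ ^ 2 * L)) ≤ 0 := by
        refine mul_nonpos_of_nonneg_of_nonpos hcc0 ?_
        rw [mul_assoc]
        linarith
      linarith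
    push Not at hcase2
    -- the main case
    obtain ⟨V, hV⟩ : ∃ V, V = Vr (fm F) := ⟨_, rfl⟩
    have hV0 : 0 ≤ V := by rw [hV]; exact Vr_nonneg _
    rw [← hV] at hcase1
    obtain ⟨m, hm⟩ : ∃ m, m = ∫ x, fm F x ∂U01 := ⟨_, rfl⟩
    have hFb := hF.bm hQ
    have h1s := hF.one hQ
    have hosc : ∀ y, |fm F y - m| ≤ 1 := fun y => by rw [hm]; exact h1s.osc_mean hQ y
    have hr0 : ∀ y, 1 / 2 ≤ 1 + θ * (fm F y - m) := fun y => by
      have := abs_le.1 (hosc y)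
      nlinarith
    have hr1 : ∀ y, 1 + θ * (fm F y - m) ≤ 2 := fun y => by
      have := abs_le.1 (hosc y)
      nlinarith
    obtain ⟨P, hP⟩ : ∃ P, P = (L - V) * (ρ / N0) * Real.exp (θ ^ 2 * (L - V)) := ⟨_, rfl⟩
    obtain ⟨k, hk⟩ : ∃ k : ℝ → ℝ, k = fun y => s + (2 * N0 / (ρ * (1 + θ * (fm F y - m)))) *
        fm (fun x => max (Fp x - s) 0) y := ⟨_, rfl⟩
    have hHb : BM (fm fun x => max (Fp x - s) 0) := (hFp.max0 s).fm
    have hrb : BM fun y => 1 + θ * (fm F y - m) := (BM.const 1).add ((hFb.fm.sub (BM.const m)).const_mul θ)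
    have ek : ∀ y, (1 + θ * (fm F y - m)) * k y = s * (1 + θ * (fm F y - m)) +
        (2 * N0 / ρ) * fm (fun x => max (Fp x - s) 0) y := by
      intro y
      rw [hk]
      have h2 := hr0 y
      have h3 : 1 + θ * (fm F y - m) ≠ 0 := by
        intro h0
        rw [h0] at h2
        norm_num at h2
      field_simp
    have hkb : BM fun y => (1 + θ * (fm F y - m)) * k y := by
      have h2 := (hrb.const_mul s).add (hHb.const_mul (2 * N0 / ρ))
      refine ⟨?_, ?_⟩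
      · have e : (fun y => (1 + θ * (fm F y - m)) * k y) = fun y => s * (1 + θ * (fm F y - m)) +
          (2 * N0 / ρ) * fm (fun x => max (Fp x - s) 0) y := funext ek
        rw [e]
        exact h2.1
      · obtain ⟨C, hC⟩ := h2.2
        refine ⟨C, fun y => ?_⟩
        show |(1 + θ * (fm F y - m)) * k y| ≤ C
        rw [ek]
        exact hC y
    have hSb : BM fun r => VS N (sc F r) (L - V) := VS_sec_bm hF.mF (by linarith)
    have hmain : ∀ x y, fm Go x + fm (g 0) x * (Q y - Q x) +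
        cc * (VS N (sc F x) (L - V) - P * (1 + θ * (fm F y - m))) ≤ k y := by
      intro x y
      have hρ' : 0 < ρ * (1 + θ * (fm F y - m)) := mul_pos hρ0 (by linarith [hr0 y])
      have hρ'' : ρ * (1 + θ * (fm F y - m)) ≤ 2 * N0 := by
        have := hr1 y
        nlinarith
      have hGx : BM fun z => Go (cn x z) + g 0 (cn x z) * (Q y - Q x) :=
        (hGo.sc x).add (((hF.bg 0).sc x).mul (BM.const (Q y - Q x)))
      have h2 := ih (sc F x) (fun z => Go (cn x z) + g 0 (cn x z) * (Q y - Q x)) (fun z => Fp (cn y z))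
        (fun i z => g i.succ (cn x z)) (L - V) (ρ * (1 + θ * (fm F y - m))) s (hF.sec x) hGx (hFp.sc y)
        (by linarith) hρ' hρ'' (fun z z' => by
          have h3 := h (cn x z) (cn y z')
          rw [Fin.sum_univ_succ] at h3
          simp only [cn_zero, cn_succ] at h3
          linarith)
      have j1 : Integrable (fun z => Go (cn x z)) (PN U01 N) := (hGo.sc x).int
      have j2 : Integrable (fun z => g 0 (cn x z) * (Q y - Q x)) (PN U01 N) := ((hF.bg 0).sc x).int.mul_const _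
      rw [integral_add j1 j2, integral_mul_const] at h2
      have h4 : (L - V) * (ρ * (1 + θ * (fm F y - m)) / N0) * Real.exp (θ ^ 2 * (L - V)) =
          P * (1 + θ * (fm F y - m)) := by
        rw [hP]
        ring
      rw [h4] at h2
      rw [hk]
      exact h2
    have hstep := zk_step (k := k) (P := P) hQ hθ0 hθ1 hθ2 hcc h1s hGo.fm hSb (by rw [← hm]; exact hkb)
      (by rw [← hm]; exact hmain)
    rw [← hm] at hstep
    simp_rw [ek] at hstep
    rw [integral_add (hrb.const_mul s).int (hHb.const_mul _).int, integral_const_mul, integral_const_mul,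
      ← int_fm (hFp.max0 s), ← int_fm hGo, ← hV] at hstep
    have er : ∫ y, (1 + θ * (fm F y - m)) ∂U01 = 1 := by
      rw [integral_add (integrable_const _) ((hFb.fm.sub (BM.const m)).const_mul θ).int, integral_const_mul,
        integral_sub hFb.fm.int (integrable_const _), ← hm]
      simp
    rw [er, mul_one] at hstep
    refine le_trans ?_ hstep
    have hVS : VS (N + 1) F L = V + ∫ r, VS N (sc F r) (L - V) ∂U01 := by
      simp only [VS]
      rw [← hV, if_pos hcase1]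
    rw [hVS]
    have hP0 : 0 ≤ P := by
      rw [hP]
      exact mul_nonneg (mul_nonneg (by linarith) (by positivity)) (Real.exp_pos _).le
    have hexp : P * (1 + θ ^ 2 * V) ≤ L * (ρ / N0) * Real.exp (θ ^ 2 * L) := by
      have h2 : 1 + θ ^ 2 * V ≤ Real.exp (θ ^ 2 * V) := by
        have h3 := Real.add_one_le_exp (θ ^ 2 * V)
        linarith
      calc P * (1 + θ ^ 2 * V) ≤ P * Real.exp (θ ^ 2 * V) := mul_le_mul_of_nonneg_left h2 hP0
        _ = (L - V) * (ρ / N0) * Real.exp (θ ^ 2 * L) := by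
            rw [hP, mul_assoc, ← Real.exp_add]
            ring_nf
        _ ≤ L * (ρ / N0) * Real.exp (θ ^ 2 * L) := by
            refine mul_le_mul_of_nonneg_right ?_ (Real.exp_pos _).le
            refine mul_le_mul_of_nonneg_right ?_ (by positivity)
            linarith
    have h2 := mul_le_mul_of_nonneg_left hexp hcc0
    nlinarith

/-- LEMMA LA0, dual form, in the variables `u`. -/
theorem la0n_u {θ₀ C : ℝ} (hθ₀ : 0 < θ₀) (hC : 0 ≤ C) {c : ℝ} (hc : 0 < c) (hc1 : c ≤ 1) {K : ℝ} (hK : 0 ≤ K) :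
    ∃ B U0 : ℝ, 1 < B ∧ 0 < U0 ∧ ∀ Q : ℝ → ℝ, Qn Q θ₀ C → ∀ (N : ℕ) (F : (Fin N → ℝ) → ℝ)
      (g : Fin N → (Fin N → ℝ) → ℝ), SG Q N g F → ∀ U : ℝ, U0 ≤ U →
      c ≤ (PN U01 N).real {x | c * U ≤ |F x - ∫ y, F y ∂(PN U01 N)|} → ∀ s : ℝ,
      ∫ x, F x ∂(PN U01 N) + K * U ≤ s + B * ∫ x, max (F x - s) 0 ∂(PN U01 N) := by
  obtain ⟨d, hd⟩ : ∃ d, d = c ^ 3 / 3 := ⟨_, rfl⟩
  have hd0 : 0 < d := by rw [hd]; positivity
  have hd1 : d ≤ 1 := by
    rw [hd]
    have : c ^ 3 ≤ 1 := pow_le_one₀ hc.le hc1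
    linarith
  obtain ⟨c1, hc1d⟩ : ∃ c1, c1 = 1 / (1 + C) := ⟨_, rfl⟩
  have hc10 : 0 < c1 := by rw [hc1d]; positivity
  obtain ⟨K', hK'⟩ : ∃ K', K' = 2 * K / (c1 * d) := ⟨_, rfl⟩
  have hK'0 : 0 ≤ K' := by rw [hK']; positivity
  obtain ⟨N0, hN0⟩ : ∃ N0, N0 = 2 * Real.exp (K' ^ 2) / d := ⟨_, rfl⟩
  have hexp1 : 1 ≤ Real.exp (K' ^ 2) := Real.one_le_exp (by positivity)
  have hN01 : 1 ≤ N0 := by
    rw [hN0, le_div_iff₀ hd0]
    linarith
  refine ⟨2 * N0, 2 + 2 * K' + 2 * K' / θ₀, by linarith, by positivity, ?_⟩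
  intro Q hQ N F g hF U hU hfl s
  have hq0 : 0 ≤ 2 * K' / θ₀ := by positivity
  have hU2 : 2 ≤ U := by linarith
  have hU0 : 0 < U := by linarith
  have hUsq : 2 ≤ U ^ 2 := by nlinarith
  have hbm := hF.bm hQ
  obtain ⟨m, hm⟩ : ∃ m, m = ∫ y, F y ∂(PN U01 N) := ⟨_, rfl⟩
  have ht := tailS hQ (Λ := U ^ 2) (κ := c * U) (by linarith) (by positivity) N F g m (U ^ 2) hF (sq_nonneg U) le_rfl
  have hset : MeasurableSet {x : Fin N → ℝ | c * U ≤ |F x - m|} :=
    measurableSet_le measurable_const (hF.mF.sub_const m).abs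
  rw [integral_indicator hset] at ht
  simp only [integral_const, measureReal_restrict_apply_univ, smul_eq_mul, mul_one] at ht
  rw [← hm] at ht hfl
  obtain ⟨S, hS⟩ : ∃ S, S = VS N F (U ^ 2) := ⟨_, rfl⟩
  have hS0 : 0 ≤ S := by rw [hS]; exact VS_nonneg _ _ _
  rw [← hS, sub_self, sub_self] at ht
  have hS1 : d * U ^ 2 ≤ S := by
    have h1 : c ≤ (0 ^ 2 + S) / (c * U) ^ 2 + (S + 0) / (U ^ 2 - 1) := hfl.trans ht
    have h2 : (S + 0) / (U ^ 2 - 1) ≤ 2 * S / (c * U) ^ 2 := by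
      rw [add_zero, div_le_div_iff₀ (by linarith) (by positivity)]
      have h3 : (c * U) ^ 2 ≤ U ^ 2 := by
        rw [mul_pow]
        have : c ^ 2 ≤ 1 := pow_le_one₀ hc.le hc1
        nlinarith [sq_nonneg U]
      have h4 : (c * U) ^ 2 ≤ 2 * (U ^ 2 - 1) := by linarith
      nlinarith
    have h3 : c ≤ 3 * S / (c * U) ^ 2 := by
      have h4 : (0 ^ 2 + S) / (c * U) ^ 2 + 2 * S / (c * U) ^ 2 = 3 * S / (c * U) ^ 2 := by ring
      linarith
    rw [le_div_iff₀ (by positivity)] at h3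
    rw [hd]
    have h5 : c * (c * U) ^ 2 = c ^ 3 * U ^ 2 := by ring
    linarith
  have hθ1 : K' / U ≤ 1 / 2 := by
    rw [div_le_iff₀ hU0]
    linarith
  have hθ2 : 2 * (K' / U) ≤ θ₀ := by
    rw [← mul_div_assoc, div_le_iff₀ hU0]
    have h1 : 2 * K' / θ₀ ≤ U := by linarith
    rw [div_le_iff₀ hθ₀] at h1
    linarith
  have hk := key0 hQ (θ := K' / U) (N0 := N0) (by positivity) hθ1 hθ2 (by linarith) N F F F g (U ^ 2) 1 s hF hbm hbm
    (sq_nonneg U) one_pos (by linarith) hF.sub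
  rw [← hm, ← hS, ← hc1d, div_one] at hk
  have e1 : (K' / U) ^ 2 * U ^ 2 = K' ^ 2 := by
    field_simp
  rw [e1] at hk
  have e2 : U ^ 2 * (1 / N0) * Real.exp (K' ^ 2) = d * U ^ 2 / 2 := by
    rw [hN0]
    have : Real.exp (K' ^ 2) ≠ 0 := (Real.exp_pos _).ne'
    field_simp
  rw [e2] at hk
  have e3 : K * U ≤ c1 * (K' / U) * (S - d * U ^ 2 / 2) := by
    have h1 : d * U ^ 2 / 2 ≤ S - d * U ^ 2 / 2 := by linarith
    have h2 : c1 * (K' / U) * (d * U ^ 2 / 2) = K * U := by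
      rw [hK']
      field_simp
    rw [← h2]
    exact mul_le_mul_of_nonneg_left h1 (by positivity)
  linarith

/-- **LEMMA LA0** for the laws with `(NC)`, density form. -/
theorem la0n {θ₀ C : ℝ} (hθ₀ : 0 < θ₀) (hC : 0 ≤ C) {c : ℝ} (hc : 0 < c) (hc1 : c ≤ 1) {K : ℝ} (hK : 0 ≤ K) :
    ∃ B U0 : ℝ, 1 < B ∧ 0 < U0 ∧ ∀ Q : ℝ → ℝ, Qn Q θ₀ C → (∀ x, Q x ∈ Icc (0 : ℝ) 1) → ∀ (N : ℕ)
      (F : (Fin N → ℝ) → ℝ) (g : Fin N → (Fin N → ℝ) → ℝ), SW N g F → ∀ U : ℝ, U0 ≤ U →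
      c ≤ (PN (U01.map Q) N).real {x | c * U ≤ |F x - ∫ y, F y ∂(PN (U01.map Q) N)|} →
      ∃ ψ : ℝ → ℝ, Measurable ψ ∧ (∀ t, 0 ≤ ψ t) ∧ (∀ t, ψ t ≤ B) ∧ ∫ x, ψ (F x) ∂(PN (U01.map Q) N) = 1 ∧
        ∫ x, F x ∂(PN (U01.map Q) N) + K * U ≤ ∫ x, ψ (F x) * F x ∂(PN (U01.map Q) N) := by
  obtain ⟨B, U0, hB, hU0, h⟩ := la0n_u hθ₀ hC hc hc1 hK
  refine ⟨B, U0, hB, hU0, fun Q hQ hQ1 N F g hF U hU hfl => ?_⟩
  have hQm : Measurable Q := hQ.mono.measurable
  obtain ⟨ν, hQν⟩ : ∃ ν : Measure ℝ, U01.map Q = ν := ⟨_, rfl⟩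
  have hν : IsProbabilityMeasure ν := by
    rw [← hQν]
    exact Measure.isProbabilityMeasure_map hQm.aemeasurable
  rw [hQν] at hfl ⊢
  have hm : Measurable fun (x : Fin N → ℝ) (j : Fin N) => Q (x j) :=
    measurable_pi_lambda _ fun j => hQm.comp (measurable_pi_apply j)
  have hSG := SG.of_cube hQm hQ1 hF.mF hF.mg hF.g0 hF.g1 hF.sub
  have hmap := map_PN hQm hQν N
  have hint : ∀ f : (Fin N → ℝ) → ℝ, Measurable f → ∫ x, f x ∂(PN ν N) = ∫ x, f (fun j => Q (x j)) ∂(PN U01 N) := by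
    intro f hf
    rw [← hmap, integral_map hm.aemeasurable hf.aestronglyMeasurable]
  have hset : MeasurableSet {x : Fin N → ℝ | c * U ≤ |F x - ∫ y, F y ∂(PN ν N)|} :=
    measurableSet_le measurable_const (hF.mF.sub_const _).abs
  have hreal : (PN ν N).real {x | c * U ≤ |F x - ∫ y, F y ∂(PN ν N)|} =
      (PN U01 N).real {x | c * U ≤ |F (fun j => Q (x j)) - ∫ y, F y ∂(PN ν N)|} := by
    conv_lhs => rw [← hmap]
    rw [map_measureReal_apply hm (by rw [hmap]; exact hset), hmap]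
    rfl
  have hi : Integrable F (PN ν N) := by
    rw [← hmap, integrable_map_measure hF.mF.aestronglyMeasurable hm.aemeasurable]
    exact (hSG.bm hQ).int
  obtain ⟨s, ψ, h1', h2', h3, h4, h5⟩ := dens_opt hF.mF hi hB
  refine ⟨ψ, h1', h2', h3, h4, ?_⟩
  rw [h5]
  rw [hreal, hint F hF.mF] at hfl
  rw [hint F hF.mF, hint _ ((hF.mF.sub_const s).max measurable_const)]
  exact h Q hQ N _ _ hSG U hU hfl s

end

end Pool.Agent.W_1b8d5d_nc
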