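import Pool.Agent.W_1b8d5d_h4p.RepZ
import Pool.Agent.W_1b8d5d_nc.NcLA
import Pool.Agent.W_1b8d5d_nc.NcES
import Pool.Agent.W_1b8d5d_nc.NcCdf

/-!
MP_1b8d5d_pr, track P, general laws: the class `LawN` (atomless laws which are not concentrated near the minimum); luck
amplification and the Efron - Stein inequality for the functionals of the class `Fz` on the law of the environment. (helper4)
-/

namespace Pool.Agent.W_1b8d5d_nc

open MeasureTheory Set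
open Pool.Agent.W_1b8d5d_h85 (V dir Env Edge grid wedges cost Bd sh)
open Pool.Agent.W_1b8d5d_p
open Pool.Agent.W_7d29a1_h42 (PN)
open Pool.Agent.W_1b8d5d_LE (Mx Dx Pot0_Mx Pot0)
open Pool.Agent.W_1b8d5d_z (U01 BM SW)
open Pool.Agent.W_1b8d5d_h4p (Fz Bx nw nrm nw_meas nw_mem nrm_eq exists_rep exists_rep' rx rx_mp bm_sum)

noncomputable section

/-- THE LAW HYPOTHESIS. -/
abbrev LawN (F : Fm) (c C : ℝ) : Prop := Pool.Agent.W_1b8d5d_h4p.LawH F c C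

variable {F : Fm} {c0 C0 : ℝ}

theorem map_g_supp (F : Fm) : (F.nu.map F.g) (Icc F.a F.b)ᶜ = 0 := by
  rw [Measure.map_apply F.mg measurableSet_Icc.compl]
  have : F.g ⁻¹' (Icc F.a F.b)ᶜ = ∅ := by
    ext t
    simp only [mem_preimage, mem_compl_iff, mem_empty_iff_false, iff_false, not_not]
    exact ⟨F.g1 t, F.g2 t⟩
  rw [this, measure_empty]

theorem LawN.quant (h : LawN F c0 C0) : ∃ (Q : ℝ → ℝ) (θ C : ℝ), Qn Q θ C ∧ (∀ x, Q x ∈ Icc (0 : ℝ) 1) ∧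
    U01.map Q = nrm F := by
  have : IsProbabilityMeasure (F.nu.map F.g) := Measure.isProbabilityMeasure_map F.mg.aemeasurable
  have hn : NCF (F.nu.map F.g) F.a F.b c0 (max C0 0) := by
    intro t t' h1 h2 h3 h4
    refine (h.nc t t' h1 h2 h3 h4).trans (mul_le_mul_of_nonneg_right (le_max_left _ _) ?_)
    exact intervalIntegral.integral_nonneg h1.le fun s _ => measureReal_nonneg
  rw [nrm_eq]
  obtain ⟨Q, h1, h2, h3⟩ := qn_of_ncf h.ab (map_g_supp F) h.at0 h.c0 (le_max_right _ _) hn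
  exact ⟨Q, _, _, h1, h2, h3⟩

theorem sw_of_pot0 {N : ℕ} {G : (Fin N → ℝ) → ℝ} {D : Fin N → (Fin N → ℝ) → ℝ} (h : Pot0 G D) : SW N D G :=
  ⟨h.measF, h.measD, fun i x _ => h.D0 i x, fun i x _ => h.D1 i x, fun x y _ _ => h.cvx x y⟩

theorem sw_Mx {n m : ℕ} {c : Fin (m + 1) → ℝ} {A : Fin (m + 1) → Fin n → ℝ} (h0 : ∀ k i, 0 ≤ A k i) (h1 : ∀ k i, A k i ≤ 1) :
    SW n (Dx c A) (Mx c A) := sw_of_pot0 (Pot0_Mx h0 h1)

theorem fz_bm {S : Set Edge} {G : Env → ℝ} (h : Fz F.a F.b S G) : BM fun η => G (F.tau η) := by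
  obtain ⟨G', h1, h2⟩ := h
  obtain ⟨C, hC⟩ := h1.bdd F.a F.b
  have e : (fun η => G (F.tau η)) = fun η => G' (F.tau η) := funext fun η => h2 _ (bd_tau F η)
  rw [e]
  exact ⟨h1.measurable.comp (Pool.Agent.W_1b8d5d_p.tau_meas F), C, fun η => hC _ (bd_tau F η)⟩

/-- LUCK AMPLIFICATION on the law of the environment, for a law given by its quantile function. -/
theorem la_q (hab : F.a < F.b) {Q : ℝ → ℝ} {θ C : ℝ} (hQ : Qn Q θ C) (hQ1 : ∀ x, Q x ∈ Icc (0 : ℝ) 1)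
    (hν : U01.map Q = nrm F) {c K : ℝ} (hc : 0 < c) (hc1 : c ≤ 1) (hK : 0 ≤ K) : ∃ D U₀ : ℝ, 1 < D ∧ 0 < U₀ ∧
    ∀ (S : Set Edge) (G : Env → ℝ), Fz F.a F.b S G → ∀ U : ℝ, U₀ ≤ U →
    c ≤ (law F).real {η | c * U ≤ |G (F.tau η) - ∫ ξ, G (F.tau ξ) ∂(law F)|} →
    ∃ f : Env → ℝ, Measurable f ∧ (∀ η, 0 ≤ f η) ∧ (∀ η, f η ≤ D) ∧ ∫ η, f η ∂(law F) = 1 ∧ DependsOn f S ∧
      ∫ η, G (F.tau η) ∂(law F) + K * U ≤ ∫ η, f η * G (F.tau η) ∂(law F) := by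
  have hd : 0 < F.b - F.a := sub_pos.2 hab
  obtain ⟨D, U₀, hD, hU₀, hLA⟩ := la0n hQ.th0 hQ.C0 hc hc1 hK
  refine ⟨D, U₀ * (F.b - F.a), hD, mul_pos hU₀ hd, fun S G hG U hU hfl => ?_⟩
  obtain ⟨n, m, c', A, r, hA0, hA1, hr, hrS, hr01, hGr⟩ := exists_rep hab hG
  have hsw := sw_Mx (c := c') (A := A) hA0 hA1
  have hmF := hsw.mF
  have e1 : ∀ f : ℝ → ℝ, Measurable f → ∫ x, f (Mx c' A x) ∂(PN (nrm F) n) = ∫ η, f (Mx c' A (r η)) ∂(law F) := by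
    intro f hf
    rw [← hr.map_eq]
    exact integral_map hr.measurable.aemeasurable (hf.comp hmF).aestronglyMeasurable
  have e2 := e1 (fun t => t) measurable_id
  have e3 : ∫ η, G (F.tau η) ∂(law F) = (F.b - F.a) * ∫ x, Mx c' A x ∂(PN (nrm F) n) := by
    rw [e2, ← integral_const_mul]
    exact integral_congr_ae (Filter.Eventually.of_forall fun η => hGr η)
  obtain ⟨mm, hmm⟩ : ∃ mm, mm = ∫ x, Mx c' A x ∂(PN (nrm F) n) := ⟨_, rfl⟩
  have hfl' : c ≤ (PN (nrm F) n).real {x | c * (U / (F.b - F.a)) ≤ |Mx c' A x - ∫ y, Mx c' A y ∂(PN (nrm F) n)|} := by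
    rw [← hmm, ← hr.map_eq, map_measureReal_apply hr.measurable
      (measurableSet_le measurable_const (hmF.sub_const _).abs)]
    refine hfl.trans_eq ?_
    congr 1
    ext η
    rw [Set.mem_ofPred_eq, Set.mem_preimage, Set.mem_ofPred_eq, hGr, e3, ← hmm, ← mul_sub, abs_mul, abs_of_pos hd, ← mul_div_assoc,
      div_le_iff₀' hd]
  have hLA2 := hLA Q hQ hQ1 n _ _ hsw (U / (F.b - F.a)) (by rw [le_div_iff₀ hd]; exact hU)
  rw [hν] at hLA2
  obtain ⟨ψ, h1, h2, h3, h4, h5⟩ := hLA2 hfl'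
  refine ⟨fun η => ψ (Mx c' A (r η)), h1.comp (hmF.comp hr.measurable), fun η => h2 _, fun η => h3 _, ?_, ?_, ?_⟩
  · rw [← e1 ψ h1]
    exact h4
  · intro η η' hη
    show ψ (Mx c' A (r η)) = ψ (Mx c' A (r η'))
    rw [hrS hη]
  · rw [e1 (fun t => ψ t * t) (h1.mul measurable_id)] at h5
    have h6 := mul_le_mul_of_nonneg_left h5 hd.le
    rw [e3]
    have e4 : (F.b - F.a) * (∫ x, Mx c' A x ∂(PN (nrm F) n) + K * (U / (F.b - F.a))) =
        (F.b - F.a) * ∫ x, Mx c' A x ∂(PN (nrm F) n) + K * U := by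
      field_simp
    rw [e4] at h6
    refine h6.trans_eq ?_
    rw [← integral_const_mul]
    refine integral_congr_ae (Filter.Eventually.of_forall fun η => ?_)
    show (F.b - F.a) * (ψ (Mx c' A (r η)) * Mx c' A (r η)) = ψ (Mx c' A (r η)) * G (F.tau η)
    rw [hGr]
    ring

/-- LUCK AMPLIFICATION on the law of the environment. -/
theorem la_lawN (hL : LawN F c0 C0) {c K : ℝ} (hc : 0 < c) (hc1 : c ≤ 1) (hK : 0 ≤ K) : ∃ D U₀ : ℝ, 1 < D ∧ 0 < U₀ ∧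
    ∀ (S : Set Edge) (G : Env → ℝ), Fz F.a F.b S G → ∀ U : ℝ, U₀ ≤ U →
    c ≤ (law F).real {η | c * U ≤ |G (F.tau η) - ∫ ξ, G (F.tau ξ) ∂(law F)|} →
    ∃ f : Env → ℝ, Measurable f ∧ (∀ η, 0 ≤ f η) ∧ (∀ η, f η ≤ D) ∧ ∫ η, f η ∂(law F) = 1 ∧ DependsOn f S ∧
      ∫ η, G (F.tau η) ∂(law F) + K * U ≤ ∫ η, f η * G (F.tau η) ∂(law F) := by
  obtain ⟨Q, θ, C, hQ, hQ1, hν⟩ := hL.quant
  exact la_q hL.ab hQ hQ1 hν hc hc1 hK

/-- EFRON - STEIN on the law of the environment: if `G ≤ H` for all weights in `[a - δ, b]`, then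
`Var G ≤ ((b - a)² / δ) (H - E G)`. -/
theorem var_q (hab : F.a < F.b) {Q : ℝ → ℝ} {θ C : ℝ} (hQ : Qn Q θ C) (hQ1 : ∀ x, Q x ∈ Icc (0 : ℝ) 1)
    (hν : U01.map Q = nrm F) {δ H : ℝ} (hδ : 0 < δ) {S : Set Edge} {G : Env → ℝ} (hG : Fz (F.a - δ) F.b S G)
    (hH : ∀ τ, Bx (F.a - δ) F.b τ → G τ ≤ H) :
    ∫ η, (G (F.tau η) - ∫ ξ, G (F.tau ξ) ∂(law F)) ^ 2 ∂(law F) ≤
      (F.b - F.a) ^ 2 / δ * (H - ∫ η, G (F.tau η) ∂(law F)) := by
  have hd : 0 < F.b - F.a := sub_pos.2 hab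
  have hG0 : Fz F.a F.b S G := by
    obtain ⟨G', k1, k2⟩ := hG
    exact ⟨G', k1, fun τ hτ => k2 τ fun e => ⟨by linarith [(hτ e).1], (hτ e).2⟩⟩
  have hb := fz_bm hG0
  obtain ⟨n, m, c', A, x, hA0, hA1, hx, hxS, hGx⟩ := exists_rep' hab hG
  have hp := Pot0_Mx (c := c') (A := A) hA0 hA1
  have hsw := sw_Mx (c := c') (A := A) hA0 hA1
  have hr := rx_mp F hx
  have hmF := hsw.mF
  have hGr : ∀ η, G (F.tau η) = (F.b - F.a) * Mx c' A (rx F x η) := fun η =>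
    hGx _ fun e => ⟨by linarith [(bd_tau F η e).1], (bd_tau F η e).2⟩
  have e1 : ∀ f : (Fin n → ℝ) → ℝ, Measurable f → ∫ x, f x ∂(PN (nrm F) n) = ∫ η, f (rx F x η) ∂(law F) := by
    intro f hf
    rw [← hr.map_eq]
    exact integral_map hr.measurable.aemeasurable hf.aestronglyMeasurable
  obtain ⟨mm, hmm⟩ : ∃ mm, mm = ∫ x, Mx c' A x ∂(PN (nrm F) n) := ⟨_, rfl⟩
  have e3 : ∫ η, G (F.tau η) ∂(law F) = (F.b - F.a) * mm := by
    rw [hmm, e1 _ hmF, ← integral_const_mul]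
    exact integral_congr_ae (Filter.Eventually.of_forall fun η => hGr η)
  have h1 := es_nuN hQ hQ1 hν hsw
  rw [← hmm, e1 (fun y => (Mx c' A y - mm) ^ 2) ((hmF.sub_const mm).pow_const 2), e1 (fun y => ∑ i, Dx c' A i y)
    (Finset.measurable_sum _ fun i _ => hsw.mg i)] at h1
  -- the number of edges of the maximal term
  have h2 : ∀ η, ∑ i, Dx c' A i (rx F x η) ≤ (H - G (F.tau η)) / δ := by
    intro η
    rw [le_div_iff₀ hδ]
    have k1 : Bx (F.a - δ) F.b fun e => F.tau η e - δ := fun e =>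
      ⟨by linarith [(bd_tau F η e).1], by linarith [(bd_tau F η e).2]⟩
    have k2 := hH _ k1
    rw [hGx _ k1] at k2
    have k3 := hp.cvx (rx F x η) fun i => (F.b - (F.tau η (x i) - δ)) / (F.b - F.a)
    have k4 : ∀ i, (F.b - (F.tau η (x i) - δ)) / (F.b - F.a) - rx F x η i = δ / (F.b - F.a) := by
      intro i
      unfold rx
      rw [← sub_div]
      congr 1
      ring
    simp_rw [k4] at k3
    rw [← Finset.sum_mul] at k3
    have k5 := mul_le_mul_of_nonneg_left k3 hd.le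
    have k6 : (F.b - F.a) * (Mx c' A (rx F x η) + (∑ i, Dx c' A i (rx F x η)) * (δ / (F.b - F.a))) =
        G (F.tau η) + (∑ i, Dx c' A i (rx F x η)) * δ := by
      rw [hGr, mul_add]
      congr 1
      field_simp
    rw [k6] at k5
    linarith
  have hDb : BM fun η => ∑ i, Dx c' A i (rx F x η) := by
    refine bm_sum Finset.univ fun i _ => ⟨(hp.measD i).comp hr.measurable, 1, fun η => ?_⟩
    rw [abs_of_nonneg (hp.D0 i _)]
    exact hp.D1 i _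
  have h3 : ∫ η, ∑ i, Dx c' A i (rx F x η) ∂(law F) ≤ (H - ∫ η, G (F.tau η) ∂(law F)) / δ := by
    calc ∫ η, ∑ i, Dx c' A i (rx F x η) ∂(law F) ≤ ∫ η, (H - G (F.tau η)) / δ ∂(law F) := by
          refine integral_mono hDb.int ?_ h2
          exact ((integrable_const H).sub hb.int).div_const δ
      _ = (H - ∫ η, G (F.tau η) ∂(law F)) / δ := by
          rw [integral_div, integral_sub (integrable_const _) hb.int]
          simp
  have e4 : ∫ η, (G (F.tau η) - ∫ ξ, G (F.tau ξ) ∂(law F)) ^ 2 ∂(law F) =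
      (F.b - F.a) ^ 2 * ∫ η, (Mx c' A (rx F x η) - mm) ^ 2 ∂(law F) := by
    rw [← integral_const_mul]
    refine integral_congr_ae (Filter.Eventually.of_forall fun η => ?_)
    show (G (F.tau η) - ∫ ξ, G (F.tau ξ) ∂(law F)) ^ 2 = (F.b - F.a) ^ 2 * (Mx c' A (rx F x η) - mm) ^ 2
    rw [e3, hGr]
    ring
  rw [e4, div_mul_eq_mul_div, mul_div_assoc]
  exact mul_le_mul_of_nonneg_left (h1.trans h3) (sq_nonneg _)

/-- EFRON - STEIN on the law of the environment. -/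
theorem var_lawN (hL : LawN F c0 C0) {δ H : ℝ} (hδ : 0 < δ) {S : Set Edge} {G : Env → ℝ} (hG : Fz (F.a - δ) F.b S G)
    (hH : ∀ τ, Bx (F.a - δ) F.b τ → G τ ≤ H) :
    ∫ η, (G (F.tau η) - ∫ ξ, G (F.tau ξ) ∂(law F)) ^ 2 ∂(law F) ≤
      (F.b - F.a) ^ 2 / δ * (H - ∫ η, G (F.tau η) ∂(law F)) := by
  obtain ⟨Q, θ, C, hQ, hQ1, hν⟩ := hL.quant
  exact var_q hL.ab hQ hQ1 hν hδ hG hH

end

end Pool.Agent.W_1b8d5d_nc
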