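import Pool.Agent.W_1b8d5d_p.FinG
import Pool.Agent.W_1b8d5d_nc.NcRep

/-!
MP_1b8d5d_pr, Track P, extension (NC): the final theorem for the atomless laws on `[a, b]` which are not concentrated near the minimum,
from the core for the class `LawN`.
-/

set_option autoImplicit false

open MeasureTheory ProbabilityTheory Filter Topology

namespace Pool.Agent.W_1b8d5d_nc

open Pool.Agent.W_1b8d5d_h85 hiding tm
open Pool.Agent.W_1b8d5d_p

theorem abN_of {ν : Measure ℝ} [IsProbabilityMeasure ν] {a b : ℝ} (hsupp : ν (Set.Icc a b)ᶜ = 0)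
    (hat : ∀ x : ℝ, ν ({x} : Set ℝ) = 0) : a < b := by
  by_contra hcon
  push Not at hcon
  have h1 : Set.Icc a b ⊆ {a} := by
    intro y hy
    exact le_antisymm (hy.2.trans hcon) hy.1
  have h2 : ν (Set.Icc a b) = 0 := measure_mono_null h1 (hat a)
  have h3 : ν Set.univ = 0 := by
    rw [← Set.union_compl_self (Set.Icc a b)]
    exact measure_union_null h2 hsupp
  rw [measure_univ] at h3
  exact one_ne_zero h3

/-- The law hypothesis of the model of the law `ν`. -/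
theorem lawN_of {a b θ C : ℝ} {ν : Measure ℝ} (co : Co) (ha : 0 < a) (h : Law a b ν) (hθ : 0 < θ)
    (hpos : ∀ t : ℝ, a < t → 0 < ν (Set.Iic t))
    (hnc : ∀ t t' : ℝ, a < t → t ≤ t' → t' ≤ b → ν.real (Set.Iic t') ≤ (1 + θ) * ν.real (Set.Iic t) →
      (t' - t) * ν.real (Set.Iic t) ≤ C * ∫ s in a..t, ν.real (Set.Iic s)) : LawN (fmOf co ha h) θ C where
  ab := by
    have hν := h.prob
    exact abN_of h.supp h.atom
  c0 := hθ
  at0 := by
    rw [fmOf_map]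
    exact h.atom
  pos := by
    rw [fmOf_map]
    intro u hu
    have hν := h.prob
    have h1 := hpos (a + u) (by linarith)
    exact ENNReal.toReal_pos h1.ne' (measure_ne_top _ _)
  nc := by
    rw [fmOf_map]
    exact hnc

/-- **The final theorem for the class (NC), from the core.** -/
theorem finalN (hC : ∀ c C : ℝ, CorePowX fun F => LawN F c C) :
    ∀ (a b θ C : ℝ), 0 < a → 0 < θ →
    ∀ (ν : Measure ℝ), IsProbabilityMeasure ν → ν (Set.Icc a b)ᶜ = 0 → (∀ x : ℝ, ν ({x} : Set ℝ) = 0) →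
      (∀ t : ℝ, a < t → 0 < ν (Set.Iic t)) →
      (∀ t t' : ℝ, a < t → t ≤ t' → t' ≤ b → ν.real (Set.Iic t') ≤ (1 + θ) * ν.real (Set.Iic t) →
        (t' - t) * ν.real (Set.Iic t) ≤ C * ∫ s in a..t, ν.real (Set.Iic s)) →
    ∀ (Ω : Type) [MeasurableSpace Ω] (P : Measure Ω), IsProbabilityMeasure P →
    ∀ (τ : (Fin 2 → ℤ) × Fin 2 → Ω → ℝ),
      (∀ e, Measurable (τ e)) → iIndepFun τ P → (∀ e, P.map (τ e) = ν) →
    ∀ (μ : (Fin 2 → ℝ) → ℝ), Continuous μ →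
      (∀ (c : ℝ) (x : Fin 2 → ℝ), 0 ≤ c → μ (c • x) = c * μ x) →
      (∀ x : Fin 2 → ℤ, TendstoInMeasure P
        (fun (n : ℕ) (ω : Ω) =>
            sInf {t : ℝ | ∃ (m : ℕ) (p : ℕ → Fin 2 → ℤ), p 0 = 0 ∧ p m = (n : ℤ) • x ∧
              (∀ k < m, ∑ i, |p (k+1) i - p k i| = 1) ∧
              t = ∑ k ∈ Finset.range m, ∑ i : Fin 2,
                ((if p (k+1) = p k + (Pi.single i (1 : ℤ) : Fin 2 → ℤ) then τ (p k, i) ω else 0) +
                 (if p k = p (k+1) + (Pi.single i (1 : ℤ) : Fin 2 → ℤ) then τ (p (k+1), i) ω else 0))}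
            / (n : ℝ))
        atTop (fun _ => μ (fun i => (x i : ℝ)))) →
      ∃ ε > 0, ∃ K > 0,
        (∀ x y : Fin 2 → ℝ, μ x = 1 → μ y = 1 → ε * ‖x - y‖ ^ (K : ℝ) ≤ μ x + μ y - μ (x + y)) ∧
        (∀ x y : Fin 2 → ℝ, μ x = 1 → μ y = 1 →
          ∀ z : Fin 2 → ℝ, ‖z‖ ≤ ε * ‖x - y‖ ^ (K : ℝ) → μ (midpoint ℝ x y + z) ≤ 1) := by
  intro a b θ C ha hθ ν hν hsupp hat hpos hnc Ω _ P hP τ hm hi hl μ hμ hom hlim
  have hlaw : Law a b ν := ⟨hν, hsupp, hat⟩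
  exact finalX (X := fun F => LawN F θ C) (hC θ C) a b ha ν hlaw (fun co => lawN_of co ha hlaw hθ hpos hnc)
    Ω P hP τ hm hi hl μ hμ hom hlim

end Pool.Agent.W_1b8d5d_nc
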