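import Mathlib

/-!
MP_1b8d5d_pr, proofs row 581 (no corner): the corner data of a norm-like function of the plane.
-/

set_option autoImplicit false

namespace Pool.Agent.W_1b8d5d_nc

/-- A norm of the plane (as a function). -/
structure NormLike (μ : ℝ × ℝ → ℝ) : Prop where
  hom : ∀ (c : ℝ) (x : ℝ × ℝ), 0 ≤ c → μ (c • x) = c * μ x
  add : ∀ x y, μ (x + y) ≤ μ x + μ y
  neg : ∀ x, μ (-x) = μ x
  pos : ∀ x, x ≠ 0 → 0 < μ x

/-- A corner `v` of the unit ball of `μ`: coordinates `G` (along `v`) and `Y` (along `e`) such that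
`|G| + |Y| ≤ μ`, with equality to first order at `v`, on both sides. -/
structure Cor (μ : ℝ × ℝ → ℝ) where
  v : ℝ × ℝ
  e : ℝ × ℝ
  G : ℝ × ℝ →ₗ[ℝ] ℝ
  Y : ℝ × ℝ →ₗ[ℝ] ℝ
  mu_v : μ v = 1
  Gv : G v = 1
  Yv : Y v = 0
  Ge : G e = 0
  Ye : Y e = 1
  low : ∀ x, |G x| + |Y x| ≤ μ x
  upp : ∀ ε : ℝ, 0 < ε → ∃ t₀ : ℝ, 0 < t₀ ∧ ∀ t : ℝ, 0 < t → t ≤ t₀ →
    μ (v + t • e) ≤ 1 + (1 + ε) * t ∧ μ (v - t • e) ≤ 1 + (1 + ε) * t

variable {μ : ℝ × ℝ → ℝ}

theorem NormLike.nonneg (h : NormLike μ) (x : ℝ × ℝ) : 0 ≤ μ x := by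
  have h1 := h.add x (-x)
  have h2 := h.hom 0 0 le_rfl
  rw [h.neg, add_neg_cancel] at h1
  rw [smul_zero, zero_mul] at h2
  linarith

/-- The one-sided derivative of `μ` at `v` in the direction `w`. -/
theorem NormLike.exists_deriv (h : NormLike μ) {v : ℝ × ℝ} (hv : μ v = 1) (w : ℝ × ℝ) :
    ∃ a : ℝ, (∀ t : ℝ, 0 < t → 1 + t * a ≤ μ (v + t • w)) ∧
      ∀ ε : ℝ, 0 < ε → ∃ t₀ : ℝ, 0 < t₀ ∧ ∀ t : ℝ, 0 < t → t ≤ t₀ →
        μ (v + t • w) ≤ 1 + t * (a + ε) := by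
  set s : Set ℝ := {q | ∃ t : ℝ, 0 < t ∧ q = (μ (v + t • w) - 1) / t} with hs
  have hne : s.Nonempty := ⟨_, 1, one_pos, rfl⟩
  have hbd : BddBelow s := by
    refine ⟨-μ w, ?_⟩
    rintro q ⟨t, ht, rfl⟩
    rw [le_div_iff₀ ht]
    have h1 := h.add (v + t • w) (-(t • w))
    rw [add_neg_cancel_right, h.neg, h.hom t w ht.le, hv] at h1
    linarith
  have hlow : ∀ t : ℝ, 0 < t → sInf s ≤ (μ (v + t • w) - 1) / t := fun t ht =>
    csInf_le hbd ⟨t, ht, rfl⟩
  have hmono : ∀ t₁ t₂ : ℝ, 0 < t₁ → t₁ ≤ t₂ →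
      (μ (v + t₁ • w) - 1) / t₁ ≤ (μ (v + t₂ • w) - 1) / t₂ := by
    intro t₁ t₂ h1 h12
    have h2 : 0 < t₂ := h1.trans_le h12
    have e1 : v + t₁ • w = (1 - t₁ / t₂) • v + (t₁ / t₂) • (v + t₂ • w) := by
      rw [smul_add, smul_smul, div_mul_cancel₀ _ h2.ne', sub_smul, one_smul]
      abel
    have h3 : 0 ≤ 1 - t₁ / t₂ := by
      have := (div_le_one h2).2 h12
      linarith
    have h4 := h.add ((1 - t₁ / t₂) • v) ((t₁ / t₂) • (v + t₂ • w))
    rw [← e1, h.hom _ _ h3, h.hom _ _ (div_nonneg h1.le h2.le), hv] at h4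
    rw [div_le_div_iff₀ h1 h2]
    have h5 : μ (v + t₁ • w) * t₂ ≤ ((1 - t₁ / t₂) * 1 + t₁ / t₂ * μ (v + t₂ • w)) * t₂ :=
      mul_le_mul_of_nonneg_right h4 h2.le
    have h6 : ((1 - t₁ / t₂) * 1 + t₁ / t₂ * μ (v + t₂ • w)) * t₂
        = t₂ - t₁ + t₁ * μ (v + t₂ • w) := by
      field_simp
    rw [h6] at h5
    linarith
  refine ⟨sInf s, fun t ht => ?_, fun ε hε => ?_⟩
  · have h1 := hlow t ht
    rw [le_div_iff₀ ht] at h1
    linarith
  · obtain ⟨q, ⟨t₀, ht₀, rfl⟩, hq⟩ := exists_lt_of_csInf_lt hne (lt_add_of_pos_right (sInf s) hε)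
    refine ⟨t₀, ht₀, fun t ht htt => ?_⟩
    have h1 := (hmono t t₀ ht htt).trans hq.le
    rw [div_le_iff₀ ht] at h1
    linarith

/-- The lower bound by the linear form with the slope `a`. -/
theorem NormLike.lower (h : NormLike μ) {v w : ℝ × ℝ} (hv : μ v = 1) {a : ℝ}
    (ha : ∀ t : ℝ, 0 < t → 1 + t * a ≤ μ (v + t • w)) (α β : ℝ) (hβ : 0 < β) :
    α + β * a ≤ μ (α • v + β • w) := by
  set R : ℝ := |α| + 1 with hR
  have hR0 : 0 < R := by positivity
  have hRα : 0 < R + α := by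
    have := neg_abs_le α
    linarith
  have h1 := h.add (R • v) (α • v + β • w)
  clear_value R
  have e1 : R • v + (α • v + β • w) = (R + α) • (v + (β / (R + α)) • w) := by
    rw [smul_add, smul_smul, mul_div_cancel₀ _ hRα.ne', add_smul R α v, add_assoc]
  rw [e1, h.hom _ _ hRα.le, h.hom _ _ hR0.le, hv] at h1
  have h2 := ha (β / (R + α)) (div_pos hβ hRα)
  have h3 := mul_le_mul_of_nonneg_left h2 hRα.le
  have e2 : (R + α) * (1 + β / (R + α) * a) = R + α + β * a := by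
    field_simp
  rw [e2] at h3
  linarith

/-- The corner data from the one-sided derivatives. -/
theorem NormLike.exists_cor_of_deriv (h : NormLike μ) {v w : ℝ × ℝ} (hv : μ v = 1)
    (hw : v.1 * w.2 - v.2 * w.1 ≠ 0) {a b : ℝ} (hab : 0 < a + b)
    (ha : ∀ t : ℝ, 0 < t → 1 + t * a ≤ μ (v + t • w))
    (hb : ∀ t : ℝ, 0 < t → 1 + t * b ≤ μ (v + t • -w))
    (ha' : ∀ ε : ℝ, 0 < ε → ∃ t₀ : ℝ, 0 < t₀ ∧ ∀ t : ℝ, 0 < t → t ≤ t₀ →
        μ (v + t • w) ≤ 1 + t * (a + ε))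
    (hb' : ∀ ε : ℝ, 0 < ε → ∃ t₀ : ℝ, 0 < t₀ ∧ ∀ t : ℝ, 0 < t → t ≤ t₀ →
        μ (v + t • -w) ≤ 1 + t * (b + ε)) : Nonempty (Cor μ) := by
  set d : ℝ := v.1 * w.2 - v.2 * w.1 with hd
  set A : ℝ × ℝ →ₗ[ℝ] ℝ := d⁻¹ • (w.2 • LinearMap.fst ℝ ℝ ℝ - w.1 • LinearMap.snd ℝ ℝ ℝ) with hA
  set B : ℝ × ℝ →ₗ[ℝ] ℝ := d⁻¹ • (v.1 • LinearMap.snd ℝ ℝ ℝ - v.2 • LinearMap.fst ℝ ℝ ℝ) with hB
  have hAx : ∀ x : ℝ × ℝ, A x = d⁻¹ * (w.2 * x.1 - w.1 * x.2) := fun x => rfl
  have hBx : ∀ x : ℝ × ℝ, B x = d⁻¹ * (v.1 * x.2 - v.2 * x.1) := fun x => rfl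
  have hAv : A v = 1 := by
    rw [hAx, show w.2 * v.1 - w.1 * v.2 = d by rw [hd]; ring, inv_mul_cancel₀ hw]
  have hBv : B v = 0 := by
    rw [hBx, show v.1 * v.2 - v.2 * v.1 = 0 by ring, mul_zero]
  have hAw : A w = 0 := by
    rw [hAx, show w.2 * w.1 - w.1 * w.2 = 0 by ring, mul_zero]
  have hBw : B w = 1 := by
    rw [hBx, show v.1 * w.2 - v.2 * w.1 = d by rw [hd], inv_mul_cancel₀ hw]
  have hdec : ∀ x : ℝ × ℝ, x = A x • v + B x • w := by
    intro x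
    have h1 : d⁻¹ * d = 1 := inv_mul_cancel₀ hw
    refine Prod.ext ?_ ?_
    · show x.1 = A x * v.1 + B x * w.1
      rw [hAx, hBx, show d⁻¹ * (w.2 * x.1 - w.1 * x.2) * v.1 + d⁻¹ * (v.1 * x.2 - v.2 * x.1) * w.1
        = d⁻¹ * d * x.1 by rw [hd]; ring, h1, one_mul]
    · show x.2 = A x * v.2 + B x * w.2
      rw [hAx, hBx, show d⁻¹ * (w.2 * x.1 - w.1 * x.2) * v.2 + d⁻¹ * (v.1 * x.2 - v.2 * x.1) * w.2
        = d⁻¹ * d * x.2 by rw [hd]; ring, h1, one_mul]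
  clear_value A B d
  set G : ℝ × ℝ →ₗ[ℝ] ℝ := A + ((a - b) / 2) • B with hG
  set Y : ℝ × ℝ →ₗ[ℝ] ℝ := ((a + b) / 2) • B with hY
  have hGx : ∀ x : ℝ × ℝ, G x = A x + (a - b) / 2 * B x := fun x => rfl
  have hYx : ∀ x : ℝ × ℝ, Y x = (a + b) / 2 * B x := fun x => rfl
  have hlow : ∀ x : ℝ × ℝ, G x + |Y x| ≤ μ x := by
    intro x
    rw [hGx, hYx]
    rcases lt_trichotomy (B x) 0 with hβ | hβ | hβ
    · have h1 := h.lower hv hb (A x) (-B x) (by linarith)
      have e1 : A x • v + -B x • -w = x := by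
        rw [smul_neg, neg_smul, neg_neg]
        exact (hdec x).symm
      rw [e1] at h1
      rw [abs_of_nonpos (mul_nonpos_of_nonneg_of_nonpos (by linarith) hβ.le)]
      linarith
    · rw [hβ, mul_zero, mul_zero, abs_zero, add_zero, add_zero]
      have e1 := hdec x
      rw [hβ, zero_smul, add_zero] at e1
      rcases le_total 0 (A x) with hα | hα
      · rw [e1, map_smul, hAv, smul_eq_mul, mul_one, h.hom _ _ hα, hv, mul_one]
      · exact hα.trans (h.nonneg x)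
    · have h1 := h.lower hv ha (A x) (B x) hβ
      rw [← hdec x] at h1
      rw [abs_of_nonneg (mul_nonneg (by linarith) hβ.le)]
      linarith
  set e : ℝ × ℝ := -((a - b) / (a + b)) • v + (2 / (a + b)) • w with he
  have hab' : a + b ≠ 0 := hab.ne'
  refine ⟨⟨v, e, G, Y, hv, ?_, ?_, ?_, ?_, ?_, ?_⟩⟩
  · rw [hGx, hAv, hBv, mul_zero, add_zero]
  · rw [hYx, hBv, mul_zero]
  · rw [hGx, he, map_add, map_add, map_smul, map_smul, map_smul, map_smul, hAv, hAw, hBv, hBw]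
    simp only [smul_eq_mul]
    field_simp
    ring
  · rw [hYx, he, map_add, map_smul, map_smul, hBv, hBw]
    simp only [smul_eq_mul]
    field_simp
    ring
  · intro x
    have h1 := hlow x
    have h2 := hlow (-x)
    rw [map_neg, map_neg, abs_neg, h.neg] at h2
    rcases abs_cases (G x) with ⟨h3, _⟩ | ⟨h3, _⟩
    · linarith
    · linarith
  · intro ε hε
    have hε' : 0 < ε * (a + b) / 2 := by positivity
    obtain ⟨t₁, ht₁, H₁⟩ := ha' (ε * (a + b) / 2) hε'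
    obtain ⟨t₂, ht₂, H₂⟩ := hb' (ε * (a + b) / 2) hε'
    set k : ℝ := |a - b| / (a + b) with hk
    have hk0 : 0 ≤ k := by positivity
    have hkab : |(a - b) / (a + b)| = k := by rw [abs_div, abs_of_pos hab]
    obtain ⟨t₀, ht₀, hta, htb, htc⟩ : ∃ t₀ : ℝ, 0 < t₀ ∧ t₀ * k ≤ 1 / 2 ∧
        t₀ * (4 / (a + b)) ≤ t₁ ∧ t₀ * (4 / (a + b)) ≤ t₂ := by
      refine ⟨min (1 / (2 * (k + 1))) (min (t₁ * (a + b) / 4) (t₂ * (a + b) / 4)), ?_, ?_, ?_, ?_⟩
      · positivity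
      · have h1 : min (1 / (2 * (k + 1))) (min (t₁ * (a + b) / 4) (t₂ * (a + b) / 4)) * k
            ≤ 1 / (2 * (k + 1)) * k := mul_le_mul_of_nonneg_right (min_le_left _ _) hk0
        refine h1.trans ?_
        rw [div_mul_eq_mul_div, one_mul, div_le_div_iff₀ (by positivity) (by norm_num)]
        linarith
      · have h1 : min (1 / (2 * (k + 1))) (min (t₁ * (a + b) / 4) (t₂ * (a + b) / 4))
            ≤ t₁ * (a + b) / 4 := (min_le_right _ _).trans (min_le_left _ _)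
        refine (mul_le_mul_of_nonneg_right h1 (by positivity)).trans (le_of_eq ?_)
        field_simp
      · have h1 : min (1 / (2 * (k + 1))) (min (t₁ * (a + b) / 4) (t₂ * (a + b) / 4))
            ≤ t₂ * (a + b) / 4 := (min_le_right _ _).trans (min_le_right _ _)
        refine (mul_le_mul_of_nonneg_right h1 (by positivity)).trans (le_of_eq ?_)
        field_simp
    refine ⟨t₀, ht₀, fun t ht htt => ?_⟩
    have hκ : |t * ((a - b) / (a + b))| ≤ 1 / 2 := by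
      rw [abs_mul, hkab, abs_of_pos ht]
      exact (mul_le_mul_of_nonneg_right htt hk0).trans hta
    obtain ⟨hκ1, hκ2⟩ := abs_le.1 hκ
    have hs : 0 < 2 * t / (a + b) := by positivity
    have hst : t * (4 / (a + b)) ≤ t₀ * (4 / (a + b)) :=
      mul_le_mul_of_nonneg_right htt (by positivity)
    have hs4 : t * (4 / (a + b)) = 2 * (2 * t / (a + b)) := by ring
    constructor
    · set l : ℝ := 1 - t * ((a - b) / (a + b)) with hl
      have hl1 : 1 / 2 ≤ l := by linarith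
      have hl0 : 0 < l := by linarith
      have e1 : v + t • e = l • (v + (2 * t / (a + b) / l) • w) := by
        rw [smul_add l v, smul_smul l, mul_div_cancel₀ _ hl0.ne', he, hl]
        module
      have hs1 : 2 * t / (a + b) / l ≤ t₁ := by
        rw [div_le_iff₀ hl0]
        nlinarith
      have h1 := H₁ _ (div_pos hs hl0) hs1
      rw [e1, h.hom _ _ hl0.le]
      refine (mul_le_mul_of_nonneg_left h1 hl0.le).trans (le_of_eq ?_)
      have e2 : l * (1 + 2 * t / (a + b) / l * (a + ε * (a + b) / 2))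
          = l + 2 * t / (a + b) * (a + ε * (a + b) / 2) := by
        field_simp
      rw [e2, hl]
      field_simp
      ring
    · set l : ℝ := 1 + t * ((a - b) / (a + b)) with hl
      have hl1 : 1 / 2 ≤ l := by linarith
      have hl0 : 0 < l := by linarith
      have e1 : v - t • e = l • (v + (2 * t / (a + b) / l) • -w) := by
        rw [smul_add l v, smul_smul l, mul_div_cancel₀ _ hl0.ne', he, hl]
        module
      have hs1 : 2 * t / (a + b) / l ≤ t₂ := by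
        rw [div_le_iff₀ hl0]
        nlinarith
      have h1 := H₂ _ (div_pos hs hl0) hs1
      rw [e1, h.hom _ _ hl0.le]
      refine (mul_le_mul_of_nonneg_left h1 hl0.le).trans (le_of_eq ?_)
      have e2 : l * (1 + 2 * t / (a + b) / l * (b + ε * (a + b) / 2))
          = l + 2 * t / (a + b) * (b + ε * (a + b) / 2) := by
        field_simp
      rw [e2, hl]
      field_simp
      ring

/-- Two different supporting forms at one point give a corner. -/
theorem NormLike.exists_cor (h : NormLike μ) {x : ℝ × ℝ} (hx : x ≠ 0)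
    {f f' : ℝ × ℝ →ₗ[ℝ] ℝ} (hf : ∀ z, f z ≤ μ z) (hf' : ∀ z, f' z ≤ μ z) (hfx : f x = μ x)
    (hfx' : f' x = μ x) (hne : f ≠ f') : Nonempty (Cor μ) := by
  have hμx := h.pos x hx
  set v : ℝ × ℝ := (μ x)⁻¹ • x with hv
  have hv1 : μ v = 1 := by
    rw [hv, h.hom _ _ (inv_nonneg.2 hμx.le), inv_mul_cancel₀ hμx.ne']
  have hfv : f v = 1 := by
    rw [hv, map_smul, hfx, smul_eq_mul, inv_mul_cancel₀ hμx.ne']
  have hfv' : f' v = 1 := by
    rw [hv, map_smul, hfx', smul_eq_mul, inv_mul_cancel₀ hμx.ne']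
  clear_value v
  obtain ⟨w, hw⟩ : ∃ w, f' w < f w := by
    by_contra hcon
    push Not at hcon
    refine hne (LinearMap.ext fun z => le_antisymm (hcon z) ?_)
    have h1 := hcon (-z)
    rw [map_neg, map_neg] at h1
    linarith
  obtain ⟨a, ha, ha'⟩ := h.exists_deriv hv1 w
  obtain ⟨b, hb, hb'⟩ := h.exists_deriv hv1 (-w)
  have hfa : f w ≤ a := by
    refine le_of_forall_pos_le_add fun ε hε => ?_
    obtain ⟨t, ht, H⟩ := ha' ε hε
    have h1 := (hf (v + t • w)).trans (H t ht le_rfl)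
    rw [map_add, map_smul, hfv, smul_eq_mul] at h1
    exact le_of_mul_le_mul_left (by linarith) ht
  have hfb : f' (-w) ≤ b := by
    refine le_of_forall_pos_le_add fun ε hε => ?_
    obtain ⟨t, ht, H⟩ := hb' ε hε
    have h1 := (hf' (v + t • -w)).trans (H t ht le_rfl)
    rw [map_add, map_smul, hfv', smul_eq_mul] at h1
    exact le_of_mul_le_mul_left (by linarith) ht
  rw [map_neg] at hfb
  refine h.exists_cor_of_deriv (w := w) hv1 ?_ (by linarith) ha hb ha' hb'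
  intro h0
  -- then `w` is a multiple of `v`
  have hv0 : v ≠ 0 := by
    intro h1
    rw [h1, map_zero] at hfv
    exact zero_ne_one hfv
  obtain ⟨c, hc⟩ : ∃ c : ℝ, w = c • v := by
    by_cases h1 : v.1 = 0
    · have h2 : v.2 ≠ 0 := fun h2 => hv0 (Prod.ext h1 h2)
      refine ⟨w.2 / v.2, Prod.ext ?_ ?_⟩
      · show w.1 = w.2 / v.2 * v.1
        rw [h1, zero_mul, zero_sub, neg_eq_zero, mul_eq_zero] at h0
        rw [h1, mul_zero]
        exact h0.resolve_left h2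
      · show w.2 = w.2 / v.2 * v.2
        rw [div_mul_cancel₀ _ h2]
    · refine ⟨w.1 / v.1, Prod.ext ?_ ?_⟩
      · show w.1 = w.1 / v.1 * v.1
        rw [div_mul_cancel₀ _ h1]
      · show w.2 = w.1 / v.1 * v.2
        field_simp
        linarith
  rw [hc, map_smul, map_smul, hfv, hfv'] at hw
  exact lt_irrefl _ hw

end Pool.Agent.W_1b8d5d_nc
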