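import Pool.Agent.W_1b8d5d_nc.Geo3

/-!
MP_1b8d5d_pr (no corner): norms on finite dimensional spaces without vertices. All dimensions.
-/

set_option autoImplicit false

open Set Metric Filter Topology

namespace Pool.Agent.W_1b8d5d_nc

variable {E : Type*} [NormedAddCommGroup E] [NormedSpace ℝ E]

/-- A norm (as a function) on a normed space, continuous for the given norm. -/
structure NormFun (μ : E → ℝ) : Prop where
  cont : Continuous μ
  hom : ∀ (c : ℝ) (x : E), 0 ≤ c → μ (c • x) = c * μ x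
  add : ∀ x y, μ (x + y) ≤ μ x + μ y
  pos : ∀ x, x ≠ 0 → 0 < μ x

/-- A vertex of the unit ball of `μ`: the linear form `f` touches at `u`, with a linear gap in all
directions. -/
structure Vertex (μ : E → ℝ) where
  u : E
  f : E →L[ℝ] ℝ
  c : ℝ
  hc : 0 < c
  mu_u : μ u = 1
  fu : f u = 1
  low : ∀ x, f x + c * ‖x - f x • u‖ ≤ μ x

variable {μ : E → ℝ}

theorem NormFun.zero (h : NormFun μ) : μ 0 = 0 := by
  have h2 := h.hom 0 0 le_rfl
  rwa [smul_zero, zero_mul] at h2

theorem NormFun.nonneg (h : NormFun μ) (x : E) : 0 ≤ μ x := by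
  by_cases hx : x = 0
  · rw [hx, h.zero]
  · exact (h.pos x hx).le

theorem NormFun.convex (h : NormFun μ) : Convex ℝ {x | μ x ≤ 1} := by
  intro x hx y hy a b ha hb hab
  have hx' : μ x ≤ 1 := hx
  have hy' : μ y ≤ 1 := hy
  show μ (a • x + b • y) ≤ 1
  have h1 := h.add (a • x) (b • y)
  rw [h.hom a x ha, h.hom b y hb] at h1
  have h2 : a * μ x ≤ a * 1 := mul_le_mul_of_nonneg_left hx' ha
  have h3 : b * μ y ≤ b * 1 := mul_le_mul_of_nonneg_left hy' hb
  linarith

theorem NormFun.zero_mem_interior (h : NormFun μ) : (0 : E) ∈ interior {x | μ x ≤ 1} := by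
  have h0 : {x | μ x < 1} ⊆ {x | μ x ≤ 1} := by
    intro x hx
    have hx' : μ x < 1 := hx
    exact hx'.le
  have h1 : {x | μ x < 1} ⊆ interior {x | μ x ≤ 1} :=
    interior_maximal h0 (isOpen_lt h.cont continuous_const)
  refine h1 ?_
  show μ 0 < 1
  rw [h.zero]
  exact one_pos

theorem NormFun.lower [FiniteDimensional ℝ E] (h : NormFun μ) :
    ∃ c : ℝ, 0 < c ∧ ∀ x, c * ‖x‖ ≤ μ x := by
  haveI : ProperSpace E := FiniteDimensional.proper ℝ E
  rcases subsingleton_or_nontrivial E with hE | hE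
  · refine ⟨1, one_pos, fun x => ?_⟩
    rw [Subsingleton.elim x 0, h.zero, norm_zero, mul_zero]
  · obtain ⟨x₀, hx₀, hmin⟩ := (isCompact_sphere (0 : E) 1).exists_isMinOn
      (NormedSpace.sphere_nonempty.2 zero_le_one) h.cont.continuousOn
    have hx0 : x₀ ≠ 0 := by
      intro h0
      rw [mem_sphere_zero_iff_norm, h0, norm_zero] at hx₀
      exact zero_ne_one hx₀
    refine ⟨μ x₀, h.pos x₀ hx0, fun x => ?_⟩
    by_cases hx : x = 0
    · rw [hx, h.zero, norm_zero, mul_zero]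
    · have hn : 0 < ‖x‖ := norm_pos_iff.2 hx
      have h1 : μ x₀ ≤ μ (‖x‖⁻¹ • x) := hmin (by
        rw [mem_sphere_zero_iff_norm, norm_smul, norm_inv, norm_norm, inv_mul_cancel₀ hn.ne'])
      rw [h.hom _ _ (inv_nonneg.2 hn.le)] at h1
      have h2 := mul_le_mul_of_nonneg_right h1 hn.le
      rw [mul_comm (‖x‖⁻¹) (μ x), mul_assoc, inv_mul_cancel₀ hn.ne', mul_one] at h2
      exact h2

theorem NormFun.isCompact [FiniteDimensional ℝ E] (h : NormFun μ) : IsCompact {x | μ x ≤ 1} := by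
  haveI : ProperSpace E := FiniteDimensional.proper ℝ E
  obtain ⟨c, hc, hlow⟩ := h.lower
  refine Metric.isCompact_of_isClosed_isBounded (isClosed_le h.cont continuous_const) ?_
  refine (isBounded_iff_forall_norm_le).2 ⟨1 / c, fun x hx => ?_⟩
  have hx' : μ x ≤ 1 := hx
  rw [le_div_iff₀ hc, mul_comm]
  exact (hlow x).trans hx'

theorem NormFun.ne_zero_of_extreme [Nontrivial E] (h : NormFun μ) {v : E}
    (hv : v ∈ {x | μ x ≤ 1}.extremePoints ℝ) : v ≠ 0 := by
  rintro rfl
  obtain ⟨x, hx⟩ := exists_ne (0 : E)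
  have h1 := h.pos x hx
  have h2 := h.pos (-x) (neg_ne_zero.2 hx)
  obtain ⟨s, hs, hs1, hs2⟩ : ∃ s : ℝ, 0 < s ∧ s * μ x ≤ 1 ∧ s * μ (-x) ≤ 1 := by
    refine ⟨1 / (μ x + μ (-x)), by positivity, ?_, ?_⟩
    · rw [div_mul_eq_mul_div, one_mul, div_le_one (by positivity)]
      linarith
    · rw [div_mul_eq_mul_div, one_mul, div_le_one (by positivity)]
      linarith
  have hA : s • x ∈ {x | μ x ≤ 1} := by
    show μ (s • x) ≤ 1
    rw [h.hom _ _ hs.le]
    exact hs1
  have hB : s • -x ∈ {x | μ x ≤ 1} := by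
    show μ (s • -x) ≤ 1
    rw [h.hom _ _ hs.le]
    exact hs2
  have hseg : (0 : E) ∈ openSegment ℝ (s • x) (s • -x) := by
    refine ⟨1 / 2, 1 / 2, by norm_num, by norm_num, by norm_num, ?_⟩
    module
  have h3 := hv.2 hA hB hseg
  rcases smul_eq_zero.1 h3 with h4 | h4
  · exact hs.ne' h4
  · exact hx h4

/-- An isolated extreme point of the unit ball is a vertex. -/
theorem NormFun.vertex_of_isolated [FiniteDimensional ℝ E] [Nontrivial E] (h : NormFun μ) {v : E}
    (hv : v ∈ {x | μ x ≤ 1}.extremePoints ℝ) {ε : ℝ} (hε : 0 < ε)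
    (hiso : ∀ w ∈ {x | μ x ≤ 1}.extremePoints ℝ, w ≠ v → ε ≤ dist w v) : Nonempty (Vertex μ) := by
  obtain ⟨f, δ, hδ, hfv, hlow⟩ := exists_vertex_of_isolated h.isCompact h.convex
    h.zero_mem_interior hv (h.ne_zero_of_extreme hv) hε hiso
  have hall : ∀ x, f x + δ * ‖x - f x • v‖ ≤ μ x := by
    intro x
    by_cases hx : x = 0
    · rw [hx, map_zero, zero_smul, sub_zero, norm_zero, mul_zero, add_zero, h.zero]
    · have hμ := h.pos x hx
      have h1 := hlow ((μ x)⁻¹ • x) (by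
        show μ ((μ x)⁻¹ • x) ≤ 1
        rw [h.hom _ _ (inv_nonneg.2 hμ.le), inv_mul_cancel₀ hμ.ne'])
      rw [map_smul, smul_assoc, ← smul_sub, norm_smul, Real.norm_of_nonneg (inv_nonneg.2 hμ.le),
        smul_eq_mul] at h1
      have h2 := mul_le_mul_of_nonneg_left h1 hμ.le
      have e1 : μ x * ((μ x)⁻¹ * f x + δ * ((μ x)⁻¹ * ‖x - f x • v‖))
          = f x + δ * ‖x - f x • v‖ := by
        field_simp
      rw [e1, mul_one] at h2
      exact h2
  refine ⟨⟨v, f, δ, hδ, le_antisymm hv.1 ?_, hfv, hall⟩⟩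
  have h1 := hall v
  rw [hfv, one_smul, sub_self, norm_zero, mul_zero, add_zero] at h1
  exact h1

/-- Without vertices there is no isolated extreme point. -/
theorem NormFun.preperfect [FiniteDimensional ℝ E] [Nontrivial E] (h : NormFun μ)
    (hno : IsEmpty (Vertex μ)) : Preperfect ({x | μ x ≤ 1}.extremePoints ℝ) := by
  intro v hv
  by_contra hcon
  rw [accPt_iff_nhds] at hcon
  push Not at hcon
  obtain ⟨U, hU, hcon⟩ := hcon
  obtain ⟨ε, hε, hball⟩ := Metric.mem_nhds_iff.1 hU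
  refine hno.elim (h.vertex_of_isolated hv hε fun w hw hwv => ?_).some
  by_contra hlt
  push Not at hlt
  exact hwv (hcon w ⟨hball hlt, hw⟩)

/-- There are extreme points. -/
theorem NormFun.extreme_nonempty [FiniteDimensional ℝ E] (h : NormFun μ) :
    ({x | μ x ≤ 1}.extremePoints ℝ).Nonempty :=
  h.isCompact.extremePoints_nonempty ⟨0, interior_subset h.zero_mem_interior⟩

/-- The unit ball of a norm without vertices has infinitely many extreme points. -/
theorem NormFun.extreme_infinite [FiniteDimensional ℝ E] [Nontrivial E] (h : NormFun μ)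
    (hno : IsEmpty (Vertex μ)) : ({x | μ x ≤ 1}.extremePoints ℝ).Infinite := by
  intro hfin
  obtain ⟨v, hv⟩ := h.extreme_nonempty
  have h1 := h.preperfect hno v hv
  rw [accPt_iff_frequently] at h1
  have h2 : ({x | μ x ≤ 1}.extremePoints ℝ \ {v}) ⊆ {x | μ x ≤ 1}.extremePoints ℝ := diff_subset
  have h3 : IsClosed ({x | μ x ≤ 1}.extremePoints ℝ \ {v}) := (hfin.subset h2).isClosed
  have h4 : ∀ᶠ y in 𝓝 v, y ∉ ({x | μ x ≤ 1}.extremePoints ℝ \ {v}) :=
    h3.isOpen_compl.mem_nhds (fun h5 => h5.2 rfl)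
  obtain ⟨y, hy1, hy2⟩ := (h1.and_eventually h4).exists
  exact hy2 ⟨hy1.2, hy1.1⟩

/-- The unit ball of a norm without vertices is not a polytope. -/
theorem NormFun.not_polytope [FiniteDimensional ℝ E] [Nontrivial E] (h : NormFun μ)
    (hno : IsEmpty (Vertex μ)) {s : Set E} (hs : s.Finite) :
    {x | μ x ≤ 1} ≠ convexHull ℝ s := by
  intro heq
  refine h.extreme_infinite hno (hs.subset ?_)
  rw [heq]
  exact extremePoints_convexHull_subset

end Pool.Agent.W_1b8d5d_nc
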