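import Pool.Agent.W_1b8d5d_gd.Grid1

/-!
MP_1b8d5d_pr, general dimension, general weights on `[0, ∞)`: measurability, invariance of the law under shifts and
the reflection, subadditivity and symmetry of the time constant at the lattice vectors.
-/

set_option autoImplicit false

open MeasureTheory ProbabilityTheory Filter Topology

namespace Pool.Agent.W_1b8d5d_nc

open Pool.Agent.W_1b8d5d_gd

variable {d : ℕ} [NeZero d]

/-- Nonnegative weights. -/
def NnD (τ : Env d) : Prop := ∀ e, 0 ≤ τ e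

theorem sum_map_nonnegD {τ : Env d} (h : NnD τ) (l : List (Edge d)) : 0 ≤ (l.map τ).sum := by
  induction l with
  | nil => simp
  | cons e l ih =>
    rw [List.map_cons, List.sum_cons]
    exact add_nonneg (h e) ih

theorem NnD.cost_nonneg {τ : Env d} (h : NnD τ) {x y : V d} (w : (grid d).Walk x y) : 0 ≤ cost τ w :=
  sum_map_nonnegD h _

theorem NnD.bdd {τ : Env d} (h : NnD τ) (x y : V d) :
    BddBelow (Set.range fun w : (grid d).Walk x y => cost τ w) := by
  refine ⟨0, ?_⟩
  rintro _ ⟨w, rfl⟩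
  exact h.cost_nonneg w

theorem NnD.T_le_cost {τ : Env d} (h : NnD τ) {x y : V d} (w : (grid d).Walk x y) : T τ x y ≤ cost τ w :=
  ciInf_le (h.bdd x y) w

theorem NnD.T_nonneg {τ : Env d} (h : NnD τ) (x y : V d) : 0 ≤ T τ x y := le_ciInf fun w => h.cost_nonneg w

theorem NnD.T_self {τ : Env d} (h : NnD τ) (x : V d) : T τ x x = 0 := by
  apply le_antisymm _ (h.T_nonneg x x)
  refine (h.T_le_cost (SimpleGraph.Walk.nil : (grid d).Walk x x)).trans ?_
  simp [cost, wedges]

theorem NnD.T_triangle {τ : Env d} (h : NnD τ) (x y z : V d) : T τ x z ≤ T τ x y + T τ y z := by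
  have h1 : ∀ w : (grid d).Walk x y, T τ x z - cost τ w ≤ T τ y z := by
    intro w
    apply le_ciInf
    intro w'
    have := h.T_le_cost (w.append w')
    rw [cost_append] at this
    linarith
  have h2 : T τ x z - T τ y z ≤ T τ x y := by
    apply le_ciInf
    intro w
    have := h1 w
    linarith
  linarith

/-- Walks of the grid are determined by their support, so there are countably many. -/
instance walk_countableD (x y : V d) : Countable ((grid d).Walk x y) := by
  have h : Function.Injective (fun w : (grid d).Walk x y => w.support) :=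
    fun p q hpq => SimpleGraph.Walk.ext_support hpq
  exact h.countable

theorem measurable_listD (l : List (Edge d)) : Measurable fun τ : Env d => (l.map τ).sum := by
  induction l with
  | nil => simp
  | cons e l ih =>
    simp only [List.map_cons, List.sum_cons]
    exact (measurable_pi_apply e).add ih

theorem measurable_costD {x y : V d} (w : (grid d).Walk x y) : Measurable fun τ : Env d => cost τ w :=
  measurable_listD (wedges w)

/-- The passage time is a measurable function of the environment. -/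
theorem measurable_TD (x y : V d) : Measurable fun τ : Env d => T τ x y := by
  unfold T
  exact Measurable.iInf fun w => measurable_costD w

/-- First-passage percolation with i.i.d. weights of law `ν`. -/
structure FppD (ν : Measure ℝ) {Ω : Type} [MeasurableSpace Ω] (P : Measure Ω) (τ : Edge d → Ω → ℝ) : Prop where
  prob : IsProbabilityMeasure P
  meas : ∀ e, Measurable (τ e)
  indep : iIndepFun τ P
  law : ∀ e, P.map (τ e) = ν

variable {ν : Measure ℝ} {Ω : Type} [MeasurableSpace Ω] {P : Measure Ω} {τ : Edge d → Ω → ℝ}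

theorem FppD.meas_env (h : FppD ν P τ) : Measurable fun ω => (fun e => τ e ω : Env d) :=
  measurable_pi_lambda _ h.meas

/-- Invariance of the law under an injective relabelling of the edges. -/
theorem FppD.map_relabel (h : FppD ν P τ) {σ : Edge d → Edge d} (hσ : Function.Injective σ) :
    P.map (fun ω => (fun e => τ (σ e) ω : Env d)) = P.map (fun ω => (fun e => τ e ω : Env d)) := by
  have := h.prob
  have h1 := (iIndepFun_iff_map_fun_eq_infinitePi_map h.meas).1 h.indep
  have h2 := (iIndepFun_iff_map_fun_eq_infinitePi_map (X := fun e => τ (σ e)) (P := P)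
    fun e => h.meas (σ e)).1 (h.indep.precomp hσ)
  rw [h1, h2]
  congr 1
  funext e
  rw [h.law, h.law]

theorem FppD.relabel (h : FppD ν P τ) {σ : Edge d → Edge d} (hσ : Function.Injective σ)
    {S : Set (Env d)} (hS : MeasurableSet S) :
    P {ω | (fun e => τ (σ e) ω : Env d) ∈ S} = P {ω | (fun e => τ e ω : Env d) ∈ S} := by
  have h1 : Measurable fun ω => (fun e => τ (σ e) ω : Env d) := measurable_pi_lambda _ fun e => h.meas (σ e)
  have h2 := congrArg (fun m : Measure (Env d) => m S) (h.map_relabel hσ)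
  simp only [Measure.map_apply h1 hS, Measure.map_apply h.meas_env hS] at h2
  exact h2

/-- Shift invariance. -/
theorem FppD.shift (h : FppD ν P τ) (z x y : V d) {S : Set ℝ} (hS : MeasurableSet S) :
    P {ω | T (fun e => τ e ω) (x + z) (y + z) ∈ S} = P {ω | T (fun e => τ e ω) x y ∈ S} := by
  have hinj : Function.Injective (fun e : Edge d => ((e.1 + z, e.2) : Edge d)) := by
    rintro ⟨u, i⟩ ⟨v, j⟩ huv
    simp only [Prod.mk.injEq, add_left_inj] at huv
    exact Prod.ext huv.1 huv.2
  have h1 := h.relabel hinj (S := {σ : Env d | T σ x y ∈ S}) (measurable_TD x y hS)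
  have h2 : {ω | (fun e => τ ((e.1 + z, e.2) : Edge d) ω : Env d) ∈ {σ : Env d | T σ x y ∈ S}} =
      {ω | T (fun e => τ e ω) (x + z) (y + z) ∈ S} := by
    ext ω
    show T (sh z (fun e => τ e ω)) x y ∈ S ↔ _
    rw [T_sh]
    exact Iff.rfl
  rw [h2] at h1
  exact h1

/-- Reflection invariance. -/
theorem FppD.reflect (h : FppD ν P τ) (x y : V d) {S : Set ℝ} (hS : MeasurableSet S) :
    P {ω | T (fun e => τ e ω) (-x) (-y) ∈ S} = P {ω | T (fun e => τ e ω) x y ∈ S} := by
  have hinj : Function.Injective (fun e : Edge d => ((-e.1 - dir e.2, e.2) : Edge d)) := by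
    rintro ⟨u, i⟩ ⟨v, j⟩ huv
    simp only [Prod.mk.injEq] at huv
    obtain ⟨h1, rfl⟩ := huv
    rw [sub_left_inj, neg_inj] at h1
    exact Prod.ext h1 rfl
  have h1 := h.relabel hinj (S := {σ : Env d | T σ x y ∈ S}) (measurable_TD x y hS)
  have h2 : {ω | (fun e => τ ((-e.1 - dir e.2, e.2) : Edge d) ω : Env d) ∈ {σ : Env d | T σ x y ∈ S}} =
      {ω | T (fun e => τ e ω) (-x) (-y) ∈ S} := by
    ext ω
    show T (rf (fun e => τ e ω)) x y ∈ S ↔ _
    rw [T_rf]
    exact Iff.rfl
  rw [h2] at h1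
  exact h1

theorem FppD.meas_T (h : FppD ν P τ) (x y : V d) : Measurable fun ω => T (fun e => τ e ω) x y :=
  (measurable_TD x y).comp h.meas_env

/-- The weights are almost surely nonnegative. -/
theorem FppD.ae_nn (h : FppD ν P τ) (hν : ν (Set.Iio 0) = 0) : ∀ᵐ ω ∂P, NnD (fun e => τ e ω) := by
  unfold NnD
  rw [ae_all_iff]
  intro e
  have h1 : P.map (τ e) (Set.Iio 0) = 0 := by rw [h.law e, hν]
  rw [Measure.map_apply (h.meas e) measurableSet_Iio] at h1
  rw [ae_iff]
  have h2 : {ω | ¬ 0 ≤ τ e ω} = τ e ⁻¹' Set.Iio 0 := by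
    ext ω
    simp
  rw [h2]
  exact h1

theorem FppD.ae_pos (h : FppD ν P τ) (hν : ν (Set.Iic 0) = 0) (e : Edge d) : ∀ᵐ ω ∂P, 0 < τ e ω := by
  have h1 : P.map (τ e) (Set.Iic 0) = 0 := by rw [h.law e, hν]
  rw [Measure.map_apply (h.meas e) measurableSet_Iic] at h1
  rw [ae_iff]
  have h2 : {ω | ¬ 0 < τ e ω} = τ e ⁻¹' Set.Iic 0 := by
    ext ω
    simp
  rw [h2]
  exact h1

/-- The real vector of a lattice vector. -/
def toRD (x : V d) : Fin d → ℝ := fun i => (x i : ℝ)

omit [NeZero d] in
theorem toRD_add (x y : V d) : toRD (x + y) = toRD x + toRD y := by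
  funext i
  simp [toRD]

omit [NeZero d] in
theorem toRD_neg (x : V d) : toRD (-x) = -toRD x := by
  funext i
  simp [toRD]

omit [NeZero d] in
theorem toRD_nsmul (n : ℕ) (x : V d) : toRD (n • x) = (n : ℝ) • toRD x := by
  funext i
  simp [toRD]

/-- The time constant `μ` is the limit in probability of the passage times at the lattice vectors. -/
def LimD (P : Measure Ω) (τ : Edge d → Ω → ℝ) (μ : (Fin d → ℝ) → ℝ) : Prop :=
  ∀ x : V d, TendstoInMeasure P (fun (n : ℕ) (ω : Ω) => T (fun e => τ e ω) 0 (n • x) / (n : ℝ)) atTop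
    (fun _ => μ (toRD x))

/-- Three events with small probability have a common complement. -/
theorem exists_good3 {P : Measure Ω} [IsProbabilityMeasure P] {A B C N : Set Ω} (hN : P N = 0)
    (hA : P.real A < 1 / 3) (hB : P.real B < 1 / 3) (hC : P.real C < 1 / 3) :
    ∃ ω, ω ∉ A ∧ ω ∉ B ∧ ω ∉ C ∧ ω ∉ N := by
  by_contra hcon
  push Not at hcon
  have h1 : (Set.univ : Set Ω) ⊆ A ∪ B ∪ C ∪ N := by
    intro ω _
    by_cases h1 : ω ∈ A
    · exact Or.inl (Or.inl (Or.inl h1))
    · by_cases h2 : ω ∈ B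
      · exact Or.inl (Or.inl (Or.inr h2))
      · by_cases h3 : ω ∈ C
        · exact Or.inl (Or.inr h3)
        · exact Or.inr (hcon ω h1 h2 h3)
  have h2 : P.real Set.univ ≤ P.real (A ∪ B ∪ C ∪ N) := measureReal_mono h1 (measure_ne_top _ _)
  have h3 : P.real (A ∪ B ∪ C ∪ N) ≤ P.real (A ∪ B ∪ C) + P.real N := measureReal_union_le _ _
  have h4 : P.real (A ∪ B ∪ C) ≤ P.real (A ∪ B) + P.real C := measureReal_union_le _ _
  have h5 : P.real (A ∪ B) ≤ P.real A + P.real B := measureReal_union_le _ _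
  have h6 : P.real N = 0 := by rw [measureReal_def, hN, ENNReal.toReal_zero]
  have h7 : P.real (Set.univ : Set Ω) = 1 := probReal_univ
  linarith

theorem LimD.ev {μ : (Fin d → ℝ) → ℝ} (hl : LimD P τ μ) [IsProbabilityMeasure P] (x : V d) {ε : ℝ} (hε : 0 < ε)
    {η : ℝ} (hη : 0 < η) :
    ∀ᶠ n : ℕ in atTop, P.real {ω | ε ≤ |T (fun e => τ e ω) 0 (n • x) / (n : ℝ) - μ (toRD x)|} < η := by
  have h1 := hl x
  rw [tendstoInMeasure_iff_measureReal_norm] at h1
  have h2 := (tendsto_order.1 (h1 ε hε)).2 η hη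
  exact h2

/-- Subadditivity at the lattice vectors. -/
theorem LimD.add {μ : (Fin d → ℝ) → ℝ} (h : FppD ν P τ) (hν : ν (Set.Iio 0) = 0) (hl : LimD P τ μ) (x y : V d) :
    μ (toRD (x + y)) ≤ μ (toRD x) + μ (toRD y) := by
  have := h.prob
  refine le_of_forall_pos_le_add fun ε hε => ?_
  have hε3 : 0 < ε / 3 := by linarith
  have h1 := hl.ev (x + y) hε3 (η := 1 / 3) (by norm_num)
  have h2 := hl.ev x hε3 (η := 1 / 3) (by norm_num)
  have h3 := hl.ev y hε3 (η := 1 / 3) (by norm_num)
  obtain ⟨n, hn1, hn2, hn3, hn0⟩ := (h1.and (h2.and (h3.and (eventually_ge_atTop 1)))).exists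
  have hn : (0 : ℝ) < n := by exact_mod_cast hn0
  have h4 := h.ae_nn hν
  rw [ae_iff] at h4
  -- the shifted event
  have hsh : P.real {ω | ε / 3 ≤ |T (fun e => τ e ω) (n • x) (n • (x + y)) / (n : ℝ) - μ (toRD y)|} < 1 / 3 := by
    have hS : MeasurableSet {t : ℝ | ε / 3 ≤ |t / (n : ℝ) - μ (toRD y)|} :=
      measurableSet_le measurable_const ((measurable_id.div_const _).sub_const _).abs
    have h5 := h.shift (n • x) 0 (n • y) hS
    have e1 : (0 : V d) + n • x = n • x := zero_add _
    have e2 : n • y + n • x = n • (x + y) := by rw [smul_add, add_comm]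
    rw [e1, e2] at h5
    have h6 := congrArg ENNReal.toReal h5
    have h7 : P.real {ω | ε / 3 ≤ |T (fun e => τ e ω) (n • x) (n • (x + y)) / (n : ℝ) - μ (toRD y)|} =
        P.real {ω | ε / 3 ≤ |T (fun e => τ e ω) 0 (n • y) / (n : ℝ) - μ (toRD y)|} := h6
    rw [h7]
    exact hn3
  obtain ⟨ω, ha, hb, hc, hd⟩ := exists_good3 h4 hn1 hn2 hsh
  simp only [Set.mem_ofPred_eq, not_le, not_not] at ha hb hc hd
  have h8 := hd.T_triangle 0 (n • x) (n • (x + y))
  have h9 : T (fun e => τ e ω) 0 (n • (x + y)) / (n : ℝ) ≤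
      T (fun e => τ e ω) 0 (n • x) / (n : ℝ) + T (fun e => τ e ω) (n • x) (n • (x + y)) / (n : ℝ) := by
    rw [← add_div]
    exact div_le_div_of_nonneg_right h8 hn.le
  rw [abs_lt] at ha hb hc
  linarith [ha.1, hb.2, hc.2]

/-- The time constant is even at the lattice vectors. -/
theorem LimD.neg {μ : (Fin d → ℝ) → ℝ} (h : FppD ν P τ) (hl : LimD P τ μ) (x : V d) :
    μ (toRD (-x)) = μ (toRD x) := by
  have := h.prob
  have key : ∀ ε : ℝ, 0 < ε → |μ (toRD (-x)) - μ (toRD x)| ≤ ε := by
    intro ε hε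
    have hε3 : 0 < ε / 2 := by linarith
    have h1 := hl.ev (-x) hε3 (η := 1 / 3) (by norm_num)
    have h2 := hl.ev x hε3 (η := 1 / 3) (by norm_num)
    obtain ⟨n, hn1, hn2⟩ := (h1.and h2).exists
    have hrf : P.real {ω | ε / 2 ≤ |T (fun e => τ e ω) 0 (n • -x) / (n : ℝ) - μ (toRD x)|} < 1 / 3 := by
      have hS : MeasurableSet {t : ℝ | ε / 2 ≤ |t / (n : ℝ) - μ (toRD x)|} :=
        measurableSet_le measurable_const ((measurable_id.div_const _).sub_const _).abs
      have h5 := h.reflect 0 (n • x) hS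
      have e2 : -(n • x) = n • -x := (smul_neg _ _).symm
      rw [neg_zero, e2] at h5
      have h6 := congrArg ENNReal.toReal h5
      have h7 : P.real {ω | ε / 2 ≤ |T (fun e => τ e ω) 0 (n • -x) / (n : ℝ) - μ (toRD x)|} =
          P.real {ω | ε / 2 ≤ |T (fun e => τ e ω) 0 (n • x) / (n : ℝ) - μ (toRD x)|} := h6
      rw [h7]
      exact hn2
    obtain ⟨ω, ha, hb, -, -⟩ := exists_good3 (C := ∅) (N := ∅) (P := P) (by simp) hn1 hrf (by simp)
    simp only [Set.mem_ofPred_eq, not_le] at ha hb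
    rw [abs_lt] at ha hb
    rw [abs_le]
    constructor <;> linarith [ha.1, ha.2, hb.1, hb.2]
  have h0 : |μ (toRD (-x)) - μ (toRD x)| ≤ 0 := le_of_forall_pos_le_add fun ε hε => by
    rw [zero_add]
    exact key ε hε
  have h1 := abs_eq_zero.1 (le_antisymm h0 (abs_nonneg _))
  linarith

end Pool.Agent.W_1b8d5d_nc
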