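import Pool.Agent.W_1b8d5d_LE.Tail

/-!
MP_1b8d5d_pr, track P, the extension (NC) of the class of laws, proofs row 650 (4): the induction over the coordinates of the
doubling inequality at zero temperature, from the inequality for one coordinate (`OneC`) only. Port of helper57's `LE/Ind`,
`LE/Tail`. (helper17)
-/

namespace Pool.Agent.W_1b8d5d_nc

open MeasureTheory Set
open Pool.Agent.W_7d29a1_h47 (EM)
open Pool.Agent.W_7d29a1_t2 (mp_cons measurable_cons measurable_inner)
open Pool.Agent.W_7d29a1_LE (G1 G1.of_le G1.mono G1.const G1.abs_sub G1.exp_abs Gr Gr.of_le Gr.const Gr.fubini Gr.inner ZZ EE Z1 E1 Gd psi sum_abs_nonneg sum_abs_cons tangent)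
open Pool.Agent.W_1b8d5d_LE (Pot0 ZZ_pos ZZ_eq Z1_pos G1_Z1 G1_E1 G1_logZ E1_mul EE_mul EE_eq Gd_nonneg Gd_le_one log_Z1_ge IsP0 psi_eq0
  moment_mono0)

noncomputable section

/-- The inequality for one coordinate, with the constant `C`, at the parameter `t`. -/
def OneC (μ : Measure ℝ) (C t : ℝ) : Prop := ∀ Z G R Φ : ℝ → ℝ, (∀ x, 0 < Z x) → (∀ x, 0 ≤ G x) → (∀ x, G x ≤ 1) →
    (∀ x y, x ≤ y → t * G x * (y - x) ≤ Real.log (Z y) - Real.log (Z x)) →
    (∀ x y, x ≤ y → Real.log (Z y) - Real.log (Z x) ≤ t * G y * (y - x)) →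
    Measurable G → G1 R → G1 Φ → (∀ x y, R x + G x * (y - x) ≤ Φ y) →
    ∫ x, Z x / (∫ u, Z u ∂μ) * R x ∂μ -
      C / t * ∫ x, Z x / (∫ u, Z u ∂μ) * (Real.log (Z x) - Real.log (∫ u, Z u ∂μ)) ∂μ ≤ ∫ x, Φ x ∂μ

variable {μ : Measure ℝ} [IsProbabilityMeasure μ]

/-- THE ENTROPY INEQUALITY: for `Φ a ≥ f x + ∇F x (a - x)` the mean of `Φ` is at least the Gibbs mean of `f` minus a
constant times the relative entropy. -/
theorem entropy_gen (hμ : EM μ) {C t : ℝ} (ht0 : 0 < t) (hone : OneC μ C t)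
    (N : ℕ) : ∀ (F : (Fin N → ℝ) → ℝ) (D : Fin N → (Fin N → ℝ) → ℝ), Pot0 F D →
    ∀ Φ f : (Fin N → ℝ) → ℝ, Gr Φ → Gr f →
      (∀ x a, f x + ∑ i, D i x * (a i - x i) ≤ Φ a) →
      EE μ t F f - C / t * (t * EE μ t F F - Real.log (ZZ μ t F)) ≤
        ∫ x, Φ x ∂(Measure.pi fun _ : Fin N => μ) := by
  induction N with
  | zero =>
    intro F D h Φ f hΦ hf hle
    have e : ∀ g : (Fin 0 → ℝ) → ℝ, ∫ x, g x ∂(Measure.pi fun _ : Fin 0 => μ) = g default := by
      intro g
      have h3 : (fun x => g x) = fun _ => g default := by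
        funext x
        congr 1
        exact Subsingleton.elim _ _
      rw [h3]
      simp
    have hZ : ZZ μ t F = Real.exp (t * F default) := e _
    have hE : ∀ g : (Fin 0 → ℝ) → ℝ, EE μ t F g = g default := by
      intro g
      unfold EE
      rw [hZ, e fun x => g x * Real.exp (t * F x)]
      have := Real.exp_pos (t * F default)
      field_simp
    rw [hE, hE, hZ, Real.log_exp, e]
    have h4 := hle default default
    rw [Finset.univ_eq_empty, Finset.sum_empty, add_zero] at h4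
    have h5 : C / t * (t * F default - t * F default) = 0 := by ring
    rw [h5]
    linarith
  | succ N ih =>
    intro F D h Φ f hΦ hf hle
    have ht0' : (0 : ℝ) ≤ t := ht0.le
    set Z := Z1 μ t F with hZ
    have hZp : ∀ r, 0 < Z r := Z1_pos hμ h ht0'
    have gZ : G1 Z := G1_Z1 hμ h ht0'
    set I := ∫ u, Z u ∂μ with hI
    have hIp : 0 < I := by
      have := ZZ_pos hμ h ht0'
      rw [ZZ_eq hμ h ht0'] at this
      exact this
    -- the conditional quantities
    set G := Gd μ t F D with hG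
    have gG : G1 G := G1_E1 hμ h ht0' (h.GrD 0)
    set R : ℝ → ℝ := fun r => E1 μ t F f r - C / t * (t * E1 μ t F F r - Real.log (Z r)) with hR
    have gEf : G1 (E1 μ t F f) := G1_E1 hμ h ht0' hf
    have gEF : G1 (E1 μ t F F) := G1_E1 hμ h ht0' h.GrF
    have glZ : G1 fun r => Real.log (Z r) := G1_logZ hμ h ht0'
    have gH : G1 fun r => t * E1 μ t F F r - Real.log (Z r) := ((G1.const t).mul gEF).sub glZ
    have gR : G1 R := gEf.sub ((G1.const (C / t)).mul gH)
    set Φb : ℝ → ℝ := fun s => ∫ x, Φ (Fin.cons s x : Fin (N + 1) → ℝ) ∂(Measure.pi fun _ : Fin N => μ) with hΦb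
    have gΦb : G1 Φb := Gr.inner hμ hΦ
    have step : ∀ r s, R r + G r * (s - r) ≤ Φb s := by
      intro r s
      have h1 := ih (fun x : Fin N → ℝ => F (Fin.cons r x : Fin (N + 1) → ℝ))
        (fun (i : Fin N) (x : Fin N → ℝ) => D i.succ (Fin.cons r x : Fin (N + 1) → ℝ)) (h.slice r)
        (fun x : Fin N → ℝ => Φ (Fin.cons s x : Fin (N + 1) → ℝ))
        (fun x : Fin N → ℝ => f (Fin.cons r x : Fin (N + 1) → ℝ) +
          D 0 (Fin.cons r x : Fin (N + 1) → ℝ) * (s - r)) (hΦ.slice s)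
        ((hf.slice r).add (((h.GrD 0).slice r).mul (Gr.const (s - r)))) (by
          intro x a
          have h2 := hle (Fin.cons r x : Fin (N + 1) → ℝ) (Fin.cons s a : Fin (N + 1) → ℝ)
          rw [Fin.sum_univ_succ] at h2
          simp only [Fin.cons_zero, Fin.cons_succ] at h2
          linarith)
      have e1 : EE μ t (fun x : Fin N → ℝ => F (Fin.cons r x : Fin (N + 1) → ℝ))
          (fun x : Fin N → ℝ => f (Fin.cons r x : Fin (N + 1) → ℝ) +
            D 0 (Fin.cons r x : Fin (N + 1) → ℝ) * (s - r)) = E1 μ t F f r + G r * (s - r) := by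
        have gE := (h.slice r).GrE ht0'
        have i1 := ((hf.slice r).mul gE).integrable hμ
        have i2 := ((((h.GrD 0).slice r).mul gE).mul (Gr.const (s - r))).integrable hμ
        have e2 : ∫ x, (f (Fin.cons r x : Fin (N + 1) → ℝ) + D 0 (Fin.cons r x : Fin (N + 1) → ℝ) * (s - r)) *
            Real.exp (t * F (Fin.cons r x : Fin (N + 1) → ℝ)) ∂(Measure.pi fun _ : Fin N => μ) =
            E1 μ t F f r * Z r + G r * Z r * (s - r) := by
          have e3 : ∀ x : Fin N → ℝ, (f (Fin.cons r x : Fin (N + 1) → ℝ) +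
              D 0 (Fin.cons r x : Fin (N + 1) → ℝ) * (s - r)) *
              Real.exp (t * F (Fin.cons r x : Fin (N + 1) → ℝ)) =
              f (Fin.cons r x : Fin (N + 1) → ℝ) * Real.exp (t * F (Fin.cons r x : Fin (N + 1) → ℝ)) +
              D 0 (Fin.cons r x : Fin (N + 1) → ℝ) * Real.exp (t * F (Fin.cons r x : Fin (N + 1) → ℝ)) *
                (s - r) := fun x => by ring
          simp_rw [e3]
          rw [integral_add i1 i2, integral_mul_const]
          have a1 := E1_mul hμ h ht0' f r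
          have a2 := E1_mul hμ h ht0' (D 0) r
          rw [← a1, ← a2]
          rfl
        have e4 : EE μ t (fun x : Fin N → ℝ => F (Fin.cons r x : Fin (N + 1) → ℝ))
          (fun x : Fin N → ℝ => f (Fin.cons r x : Fin (N + 1) → ℝ) +
            D 0 (Fin.cons r x : Fin (N + 1) → ℝ) * (s - r)) =
            (E1 μ t F f r * Z r + G r * Z r * (s - r)) / Z r := by
          rw [← e2]
          rfl
        rw [e4]
        have := (hZp r).ne'
        field_simp
      rw [e1] at h1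
      have e5 : EE μ t (fun x : Fin N → ℝ => F (Fin.cons r x : Fin (N + 1) → ℝ))
          (fun x : Fin N → ℝ => F (Fin.cons r x : Fin (N + 1) → ℝ)) = E1 μ t F F r := rfl
      have e6 : ZZ μ t (fun x : Fin N → ℝ => F (Fin.cons r x : Fin (N + 1) → ℝ)) = Z r := rfl
      rw [e5, e6] at h1
      show E1 μ t F f r - C / t * (t * E1 μ t F F r - Real.log (Z r)) + G r * (s - r) ≤ Φb s
      have e7 : ∫ x, Φ (Fin.cons s x : Fin (N + 1) → ℝ) ∂(Measure.pi fun _ : Fin N => μ) = Φb s := rfl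
      rw [e7] at h1
      linarith
    have hone := hone Z G R Φb hZp (Gd_nonneg hμ h ht0')
      (Gd_le_one hμ h ht0') (fun x y _ => log_Z1_ge hμ h ht0' x y) (fun x y _ => by
        have h1 := log_Z1_ge hμ h ht0' y x
        show Real.log (Z1 μ t F y) - Real.log (Z1 μ t F x) ≤ t * Gd μ t F D y * (y - x)
        linarith) gG.meas gR gΦb step
    rw [← hI] at hone
    have hfub : ∫ s, Φb s ∂μ = ∫ x, Φ x ∂(Measure.pi fun _ : Fin (N + 1) => μ) := (Gr.fubini hμ hΦ).symm
    rw [hfub] at hone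
    -- the density of the first coordinate
    set hd : ℝ → ℝ := fun r => Z r / I with hhd
    have ghd : G1 hd := by
      have := gZ.mul (G1.const I⁻¹)
      simpa [hhd, div_eq_mul_inv] using this
    have hhd1 : ∫ r, hd r ∂μ = 1 := by
      rw [hhd, integral_div]
      exact div_self hIp.ne'
    set Ent := ∫ r, hd r * (Real.log (Z r) - Real.log I) ∂μ with hEnt
    have hone' : ∫ r, hd r * R r ∂μ - C / t * Ent ≤ ∫ x, Φ x ∂(Measure.pi fun _ : Fin (N + 1) => μ) := hone
    -- the chain rule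
    have gEfh : G1 fun r => hd r * E1 μ t F f r := ghd.mul gEf
    have gEFh : G1 fun r => hd r * E1 μ t F F r := ghd.mul gEF
    have gLh : G1 fun r => hd r * Real.log (Z r) := ghd.mul glZ
    have f1 : ∫ r, hd r * R r ∂μ = ∫ r, hd r * E1 μ t F f r ∂μ -
        C / t * (t * ∫ r, hd r * E1 μ t F F r ∂μ - ∫ r, hd r * Real.log (Z r) ∂μ) := by
      have e1 : (fun r => hd r * R r) = fun r => hd r * E1 μ t F f r -
          C / t * (t * (hd r * E1 μ t F F r) - hd r * Real.log (Z r)) := by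
        funext r
        rw [hR]
        ring
      rw [e1]
      have j1 : Integrable (fun r => t * (hd r * E1 μ t F F r)) μ := ((G1.const t).mul gEFh).integrable hμ
      have j2 : Integrable (fun r => C / t * (t * (hd r * E1 μ t F F r) - hd r * Real.log (Z r))) μ :=
        ((G1.const (C / t)).mul (((G1.const t).mul gEFh).sub gLh)).integrable hμ
      rw [integral_sub (gEfh.integrable hμ) j2, integral_const_mul, integral_sub j1 (gLh.integrable hμ),
        integral_const_mul]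
    have f2 : Ent = ∫ r, hd r * Real.log (Z r) ∂μ - Real.log I := by
      rw [hEnt]
      have e1 : ∀ r, hd r * (Real.log (Z r) - Real.log I) = hd r * Real.log (Z r) - hd r * Real.log I :=
        fun r => by ring
      simp_rw [e1]
      rw [integral_sub (gLh.integrable hμ) ((ghd.mul (G1.const _)).integrable hμ), integral_mul_const, hhd1,
        one_mul]
    have f3 : EE μ t F f = ∫ r, hd r * E1 μ t F f r ∂μ := EE_eq hμ h ht0' hf
    have f4 : EE μ t F F = ∫ r, hd r * E1 μ t F F r ∂μ := EE_eq hμ h ht0' h.GrF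
    have f5 : ZZ μ t F = I := ZZ_eq hμ h ht0'
    rw [f3, f4, f5]
    rw [f1] at hone'
    have f6 : C / t * (t * ∫ r, hd r * E1 μ t F F r ∂μ - Real.log I) =
        C / t * (t * ∫ r, hd r * E1 μ t F F r ∂μ - ∫ r, hd r * Real.log (Z r) ∂μ) + C / t * Ent := by
      rw [f2]
      ring
    rw [f6]
    linarith

/-- THE DOUBLING INEQUALITY AT ZERO TEMPERATURE. -/
theorem le0_gen (hμ : EM μ) {C t0 : ℝ} (hC0 : 0 ≤ C) (hone : ∀ t, 0 < t → t ≤ t0 → OneC μ C t) :
    ∃ a : ℝ, 0 < a ∧ ∀ (n : ℕ) (F : (Fin n → ℝ) → ℝ)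
    (D : Fin n → (Fin n → ℝ) → ℝ), Pot0 F D → ∀ t : ℝ, 0 < t → t ≤ t0 →
      (2 + a) * psi (Measure.pi fun _ : Fin n => μ) F t ≤ psi (Measure.pi fun _ : Fin n => μ) F (2 * t) := by
  refine ⟨1 / (C + 1), by positivity, ?_⟩
  intro n F D hPot t ht0 htL
  have ht0' : 0 ≤ t := ht0.le
  set P : Measure (Fin n → ℝ) := Measure.pi fun _ : Fin n => μ with hP
  set m := ∫ y, F y ∂P with hm
  have hmain := entropy_gen hμ ht0 (hone t ht0 htL) n F D hPot F F hPot.GrF hPot.GrF hPot.cvx
  rw [← hP, ← hm] at hmain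
  set E := EE μ t F F with hE
  have hZ1 := ZZ_pos hμ hPot ht0'
  have hZ2 := ZZ_pos hμ hPot (t := 2 * t) (by linarith)
  have hpsi : ∀ s : ℝ, 0 ≤ s → psi P F s = Real.log (ZZ μ s F) - s * m := by
    intro s hs
    have e1 : ∫ x, Real.exp (s * (F x - ∫ y, F y ∂P)) ∂P = ZZ μ s F * Real.exp (-(s * m)) := by
      unfold ZZ
      rw [← integral_mul_const]
      apply integral_congr_ae
      filter_upwards with x
      rw [← Real.exp_add]
      congr 1
      rw [← hm]
      ring
    unfold psi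
    rw [e1, Real.log_mul (ZZ_pos hμ hPot hs).ne' (Real.exp_pos _).ne', Real.log_exp]
    ring
  rw [hpsi t ht0', hpsi (2 * t) (by linarith)]
  -- Gibbs inequality at `2 t`
  have hgibbs : Real.exp (t * E) * ZZ μ t F ≤ ZZ μ (2 * t) F := by
    have gE := hPot.GrE ht0'
    have gFE := hPot.GrF.mul gE
    have h1 : ∫ x, Real.exp (t * E) * (1 - t * E) * Real.exp (t * F x) +
        Real.exp (t * E) * t * (F x * Real.exp (t * F x)) ∂P ≤ ZZ μ (2 * t) F := by
      apply integral_mono
      · exact (((Gr.const _).mul gE).add ((Gr.const _).mul gFE)).integrable hμ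
      · exact (hPot.GrE (t := 2 * t) (by linarith)).integrable hμ
      · intro x
        have h2 := mul_le_mul_of_nonneg_left (tangent (t * F x) (t * E)) (Real.exp_pos (t * F x)).le
        have h3 : Real.exp (t * F x) * Real.exp (t * F x) = Real.exp (2 * t * F x) := by
          rw [← Real.exp_add]
          congr 1
          ring
        rw [h3] at h2
        refine le_trans (le_of_eq ?_) h2
        ring
    rw [integral_add (((Gr.const _).mul gE).integrable hμ) (((Gr.const _).mul gFE).integrable hμ),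
      integral_const_mul, integral_const_mul] at h1
    have e1 : ∫ x, Real.exp (t * F x) ∂P = ZZ μ t F := rfl
    have e2 : ∫ x, F x * Real.exp (t * F x) ∂P = E * ZZ μ t F := (EE_mul hμ hPot ht0' F).symm
    rw [e1, e2] at h1
    refine le_trans (le_of_eq ?_) h1
    ring
  have hlog : t * E + Real.log (ZZ μ t F) ≤ Real.log (ZZ μ (2 * t) F) := by
    have h1 := Real.log_le_log (mul_pos (Real.exp_pos _) hZ1) hgibbs
    rwa [Real.log_mul (Real.exp_pos _).ne' hZ1.ne', Real.log_exp] at h1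
  -- conclusion
  set L := Real.log (ZZ μ t F) with hL
  have h1 : t * (E - m) ≤ C * (t * E - L) := by
    have h2 : E - C / t * (t * E - L) ≤ m := hmain
    have h3 : t * (E - m) ≤ t * (C / t * (t * E - L)) := mul_le_mul_of_nonneg_left (by linarith) ht0'
    have h4 : t * (C / t * (t * E - L)) = C * (t * E - L) := by
      field_simp
    linarith
  -- the entropy is nonnegative
  have hent : Real.exp (-(t * E)) * ZZ μ t F ≤ 1 := by
    have gE := hPot.GrE ht0'
    have gFE := hPot.GrF.mul gE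
    have h1 : ∫ x, Real.exp (-(t * E)) * (1 + t * E) * Real.exp (t * F x) +
        Real.exp (-(t * E)) * (-t) * (F x * Real.exp (t * F x)) ∂P ≤ ∫ _x, (1 : ℝ) ∂P := by
      apply integral_mono
      · exact (((Gr.const _).mul gE).add ((Gr.const _).mul gFE)).integrable hμ
      · exact integrable_const _
      · intro x
        have h2 := mul_le_mul_of_nonneg_left (tangent (-(t * F x)) (-(t * E))) (Real.exp_pos (t * F x)).le
        have h3 : Real.exp (t * F x) * Real.exp (-(t * F x)) = 1 := by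
          rw [← Real.exp_add]
          simp
        rw [h3] at h2
        refine le_trans (le_of_eq ?_) h2
        ring
    rw [integral_add (((Gr.const _).mul gE).integrable hμ) (((Gr.const _).mul gFE).integrable hμ),
      integral_const_mul, integral_const_mul] at h1
    have e1 : ∫ x, Real.exp (t * F x) ∂P = ZZ μ t F := rfl
    have e2 : ∫ x, F x * Real.exp (t * F x) ∂P = E * ZZ μ t F := (EE_mul hμ hPot ht0' F).symm
    rw [e1, e2] at h1
    simp only [integral_const, probReal_univ, smul_eq_mul, mul_one] at h1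
    refine le_trans (le_of_eq ?_) h1
    ring
  have hH : 0 ≤ t * E - L := by
    have h1 := Real.log_le_log (mul_pos (Real.exp_pos _) hZ1) hent
    rw [Real.log_mul (Real.exp_pos _).ne' hZ1.ne', Real.log_exp, Real.log_one] at h1
    linarith
  have h2 : L - t * m ≤ (C + 1) * (t * E - L) := by nlinarith
  have h3 : 1 / (C + 1) * (L - t * m) ≤ t * E - L := by
    rw [div_mul_eq_mul_div, one_mul, div_le_iff₀ (by positivity)]
    linarith
  linarith


/-- THE DOUBLING INEQUALITY AT ZERO TEMPERATURE, on an arbitrary probability space. -/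
theorem le0_env_gen (hμ : EM μ) {C t0 : ℝ} (hC0 : 0 ≤ C) (hone : ∀ t, 0 < t → t ≤ t0 → OneC μ C t) :
    ∃ a : ℝ, 0 < a ∧ ∀ {Ω : Type} [MeasurableSpace Ω]
    (P : Measure Ω) (Λ : Ω → ℝ), IsP0 P μ Λ → ∀ t : ℝ, 0 < t → t ≤ t0 → (2 + a) * psi P Λ t ≤ psi P Λ (2 * t) := by
  obtain ⟨a, ha, hLE⟩ := le0_gen hμ hC0 hone
  refine ⟨a, ha, ?_⟩
  intro Ω _ P Λ h t ht0 htL
  obtain ⟨n, F, D, r, hF, hr, he⟩ := h
  have hm : ∫ ω, Λ ω ∂P = ∫ x, F x ∂(Measure.pi fun _ : Fin n => μ) := by
    rw [← hr.map_eq, integral_map hr.measurable.aemeasurable hF.measF.aestronglyMeasurable]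
    simp_rw [he]
  have hpsi : ∀ s : ℝ, psi P Λ s = psi (Measure.pi fun _ : Fin n => μ) F s := by
    intro s
    unfold psi
    congr 1
    rw [hm]
    set m := ∫ x, F x ∂(Measure.pi fun _ : Fin n => μ)
    have h1 : Measurable fun x : Fin n → ℝ => Real.exp (s * (F x - m)) :=
      Real.measurable_exp.comp ((hF.measF.sub_const m).const_mul s)
    rw [← hr.map_eq, integral_map hr.measurable.aemeasurable h1.aestronglyMeasurable]
    simp_rw [he]
  rw [hpsi, hpsi]
  exact hLE n F D hF t ht0 htL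


/-- EXPONENTIAL LOWER TAIL RELATIVE TO THE MEAN AT ZERO TEMPERATURE: an exponential bound of the luck `Λ` at the scale `1 / t1`
gives the moments of the orders `t ≤ κ t1` with the factor `exp (- t e / 2)`, `e = - E Λ` (of any sign). -/
theorem le0_tail_gen (hμ : EM μ) {C t₀ : ℝ} (hC0 : 0 ≤ C) (hone : ∀ t, 0 < t → t ≤ t₀ → OneC μ C t) :
    ∃ κ : ℝ, 0 < κ ∧ κ ≤ 1 ∧
    ∀ {Ω : Type} [MeasurableSpace Ω] (P : Measure Ω) (Λ : Ω → ℝ), IsP0 P μ Λ → ∀ t1 c1 : ℝ, 0 < t1 → t1 ≤ t₀ →
    0 ≤ c1 → ∫ ω, Real.exp (t1 * Λ ω) ∂P ≤ Real.exp c1 → ∀ t : ℝ, 0 < t → t ≤ κ * t1 →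
    ∫ ω, Real.exp (t * Λ ω) ∂P ≤ Real.exp c1 * Real.exp (-(t * (-∫ ω, Λ ω ∂P) / 2)) := by
  obtain ⟨a, ha, hLE⟩ := le0_env_gen hμ hC0 hone
  obtain ⟨k, hk⟩ : ∃ k : ℕ, (2 / (2 + a)) ^ k < 1 / 2 := by
    apply exists_pow_lt_of_lt_one (by norm_num)
    rw [div_lt_one (by positivity)]
    linarith
  refine ⟨1 / 2 ^ k, by positivity, ?_, ?_⟩
  · rw [div_le_one (by positivity)]
    exact one_le_pow₀ (by norm_num)
  intro Ω _ P Λ h t1 c1 ht0 ht1 hc1 hmom t ht htt
  have := h.prob
  have ht' : 0 < t1 / 2 ^ k := by positivity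
  have htt' : t ≤ t1 / 2 ^ k := by
    refine htt.trans (le_of_eq ?_)
    ring
  have htt1 : t ≤ t1 := by
    refine htt'.trans (div_le_self ht0.le ?_)
    exact one_le_pow₀ (by norm_num)
  set m := ∫ ω, Λ ω ∂P with hm
  rcases le_total 0 m with hm0 | hm0
  · -- nonnegative mean
    have h1 := moment_mono0 hμ h ht htt1 hmom
    refine h1.trans ?_
    rw [← Real.exp_add]
    apply Real.exp_le_exp.2
    have h2 : t / t1 ≤ 1 := by
      rw [div_le_one ht0]
      exact htt1
    have h3 : t / t1 * c1 ≤ 1 * c1 := mul_le_mul_of_nonneg_right h2 hc1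
    have h4 := mul_nonneg ht.le hm0
    linarith
  have he : 0 ≤ -m := by linarith
  set ψ := psi P Λ with hψ
  have hiter : ∀ j : ℕ, (2 + a) ^ j * ψ (t1 / 2 ^ j) ≤ ψ t1 := by
    intro j
    induction j with
    | zero => simp
    | succ j ih =>
      refine le_trans ?_ ih
      have h1 := hLE P Λ h (t1 / 2 ^ (j + 1)) (by positivity) (by
        have h2 : t1 / 2 ^ (j + 1) ≤ t1 := div_le_self ht0.le (one_le_pow₀ (by norm_num))
        exact h2.trans ht1)
      have h2 : 2 * (t1 / 2 ^ (j + 1)) = t1 / 2 ^ j := by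
        rw [pow_succ]
        field_simp
      rw [h2] at h1
      have h3 := mul_le_mul_of_nonneg_left h1 (by positivity : (0 : ℝ) ≤ (2 + a) ^ j)
      refine le_trans (le_of_eq ?_) h3
      rw [pow_succ]
      ring
  have hpos1 : 0 < ∫ ω, Real.exp (t1 * Λ ω) ∂P := integral_exp_pos (h.exp_int hμ ht0.le)
  have hpos2 : 0 < ∫ ω, Real.exp (t1 / 2 ^ k * Λ ω) ∂P := integral_exp_pos (h.exp_int hμ ht'.le)
  have h1 : ψ t1 ≤ c1 + t1 * (-m) := by
    rw [hψ, psi_eq0 hμ h ht0.le]
    have h2 := Real.log_le_log hpos1 hmom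
    rw [Real.log_exp] at h2
    linarith
  have h2 := hiter k
  have hpk : (0 : ℝ) < (2 + a) ^ k := by positivity
  have h3 : ψ (t1 / 2 ^ k) ≤ c1 + t1 / 2 ^ k * (-m) / 2 := by
    have h4 : (2 + a) ^ k * ψ (t1 / 2 ^ k) ≤ c1 + t1 * (-m) := h2.trans h1
    have h5 : (2 : ℝ) ^ k ≤ (2 + a) ^ k / 2 := by
      rw [div_pow, div_lt_iff₀ hpk] at hk
      linarith
    have h6 : c1 ≤ (2 + a) ^ k * c1 := by
      have : (1 : ℝ) ≤ (2 + a) ^ k := one_le_pow₀ (by linarith)
      nlinarith
    have h7 : t1 * (-m) ≤ (2 + a) ^ k * (t1 / 2 ^ k * (-m) / 2) := by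
      have h8 : t1 * (-m) = 2 ^ k * (t1 / 2 ^ k * (-m)) := by
        field_simp
      have h9 : (2 + a) ^ k * (t1 / 2 ^ k * (-m) / 2) = ((2 + a) ^ k / 2) * (t1 / 2 ^ k * (-m)) := by ring
      rw [h8, h9]
      exact mul_le_mul_of_nonneg_right h5 (mul_nonneg ht'.le he)
    have h10 : (2 + a) ^ k * ψ (t1 / 2 ^ k) ≤ (2 + a) ^ k * (c1 + t1 / 2 ^ k * (-m) / 2) := by
      rw [mul_add]
      linarith
    exact le_of_mul_le_mul_left h10 hpk
  rw [hψ, psi_eq0 hμ h ht'.le] at h3
  have h4 : Real.log (∫ ω, Real.exp (t1 / 2 ^ k * Λ ω) ∂P) ≤ c1 + -(t1 / 2 ^ k * (-m) / 2) := by linarith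
  rw [Real.log_le_iff_le_exp hpos2] at h4
  have h5 := moment_mono0 hμ h ht htt' h4
  refine h5.trans ?_
  rw [← Real.exp_add]
  apply Real.exp_le_exp.2
  have h6 : t / (t1 / 2 ^ k) * (c1 + -(t1 / 2 ^ k * (-m) / 2)) = t / (t1 / 2 ^ k) * c1 + -(t * (-m) / 2) := by
    field_simp
  rw [h6]
  have h7 : t / (t1 / 2 ^ k) ≤ 1 := by
    rw [div_le_one ht']
    exact htt'
  have h8 : t / (t1 / 2 ^ k) * c1 ≤ 1 * c1 := mul_le_mul_of_nonneg_right h7 hc1
  linarith


end

end Pool.Agent.W_1b8d5d_nc
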