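import Pool.Agent.W_1b8d5d_nc.NcLEa
import Pool.Agent.W_1b8d5d_nc.NcLEg

/-!
MP_1b8d5d_pr, track P, general laws (proofs row 650, (4)): the tail form of the doubling inequality for the laws of `q U`, `q` a
quantile function which is not concentrated near the top. The induction is helper17's `NcLEg`, the coordinate is `NcLEa`.
(helper67)
-/

namespace Pool.Agent.W_1b8d5d_nc

open MeasureTheory Set
open Pool.Agent.W_1b8d5d_LE (IsP0)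

noncomputable section

variable {μ : Measure ℝ} {q : ℝ → ℝ} {θ₀ C : ℝ}

/-- The hypothesis of helper17's induction. -/
theorem Qm.oneC (hq : Qm μ q θ₀ C) {t : ℝ} (ht : 0 < t) (ht1 : 4 * t ≤ 1) (ht0 : 4 * t ≤ θ₀) :
    OneC μ (6 * (1 + C)) t :=
  fun _Z _G _R _Φ hZ hG0 hG1 glo ghi mG gR gΦ hle => one_coord hq ht ht1 ht0 hZ hG0 hG1 glo ghi mG gR gΦ hle

/-- THE TAIL FORM OF THE DOUBLING INEQUALITY. -/
theorem le0n (hq : Qm μ q θ₀ C) : ∃ κ t₀ : ℝ, 0 < κ ∧ κ ≤ 1 ∧ 0 < t₀ ∧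
    ∀ {Ω : Type} [MeasurableSpace Ω] (P : Measure Ω) (Λ : Ω → ℝ), IsP0 P μ Λ → ∀ t1 c1 : ℝ, 0 < t1 → t1 ≤ t₀ →
    0 ≤ c1 → ∫ ω, Real.exp (t1 * Λ ω) ∂P ≤ Real.exp c1 → ∀ t : ℝ, 0 < t → t ≤ κ * t1 →
    ∫ ω, Real.exp (t * Λ ω) ∂P ≤ Real.exp c1 * Real.exp (-(t * (-∫ ω, Λ ω ∂P) / 2)) := by
  have := hq.prob
  have hC := hq.qn.C0
  have hθ := hq.qn.th0
  obtain ⟨κ, hκ, hκ1, h⟩ := le0_tail_gen (t₀ := min (1 / 4) (θ₀ / 4)) hq.em (by linarith : 0 ≤ 6 * (1 + C))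
    fun t ht htt => hq.oneC ht (by linarith [htt.trans (min_le_left _ _)]) (by linarith [htt.trans (min_le_right _ _)])
  exact ⟨κ, min (1 / 4) (θ₀ / 4), hκ, hκ1, lt_min (by norm_num) (by linarith), h⟩

end

end Pool.Agent.W_1b8d5d_nc
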