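import Pool.Agent.W_1b8d5d_nc.NcRepB
import Pool.Agent.W_1b8d5d_nc.NcLEn

/-!
MP_1b8d5d_pr, track P, general laws: the exponential lower tail on the law of the environment. (helper4)
-/

namespace Pool.Agent.W_1b8d5d_nc

open MeasureTheory Set
open Pool.Agent.W_1b8d5d_h85 (V dir Env Edge grid wedges cost Bd sh)
open Pool.Agent.W_1b8d5d_p
open Pool.Agent.W_7d29a1_h42 (PN)
open Pool.Agent.W_1b8d5d_LE (Mx Dx Pot0_Mx Pot0 IsP0)
open Pool.Agent.W_1b8d5d_z (U01 BM SW)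
open Pool.Agent.W_1b8d5d_h4p (Fz Bx nw nrm nw_meas nw_mem nrm_eq exists_rep exists_rep' rx rx_mp bm_sum)

noncomputable section

variable {F : Fm} {c0 C0 : ℝ}

/-- The functionals of the class, normalised, are in the class of helper57. -/
theorem fz_isP0 (hab : F.a < F.b) {S : Set Edge} {G : Env → ℝ} (h : Fz F.a F.b S G) :
    IsP0 (law F) (nrm F) fun η => G (F.tau η) / (F.b - F.a) := by
  have hd : 0 < F.b - F.a := sub_pos.2 hab
  obtain ⟨n, m, c', A, r, hA0, hA1, hr, hrS, hr01, hGr⟩ := exists_rep hab h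
  refine ⟨n, Mx c' A, Dx c' A, r, Pot0_Mx hA0 hA1, hr, fun η => ?_⟩
  show G (F.tau η) / (F.b - F.a) = Mx c' A (r η)
  rw [hGr]
  field_simp

/-- THE EXPONENTIAL LOWER TAIL on the law of the environment, for a law given by its quantile function. -/
theorem le_q (hab : F.a < F.b) {Q : ℝ → ℝ} {θ C : ℝ} (hQ : Qn Q θ C) (hν : U01.map Q = nrm F) :
    ∃ k t₀ : ℝ, 0 < k ∧ k ≤ 1 ∧ 0 < t₀ ∧ ∀ (S : Set Edge) (G : Env → ℝ),
    Fz F.a F.b S G → ∀ t1 c1 : ℝ, 0 < t1 → t1 ≤ t₀ → 0 ≤ c1 → ∫ η, Real.exp (t1 * G (F.tau η)) ∂(law F) ≤ Real.exp c1 →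
    ∀ t : ℝ, 0 < t → t ≤ k * t1 → ∫ η, Real.exp (t * G (F.tau η)) ∂(law F) ≤
      Real.exp c1 * Real.exp (t * (∫ η, G (F.tau η) ∂(law F)) / 2) := by
  have hd : 0 < F.b - F.a := sub_pos.2 hab
  have hq : Qm (nrm F) Q θ C := ⟨hν.symm, hQ⟩
  obtain ⟨k, t₀, hk0, hk1, ht₀, hk⟩ := le0n hq
  refine ⟨k, t₀ / (F.b - F.a), hk0, hk1, by positivity, fun S G hG t1 c1 ht1 ht1' hc1 hm t ht htk => ?_⟩
  have e1 : ∀ (s : ℝ) (η : Env), s * (F.b - F.a) * (G (F.tau η) / (F.b - F.a)) = s * G (F.tau η) := by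
    intro s η
    field_simp
  have h1 := hk (law F) _ (fz_isP0 hab hG) (t1 * (F.b - F.a)) c1 (mul_pos ht1 hd) (by rwa [← le_div_iff₀ hd]) hc1 (by
      simp_rw [e1]
      exact hm) (t * (F.b - F.a)) (mul_pos ht hd) (by
      have := mul_le_mul_of_nonneg_right htk hd.le
      linarith)
  simp_rw [e1] at h1
  refine h1.trans_eq ?_
  rw [integral_div]
  congr 2
  field_simp

/-- THE EXPONENTIAL LOWER TAIL on the law of the environment. -/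
theorem le_lawN (hL : LawN F c0 C0) : ∃ k t₀ : ℝ, 0 < k ∧ k ≤ 1 ∧ 0 < t₀ ∧ ∀ (S : Set Edge) (G : Env → ℝ),
    Fz F.a F.b S G → ∀ t1 c1 : ℝ, 0 < t1 → t1 ≤ t₀ → 0 ≤ c1 → ∫ η, Real.exp (t1 * G (F.tau η)) ∂(law F) ≤ Real.exp c1 →
    ∀ t : ℝ, 0 < t → t ≤ k * t1 → ∫ η, Real.exp (t * G (F.tau η)) ∂(law F) ≤
      Real.exp c1 * Real.exp (t * (∫ η, G (F.tau η) ∂(law F)) / 2) := by
  obtain ⟨Q, θ, C, hQ, hQ1, hν⟩ := hL.quant
  exact le_q hL.ab hQ hν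

end

end Pool.Agent.W_1b8d5d_nc
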