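import Pool.Agent.W_1b8d5d_nc.Disc
import Pool.Agent.W_1b8d5d_nc.Gen

/-!
MP_1b8d5d_pr (no corner): if a compact convex set has at most one supporting direction at every point, then it has
uncountably many points of curvature, in every neighbourhood of every extreme point. All dimensions at least two.
-/

set_option autoImplicit false

open Set Filter Topology

namespace Pool.Agent.W_1b8d5d_nc

variable {d : ℕ}

/-- At most one supporting direction at every point of `K`: two nonzero linear forms which have their maximum on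
`K` at the same point are proportional. -/
def UniqueSupport (K : Set (Fin d → ℝ)) : Prop :=
  ∀ z ∈ K, ∀ p q : Fin d → ℝ, p ≠ 0 → (∀ y ∈ K, ∑ i, p i * y i ≤ ∑ i, p i * z i) →
    (∀ y ∈ K, ∑ i, q i * y i ≤ ∑ i, q i * z i) → ∃ s : ℝ, q = s • p

/-- If no point of `K` is farther from `c` than `z`, then `z - c` is an outer normal at `z`. -/
theorem support_of_farthest {K : Set (Fin d → ℝ)} {z c : Fin d → ℝ}
    (h : ∀ y ∈ K, ∑ i, (y i - c i) ^ 2 ≤ ∑ i, (z i - c i) ^ 2) :
    ∀ y ∈ K, ∑ i, (z - c) i * y i ≤ ∑ i, (z - c) i * z i := by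
  intro y hy
  have h1 := h y hy
  have h2 : ∑ i, (y i - c i) ^ 2 = ∑ i, (z i - c i) ^ 2
      + 2 * (∑ i, (z - c) i * y i - ∑ i, (z - c) i * z i) + ∑ i, (y i - z i) ^ 2 := by
    rw [← Finset.sum_sub_distrib, Finset.mul_sum, ← Finset.sum_add_distrib,
      ← Finset.sum_add_distrib]
    refine Finset.sum_congr rfl fun i _ => ?_
    rw [Pi.sub_apply]
    ring
  have h3 : 0 ≤ ∑ i, (y i - z i) ^ 2 := Finset.sum_nonneg fun i _ => sq_nonneg _
  linarith

theorem sum_sq_pos {u : Fin d → ℝ} (hu : u ≠ 0) : 0 < ∑ i, u i ^ 2 := by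
  obtain ⟨j, hj⟩ := Function.ne_iff.mp hu
  have hj' : u j ≠ 0 := hj
  exact Finset.sum_pos' (fun i _ => sq_nonneg _) ⟨j, Finset.mem_univ j, by positivity⟩

theorem exists_orth (hd : 2 ≤ d) (u : Fin d → ℝ) : ∃ w : Fin d → ℝ, w ≠ 0 ∧ ∑ i, u i * w i = 0 := by
  have h01 : (⟨0, by omega⟩ : Fin d) ≠ ⟨1, by omega⟩ := by
    intro h
    have := congrArg Fin.val h
    simp at this
  by_cases h0 : u ⟨0, by omega⟩ = 0
  · refine ⟨Pi.single ⟨0, by omega⟩ 1, ?_, ?_⟩
    · intro h
      have := congrFun h ⟨0, by omega⟩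
      simp at this
    · simp [Pi.single_apply, h0]
  · refine ⟨u ⟨1, by omega⟩ • Pi.single ⟨0, by omega⟩ 1 - u ⟨0, by omega⟩ • Pi.single ⟨1, by omega⟩ 1,
      ?_, ?_⟩
    · intro h
      have h1 := congrFun h ⟨1, by omega⟩
      simp [Pi.single_apply] at h1
      exact h0 h1
    · simp [mul_sub, Finset.sum_sub_distrib, Pi.single_apply]
      ring

/-- Every open half space which meets `K` contains uncountably many points of curvature, if `K` is compact and
has at most one supporting direction at every point.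
PROOF: let `w ≠ 0` be orthogonal to `u`, and take the centres `c(t) = - R u - t w`, `R` large, `0 ≤ t ≤ 1`, with farthest points
`z(t)` in `K`. They are in the half space. If `z(t) = z(t') = z` then `z - c(t') = s (z - c(t))`; the product with `u` is
`⟨u, z⟩ + R |u|^2 = s (⟨u, z⟩ + R |u|^2)`, so `s = 1` and `t = t'`. -/
theorem exists_curved_family {K : Set (Fin d → ℝ)} (hd : 2 ≤ d) (hK : IsCompact K)
    (hs : UniqueSupport K) {x u : Fin d → ℝ} (hu : u ≠ 0) (hx : x ∈ K) {a : ℝ}
    (ha : a < ∑ i, u i * x i) : ¬ (curvedPoints K ∩ {z | a < ∑ i, u i * z i}).Countable := by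
  obtain ⟨w, hw, huw⟩ := exists_orth hd u
  obtain ⟨M, hM⟩ := hK.exists_bound_of_continuousOn
    (f := fun y : Fin d → ℝ => ∑ i, y i ^ 2) (by fun_prop)
  obtain ⟨N, hN⟩ := hK.exists_bound_of_continuousOn
    (f := fun y : Fin d → ℝ => ∑ i, u i * y i) (by fun_prop)
  obtain ⟨W, hW⟩ := hK.exists_bound_of_continuousOn
    (f := fun y : Fin d → ℝ => ∑ i, w i * y i) (by fun_prop)
  have hU : 0 < ∑ i, u i ^ 2 := sum_sq_pos hu
  have hδ0 : 0 < (∑ i, u i * x i) - a := by linarith
  obtain ⟨R, hR0, hR1, hR2⟩ : ∃ R : ℝ, 0 < R ∧ N < R * ∑ i, u i ^ 2 ∧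
      M + 4 * W < 2 * R * ((∑ i, u i * x i) - a) := by
    refine ⟨1 + |N| / (∑ i, u i ^ 2) + |M + 4 * W| / ((∑ i, u i * x i) - a), ?_, ?_, ?_⟩
    · positivity
    · have h1 : (1 + |N| / (∑ i, u i ^ 2) + |M + 4 * W| / ((∑ i, u i * x i) - a)) * ∑ i, u i ^ 2
          = ∑ i, u i ^ 2 + |N| + |M + 4 * W| / ((∑ i, u i * x i) - a) * ∑ i, u i ^ 2 := by
        field_simp
      have h2 : 0 ≤ |M + 4 * W| / ((∑ i, u i * x i) - a) * ∑ i, u i ^ 2 := by positivity
      have h3 := le_abs_self N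
      rw [h1]
      linarith
    · have h1 : 2 * (1 + |N| / (∑ i, u i ^ 2) + |M + 4 * W| / ((∑ i, u i * x i) - a))
          * ((∑ i, u i * x i) - a)
          = 2 * ((∑ i, u i * x i) - a) + 2 * (|N| / (∑ i, u i ^ 2)) * ((∑ i, u i * x i) - a)
            + 2 * |M + 4 * W| := by
        field_simp
      have h2 : 0 ≤ 2 * (|N| / (∑ i, u i ^ 2)) * ((∑ i, u i * x i) - a) := by positivity
      have h3 := le_abs_self (M + 4 * W)
      have h4 := abs_nonneg (M + 4 * W)
      rw [h1]
      linarith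
  let c : ℝ → (Fin d → ℝ) := fun t i => -(R * u i) - t * w i
  have hex : ∀ t : ℝ, ∃ z ∈ K, ∀ y ∈ K, ∑ i, (y i - c t i) ^ 2 ≤ ∑ i, (z i - c t i) ^ 2 := by
    intro t
    obtain ⟨z, hz, hm⟩ := hK.exists_isMaxOn ⟨x, hx⟩
      (f := fun y : Fin d → ℝ => ∑ i, (y i - c t i) ^ 2) (by fun_prop)
    exact ⟨z, hz, fun y hy => hm hy⟩
  choose Z hZK hZ using hex
  have hexp : ∀ (t : ℝ) (y : Fin d → ℝ), ∑ i, (y i - c t i) ^ 2
      = ∑ i, y i ^ 2 + 2 * R * (∑ i, u i * y i) + 2 * t * (∑ i, w i * y i) + ∑ i, (c t i) ^ 2 := by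
    intro t y
    rw [Finset.mul_sum, Finset.mul_sum, ← Finset.sum_add_distrib, ← Finset.sum_add_distrib,
      ← Finset.sum_add_distrib]
    refine Finset.sum_congr rfl fun i _ => ?_
    simp only [c]
    ring
  have hdot : ∀ (t : ℝ) (y : Fin d → ℝ), ∑ i, u i * (y - c t) i
      = (∑ i, u i * y i) + R * ∑ i, u i ^ 2 := by
    intro t y
    have h1 : (∑ i, u i * y i) + R * ∑ i, u i ^ 2
        = (∑ i, u i * y i) + R * (∑ i, u i ^ 2) + t * ∑ i, u i * w i := by
      rw [huw]
      ring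
    rw [h1, Finset.mul_sum, Finset.mul_sum, ← Finset.sum_add_distrib, ← Finset.sum_add_distrib]
    refine Finset.sum_congr rfl fun i _ => ?_
    simp only [c, Pi.sub_apply]
    ring
  have hpos : ∀ y ∈ K, 0 < (∑ i, u i * y i) + R * ∑ i, u i ^ 2 := by
    intro y hy
    have h1 := (abs_le.mp (hN y hy)).1
    linarith
  have hhalf : ∀ t ∈ Icc (0 : ℝ) 1, a < ∑ i, u i * Z t i := by
    intro t ht
    have h1 := hZ t x hx
    rw [hexp t x, hexp t (Z t)] at h1
    have h2 : ∑ i, Z t i ^ 2 ≤ M := (le_abs_self _).trans (hM _ (hZK t))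
    have h3 : 0 ≤ ∑ i, x i ^ 2 := Finset.sum_nonneg fun i _ => sq_nonneg _
    have h4 := (abs_le.mp (hW x hx)).1
    have h5 := (abs_le.mp (hW _ (hZK t))).2
    have hW0 : 0 ≤ W := (norm_nonneg _).trans (hW x hx)
    have h6 : 2 * t * ((∑ i, w i * Z t i) - ∑ i, w i * x i) ≤ 4 * W := by
      have h7 : (∑ i, w i * Z t i) - ∑ i, w i * x i ≤ 2 * W := by linarith
      calc 2 * t * ((∑ i, w i * Z t i) - ∑ i, w i * x i) ≤ 2 * t * (2 * W) :=
            mul_le_mul_of_nonneg_left h7 (by linarith [ht.1])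
        _ ≤ 2 * 1 * (2 * W) := by
            apply mul_le_mul_of_nonneg_right _ (by linarith)
            linarith [ht.2]
        _ = 4 * W := by ring
    have h8 : 2 * R * ((∑ i, u i * x i) - a) = 2 * R * (∑ i, u i * x i) - 2 * R * a := by ring
    have h9 : 2 * t * ((∑ i, w i * Z t i) - ∑ i, w i * x i)
        = 2 * t * (∑ i, w i * Z t i) - 2 * t * (∑ i, w i * x i) := by ring
    have h10 : 2 * R * a < 2 * R * (∑ i, u i * Z t i) := by linarith
    exact lt_of_mul_lt_mul_left h10 (by linarith)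
  have hinj : InjOn Z (Icc 0 1) := by
    intro t ht t' ht' hZZ
    obtain ⟨s, hsq⟩ := hs (Z t) (hZK t) (Z t - c t) (Z t - c t')
      (by
        intro h0
        have h1 := hpos _ (hZK t)
        rw [← hdot t, h0] at h1
        simp at h1)
      (support_of_farthest (hZ t)) (support_of_farthest (by rw [hZZ]; exact hZ t'))
    have h1 := hpos _ (hZK t)
    have h2 : (∑ i, u i * Z t i) + R * ∑ i, u i ^ 2
        = s * ((∑ i, u i * Z t i) + R * ∑ i, u i ^ 2) := by
      conv_lhs => rw [← hdot t' (Z t), hsq]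
      rw [← hdot t (Z t), Finset.mul_sum]
      refine Finset.sum_congr rfl fun i _ => ?_
      rw [Pi.smul_apply, smul_eq_mul]
      ring
    have h3 : s = 1 := by
      have h4 : (s - 1) * ((∑ i, u i * Z t i) + R * ∑ i, u i ^ 2) = 0 := by linarith
      rcases mul_eq_zero.mp h4 with h5 | h5
      · linarith
      · linarith
    rw [h3, one_smul] at hsq
    obtain ⟨j, hj⟩ := Function.ne_iff.mp hw
    have h4 := congrFun hsq j
    simp only [c, Pi.sub_apply] at h4
    have h5 : (t' - t) * w j = 0 := by linarith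
    rcases mul_eq_zero.mp h5 with h6 | h6
    · linarith
    · exact absurd h6 hj
  intro hcount
  have hmaps : MapsTo Z (Icc (0 : ℝ) 1) (curvedPoints K ∩ {z | a < ∑ i, u i * z i}) :=
    fun t ht => ⟨⟨hZK t, c t, _, rfl, hZ t⟩, hhalf t ht⟩
  have h1 : (Icc (0 : ℝ) 1).Countable := hmaps.countable_of_injOn hinj hcount
  have h2 := h1.measure_zero MeasureTheory.volume
  rw [Real.volume_Icc] at h2
  simp at h2

/-- If `K` is compact and convex, with at most one supporting direction at every point, then every neighbourhood of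
every extreme point contains uncountably many points of curvature. -/
theorem curved_condensation {K : Set (Fin d → ℝ)} (hd : 2 ≤ d) (hK : IsCompact K)
    (hconv : Convex ℝ K) (hs : UniqueSupport K) {z : Fin d → ℝ} (hz : z ∈ K.extremePoints ℝ)
    {U : Set (Fin d → ℝ)} (hU : U ∈ 𝓝 z) : ¬ (curvedPoints K ∩ U).Countable := by
  obtain ⟨V, hVU, hV, hzV⟩ := mem_nhds_iff.mp hU
  have hC : IsCompact (K \ V) := hK.diff hV
  have hsub : convexHull ℝ (K \ V) ⊆ K := convexHull_min sdiff_subset hconv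
  have hzC : z ∉ convexHull ℝ (K \ V) := by
    intro h
    have h1 := inter_extremePoints_subset_extremePoints_of_subset hsub ⟨h, hz⟩
    exact (extremePoints_convexHull_subset h1).2 hzV
  obtain ⟨f, s, hf1, hf2⟩ := geometric_hahn_banach_closed_point
    (convex_convexHull ℝ (K \ V)) (Pool.Agent.W_bbc525_h89.isCompact_hull hC).isClosed hzC
  rw [form_eq] at hf2
  by_cases hu : (fun i => f (Pi.single i 1) : Fin d → ℝ) = 0
  · have hKV : K ⊆ V := by
      intro y hy
      by_contra hyV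
      have h1 := hf1 y (subset_convexHull ℝ _ ⟨hy, hyV⟩)
      rw [form_eq] at h1
      have h2 : ∀ i, f (Pi.single i 1) = 0 := fun i => congrFun hu i
      simp only [h2, zero_mul, Finset.sum_const_zero] at h1 hf2
      linarith
    have hu' : (Pi.single (⟨0, by omega⟩ : Fin d) (1 : ℝ) : Fin d → ℝ) ≠ 0 := by
      intro h
      have := congrFun h ⟨0, by omega⟩
      simp at this
    intro hcount
    refine exists_curved_family hd hK hs hu' hz.1 (sub_one_lt _) (hcount.mono ?_)
    rintro y ⟨hy, -⟩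
    exact ⟨hy, hVU (hKV hy.1)⟩
  · intro hcount
    refine exists_curved_family hd hK hs hu hz.1 hf2 (hcount.mono ?_)
    rintro y ⟨hy, hys⟩
    refine ⟨hy, hVU ?_⟩
    by_contra hyV
    have h1 := hf1 y (subset_convexHull ℝ _ ⟨hy.1, hyV⟩)
    rw [form_eq] at h1
    exact lt_irrefl _ (h1.trans hys)

/-- The unit ball of a norm which is differentiable away from `0` has at most one supporting direction at
every point. -/
theorem NormFun.uniqueSupport {μ : (Fin d → ℝ) → ℝ} (h : NormFun μ)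
    (hdiff : ∀ x, x ≠ 0 → DifferentiableAt ℝ μ x) : UniqueSupport {x | μ x ≤ 1} := by
  intro z hz p q hp hpz hqz
  have hz1 : μ z ≤ 1 := hz
  have main : ∀ p : Fin d → ℝ, (∀ y ∈ {x | μ x ≤ 1}, ∑ i, p i * y i ≤ ∑ i, p i * z i) →
      ∀ y, ∑ i, p i * y i ≤ (∑ i, p i * z i) * μ y := by
    intro p hp y
    by_cases hy : y = 0
    · subst hy
      rw [h.zero]
      simp
    · have hpos := h.pos y hy
      have h1 := hp ((μ y)⁻¹ • y) (by
        show μ ((μ y)⁻¹ • y) ≤ 1
        rw [h.hom _ _ (inv_nonneg.mpr hpos.le), inv_mul_cancel₀ hpos.ne'])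
      have h2 : ∑ i, p i * ((μ y)⁻¹ • y) i = (μ y)⁻¹ * ∑ i, p i * y i := by
        rw [Finset.mul_sum]
        refine Finset.sum_congr rfl fun i _ => ?_
        rw [Pi.smul_apply, smul_eq_mul]
        ring
      rw [h2] at h1
      rw [inv_mul_le_iff₀ hpos] at h1
      linarith
  have hm : 0 < ∑ i, p i * z i := by
    have h1 := main p hpz p
    have h2 : 0 < ∑ i, p i * p i := by
      have := sum_sq_pos hp
      simpa [sq] using this
    have h3 := h.pos p hp
    by_contra hcon
    push Not at hcon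
    have h4 : (∑ i, p i * z i) * μ p ≤ 0 := mul_nonpos_of_nonpos_of_nonneg hcon h3.le
    linarith
  have hz0 : z ≠ 0 := by
    rintro rfl
    simp at hm
  have hμz : μ z = 1 := by
    refine le_antisymm hz1 ?_
    have h1 := main p hpz z
    by_contra hcon
    push Not at hcon
    have h2 : (∑ i, p i * z i) * μ z < (∑ i, p i * z i) * 1 := mul_lt_mul_of_pos_left hcon hm
    linarith
  have hd := (hdiff z hz0).hasFDerivAt
  have key : ∀ p : Fin d → ℝ, (∀ y ∈ {x | μ x ≤ 1}, ∑ i, p i * y i ≤ ∑ i, p i * z i) →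
      ∀ j, p j = (∑ i, p i * z i) * fderiv ℝ μ z (Pi.single j 1) := by
    intro p hp j
    let L : (Fin d → ℝ) →L[ℝ] ℝ := ∑ i, p i • ContinuousLinearMap.proj (R := ℝ) (φ := fun _ : Fin d => ℝ) i
    have hL : ∀ y, L y = ∑ i, p i * y i := by
      intro y
      simp [L]
    have h1 : HasFDerivAt (fun y => (∑ i, p i * z i) * μ y - L y)
        ((∑ i, p i * z i) • fderiv ℝ μ z - L) z := (hd.const_mul _).sub L.hasFDerivAt
    have h2 : IsLocalMin (fun y => (∑ i, p i * z i) * μ y - L y) z := by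
      refine Filter.Eventually.of_forall fun y => ?_
      show (∑ i, p i * z i) * μ z - L z ≤ (∑ i, p i * z i) * μ y - L y
      rw [hL, hL, hμz, mul_one, sub_self]
      linarith [main p hp y]
    have h3 := h2.hasFDerivAt_eq_zero h1
    have h4 := congrArg (fun T : (Fin d → ℝ) →L[ℝ] ℝ => T (Pi.single j 1)) h3
    have h5 : L (Pi.single j 1) = p j := by
      rw [hL]
      simp [Pi.single_apply]
    simp only [sub_apply, smul_apply, smul_eq_mul,
      zero_apply] at h4
    rw [h5] at h4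
    linarith
  refine ⟨(∑ i, q i * z i) / ∑ i, p i * z i, ?_⟩
  ext j
  rw [Pi.smul_apply, smul_eq_mul, key p hpz j, key q hqz j]
  field_simp

/-- The unit ball of a norm on `ℝ^d`, `d ≥ 2`, which is differentiable away from `0`: every neighbourhood of every extreme
point contains uncountably many points of curvature. -/
theorem NormFun.curved_condensation {μ : (Fin d → ℝ) → ℝ} (hd : 2 ≤ d) (h : NormFun μ)
    (hdiff : ∀ x, x ≠ 0 → DifferentiableAt ℝ μ x) {z : Fin d → ℝ}
    (hz : z ∈ {x | μ x ≤ 1}.extremePoints ℝ) {U : Set (Fin d → ℝ)} (hU : U ∈ 𝓝 z) :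
    ¬ (curvedPoints {x | μ x ≤ 1} ∩ U).Countable :=
  Pool.Agent.W_1b8d5d_nc.curved_condensation hd h.isCompact h.convex (h.uniqueSupport hdiff) hz hU

end Pool.Agent.W_1b8d5d_nc
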