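import Mathlib

/-!
MP_1b8d5d_pr (no corner): in the plane the extreme points of a convex body form a closed set.
-/

set_option autoImplicit false

open Set Metric

namespace Pool.Agent.W_1b8d5d_nc

/-- In dimension two the set of the extreme points of a compact convex set with nonempty interior is closed.
PROOF: let `v_n → v`, `v_n` extreme, so `v_n ∉ interior B`, so `v ∈ B` is not an interior point. Suppose `v = x/2 + y/2`
(or any open segment) with `x ≠ y` in `B`. A supporting form `f ≠ 0` at `v` (geometric Hahn-Banach for `interior B`,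
`f w ≤ f v` on `B`) has `f x = f y = f v`. Let `o ∈ interior B`, `f o < f v`. Coordinates: since the dimension is two,
every point is `z = v + α (x - v) + β (o - v)` (`x - v`, `o - v` are linearly independent because `f` separates them), with `α, β`
continuous in `z`. For `z = v_n`, `n` large: `|α|, |β| < 1/4`. `β < 0` is impossible (`f z > f v`), `β > 0`: `z` is
a convex combination of `o`, `x`, `y` with positive weight at `o`, so it is in the interior of `B`, impossible for an extreme
point; `β = 0`: `z` is in the open segment between `x` and `y`, not extreme. -/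
theorem isClosed_extremePoints {B : Set (Fin 2 → ℝ)} (hc : IsCompact B) (hconv : Convex ℝ B)
    (hint : (interior B).Nonempty) : IsClosed (B.extremePoints ℝ) := by
  have hdis := disjoint_interior_extremePoints B
  refine isClosed_of_closure_subset fun v hv => ?_
  have hvB : v ∈ B := by
    have h1 := closure_mono (extremePoints_subset (𝕜 := ℝ) (A := B)) hv
    rwa [hc.isClosed.closure_eq] at h1
  have hvi : v ∉ interior B := by
    intro h
    obtain ⟨w, hw1, hw2⟩ := mem_closure_iff.mp hv _ isOpen_interior h
    exact Set.disjoint_left.mp hdis hw1 hw2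
  rw [mem_extremePoints]
  refine ⟨hvB, fun x hx y hy hxy => ?_⟩
  by_contra hne
  have hxny : x ≠ y := by
    rintro rfl
    rw [openSegment_same, mem_singleton_iff] at hxy
    exact hne ⟨hxy.symm, hxy.symm⟩
  obtain ⟨f, hf⟩ := geometric_hahn_banach_open_point hconv.interior isOpen_interior hvi
  obtain ⟨o, ho⟩ := hint
  have hfo := hf o ho
  have hle : ∀ w ∈ B, f w ≤ f v := by
    intro w hw
    have h1 : w ∈ closure (interior B) := by
      rw [hconv.closure_interior_eq_closure_of_nonempty_interior ⟨o, ho⟩]
      exact subset_closure hw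
    have h2 : closure (interior B) ⊆ {w | f w ≤ f v} :=
      closure_minimal (fun a ha => (hf a ha).le) (isClosed_le f.continuous continuous_const)
    exact h2 h1
  obtain ⟨a, b, ha, hb, hab, hv2⟩ := hxy
  have hfx : f x = f v ∧ f y = f v := by
    have h1 : f v = a * f x + b * f y := by
      rw [← hv2]
      simp
    have h2 := hle x hx
    have h3 := hle y hy
    have hb' : b = 1 - a := by linarith
    subst hb'
    constructor
    · nlinarith
    · nlinarith
  -- coordinates
  set D : ℝ := (x 0 - y 0) * (o 1 - v 1) - (x 1 - y 1) * (o 0 - v 0) with hD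
  have hD0 : D ≠ 0 := by
    intro h0
    have hp : f (x - y) = 0 := by rw [map_sub]; linarith [hfx.1, hfx.2]
    have hq : f (o - v) < 0 := by rw [map_sub]; linarith
    have key : ∀ i : Fin 2, (x i - y i) • (o - v) = (o i - v i) • (x - y) := by
      intro i
      ext k
      simp only [Pi.smul_apply, Pi.sub_apply, smul_eq_mul]
      fin_cases i <;> fin_cases k <;> simp <;> linarith
    have hxy0 : ∀ i : Fin 2, x i = y i := by
      intro i
      have h1 := congrArg f (key i)
      rw [map_smul, map_smul, hp, smul_zero, smul_eq_mul] at h1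
      rcases mul_eq_zero.mp h1 with h2 | h2
      · linarith
      · exact absurd h2 hq.ne
    exact hxny (funext hxy0)
  let α : (Fin 2 → ℝ) → ℝ := fun z => ((z 0 - v 0) * (o 1 - v 1) - (z 1 - v 1) * (o 0 - v 0)) / D
  let β : (Fin 2 → ℝ) → ℝ := fun z => ((x 0 - y 0) * (z 1 - v 1) - (x 1 - y 1) * (z 0 - v 0)) / D
  have hαc : Continuous α := by fun_prop
  have hβc : Continuous β := by fun_prop
  have hrep : ∀ z : Fin 2 → ℝ, z = v + α z • (x - y) + β z • (o - v) := by
    intro z
    ext k
    simp only [Pi.add_apply, Pi.smul_apply, Pi.sub_apply, smul_eq_mul, α, β]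
    fin_cases k
    · simp only [Fin.zero_eta]
      field_simp
      rw [hD]
      ring
    · simp only [Fin.mk_one]
      field_simp
      rw [hD]
      ring
  set δ : ℝ := min (a / 2) (b / 2) with hδ
  have hδ0 : 0 < δ := lt_min (by positivity) (by positivity)
  have hδa : δ ≤ a / 2 := min_le_left _ _
  have hδb : δ ≤ b / 2 := min_le_right _ _
  have hopen : IsOpen {z : Fin 2 → ℝ | |α z| < δ ∧ |β z| < 1 / 2} :=
    (isOpen_lt hαc.abs continuous_const).inter (isOpen_lt hβc.abs continuous_const)
  obtain ⟨z, ⟨hz1, hz2⟩, hzE⟩ := mem_closure_iff.mp hv _ hopen (by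
    constructor
    · show |α v| < δ
      simp only [α]
      simpa using hδ0
    · show |β v| < 1 / 2
      simp only [β]
      simp)
  rw [abs_lt] at hz1 hz2
  have hzB : z ∈ B := extremePoints_subset hzE
  have hz := hrep z
  have hfz : f z = f v + β z * (f o - f v) := by
    conv_lhs => rw [hz]
    simp only [map_add, map_smul, map_sub, smul_eq_mul]
    rw [hfx.1, hfx.2]
    ring
  rcases lt_trichotomy (β z) 0 with hβ | hβ | hβ
  · have h1 := hle z hzB
    nlinarith
  · have h1 : z ∈ openSegment ℝ x y := by
      refine ⟨a + α z, b - α z, by linarith, by linarith, by linarith, ?_⟩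
      conv_rhs => rw [hz, hβ, ← hv2]
      module
    have h2 := (mem_extremePoints.mp hzE).2 x hx y hy h1
    exact hxny (h2.1.trans h2.2.symm)
  · have hB1 : 0 < 1 - β z := by linarith [hz2.2]
    have c1 : 0 ≤ ((1 - β z) * a + α z) / (1 - β z) := by
      apply div_nonneg _ hB1.le
      nlinarith [hz1.1, hz2.2]
    have c2 : 0 ≤ ((1 - β z) * b - α z) / (1 - β z) := by
      apply div_nonneg _ hB1.le
      nlinarith [hz1.2, hz2.2]
    have c3 : ((1 - β z) * a + α z) / (1 - β z) + ((1 - β z) * b - α z) / (1 - β z) = 1 := by
      field_simp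
      linear_combination (1 - β z) * hab
    have hw : (((1 - β z) * a + α z) / (1 - β z)) • x +
        (((1 - β z) * b - α z) / (1 - β z)) • y ∈ B := hconv hx hy c1 c2 c3
    have h3 := hconv.combo_interior_self_mem_interior ho hw hβ hB1.le (by ring)
    have h4 : β z • o + (1 - β z) • ((((1 - β z) * a + α z) / (1 - β z)) • x +
        (((1 - β z) * b - α z) / (1 - β z)) • y) = z := by
      rw [smul_add, smul_smul, smul_smul, mul_div_cancel₀ _ hB1.ne', mul_div_cancel₀ _ hB1.ne']
      conv_rhs => rw [hz, ← hv2]
      module
    rw [h4] at h3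
    exact Set.disjoint_left.mp hdis h3 hzE

/-- A nonempty perfect set of the plane is uncountable. PROOF: `Perfect.exists_nat_bool_injection`. -/
theorem not_countable_of_perfect {C : Set (Fin 2 → ℝ)} (hC : Perfect C) (hne : C.Nonempty) :
    ¬ C.Countable := by
  intro hcount
  obtain ⟨f, hf1, -, hf3⟩ := hC.exists_nat_bool_injection hne
  have h1 : (range f).Countable := hcount.mono hf1
  have h2 : Countable (ℕ → Bool) := by
    haveI := h1.to_subtype
    exact (Equiv.ofInjective f hf3).countable_iff.mpr inferInstance
  obtain ⟨g, hg⟩ := Countable.exists_injective_nat (ℕ → Bool)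
  exact Function.cantor_injective (fun s : Set ℕ => g (fun n => by classical exact decide (n ∈ s)))
    (fun s t hst => by
      have h3 := hg hst
      ext n
      have h4 := congrFun h3 n
      simpa using h4)

end Pool.Agent.W_1b8d5d_nc
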