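import Pool.Agent.W_1b8d5d_nc.Geo2
import Pool.Agent.W_1b8d5d_nc.Gen
import Pool.Agent.W_1b8d5d_nc.Ext2
import Pool.Agent.W_1b8d5d_nc.Disc2

/-!
MP_1b8d5d_pr (no corner): the conclusions for the time constant on `Fin 2 → ℝ`.
-/

set_option autoImplicit false

open Set Metric Filter Topology

namespace Pool.Agent.W_1b8d5d_nc

/-- The function on the plane `ℝ × ℝ`. -/
def pl (μ : (Fin 2 → ℝ) → ℝ) (x : ℝ × ℝ) : ℝ := μ ![x.1, x.2]

/-- The identification as a linear map. -/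
noncomputable def emb : ℝ × ℝ →ₗ[ℝ] (Fin 2 → ℝ) :=
  (LinearEquiv.finTwoArrow ℝ ℝ).symm.toLinearMap

theorem emb_apply (x : ℝ × ℝ) : emb x = ![x.1, x.2] := rfl

theorem vec_eta (x : Fin 2 → ℝ) : ![x 0, x 1] = x := by
  funext i
  fin_cases i <;> rfl

variable {μ : (Fin 2 → ℝ) → ℝ}

theorem mu_eq (μ : (Fin 2 → ℝ) → ℝ) (x : Fin 2 → ℝ) : μ x = pl μ (x 0, x 1) := by
  show μ x = μ ![x 0, x 1]
  rw [vec_eta]

theorem normFun_of_pl (hc : Continuous μ) (h : NormLike (pl μ)) : NormFun μ where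
  cont := hc
  hom := fun c x hcc => by
    rw [mu_eq μ (c • x), mu_eq μ x]
    exact h.hom c (x 0, x 1) hcc
  add := fun x y => by
    rw [mu_eq μ (x + y), mu_eq μ x, mu_eq μ y]
    exact h.add (x 0, x 1) (y 0, y 1)
  pos := fun x hx => by
    rw [mu_eq μ x]
    refine h.pos _ fun h0 => hx ?_
    have h1 := congrArg Prod.fst h0
    have h2 := congrArg Prod.snd h0
    funext i
    fin_cases i
    · exact h1
    · exact h2

/-- Uniqueness of the supporting forms. -/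
theorem unique_form (h : NormLike (pl μ)) (hno : IsEmpty (Cor (pl μ))) {x : Fin 2 → ℝ}
    (hx : x ≠ 0) {f f' : (Fin 2 → ℝ) →ₗ[ℝ] ℝ} (hf : ∀ z, f z ≤ μ z) (hf' : ∀ z, f' z ≤ μ z)
    (hfx : f x = μ x) (hfx' : f' x = μ x) : f = f' := by
  by_contra hne
  refine hno.elim (h.exists_cor (x := (x 0, x 1)) ?_ (f := f.comp emb) (f' := f'.comp emb)
    (fun z => hf _) (fun z => hf' _) ?_ ?_ ?_).some
  · intro h0
    apply hx
    have h1 := congrArg Prod.fst h0
    have h2 := congrArg Prod.snd h0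
    funext i
    fin_cases i
    · exact h1
    · exact h2
  · show f ![x 0, x 1] = μ ![x 0, x 1]
    rw [vec_eta, hfx]
  · show f' ![x 0, x 1] = μ ![x 0, x 1]
    rw [vec_eta, hfx']
  · intro heq
    apply hne
    refine LinearMap.ext fun z => ?_
    have h1 := LinearMap.congr_fun heq (z 0, z 1)
    have h2 : f ![z 0, z 1] = f' ![z 0, z 1] := h1
    rwa [vec_eta] at h2

/-- A vertex is a corner. -/
theorem no_vertex (h : NormLike (pl μ)) (hno : IsEmpty (Cor (pl μ))) : IsEmpty (Vertex μ) := by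
  refine ⟨fun k => ?_⟩
  have hu0 : k.u ≠ 0 := by
    intro h0
    have h1 := k.fu
    rw [h0, map_zero] at h1
    exact zero_ne_one h1
  -- a linear form which vanishes at `u`
  set y : (Fin 2 → ℝ) →ₗ[ℝ] ℝ := k.u 0 • LinearMap.proj 1 - k.u 1 • LinearMap.proj 0 with hy
  have hyx : ∀ x, y x = k.u 0 * x 1 - k.u 1 * x 0 := fun x => rfl
  have hyu : y k.u = 0 := by
    rw [hyx]
    ring
  set M : ℝ := |k.u 0| + |k.u 1| + 1 with hM
  have hM0 : 0 < M := by positivity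
  have hyb : ∀ x, |y x| ≤ M * ‖x‖ := by
    intro x
    have h0 : |x 0| ≤ ‖x‖ := norm_le_pi_norm x 0
    have h1 : |x 1| ≤ ‖x‖ := norm_le_pi_norm x 1
    have h2 : |y x| ≤ |k.u 0| * |x 1| + |k.u 1| * |x 0| := by
      rw [hyx, ← abs_mul, ← abs_mul]
      exact abs_sub _ _
    have h3 := mul_le_mul_of_nonneg_left h1 (abs_nonneg (k.u 0))
    have h4 := mul_le_mul_of_nonneg_left h0 (abs_nonneg (k.u 1))
    have h5 := norm_nonneg x
    rw [hM]
    nlinarith
  have hyk : ∀ x, k.c / M * |y x| ≤ k.c * ‖x - k.f x • k.u‖ := by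
    intro x
    have h1 : y x = y (x - k.f x • k.u) := by
      rw [map_sub, map_smul, hyu, smul_zero, sub_zero]
    rw [h1, div_mul_eq_mul_div, div_le_iff₀ hM0]
    have h2 := mul_le_mul_of_nonneg_left (hyb (x - k.f x • k.u)) k.hc.le
    linarith
  have key : (k.f : (Fin 2 → ℝ) →ₗ[ℝ] ℝ) + (k.c / M) • y
      = (k.f : (Fin 2 → ℝ) →ₗ[ℝ] ℝ) - (k.c / M) • y := by
    refine unique_form h hno hu0 (fun z => ?_) (fun z => ?_) ?_ ?_
    · show k.f z + k.c / M * y z ≤ μ z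
      have h1 := k.low z
      have h2 := hyk z
      have h3 := mul_le_mul_of_nonneg_left (le_abs_self (y z)) (div_nonneg k.hc.le hM0.le)
      linarith
    · show k.f z - k.c / M * y z ≤ μ z
      have h1 := k.low z
      have h2 := hyk z
      have h3 := mul_le_mul_of_nonneg_left (neg_le_abs (y z)) (div_nonneg k.hc.le hM0.le)
      linarith
    · show k.f k.u + k.c / M * y k.u = μ k.u
      rw [hyu, mul_zero, add_zero, k.fu, k.mu_u]
    · show k.f k.u - k.c / M * y k.u = μ k.u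
      rw [hyu, mul_zero, sub_zero, k.fu, k.mu_u]
  -- evaluate at a point where `y` does not vanish
  have h1 := LinearMap.congr_fun key ![-k.u 1, k.u 0]
  have h2 : k.f ![-k.u 1, k.u 0] + k.c / M * y ![-k.u 1, k.u 0]
      = k.f ![-k.u 1, k.u 0] - k.c / M * y ![-k.u 1, k.u 0] := h1
  have h3 : y ![-k.u 1, k.u 0] = k.u 0 ^ 2 + k.u 1 ^ 2 := by
    rw [hyx]
    show k.u 0 * k.u 0 - k.u 1 * -k.u 1 = k.u 0 ^ 2 + k.u 1 ^ 2
    ring
  have h4 : 0 < k.u 0 ^ 2 + k.u 1 ^ 2 := by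
    by_contra hcon
    push Not at hcon
    apply hu0
    funext i
    fin_cases i
    · show k.u 0 = 0
      nlinarith [sq_nonneg (k.u 0), sq_nonneg (k.u 1)]
    · show k.u 1 = 0
      nlinarith [sq_nonneg (k.u 0), sq_nonneg (k.u 1)]
  have h5 : 0 < k.c / M * y ![-k.u 1, k.u 0] := by
    rw [h3]
    exact mul_pos (div_pos k.hc hM0) h4
  linarith

/-- Differentiability. -/
theorem diff_mu (h : NormLike (pl μ)) (hno : IsEmpty (Cor (pl μ))) {x : Fin 2 → ℝ}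
    (hx : x ≠ 0) : DifferentiableAt ℝ μ x := by
  have h1 : DifferentiableAt ℝ (pl μ) (x 0, x 1) := by
    refine h.differentiableAt hno fun h0 => hx ?_
    have h1 := congrArg Prod.fst h0
    have h2 := congrArg Prod.snd h0
    funext i
    fin_cases i
    · exact h1
    · exact h2
  have h2 : μ = fun z : Fin 2 → ℝ => pl μ (z 0, z 1) := funext fun z => mu_eq μ z
  rw [h2]
  exact DifferentiableAt.comp (g := pl μ) (f := fun z : Fin 2 → ℝ => (z 0, z 1)) x h1 (by fun_prop)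

/-- The conclusions. -/
theorem conclusions (hc : Continuous μ) (h : NormLike (pl μ)) (hno : IsEmpty (Cor (pl μ))) :
    (∀ z ∈ {x | μ x ≤ 1}.extremePoints ℝ, ∀ U ∈ 𝓝 z,
      ¬ {y : Fin 2 → ℝ | y ∈ U ∧ μ y ≤ 1 ∧ ∃ (c : Fin 2 → ℝ) (r : ℝ),
        ∑ i, (y i - c i) ^ 2 = r ∧ ∀ x, μ x ≤ 1 → ∑ i, (x i - c i) ^ 2 ≤ r}.Countable) ∧
    (Perfect ({x | μ x ≤ 1}.extremePoints ℝ) ∧ ¬ ({x | μ x ≤ 1}.extremePoints ℝ).Countable) ∧
    (∀ s : Set (Fin 2 → ℝ), s.Finite → {x | μ x ≤ 1} ≠ convexHull ℝ s) ∧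
    (∀ x : Fin 2 → ℝ, x ≠ 0 → ∀ f f' : (Fin 2 → ℝ) →ₗ[ℝ] ℝ,
      (∀ z, f z ≤ μ z) → (∀ z, f' z ≤ μ z) → f x = μ x → f' x = μ x → f = f') ∧
    (∀ x : Fin 2 → ℝ, x ≠ 0 → DifferentiableAt ℝ μ x) := by
  have hn := normFun_of_pl hc h
  have hv := no_vertex h hno
  have hp : Perfect ({x | μ x ≤ 1}.extremePoints ℝ) :=
    ⟨isClosed_extremePoints hn.isCompact hn.convex ⟨0, hn.zero_mem_interior⟩, hn.preperfect hv⟩
  refine ⟨fun z hz U hU hcount => ?_, ⟨hp, not_countable_of_perfect hp hn.extreme_nonempty⟩,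
    fun s hs => hn.not_polytope hv hs,
    fun x hx f f' hf hf' hfx hfx' => unique_form h hno hx hf hf' hfx hfx',
    fun x hx => diff_mu h hno hx⟩
  refine hn.curved_condensation le_rfl (fun x hx => diff_mu h hno hx) hz hU (hcount.mono ?_)
  rintro y ⟨⟨hy, c, r, hr, hall⟩, hyU⟩
  exact ⟨hyU, hy, c, r, hr, fun x hx => hall x hx⟩

end Pool.Agent.W_1b8d5d_nc
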