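import Pool.Agent.W_1b8d5d_nc.Concl

/-!
MP_1b8d5d_pr: in the plane a corner is a vertex.
-/

set_option autoImplicit false

open Set Metric Filter Topology

namespace Pool.Agent.W_1b8d5d_nc

variable {μ : (Fin 2 → ℝ) → ℝ}

theorem normLike_of_normFun (h : NormFun μ) (he : ∀ x, μ (-x) = μ x) : NormLike (pl μ) where
  hom := fun c x hc => by
    have h1 := h.hom c ![x.1, x.2] hc
    have h2 : c • ![x.1, x.2] = ![(c • x).1, (c • x).2] := by
      funext i
      fin_cases i <;> rfl
    rw [h2] at h1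
    exact h1
  add := fun x y => by
    have h1 := h.add ![x.1, x.2] ![y.1, y.2]
    have h2 : ![x.1, x.2] + ![y.1, y.2] = ![(x + y).1, (x + y).2] := by
      funext i
      fin_cases i <;> rfl
    rw [h2] at h1
    exact h1
  neg := fun x => by
    have h1 := he ![x.1, x.2]
    have h2 : -![x.1, x.2] = ![(-x).1, (-x).2] := by
      funext i
      fin_cases i <;> rfl
    rw [h2] at h1
    exact h1
  pos := fun x hx => by
    refine h.pos _ fun h0 => hx ?_
    have h1 := congrFun h0 0
    have h2 := congrFun h0 1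
    exact Prod.ext h1 h2

/-- The coordinates of a corner are coordinates. -/
theorem Cor.eq {μ : ℝ × ℝ → ℝ} (k : Cor μ) (x : ℝ × ℝ) : x = k.G x • k.v + k.Y x • k.e := by
  have hsurj : Function.Surjective (k.G.prod k.Y) := by
    rintro ⟨a, b⟩
    refine ⟨a • k.v + b • k.e, ?_⟩
    show (k.G (a • k.v + b • k.e), k.Y (a • k.v + b • k.e)) = (a, b)
    simp only [map_add, map_smul, k.Gv, k.Yv, k.Ge, k.Ye, smul_eq_mul, mul_one, mul_zero, add_zero, zero_add]
  have hinj : Function.Injective (k.G.prod k.Y) := (k.G.prod k.Y).injective_iff_surjective.2 hsurj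
  apply hinj
  show (k.G x, k.Y x) = (k.G (k.G x • k.v + k.Y x • k.e), k.Y (k.G x • k.v + k.Y x • k.e))
  simp only [map_add, map_smul, k.Gv, k.Yv, k.Ge, k.Ye, smul_eq_mul, mul_one, mul_zero, add_zero, zero_add]

/-- A corner is a vertex. -/
theorem no_cor (hno : IsEmpty (Vertex μ)) : IsEmpty (Cor (pl μ)) := by
  refine ⟨fun k => hno.elim ?_⟩
  set L : (Fin 2 → ℝ) →ₗ[ℝ] ℝ := k.G.comp (LinearEquiv.finTwoArrow ℝ ℝ).toLinearMap with hL
  have hLx : ∀ x : Fin 2 → ℝ, L x = k.G (x 0, x 1) := fun x => rfl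
  have he0 : k.e ≠ 0 := by
    intro h0
    have h1 := k.Ye
    rw [h0, map_zero] at h1
    exact zero_ne_one h1
  set E : Fin 2 → ℝ := ![k.e.1, k.e.2] with hE
  have hE0 : 0 < ‖E‖ := by
    rw [norm_pos_iff]
    intro h0
    exact he0 (Prod.ext (congrFun h0 0) (congrFun h0 1))
  have hdec : ∀ x : Fin 2 → ℝ, x - L x • ![k.v.1, k.v.2] = k.Y (x 0, x 1) • E := by
    intro x
    have h1 := k.eq (x 0, x 1)
    have h2 := congrArg Prod.fst h1
    have h3 := congrArg Prod.snd h1
    simp only [Prod.fst_add, Prod.snd_add, Prod.smul_fst, Prod.smul_snd, smul_eq_mul] at h2 h3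
    funext i
    fin_cases i
    · show x 0 - k.G (x 0, x 1) * k.v.1 = k.Y (x 0, x 1) * k.e.1
      linarith
    · show x 1 - k.G (x 0, x 1) * k.v.2 = k.Y (x 0, x 1) * k.e.2
      linarith
  exact
    { u := ![k.v.1, k.v.2]
      f := LinearMap.toContinuousLinearMap L
      c := 1 / ‖E‖
      hc := by positivity
      mu_u := k.mu_v
      fu := by
        show L ![k.v.1, k.v.2] = 1
        rw [hLx]
        exact k.Gv
      low := fun x => by
        show L x + 1 / ‖E‖ * ‖x - L x • ![k.v.1, k.v.2]‖ ≤ μ x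
        rw [hdec, norm_smul, Real.norm_eq_abs]
        have h1 : 1 / ‖E‖ * (|k.Y (x 0, x 1)| * ‖E‖) = |k.Y (x 0, x 1)| := by
          field_simp
        rw [h1, hLx, mu_eq μ x]
        have h2 := k.low (x 0, x 1)
        have h3 := le_abs_self (k.G (x 0, x 1))
        linarith }

end Pool.Agent.W_1b8d5d_nc
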