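import Pool.Agent.W_1b8d5d_nc.MedD
import Pool.Agent.W_1b8d5d_wall.Bridge
import Pool.Agent.W_1b8d5d_gd.AGoodN

/-!
MP_1b8d5d_pr, general dimension: every atomless law on `[0, ∞)` has good finite models; the time constant is the limit
of the medians.
-/

set_option autoImplicit false

open MeasureTheory ProbabilityTheory Filter Topology

namespace Pool.Agent.W_1b8d5d_nc

open Pool.Agent.W_1b8d5d_gd

variable {d : ℕ} [NeZero d] {ν : Measure ℝ} {Ω : Type} [MeasurableSpace Ω] {P : Measure Ω} {τ : Edge d → Ω → ℝ}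
  {μ : (Fin d → ℝ) → ℝ}

/-- Part A in all dimensions. -/
theorem exists_models (hd : 2 ≤ d) (h : FppD ν P τ) (hν : ν (Set.Iio 0) = 0) (hatom : ∀ a : ℝ, ν ({a} : Set ℝ) = 0)
    (hn : NormFun μ) (hl : LimD P τ μ) :
    ∃ (Q : Pool.Agent.W_1b8d5d_nd.Qn) (m : V d → ℝ),
      Pool.Agent.W_1b8d5d_nd.HasN Q m ∧ Pool.Agent.W_1b8d5d_nd.MuM μ m := by
  have hP := h.prob
  have hνp : IsProbabilityMeasure ν := by
    rw [← h.law (0, 0)]
    exact Measure.isProbabilityMeasure_map (h.meas _).aemeasurable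
  obtain ⟨m, hm⟩ := h.exists_medians
  obtain ⟨Q, hQ⟩ := hasN (ν := ν) (P := P) (τ := τ) ⟨hνp, hν, hatom⟩ ⟨h.prob, h.meas, h.indep, h.law⟩ (mm := m)
    (fun z => (hm z).1) (fun z => (hm z).2) (fun p => by
      obtain ⟨h₀, -, hb⟩ := Pool.Agent.W_1b8d5d_wall.bridge hd h hν (hatom 0) (ε := 1 / 1000) (by norm_num) p
      refine ⟨h₀, fun t ht z hz => ?_⟩
      have h1 := hb t ht z hz
      have h2 : P.real (Set.univ : Set Ω) ≤
          P.real {ω | T (fun e => τ e ω) 0 z = T (fun e => min (τ e ω) t) 0 z} +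
          P.real {ω | T (fun e => τ e ω) 0 z ≠ T (fun e => min (τ e ω) t) 0 z} := by
        refine le_trans (measureReal_mono ?_ (measure_ne_top _ _)) (measureReal_union_le _ _)
        intro ω _
        exact em _
      rw [probReal_univ] at h2
      linarith)
  exact ⟨Q, m, hQ, hl.muM h hn hm⟩

end Pool.Agent.W_1b8d5d_nc
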