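import Pool.Agent.W_1b8d5d_nd.Mod
import Pool.Agent.W_1b8d5d_h71.Geo
import Pool.Agent.W_1b8d5d_nc.Gen

/-!
MP_1b8d5d_pr, all dimensions: a vertex of the unit ball gives the vertex data of `W_1b8d5d_nd`.
-/

set_option autoImplicit false

open Filter Topology

namespace Pool.Agent.W_1b8d5d_nc

open Pool.Agent.W_1b8d5d_nd (dp rn Vtx IsVtx Cheap)
open Pool.Agent.W_1b8d5d_h71 (SubLin IsVertex CheapBalls exists_forms)

variable {d : ℕ} {μ : (Fin d → ℝ) → ℝ}

theorem dp_eq_dot (f x : Fin d → ℝ) : dp f x = dotProduct f x := rfl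

theorem norm_le_rn (x : Fin d → ℝ) : ‖x‖ ≤ rn x := by
  unfold rn
  refine (pi_norm_le_iff_of_nonneg (Finset.sum_nonneg fun i _ => abs_nonneg _)).2 fun i => ?_
  rw [Real.norm_eq_abs]
  exact Finset.single_le_sum (f := fun j => |x j|) (fun _ _ => abs_nonneg _) (Finset.mem_univ i)

theorem rn_le_norm (x : Fin d → ℝ) : rn x ≤ d * ‖x‖ := by
  unfold rn
  have h1 : ∑ i, |x i| ≤ ∑ _i : Fin d, ‖x‖ := Finset.sum_le_sum fun i _ => norm_le_pi_norm x i
  rw [Finset.sum_const, Finset.card_univ, Fintype.card_fin, nsmul_eq_mul] at h1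
  exact h1

theorem clm_eq_dot (f : (Fin d → ℝ) →L[ℝ] ℝ) (x : Fin d → ℝ) :
    dotProduct (fun i => f (Pi.single i 1)) x = f x := by
  have h1 : x = ∑ i, x i • (Pi.single i (1 : ℝ) : Fin d → ℝ) := by
    funext j
    simp [Finset.sum_apply, Pi.single_apply]
  conv_rhs => rw [h1, map_sum]
  unfold dotProduct
  refine Finset.sum_congr rfl fun i _ => ?_
  rw [map_smul, smul_eq_mul, mul_comm]

/-- The vertex data. -/
theorem exists_isVtx (hd : 2 ≤ d) (h : NormFun μ) (k : Vertex μ) : ∃ X : Vtx d, IsVtx X μ := by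
  classical
  have hdpos : (0 : ℝ) < d := by
    have : 0 < d := by omega
    exact_mod_cast this
  set g : Fin d → ℝ := fun i => k.f (Pi.single i 1) with hg
  have hgd : ∀ x, dotProduct g x = k.f x := clm_eq_dot k.f
  have hV : IsVertex μ g k.u k.c := by
    refine ⟨k.hc, ?_, k.mu_u, fun z => ?_⟩
    · rw [hgd, k.fu]
    · rw [hgd]
      exact k.low z
  obtain ⟨H, hH, hsp⟩ := exists_forms (mu := μ) ⟨h.hom, h.add⟩ hV
  -- a direction outside the line of `u`
  have hne : ∃ z : Fin d → ℝ, z ≠ (dotProduct g z) • k.u := by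
    by_contra hcon
    push Not at hcon
    have h0 : (⟨0, by omega⟩ : Fin d) ≠ ⟨1, by omega⟩ := by
      intro h
      have := congrArg Fin.val h
      simp at this
    have h1 := hcon (Pi.single ⟨0, by omega⟩ 1)
    have h2 := hcon (Pi.single ⟨1, by omega⟩ 1)
    have h10 := congrFun h1 ⟨0, by omega⟩
    have h11 := congrFun h1 ⟨1, by omega⟩
    have h20 := congrFun h2 ⟨0, by omega⟩
    have h21 := congrFun h2 ⟨1, by omega⟩
    simp only [Pi.single_eq_same, Pi.single_eq_of_ne h0.symm, Pi.single_eq_of_ne h0, Pi.smul_apply,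
      smul_eq_mul] at h10 h11 h20 h21
    rcases mul_eq_zero.1 h11.symm with h3 | h3
    · rw [h3, zero_mul] at h10
      exact one_ne_zero h10
    · rw [h3, mul_zero] at h21
      exact one_ne_zero h21
  obtain ⟨z₀, hz₀⟩ := hne
  obtain ⟨h₀, hh₀, -⟩ := hsp z₀ hz₀
  have key : ∀ x : Fin d → ℝ, ∃ f ∈ H, dp g x + k.c / (2 * d) * rn (x - dp g x • k.u) ≤ dp f x := by
    intro x
    by_cases hx : x = (dotProduct g x) • k.u
    · refine ⟨h₀, hh₀, ?_⟩
      have h1 : x - dp g x • k.u = 0 := sub_eq_zero.2 hx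
      have h2 : rn (0 : Fin d → ℝ) = 0 := by simp [rn]
      rw [h1, h2, mul_zero, add_zero]
      have h3 : dp h₀ x = dotProduct g x * dp h₀ k.u := by
        conv_lhs => rw [hx]
        rw [dp_eq_dot, dp_eq_dot, dotProduct_smul, smul_eq_mul]
      rw [h3, dp_eq_dot h₀, (hH h₀ hh₀).2.1, mul_one, dp_eq_dot]
    · obtain ⟨f, hf, h1⟩ := hsp x hx
      refine ⟨f, hf, ?_⟩
      have h2 := rn_le_norm (x - dp g x • k.u)
      have h3 : k.c / (2 * d) * rn (x - dp g x • k.u) ≤ k.c / (2 * d) * (d * ‖x - dp g x • k.u‖) :=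
        mul_le_mul_of_nonneg_left h2 (div_nonneg k.hc.le (by positivity))
      have h4 : k.c / (2 * d) * (d * ‖x - dp g x • k.u‖) = k.c / 2 * ‖x - dp g x • k.u‖ := by
        field_simp
      rw [h4] at h3
      have h5 : dotProduct g x + k.c / 2 * ‖x - dp g x • k.u‖ ≤ dotProduct f x := h1
      show dotProduct g x + _ ≤ dotProduct f x
      linarith
  refine ⟨{ v := k.u, g := g, N := H.card, f := fun i => (H.equivFin.symm i).1, c := k.c / (2 * d) }, ?_⟩
  refine ⟨div_pos k.hc (by positivity), by rw [dp_eq_dot, hgd, k.fu], k.mu_u.le, fun i => ?_, fun x => ?_⟩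
  · have h1 := hH (H.equivFin.symm i).1 (H.equivFin.symm i).2
    refine ⟨h1.1, h1.2.1, fun ε hε => ?_⟩
    obtain ⟨e, he⟩ := h1.2.2 ε hε
    exact ⟨e, fun u hu => he u ((norm_le_rn u).trans hu)⟩
  · obtain ⟨f, hf, h1⟩ := key x
    refine ⟨H.equivFin ⟨f, hf⟩, ?_⟩
    simp only [Equiv.symm_apply_apply]
    exact h1

end Pool.Agent.W_1b8d5d_nc
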