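import Pool.Agent.W_1b8d5d_nc.FinalD
import Pool.Agent.W_1b8d5d_nc.PartD
import Pool.Agent.W_1b8d5d_nc.VtxOf

/-!
MP_1b8d5d_pr, all dimensions: the core of the final theorem from the theorem on good models.
-/

set_option autoImplicit false

open MeasureTheory ProbabilityTheory Filter Topology

namespace Pool.Agent.W_1b8d5d_nc

open Pool.Agent.W_1b8d5d_gd

/-- The theorem of `W_1b8d5d_nd`: good models exclude vertices. -/
def NoVtx : Prop := ∀ (d : ℕ) [NeZero d], 2 ≤ d → ∀ (Q : Pool.Agent.W_1b8d5d_nd.Qn) (m : V d → ℝ)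
  (μ : (Fin d → ℝ) → ℝ) (X : Pool.Agent.W_1b8d5d_nd.Vtx d), NormFun μ →
  Pool.Agent.W_1b8d5d_nd.IsVtx X μ → Pool.Agent.W_1b8d5d_nd.MuM μ m → Pool.Agent.W_1b8d5d_nd.HasN Q m → False

theorem coreD_of (h : NoVtx) : CoreD := by
  intro d _ hd ν hν hν0 hatom Ω _ P τ hF μ hn hl k
  obtain ⟨Q, m, hQ, hm⟩ := exists_models hd hF hν0 hatom hn hl
  obtain ⟨X, hX⟩ := exists_isVtx hd hn k
  exact h d hd Q m μ X hn hX hm hQ

end Pool.Agent.W_1b8d5d_nc
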