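import Pool.Agent.W_1b8d5d_nc.SymD

/-!
MP_1b8d5d_pr, all dimensions: a norm is differentiable at a point with a unique supporting form.
-/

set_option autoImplicit false

open Filter Topology

namespace Pool.Agent.W_1b8d5d_nc

variable {d : ℕ} {μ : (Fin d → ℝ) → ℝ}

/-- Supporting forms exist. -/
theorem exists_supp (h : NormFun μ) (w : Fin d → ℝ) : ∃ f : (Fin d → ℝ) →ₗ[ℝ] ℝ, Supp μ w f := by
  by_cases hw : w = 0
  · refine ⟨0, fun z => ?_, ?_⟩
    · rw [LinearMap.zero_apply]
      exact h.nonneg z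
    · rw [hw, h.zero, LinearMap.zero_apply]
  · let L : (Fin d → ℝ) →ₗ.[ℝ] ℝ := LinearPMap.mkSpanSingleton w (μ w) hw
    have hLw : ∀ (c : ℝ) (hy : c • w ∈ L.domain), L ⟨c • w, hy⟩ = c * μ w := fun c hy =>
      LinearPMap.mkSpanSingleton'_apply w (μ w) _ c hy
    obtain ⟨g, hg1, hg2⟩ := exists_extension_of_le_sublinear L μ (fun c hc x => h.hom c x hc.le) h.add (by
      rintro ⟨y, hy⟩
      obtain ⟨t, rfl⟩ := Submodule.mem_span_singleton.1 hy
      rw [hLw t hy]
      show t * μ w ≤ μ (t • w)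
      rcases le_total 0 t with ht | ht
      · rw [h.hom t w ht]
      · have h2 := h.nonneg (t • w)
        have h3 := h.nonneg w
        have h4 : t * μ w ≤ 0 := mul_nonpos_of_nonpos_of_nonneg ht h3
        linarith)
    refine ⟨g, hg2, ?_⟩
    have hmem : (1 : ℝ) • w ∈ L.domain := by
      rw [one_smul]
      exact Submodule.mem_span_singleton_self w
    have h1 := hg1 ⟨(1 : ℝ) • w, hmem⟩
    rw [hLw 1 hmem, one_mul] at h1
    rw [← h1]
    show g w = g ((1 : ℝ) • w)
    rw [one_smul]

/-- The set of the forms below `μ` as vectors. -/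
def dualB (μ : (Fin d → ℝ) → ℝ) : Set (Fin d → ℝ) := {g | ∀ z, dotProduct g z ≤ μ z}

theorem dualB_isCompact (h : NormFun μ) : IsCompact (dualB μ) := by
  rw [Metric.isCompact_iff_isClosed_bounded]
  constructor
  · have h1 : dualB μ = ⋂ z, {g : Fin d → ℝ | dotProduct g z ≤ μ z} := by
      ext g
      simp [dualB]
    rw [h1]
    refine isClosed_iInter fun z => isClosed_le ?_ continuous_const
    unfold dotProduct
    fun_prop
  · rw [isBounded_iff_forall_norm_le]
    refine ⟨∑ i : Fin d, (μ (Pi.single i 1) + μ (-Pi.single i 1)), fun g hg => ?_⟩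
    have h0 : ∀ i : Fin d, 0 ≤ μ (Pi.single i 1) + μ (-Pi.single i 1) := fun i => add_nonneg (h.nonneg _) (h.nonneg _)
    rw [pi_norm_le_iff_of_nonneg (Finset.sum_nonneg fun i _ => h0 i)]
    intro i
    have h1 := hg (Pi.single i 1)
    have h2 := hg (-Pi.single i 1)
    rw [dotProduct_single, mul_one] at h1
    rw [dotProduct_neg, dotProduct_single, mul_one] at h2
    have h3 := Finset.single_le_sum (f := fun i : Fin d => μ (Pi.single i 1) + μ (-Pi.single i 1)) (fun j _ => h0 j)
      (Finset.mem_univ i)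
    have h4 := h.nonneg (Pi.single i 1 : Fin d → ℝ)
    have h5 := h.nonneg (-Pi.single i 1 : Fin d → ℝ)
    simp only at h3
    rw [Real.norm_eq_abs, abs_le]
    constructor <;> linarith

/-- The vector of a form. -/
def vecOf (f : (Fin d → ℝ) →ₗ[ℝ] ℝ) : Fin d → ℝ := fun i => f (Pi.single i 1)

theorem vecOf_dot (f : (Fin d → ℝ) →ₗ[ℝ] ℝ) (z : Fin d → ℝ) : dotProduct (vecOf f) z = f z := by
  rw [form_eq_sum f z]
  unfold dotProduct vecOf
  exact Finset.sum_congr rfl fun i _ => mul_comm _ _

/-- The form of a vector. -/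
def formOf (g : Fin d → ℝ) : (Fin d → ℝ) →ₗ[ℝ] ℝ where
  toFun z := dotProduct g z
  map_add' x y := dotProduct_add g x y
  map_smul' c x := by
    rw [dotProduct_smul]
    rfl

/-- A unique supporting form is the derivative. -/
theorem diff_of_unique (h : NormFun μ) {x : Fin d → ℝ}
    (hu : ∀ f f' : (Fin d → ℝ) →ₗ[ℝ] ℝ, Supp μ x f → Supp μ x f' → f = f') : DifferentiableAt ℝ μ x := by
  obtain ⟨f, hf⟩ := exists_supp h x
  have hfd : ∀ g ∈ dualB μ, dotProduct g x = μ x → g = vecOf f := by
    intro g hg hgx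
    have h1 : formOf g = f := hu _ _ ⟨hg, hgx⟩ hf
    funext i
    have h2 := congrArg (fun F : (Fin d → ℝ) →ₗ[ℝ] ℝ => F (Pi.single i 1)) h1
    show g i = f (Pi.single i 1)
    rw [← h2]
    show g i = dotProduct g (Pi.single i 1)
    rw [dotProduct_single, mul_one]
  -- upper semicontinuity
  have husc : ∀ ε : ℝ, 0 < ε → ∀ᶠ w in 𝓝 x, ∀ g ∈ dualB μ, dotProduct g w = μ w → ‖g - vecOf f‖ < ε := by
    intro ε hε
    set A : Set (Fin d → ℝ) := dualB μ ∩ {g | ε ≤ ‖g - vecOf f‖} with hA
    have hAc : IsCompact A := (dualB_isCompact h).inter_right (isClosed_le continuous_const (by fun_prop))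
    rcases A.eq_empty_or_nonempty with hAe | hAne
    · refine Eventually.of_forall fun w g hg _ => ?_
      by_contra hcon
      have : g ∈ A := ⟨hg, not_lt.1 hcon⟩
      rw [hAe] at this
      exact this
    · have hcont : Continuous fun g : Fin d → ℝ => μ x - dotProduct g x := by
        unfold dotProduct
        fun_prop
      obtain ⟨g₀, hg₀, hmin⟩ := hAc.exists_isMinOn hAne hcont.continuousOn
      have hm : 0 < μ x - dotProduct g₀ x := by
        have h1 := hg₀.1 x
        rcases h1.lt_or_eq with h2 | h2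
        · linarith
        · exfalso
          have h3 := hfd g₀ hg₀.1 h2
          have h4 := hg₀.2
          rw [h3] at h4
          simp only [Set.mem_ofPred_eq, sub_self, norm_zero] at h4
          linarith
      set m := μ x - dotProduct g₀ x with hmdef
      obtain ⟨Cb, hCb⟩ := isBounded_iff_forall_norm_le.1 hAc.isBounded
      have hCb0 : 0 ≤ Cb := (norm_nonneg _).trans (hCb g₀ hg₀)
      have h1 : ∀ᶠ w in 𝓝 x, |μ w - μ x| < m / 3 := by
        have := (h.cont.tendsto x).eventually (Metric.ball_mem_nhds (μ x) (by positivity : 0 < m / 3))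
        filter_upwards [this] with w hw
        rwa [Real.dist_eq] at hw
      have h2 : ∀ᶠ w in 𝓝 x, ‖w - x‖ < m / (3 * (d * Cb + 1)) := by
        have h3 : 0 < m / (3 * (d * Cb + 1)) := by positivity
        filter_upwards [Metric.ball_mem_nhds x h3] with w hw
        rwa [Metric.mem_ball, dist_eq_norm] at hw
      filter_upwards [h1, h2] with w hw1 hw2 g hg hgw
      by_contra hcon
      have hgA : g ∈ A := ⟨hg, not_lt.1 hcon⟩
      have h3 : m ≤ μ x - dotProduct g x := hmin hgA
      have h4 : |dotProduct g (w - x)| ≤ m / 3 := by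
        refine (abs_dot_le g (w - x)).trans ?_
        have h5 : ‖g‖ * ‖w - x‖ ≤ Cb * (m / (3 * (d * Cb + 1))) :=
          mul_le_mul (hCb g hgA) hw2.le (norm_nonneg _) hCb0
        have h6 : (d : ℝ) * (‖g‖ * ‖w - x‖) ≤ d * (Cb * (m / (3 * (d * Cb + 1)))) :=
          mul_le_mul_of_nonneg_left h5 (Nat.cast_nonneg d)
        refine h6.trans ?_
        have h7 : (0 : ℝ) < 3 * (d * Cb + 1) := by positivity
        rw [show (d : ℝ) * (Cb * (m / (3 * (d * Cb + 1)))) = (d * Cb) * m / (3 * (d * Cb + 1)) by ring]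
        rw [div_le_div_iff₀ h7 (by norm_num)]
        nlinarith
      rw [dotProduct_sub, hgw] at h4
      have h5 := abs_le.1 h4
      have h6 := abs_lt.1 hw1
      linarith [h5.1, h5.2, h6.1, h6.2]
  -- the derivative
  have hder : HasFDerivAt μ (LinearMap.toContinuousLinearMap f) x := by
    rw [hasFDerivAt_iff_isLittleO]
    rw [Asymptotics.isLittleO_iff]
    intro ε hε
    have h1 := husc (ε / (d + 1)) (by positivity)
    filter_upwards [h1] with w hw
    obtain ⟨f', hf'⟩ := exists_supp h w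
    have hd1 : vecOf f' ∈ dualB μ := fun z => by
      rw [vecOf_dot]
      exact hf'.1 z
    have h2 := hw _ hd1 (by rw [vecOf_dot]; exact hf'.2)
    have h3 : (LinearMap.toContinuousLinearMap f) (w - x) = f (w - x) := rfl
    rw [h3]
    have h4 : 0 ≤ μ w - μ x - f (w - x) := by
      rw [map_sub, hf.2]
      have := hf.1 w
      linarith
    have h5 : μ w - μ x - f (w - x) ≤ dotProduct (vecOf f' - vecOf f) (w - x) := by
      rw [sub_dotProduct, vecOf_dot, vecOf_dot, map_sub, map_sub, hf'.2]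
      have := hf'.1 x
      linarith
    have h6 := (le_abs_self _).trans (abs_dot_le (vecOf f' - vecOf f) (w - x))
    rw [Real.norm_eq_abs, abs_of_nonneg h4]
    have h7 : (d : ℝ) * (‖vecOf f' - vecOf f‖ * ‖w - x‖) ≤ ε * ‖w - x‖ := by
      have h8 : (d : ℝ) * ‖vecOf f' - vecOf f‖ ≤ ε := by
        have h9 : (d : ℝ) * ‖vecOf f' - vecOf f‖ ≤ d * (ε / (d + 1)) := mul_le_mul_of_nonneg_left h2.le (Nat.cast_nonneg d)
        refine h9.trans ?_
        rw [← mul_div_assoc, div_le_iff₀ (by positivity)]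
        nlinarith [(Nat.cast_nonneg d : (0 : ℝ) ≤ d)]
      calc (d : ℝ) * (‖vecOf f' - vecOf f‖ * ‖w - x‖) = ((d : ℝ) * ‖vecOf f' - vecOf f‖) * ‖w - x‖ := by ring
        _ ≤ ε * ‖w - x‖ := mul_le_mul_of_nonneg_right h8 (norm_nonneg _)
    linarith
  exact hder.differentiableAt

/-- Without a vertex a norm which is invariant under signed permutations is differentiable in the directions of the axes
and of the diagonals. -/
theorem sym_diff (hd : 0 < d) (hn : NormFun μ) (hv : IsEmpty (Vertex μ))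
    (hperm : ∀ (σ : Equiv.Perm (Fin d)) (x : Fin d → ℝ), μ (fun i => x (σ i)) = μ x)
    (hsign : ∀ (ε : Fin d → ℤ), (∀ i, ε i = 1 ∨ ε i = -1) → ∀ x : Fin d → ℝ, μ (fun i => (ε i : ℝ) * x i) = μ x) :
    (∀ i : Fin d, DifferentiableAt ℝ μ (Pi.single i 1)) ∧
      ∀ ε : Fin d → ℤ, (∀ i, ε i = 1 ∨ ε i = -1) → DifferentiableAt ℝ μ (fun i => (ε i : ℝ)) := by
  refine ⟨fun i => ?_, fun ε hε => ?_⟩
  · refine diff_of_unique hn fun f f' hf hf' => ?_
    refine axis_unique hn.pos hperm hsign i (normal_hyperplane hn hv ?_) hf hf'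
    intro h0
    have := congrFun h0 i
    simp at this
  · refine diff_of_unique hn fun f f' hf hf' => ?_
    refine diag_unique hn.pos hperm hsign hd (normal_hyperplane hn hv ?_) hε hf hf'
    intro h0
    have := congrFun h0 ⟨0, hd⟩
    simp at this

end Pool.Agent.W_1b8d5d_nc
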