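import Pool.Agent.W_bbc525_h89.Hull

/-!
MP_1b8d5d_pr (no corner): points of curvature of a compact convex set, in all dimensions.

A point `z` of `K` is a point of curvature (Newman) if some closed Euclidean ball contains `K` and has `z` on its
boundary. The points of curvature of any compact set have closed convex hull equal to the closed convex hull of the set;
so a compact convex set which is not a polytope has infinitely many of them, and every extreme point is a limit of them.
-/

set_option autoImplicit false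

open Set Filter Topology

namespace Pool.Agent.W_1b8d5d_nc

variable {d : ℕ}

/-- The points of curvature of `K`: some closed Euclidean ball contains `K` and has `z` on its boundary
sphere. -/
def curvedPoints (K : Set (Fin d → ℝ)) : Set (Fin d → ℝ) :=
  {z | z ∈ K ∧ ∃ (c : Fin d → ℝ) (r : ℝ), ∑ i, (z i - c i) ^ 2 = r ∧ ∀ y ∈ K, ∑ i, (y i - c i) ^ 2 ≤ r}

/-- Every open half space which meets `K` contains a point of curvature of `K`.
PROOF: `x ∈ K`, `a < ⟨u, x⟩`, `∑ y_i ^ 2 ≤ M` on `K`. Take the centre `- R u`, `R` large, and the point `z` of `K` which is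
farthest from it: `|z|^2 + 2 R ⟨u, z⟩ ≥ |x|^2 + 2 R ⟨u, x⟩`, so `⟨u, z⟩ > a`. -/
theorem exists_curved {K : Set (Fin d → ℝ)} (hK : IsCompact K) {x u : Fin d → ℝ} (hx : x ∈ K) {a : ℝ}
    (ha : a < ∑ i, u i * x i) : ∃ z ∈ curvedPoints K, a < ∑ i, u i * z i := by
  obtain ⟨m, hm, hmax⟩ := hK.exists_isMaxOn ⟨x, hx⟩
    (f := fun y : Fin d → ℝ => ∑ i, y i ^ 2) (by fun_prop)
  have hM : ∀ y ∈ K, ∑ i, y i ^ 2 ≤ ∑ i, m i ^ 2 := fun y hy => hmax hy
  set M : ℝ := ∑ i, m i ^ 2 with hMdef
  have hM0 : 0 ≤ M := Finset.sum_nonneg fun i _ => sq_nonneg _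
  set δ : ℝ := (∑ i, u i * x i) - a with hδ
  have hδ0 : 0 < δ := by rw [hδ]; linarith
  set R : ℝ := (M + 1) / (2 * δ) with hR
  have hRδ : 2 * R * δ = M + 1 := by
    rw [hR]
    field_simp
  have hR0 : 0 < R := by rw [hR]; positivity
  obtain ⟨z, hz, hzmax⟩ := hK.exists_isMaxOn ⟨x, hx⟩
    (f := fun y : Fin d → ℝ => ∑ i, (y i - (-(R * u i))) ^ 2) (by fun_prop)
  have hexp : ∀ y : Fin d → ℝ, ∑ i, (y i - (-(R * u i))) ^ 2
      = ∑ i, y i ^ 2 + 2 * R * (∑ i, u i * y i) + R ^ 2 * ∑ i, u i ^ 2 := by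
    intro y
    rw [Finset.mul_sum, Finset.mul_sum, ← Finset.sum_add_distrib, ← Finset.sum_add_distrib]
    refine Finset.sum_congr rfl fun i _ => ?_
    ring
  refine ⟨z, ⟨hz, fun i => -(R * u i), _, rfl, fun y hy => hzmax hy⟩, ?_⟩
  have h1 : ∑ i, (x i - (-(R * u i))) ^ 2 ≤ ∑ i, (z i - (-(R * u i))) ^ 2 := hzmax hx
  rw [hexp x, hexp z] at h1
  have h2 := hM z hz
  have h3 : 0 ≤ ∑ i, x i ^ 2 := Finset.sum_nonneg fun i _ => sq_nonneg _
  have h4 : 2 * R * (∑ i, u i * x i) = 2 * R * a + (M + 1) := by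
    rw [← hRδ, hδ]
    ring
  have h5 : 2 * R * a < 2 * R * (∑ i, u i * z i) := by linarith
  exact lt_of_mul_lt_mul_left h5 (by linarith)

/-- A continuous linear form on `Fin d → ℝ` is a sum. -/
theorem form_eq (f : (Fin d → ℝ) →L[ℝ] ℝ) (x : Fin d → ℝ) :
    f x = ∑ i, f (Pi.single i 1) * x i := by
  have h1 : x = ∑ i, x i • (Pi.single i (1 : ℝ) : Fin d → ℝ) := by
    ext j
    simp [Finset.sum_apply, Pi.single_apply]
  conv_lhs => rw [h1]
  rw [map_sum]
  refine Finset.sum_congr rfl fun i _ => ?_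
  rw [map_smul, smul_eq_mul, mul_comm]

/-- `K` is in the closed convex hull of its points of curvature. -/
theorem subset_closure_hull_curved {K : Set (Fin d → ℝ)} (hK : IsCompact K) :
    K ⊆ closure (convexHull ℝ (curvedPoints K)) := by
  intro x hx
  by_contra hne
  obtain ⟨f, s, hf1, hf2⟩ := geometric_hahn_banach_closed_point
    (convex_convexHull ℝ (curvedPoints K)).closure isClosed_closure hne
  rw [form_eq] at hf2
  obtain ⟨z, hz, hzs⟩ := exists_curved hK hx hf2
  have h1 := hf1 z (subset_closure (subset_convexHull ℝ _ hz))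
  rw [form_eq] at h1
  exact lt_irrefl _ (h1.trans hzs)

/-- The closed convex hull of the points of curvature is `K`. -/
theorem closure_hull_curved {K : Set (Fin d → ℝ)} (hK : IsCompact K) (hconv : Convex ℝ K) :
    closure (convexHull ℝ (curvedPoints K)) = K := by
  refine Subset.antisymm ?_ (subset_closure_hull_curved hK)
  exact closure_minimal (convexHull_min (fun z hz => hz.1) hconv) hK.isClosed

/-- A compact convex set which is not a polytope has infinitely many points of curvature. -/
theorem curved_infinite {K : Set (Fin d → ℝ)} (hK : IsCompact K) (hconv : Convex ℝ K)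
    (hne : ∀ S : Finset (Fin d → ℝ), K ≠ convexHull ℝ (S : Set (Fin d → ℝ))) :
    (curvedPoints K).Infinite := by
  intro hfin
  have h1 := closure_hull_curved hK hconv
  rw [(hfin.isClosed_convexHull ℝ).closure_eq] at h1
  refine hne hfin.toFinset ?_
  rw [hfin.coe_toFinset]
  exact h1.symm

/-- Points of curvature are extreme points. -/
theorem curved_subset_extreme (K : Set (Fin d → ℝ)) : curvedPoints K ⊆ K.extremePoints ℝ := by
  rintro z ⟨hz, c, r, hzr, hr⟩
  rw [mem_extremePoints]
  refine ⟨hz, fun x hx y hy hxy => ?_⟩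
  obtain ⟨a, b, ha, hb, hab, hzz⟩ := hxy
  have hb' : b = 1 - a := by linarith
  have hx1 := hr x hx
  have hy1 := hr y hy
  have hzi : ∀ i, z i = a * x i + b * y i := by
    intro i
    rw [← hzz]
    simp
  have key : ∑ i, (z i - c i) ^ 2
      = a * ∑ i, (x i - c i) ^ 2 + b * ∑ i, (y i - c i) ^ 2 - a * b * ∑ i, (x i - y i) ^ 2 := by
    rw [Finset.mul_sum, Finset.mul_sum, Finset.mul_sum, ← Finset.sum_add_distrib,
      ← Finset.sum_sub_distrib]
    refine Finset.sum_congr rfl fun i _ => ?_
    rw [hzi i, hb']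
    ring
  have h0 : ∑ i, (x i - y i) ^ 2 ≤ 0 := by
    have h1 : a * ∑ i, (x i - c i) ^ 2 ≤ a * r := mul_le_mul_of_nonneg_left hx1 ha.le
    have h2 : b * ∑ i, (y i - c i) ^ 2 ≤ b * r := mul_le_mul_of_nonneg_left hy1 hb.le
    have h3 : a * r + b * r = r := by rw [← add_mul, hab, one_mul]
    have h4 : a * b * ∑ i, (x i - y i) ^ 2 ≤ 0 := by linarith
    have h5 : 0 < a * b := mul_pos ha hb
    by_contra hcon
    push Not at hcon
    have := mul_pos h5 hcon
    linarith
  have h1 : ∑ i, (x i - y i) ^ 2 = 0 :=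
    le_antisymm h0 (Finset.sum_nonneg fun i _ => sq_nonneg _)
  have h2 : x = y := by
    ext i
    have h3 := (Finset.sum_eq_zero_iff_of_nonneg fun i _ => sq_nonneg (x i - y i)).mp h1 i
      (Finset.mem_univ i)
    have h4 : x i - y i = 0 := by
      simpa using h3
    linarith
  subst h2
  have h3 : x = z := by
    rw [← hzz, ← add_smul, hab, one_smul]
  exact ⟨h3, h3⟩

/-- Every extreme point is a limit of points of curvature (Straszewicz, with balls for half spaces). -/
theorem extreme_subset_closure_curved {K : Set (Fin d → ℝ)} (hK : IsCompact K)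
    (hconv : Convex ℝ K) : K.extremePoints ℝ ⊆ closure (curvedPoints K) := by
  have hsub : closure (curvedPoints K) ⊆ K := closure_minimal (fun z hz => hz.1) hK.isClosed
  have hcomp : IsCompact (closure (curvedPoints K)) := hK.of_isClosed_subset isClosed_closure hsub
  have h1 : convexHull ℝ (closure (curvedPoints K)) = K := by
    refine Subset.antisymm (convexHull_min hsub hconv) ?_
    have h2 : closure (convexHull ℝ (curvedPoints K)) ⊆ convexHull ℝ (closure (curvedPoints K)) :=
      closure_minimal (convexHull_mono subset_closure)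
        (Pool.Agent.W_bbc525_h89.isCompact_hull hcomp).isClosed
    exact (subset_closure_hull_curved hK).trans h2
  intro x hx
  rw [← h1] at hx
  exact extremePoints_convexHull_subset hx

/-- If the extreme points have no isolated point, then no point of the set of the points of curvature is isolated in
it. -/
theorem curved_preperfect {K : Set (Fin d → ℝ)} (hK : IsCompact K) (hconv : Convex ℝ K)
    (hp : Preperfect (K.extremePoints ℝ)) : Preperfect (curvedPoints K) := by
  intro x hx
  rw [accPt_iff_nhds]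
  intro U hU
  obtain ⟨V, hVU, hV, hxV⟩ := mem_nhds_iff.mp hU
  have h1 := hp x (curved_subset_extreme K hx)
  rw [accPt_iff_nhds] at h1
  obtain ⟨y, ⟨hyV, hyK⟩, hyx⟩ := h1 V (hV.mem_nhds hxV)
  have h2 := extreme_subset_closure_curved hK hconv hyK
  obtain ⟨z, ⟨hzV, hzx⟩, hzc⟩ := mem_closure_iff.mp h2 (V ∩ {x}ᶜ)
    (hV.inter isOpen_compl_singleton) ⟨hyV, hyx⟩
  exact ⟨z, ⟨hVU hzV, hzc⟩, hzx⟩

end Pool.Agent.W_1b8d5d_nc
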