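import Pool.Agent.W_1b8d5d_nc.Disc2

/-!
MP_1b8d5d_pr (no corner): for almost every angle, the supporting line of a compact set of the plane with this outer
normal touches the set at a single point, which is a point of curvature.
-/

set_option autoImplicit false

open Set Filter Topology MeasureTheory

namespace Pool.Agent.W_1b8d5d_nc

/-- A quadratic upper bound of the support function in the direction `(1, t)` gives a point of curvature. -/
theorem curved_of_quadratic {K : Set (Fin 2 → ℝ)} (hK : IsCompact K) {z : Fin 2 → ℝ} (hz : z ∈ K)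
    {t C : ℝ} (hC : 0 < C)
    (h : ∀ s : ℝ, ∀ y ∈ K, (y 0 - z 0) + (t + s) * (y 1 - z 1) ≤ C * s ^ 2) :
    z ∈ curvedPoints K ∧ ∀ y ∈ K, y ≠ z → y 0 + t * y 1 < z 0 + t * z 1 := by
  obtain ⟨D, hD⟩ := hK.exists_bound_of_continuousOn
    (f := fun y : Fin 2 → ℝ => (y 0 - z 0) + t * (y 1 - z 1)) (by fun_prop)
  have hD0 : 0 ≤ D := (norm_nonneg _).trans (hD z hz)
  set ρ : ℝ := D + (2 * t ^ 2 + 1) * (2 * C) with hρ
  have hρ0 : 0 < ρ := by positivity
  have key : ∀ y ∈ K, (y 0 - z 0) ^ 2 + (y 1 - z 1) ^ 2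
      ≤ 2 * ρ * (-((y 0 - z 0) + t * (y 1 - z 1))) := by
    intro y hy
    set a := y 0 - z 0 with ha
    set b := y 1 - z 1 with hb
    set δ := -(a + t * b) with hδ
    have h0 := h 0 y hy
    rw [← ha, ← hb] at h0
    have hδ0 : 0 ≤ δ := by
      rw [hδ]
      nlinarith
    have h1 := h (b / (2 * C)) y hy
    rw [← ha, ← hb] at h1
    have h2 : b ^ 2 ≤ 4 * C * δ := by
      have h3 : a + (t + b / (2 * C)) * b = -δ + b ^ 2 / (2 * C) := by
        rw [hδ]
        ring
      have h4 : C * (b / (2 * C)) ^ 2 = b ^ 2 / (4 * C) := by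
        field_simp
        ring
      rw [h3, h4] at h1
      have h5 : b ^ 2 / (2 * C) = 2 * (b ^ 2 / (4 * C)) := by
        field_simp
        ring
      have h6 : b ^ 2 / (4 * C) ≤ δ := by linarith
      rw [div_le_iff₀ (by positivity)] at h6
      linarith
    have h7 : δ ≤ D := by
      have h8 := (abs_le.mp (hD y hy)).1
      rw [hδ]
      have h9 : -D ≤ a + t * b := h8
      linarith
    have h10 : a = -δ - t * b := by rw [hδ]; ring
    have h11 : a ^ 2 ≤ 2 * δ ^ 2 + 2 * t ^ 2 * b ^ 2 := by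
      rw [h10]
      nlinarith [sq_nonneg (δ - t * b)]
    have h12 : δ ^ 2 ≤ D * δ := by nlinarith
    have h13 : (2 * t ^ 2 + 1) * b ^ 2 ≤ (2 * t ^ 2 + 1) * (4 * C * δ) :=
      mul_le_mul_of_nonneg_left h2 (by positivity)
    calc a ^ 2 + b ^ 2 ≤ 2 * δ ^ 2 + (2 * t ^ 2 + 1) * b ^ 2 := by linarith
      _ ≤ 2 * (D * δ) + (2 * t ^ 2 + 1) * (4 * C * δ) := by linarith
      _ = 2 * ρ * δ := by rw [hρ]; ring
  refine ⟨⟨hz, ![z 0 - ρ, z 1 - ρ * t], _, rfl, ?_⟩, ?_⟩
  · intro y hy
    have h1 := key y hy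
    simp only [Fin.sum_univ_two, Matrix.cons_val_zero, Matrix.cons_val_one]
    nlinarith
  · intro y hy hyz
    have h1 := key y hy
    have h2 : 0 < (y 0 - z 0) ^ 2 + (y 1 - z 1) ^ 2 := by
      by_contra hcon
      push Not at hcon
      have h3 : y 0 - z 0 = 0 := by
        have := sq_nonneg (y 0 - z 0)
        have := sq_nonneg (y 1 - z 1)
        have h4 : (y 0 - z 0) ^ 2 = 0 := by linarith
        exact pow_eq_zero_iff (two_ne_zero) |>.mp h4
      have h4 : y 1 - z 1 = 0 := by
        have := sq_nonneg (y 0 - z 0)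
        have := sq_nonneg (y 1 - z 1)
        have h4 : (y 1 - z 1) ^ 2 = 0 := by linarith
        exact pow_eq_zero_iff (two_ne_zero) |>.mp h4
      apply hyz
      ext i
      fin_cases i
      · simpa using sub_eq_zero.mp h3
      · simpa using sub_eq_zero.mp h4
    have h3 : 0 < 2 * ρ * (-((y 0 - z 0) + t * (y 1 - z 1))) := lt_of_lt_of_le h2 h1
    have h4 : 0 < -((y 0 - z 0) + t * (y 1 - z 1)) := by
      by_contra hcon
      push Not at hcon
      have := mul_nonpos_of_nonneg_of_nonpos (by positivity : (0 : ℝ) ≤ 2 * ρ) hcon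
      linarith
    linarith

/-- For almost every `t`, the supporting line with outer normal `(1, t)` touches the compact set `K` at a single
point, which is a point of curvature.
PROOF: `Z t` = a point of `K` with maximal `y 0 + t * y 1`. `g t = Z t 1` is monotone, so differentiable almost everywhere,
and there `|g (t + s) - g t| ≤ C |s|`, which bounds the support function by a quadratic polynomial. -/
theorem ae_chart {K : Set (Fin 2 → ℝ)} (hK : IsCompact K) (hne : K.Nonempty) :
    ∀ᵐ t : ℝ, ∃ z ∈ curvedPoints K, ∀ y ∈ K, y ≠ z → y 0 + t * y 1 < z 0 + t * z 1 := by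
  have hex : ∀ t : ℝ, ∃ z ∈ K, ∀ y ∈ K, y 0 + t * y 1 ≤ z 0 + t * z 1 := by
    intro t
    obtain ⟨z, hz, hm⟩ := hK.exists_isMaxOn hne
      (f := fun y : Fin 2 → ℝ => y 0 + t * y 1) (by fun_prop)
    exact ⟨z, hz, fun y hy => hm hy⟩
  choose Z hZK hZ using hex
  obtain ⟨M, hM⟩ := hK.exists_bound_of_continuousOn
    (f := fun y : Fin 2 → ℝ => y 1) (by fun_prop)
  have hmono : Monotone fun t => Z t 1 := by
    intro t t' htt
    rcases htt.eq_or_lt with rfl | hlt
    · exact le_rfl
    · have h1 := hZ t (Z t') (hZK t')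
      have h2 := hZ t' (Z t) (hZK t)
      have h3 : 0 ≤ (t' - t) * (Z t' 1 - Z t 1) := by nlinarith
      have h4 : 0 ≤ Z t' 1 - Z t 1 := by
        by_contra hcon
        push Not at hcon
        have := mul_neg_of_pos_of_neg (sub_pos.mpr hlt) hcon
        linarith
      show Z t 1 ≤ Z t' 1
      linarith
  filter_upwards [hmono.ae_differentiableAt] with t ht
  obtain ⟨c, hc0, hc⟩ := ht.hasDerivAt.isBigO_sub.exists_pos
  obtain ⟨r, hr0, hr⟩ := Metric.eventually_nhds_iff.mp hc.bound
  have hM0 : 0 ≤ M := (norm_nonneg _).trans (hM _ (hZK t))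
  set C : ℝ := c + 2 * M / r with hCdef
  have hC0 : 0 < C := by positivity
  have hlip : ∀ s : ℝ, |Z (t + s) 1 - Z t 1| ≤ C * |s| := by
    intro s
    by_cases hs : |s| < r
    · have h1 := hr (y := t + s) (by rw [Real.dist_eq, add_sub_cancel_left]; exact hs)
      rw [Real.norm_eq_abs, Real.norm_eq_abs, add_sub_cancel_left] at h1
      refine h1.trans ?_
      apply mul_le_mul_of_nonneg_right _ (abs_nonneg s)
      rw [hCdef]
      have : 0 ≤ 2 * M / r := by positivity
      linarith
    · push Not at hs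
      have h1 : |Z (t + s) 1| ≤ M := hM _ (hZK (t + s))
      have h2 : |Z t 1| ≤ M := hM _ (hZK t)
      have h3 : |Z (t + s) 1 - Z t 1| ≤ 2 * M := by
        have := abs_sub (Z (t + s) 1) (Z t 1)
        linarith
      have h4 : 2 * M ≤ 2 * M / r * |s| := by
        rw [div_mul_eq_mul_div, le_div_iff₀ hr0]
        exact mul_le_mul_of_nonneg_left hs (by linarith)
      have h5 : 2 * M / r * |s| ≤ C * |s| := by
        apply mul_le_mul_of_nonneg_right _ (abs_nonneg s)
        rw [hCdef]
        linarith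
      linarith
  obtain ⟨h1, h2⟩ := curved_of_quadratic hK (hZK t) (t := t) hC0 (by
    intro s y hy
    have h1 := hZ (t + s) y hy
    have h2 := hZ t (Z (t + s)) (hZK (t + s))
    have h3 : s * (Z (t + s) 1 - Z t 1) ≤ C * s ^ 2 := by
      calc s * (Z (t + s) 1 - Z t 1) ≤ |s * (Z (t + s) 1 - Z t 1)| := le_abs_self _
        _ = |s| * |Z (t + s) 1 - Z t 1| := abs_mul _ _
        _ ≤ |s| * (C * |s|) := mul_le_mul_of_nonneg_left (hlip s) (abs_nonneg s)
        _ = C * s ^ 2 := by rw [← sq_abs s]; ring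
    nlinarith)
  exact ⟨Z t, h1, h2⟩

/-- The reflection in the second axis. -/
def refl0 (y : Fin 2 → ℝ) : Fin 2 → ℝ := ![-(y 0), y 1]

theorem refl0_refl0 (y : Fin 2 → ℝ) : refl0 (refl0 y) = y := by
  ext i
  fin_cases i <;> simp [refl0]

theorem continuous_refl0 : Continuous refl0 := by
  unfold refl0
  refine continuous_pi fun i => ?_
  fin_cases i
  · simp
    fun_prop
  · simp
    fun_prop

theorem curved_refl0 {K : Set (Fin 2 → ℝ)} {z : Fin 2 → ℝ}
    (hz : z ∈ curvedPoints (refl0 '' K)) : refl0 z ∈ curvedPoints K := by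
  obtain ⟨⟨y, hy, rfl⟩, c, r, hzr, hr⟩ := hz
  rw [refl0_refl0]
  refine ⟨hy, refl0 c, r, ?_, ?_⟩
  · rw [← hzr]
    simp only [Fin.sum_univ_two, refl0, Matrix.cons_val_zero, Matrix.cons_val_one]
    ring
  · intro x hx
    have h1 := hr (refl0 x) ⟨x, hx, rfl⟩
    simp only [Fin.sum_univ_two, refl0, Matrix.cons_val_zero, Matrix.cons_val_one] at h1 ⊢
    nlinarith

/-- Angles whose tangent is in a null set form a null set. -/
theorem null_tan {N : Set ℝ} (hN : volume N = 0) :
    volume {θ : ℝ | Real.cos θ ≠ 0 ∧ Real.tan θ ∈ N} = 0 := by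
  have hsub : {θ : ℝ | Real.cos θ ≠ 0 ∧ Real.tan θ ∈ N}
      ⊆ ⋃ k : ℤ, (fun x : ℝ => Real.arctan x + k * Real.pi) '' N := by
    rintro θ ⟨hc, ht⟩
    rw [mem_iUnion]
    refine ⟨⌊θ / Real.pi + 1 / 2⌋, Real.tan θ, ht, ?_⟩
    have hpi := Real.pi_pos
    set k : ℤ := ⌊θ / Real.pi + 1 / 2⌋ with hk
    have h1 : (k : ℝ) ≤ θ / Real.pi + 1 / 2 := Int.floor_le _
    have h2 : θ / Real.pi + 1 / 2 < k + 1 := Int.lt_floor_add_one _
    have h3 : (k : ℝ) * Real.pi ≤ θ + Real.pi / 2 := by
      have := mul_le_mul_of_nonneg_right h1 hpi.le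
      have h4 : (θ / Real.pi + 1 / 2) * Real.pi = θ + Real.pi / 2 := by field_simp
      linarith
    have h5 : θ + Real.pi / 2 < (k : ℝ) * Real.pi + Real.pi := by
      have := mul_lt_mul_of_pos_right h2 hpi
      have h4 : (θ / Real.pi + 1 / 2) * Real.pi = θ + Real.pi / 2 := by field_simp
      linarith
    have hne : θ - k * Real.pi ≠ -(Real.pi / 2) := by
      intro h
      apply hc
      have h6 : θ = -(Real.pi / 2) + k * Real.pi := by linarith
      rw [h6, Real.cos_add_int_mul_pi]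
      simp
    have h6 : -(Real.pi / 2) < θ - k * Real.pi :=
      lt_of_le_of_ne (by linarith) (Ne.symm hne)
    have h7 : θ - k * Real.pi < Real.pi / 2 := by linarith
    have h8 : Real.tan (θ - k * Real.pi) = Real.tan θ := Real.tan_sub_int_mul_pi θ k
    show Real.arctan (Real.tan θ) + k * Real.pi = θ
    rw [← h8, Real.arctan_tan h6 h7]
    ring
  refine measure_mono_null hsub (measure_iUnion_null fun k => ?_)
  refine MeasureTheory.addHaar_image_eq_zero_of_differentiableOn_of_addHaar_eq_zero volume ?_ hN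
  exact ((Real.differentiable_arctan).add_const _).differentiableOn

/-- ALMOST EVERY NORMAL: for almost every angle `θ`, the supporting line with outer normal `(cos θ, sin θ)` touches the compact
set `K` at a single point, which is a point of curvature. -/
theorem ae_curved {K : Set (Fin 2 → ℝ)} (hK : IsCompact K) (hne : K.Nonempty) :
    ∀ᵐ θ : ℝ, ∃ z ∈ curvedPoints K, ∀ y ∈ K, y ≠ z →
      Real.cos θ * y 0 + Real.sin θ * y 1 < Real.cos θ * z 0 + Real.sin θ * z 1 := by
  have hA := ae_iff.mp (ae_chart hK hne)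
  have hB := ae_iff.mp (ae_chart (hK.image continuous_refl0) (hne.image refl0))
  set A : Set ℝ := {t | ¬ ∃ z ∈ curvedPoints K, ∀ y ∈ K, y ≠ z → y 0 + t * y 1 < z 0 + t * z 1}
    with hAdef
  set B : Set ℝ := {t | ¬ ∃ z ∈ curvedPoints (refl0 '' K), ∀ y ∈ refl0 '' K, y ≠ z →
    y 0 + t * y 1 < z 0 + t * z 1} with hBdef
  have hB' : volume (Neg.neg '' B) = 0 := by
    refine MeasureTheory.addHaar_image_eq_zero_of_differentiableOn_of_addHaar_eq_zero volume ?_ hB
    exact differentiable_neg.differentiableOn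
  have hcos : volume {θ : ℝ | Real.cos θ = 0} = 0 := by
    have h1 : {θ : ℝ | Real.cos θ = 0} ⊆ range fun k : ℤ => (2 * k + 1) * Real.pi / 2 := by
      intro θ hθ
      obtain ⟨k, hk⟩ := Real.cos_eq_zero_iff.mp hθ
      exact ⟨k, hk.symm⟩
    exact measure_mono_null h1 ((countable_range _).measure_zero _)
  rw [ae_iff]
  refine measure_mono_null ?_ (measure_union_null hcos
    (measure_union_null (null_tan hA) (null_tan hB')))
  intro θ hθ
  by_cases hc : Real.cos θ = 0
  · exact Or.inl hc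
  · right
    by_contra hcon
    rw [mem_union, not_or] at hcon
    obtain ⟨hnA, hnB⟩ := hcon
    have hnA' : Real.tan θ ∉ A := fun h => hnA ⟨hc, h⟩
    have hnB' : -Real.tan θ ∉ B := fun h => hnB ⟨hc, -Real.tan θ, h, neg_neg _⟩
    rw [hAdef, mem_ofPred_eq, not_not] at hnA'
    rw [hBdef, mem_ofPred_eq, not_not] at hnB'
    have htan : Real.sin θ = Real.tan θ * Real.cos θ := (Real.tan_mul_cos hc).symm
    apply hθ
    rcases lt_or_gt_of_ne hc with hneg | hpos
    · obtain ⟨z, hz, hz2⟩ := hnB'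
      refine ⟨refl0 z, curved_refl0 hz, fun y hy hyz => ?_⟩
      have h1 := hz2 (refl0 y) ⟨y, hy, rfl⟩ (by
        intro h
        apply hyz
        rw [← h, refl0_refl0])
      have h2 := mul_lt_mul_of_pos_left h1 (neg_pos.mpr hneg)
      rw [htan]
      simp only [refl0, Matrix.cons_val_zero, Matrix.cons_val_one] at h2 ⊢
      nlinarith
    · obtain ⟨z, hz, hz2⟩ := hnA'
      refine ⟨z, hz, fun y hy hyz => ?_⟩
      have h1 := hz2 y hy hyz
      have h2 := mul_lt_mul_of_pos_left h1 hpos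
      rw [htan]
      nlinarith

end Pool.Agent.W_1b8d5d_nc
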