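import Pool.Agent.W_1b8d5d_nc.Disc2

/-!
MP_1b8d5d_pr (all dimensions): if the unit ball of a norm has no vertex (no point with a full dimensional normal
cone), then every neighbourhood of every extreme point contains uncountably many points of curvature.
-/

set_option autoImplicit false

open Set Filter Topology

namespace Pool.Agent.W_1b8d5d_nc

variable {d : ℕ}

/-- Half spaces cut small caps at extreme points. -/
theorem exists_cap {K : Set (Fin d → ℝ)} (hK : IsCompact K) (hconv : Convex ℝ K) {z : Fin d → ℝ}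
    (hz : z ∈ K.extremePoints ℝ) {U : Set (Fin d → ℝ)} (hU : U ∈ 𝓝 z) :
    ∃ (u : Fin d → ℝ) (a : ℝ), a < ∑ i, u i * z i ∧ ∀ y ∈ K, a < ∑ i, u i * y i → y ∈ U := by
  obtain ⟨V, hVU, hV, hzV⟩ := mem_nhds_iff.mp hU
  have hC : IsCompact (K \ V) := hK.diff hV
  have hsub : convexHull ℝ (K \ V) ⊆ K := convexHull_min sdiff_subset hconv
  have hzC : z ∉ convexHull ℝ (K \ V) := by
    intro h
    have h1 := inter_extremePoints_subset_extremePoints_of_subset hsub ⟨h, hz⟩
    exact (extremePoints_convexHull_subset h1).2 hzV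
  obtain ⟨f, s, hf1, hf2⟩ := geometric_hahn_banach_closed_point
    (convex_convexHull ℝ (K \ V)) (Pool.Agent.W_bbc525_h89.isCompact_hull hC).isClosed hzC
  rw [form_eq] at hf2
  refine ⟨fun i => f (Pi.single i 1), s, hf2, fun y hy hys => hVU ?_⟩
  by_contra hyV
  have h1 := hf1 y (subset_convexHull ℝ _ ⟨hy, hyV⟩)
  rw [form_eq] at h1
  exact lt_irrefl _ (h1.trans hys)

/-- If an open half space contains a point of `K` but only countably many points of curvature, then one point of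
`K` is the farthest point of `K` for all centres in an open ball.
PROOF: the farthest points for the centres near `- R u` are in the half space; the sets of the centres with a given
farthest point are closed; Baire. -/
theorem baire_centres {K : Set (Fin d → ℝ)} (hK : IsCompact K) {x u : Fin d → ℝ} (hx : x ∈ K) {a : ℝ}
    (ha : a < ∑ i, u i * x i)
    (hcount : (curvedPoints K ∩ {z | a < ∑ i, u i * z i}).Countable) :
    ∃ z ∈ K, ∃ (c₀ : Fin d → ℝ) (ρ : ℝ), 0 < ρ ∧ ∀ c, ‖c - c₀‖ < ρ → ∀ y ∈ K,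
      ∑ i, (y i - c i) ^ 2 ≤ ∑ i, (z i - c i) ^ 2 := by
  obtain ⟨M, hM⟩ := hK.exists_bound_of_continuousOn
    (f := fun y : Fin d → ℝ => ∑ i, y i ^ 2) (by fun_prop)
  obtain ⟨N, hN⟩ := hK.exists_bound_of_continuousOn
    (f := fun y : Fin d → ℝ => y) (by fun_prop)
  have hN0 : 0 ≤ N := (norm_nonneg _).trans (hN x hx)
  have hδ0 : 0 < (∑ i, u i * x i) - a := by linarith
  obtain ⟨R, hR0, hR2⟩ : ∃ R : ℝ, 0 < R ∧
      M + 4 * (d * N) < 2 * R * ((∑ i, u i * x i) - a) := by
    refine ⟨1 + |M + 4 * (d * N)| / ((∑ i, u i * x i) - a), by positivity, ?_⟩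
    have h1 : 2 * (1 + |M + 4 * (d * N)| / ((∑ i, u i * x i) - a)) * ((∑ i, u i * x i) - a)
        = 2 * ((∑ i, u i * x i) - a) + 2 * |M + 4 * (d * N)| := by
      field_simp
    have h3 := le_abs_self (M + 4 * (d * N))
    have h4 := abs_nonneg (M + 4 * (d * N))
    rw [h1]
    linarith
  let F : (Fin d → ℝ) → Set (Fin d → ℝ) := fun z =>
    {c | ∀ y ∈ K, ∑ i, (y i - c i) ^ 2 ≤ ∑ i, (z i - c i) ^ 2}
  have hFclosed : ∀ z, IsClosed (F z) := by
    intro z
    have h1 : F z = ⋂ y ∈ K, {c | ∑ i, (y i - c i) ^ 2 ≤ ∑ i, (z i - c i) ^ 2} := by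
      ext c
      simp only [F, mem_iInter]
      rfl
    rw [h1]
    refine isClosed_biInter fun y _ => isClosed_le (by fun_prop) (by fun_prop)
  have hcover : ∀ c ∈ Metric.ball (-(R • u)) 1, ∃ z ∈ curvedPoints K ∩ {z | a < ∑ i, u i * z i},
      c ∈ F z := by
    intro c hc
    obtain ⟨z, hz, hm⟩ := hK.exists_isMaxOn ⟨x, hx⟩
      (f := fun y : Fin d → ℝ => ∑ i, (y i - c i) ^ 2) (by fun_prop)
    have hm' : ∀ y ∈ K, ∑ i, (y i - c i) ^ 2 ≤ ∑ i, (z i - c i) ^ 2 := fun y hy => hm hy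
    refine ⟨z, ⟨⟨hz, c, _, rfl, hm'⟩, ?_⟩, hm'⟩
    set e : Fin d → ℝ := c + R • u with he
    have hce : ∀ i, c i = -(R * u i) + e i := by
      intro i
      rw [he, Pi.add_apply, Pi.smul_apply, smul_eq_mul]
      ring
    have hen : ‖e‖ < 1 := by
      rw [Metric.mem_ball, dist_eq_norm, sub_neg_eq_add] at hc
      exact hc
    have hexp : ∀ y : Fin d → ℝ, ∑ i, (y i - c i) ^ 2
        = ∑ i, y i ^ 2 + 2 * R * (∑ i, u i * y i) - 2 * (∑ i, e i * y i) + ∑ i, (c i) ^ 2 := by
      intro y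
      rw [Finset.mul_sum, Finset.mul_sum, ← Finset.sum_add_distrib, ← Finset.sum_sub_distrib,
        ← Finset.sum_add_distrib]
      refine Finset.sum_congr rfl fun i _ => ?_
      rw [hce i]
      ring
    have hey : ∀ y ∈ K, |∑ i, e i * y i| ≤ d * N := by
      intro y hy
      calc |∑ i, e i * y i| ≤ ∑ i, |e i * y i| := Finset.abs_sum_le_sum_abs _ _
        _ ≤ ∑ _i : Fin d, N := by
            refine Finset.sum_le_sum fun i _ => ?_
            rw [abs_mul]
            have h1 : |e i| ≤ 1 := (norm_le_pi_norm e i).trans hen.le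
            have h2 : |y i| ≤ N := (norm_le_pi_norm y i).trans (hN y hy)
            calc |e i| * |y i| ≤ 1 * N := mul_le_mul h1 h2 (abs_nonneg _) zero_le_one
              _ = N := one_mul N
        _ = d * N := by
            rw [Finset.sum_const, Finset.card_univ, Fintype.card_fin, nsmul_eq_mul]
    have h1 := hm' x hx
    rw [hexp x, hexp z] at h1
    have h2 : ∑ i, z i ^ 2 ≤ M := (le_abs_self _).trans (hM _ hz)
    have h3 : 0 ≤ ∑ i, x i ^ 2 := Finset.sum_nonneg fun i _ => sq_nonneg _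
    have h4 := abs_le.mp (hey x hx)
    have h5 := abs_le.mp (hey z hz)
    have h8 : 2 * R * ((∑ i, u i * x i) - a) = 2 * R * (∑ i, u i * x i) - 2 * R * a := by ring
    have h10 : 2 * R * a < 2 * R * (∑ i, u i * z i) := by linarith [h4.1, h4.2, h5.1, h5.2]
    exact lt_of_mul_lt_mul_left h10 (by linarith)
  have : Countable (curvedPoints K ∩ {z | a < ∑ i, u i * z i} : Set (Fin d → ℝ)) :=
    hcount.to_subtype
  let G : Option (curvedPoints K ∩ {z | a < ∑ i, u i * z i} : Set (Fin d → ℝ)) →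
      Set (Fin d → ℝ) := fun o => o.elim (Metric.ball (-(R • u)) 1)ᶜ fun z => F z.1
  have hGc : ∀ o, IsClosed (G o) := by
    intro o
    cases o with
    | none => exact Metric.isOpen_ball.isClosed_compl
    | some z => exact hFclosed z.1
  have hGU : ⋃ o, G o = univ := by
    refine eq_univ_of_forall fun c => ?_
    rw [mem_iUnion]
    by_cases hc : c ∈ Metric.ball (-(R • u)) 1
    · obtain ⟨z, hz, hcz⟩ := hcover c hc
      exact ⟨some ⟨z, hz⟩, hcz⟩
    · exact ⟨none, hc⟩
  have hdense := dense_iUnion_interior_of_closed hGc hGU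
  obtain ⟨c₀, hc₀, hc₀2⟩ := hdense.inter_open_nonempty (Metric.ball (-(R • u)) 1)
    Metric.isOpen_ball ⟨_, Metric.mem_ball_self one_pos⟩
  rw [mem_iUnion] at hc₀2
  obtain ⟨o, ho⟩ := hc₀2
  cases o with
  | none => exact absurd hc₀ (interior_subset ho)
  | some z =>
    obtain ⟨ρ, hρ, hball⟩ := Metric.isOpen_iff.mp isOpen_interior c₀ ho
    refine ⟨z.1, z.2.1.1, c₀, ρ, hρ, fun c hc => ?_⟩
    have h1 : c ∈ interior (G (some z)) := hball (by rw [Metric.mem_ball, dist_eq_norm]; exact hc)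
    exact interior_subset h1

/-- A supporting vector at `z` bounds the norm from below. -/
theorem NormFun.support_le {μ : (Fin d → ℝ) → ℝ} (h : NormFun μ) {p z : Fin d → ℝ}
    (hp : ∀ y ∈ {x | μ x ≤ 1}, ∑ i, p i * y i ≤ ∑ i, p i * z i) (y : Fin d → ℝ) :
    ∑ i, p i * y i ≤ (∑ i, p i * z i) * μ y := by
  by_cases hy : y = 0
  · subst hy
    rw [h.zero]
    simp
  · have hpos := h.pos y hy
    have h1 := hp ((μ y)⁻¹ • y) (by
      show μ ((μ y)⁻¹ • y) ≤ 1
      rw [h.hom _ _ (inv_nonneg.mpr hpos.le), inv_mul_cancel₀ hpos.ne'])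
    have h2 : ∑ i, p i * ((μ y)⁻¹ • y) i = (μ y)⁻¹ * ∑ i, p i * y i := by
      rw [Finset.mul_sum]
      refine Finset.sum_congr rfl fun i _ => ?_
      rw [Pi.smul_apply, smul_eq_mul]
      ring
    rw [h2] at h1
    rw [inv_mul_le_iff₀ hpos] at h1
    linarith

theorem NormFun.support_pos {μ : (Fin d → ℝ) → ℝ} (h : NormFun μ) {p z : Fin d → ℝ} (hp0 : p ≠ 0)
    (hp : ∀ y ∈ {x | μ x ≤ 1}, ∑ i, p i * y i ≤ ∑ i, p i * z i) : 0 < ∑ i, p i * z i := by
  have h1 := h.support_le hp p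
  have h2 : 0 < ∑ i, p i * p i := by
    have := sum_sq_pos hp0
    simpa [sq] using this
  have h3 := h.pos p hp0
  by_contra hcon
  push Not at hcon
  have h4 : (∑ i, p i * z i) * μ p ≤ 0 := mul_nonpos_of_nonpos_of_nonneg hcon h3.le
  linarith

/-- If one point of the unit ball is the farthest point for all centres in an open ball, it is a vertex. -/
theorem NormFun.vertex_of_centres {μ : (Fin d → ℝ) → ℝ} (hd : 1 ≤ d) (h : NormFun μ)
    {z c₀ : Fin d → ℝ} {ρ : ℝ} (hρ : 0 < ρ) (hz : μ z ≤ 1)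
    (hc : ∀ c, ‖c - c₀‖ < ρ → ∀ y ∈ {x | μ x ≤ 1},
      ∑ i, (y i - c i) ^ 2 ≤ ∑ i, (z i - c i) ^ 2) : Nonempty (Vertex μ) := by
  have hsup : ∀ q : Fin d → ℝ, ‖q‖ < ρ → ∀ y ∈ {x | μ x ≤ 1},
      ∑ i, (z - c₀ + q) i * y i ≤ ∑ i, (z - c₀ + q) i * z i := by
    intro q hq
    have h1 := support_of_farthest (hc (c₀ - q) (by rwa [sub_sub_cancel_left, norm_neg]))
    have h2 : z - (c₀ - q) = z - c₀ + q := by
      ext i
      simp only [Pi.sub_apply, Pi.add_apply]
      ring
    rwa [h2] at h1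
  have h0 : (0 : Fin d → ℝ) ∈ {x | μ x ≤ 1} := by
    show μ 0 ≤ 1
    rw [h.zero]
    exact zero_le_one
  set p : Fin d → ℝ := z - c₀ with hp
  have hp0 : p ≠ 0 := by
    intro hp0
    have hzc : z = c₀ := sub_eq_zero.mp hp0
    have hK : ∀ y ∈ {x | μ x ≤ 1}, y = z := by
      intro y hy
      have h1 := hc c₀ (by rw [sub_self, norm_zero]; exact hρ) y hy
      rw [← hzc] at h1
      simp only [sub_self, ne_eq, OfNat.ofNat_ne_zero, not_false_eq_true, zero_pow,
        Finset.sum_const_zero] at h1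
      by_contra hyz
      have h2 := sum_sq_pos (sub_ne_zero.mpr hyz)
      simp only [Pi.sub_apply] at h2
      linarith
    have he : (Pi.single (⟨0, hd⟩ : Fin d) (1 : ℝ) : Fin d → ℝ) ≠ 0 := by
      intro h
      have := congrFun h ⟨0, hd⟩
      simp at this
    have hpos := h.pos _ he
    have h1 : μ ((μ (Pi.single (⟨0, hd⟩ : Fin d) (1 : ℝ)))⁻¹ • Pi.single (⟨0, hd⟩ : Fin d) (1 : ℝ))
        = 1 := by
      rw [h.hom _ _ (inv_nonneg.mpr hpos.le), inv_mul_cancel₀ hpos.ne']
    have h2 := hK _ (show μ _ ≤ 1 from h1.le)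
    have h3 := hK 0 h0
    rw [h2, ← h3, h.zero] at h1
    exact zero_ne_one h1
  have hps : ∀ y ∈ {x | μ x ≤ 1}, ∑ i, p i * y i ≤ ∑ i, p i * z i := by
    have h1 := hsup 0 (by rw [norm_zero]; exact hρ)
    rwa [add_zero] at h1
  have hm := h.support_pos hp0 hps
  set m : ℝ := ∑ i, p i * z i with hmdef
  have hμz : μ z = 1 := by
    refine le_antisymm hz ?_
    have h1 := h.support_le hps z
    by_contra hcon
    push Not at hcon
    have h2 : m * μ z < m * 1 := mul_lt_mul_of_pos_left hcon hm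
    linarith
  let f : (Fin d → ℝ) →L[ℝ] ℝ :=
    ∑ i, (p i / m) • ContinuousLinearMap.proj (R := ℝ) (φ := fun _ : Fin d => ℝ) i
  have hf : ∀ y, f y = (∑ i, p i * y i) / m := by
    intro y
    simp only [f, FunLike.coe_sum, Finset.sum_apply, FunLike.coe_smul,
      Pi.smul_apply, ContinuousLinearMap.proj_apply, smul_eq_mul]
    rw [Finset.sum_div]
    exact Finset.sum_congr rfl fun i _ => by ring
  set D : ℝ := m + ρ / 2 * ∑ i, |z i| with hD
  have hD0 : 0 < D := by
    have : 0 ≤ ∑ i, |z i| := Finset.sum_nonneg fun i _ => abs_nonneg _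
    positivity
  refine ⟨⟨z, f, ρ / (2 * D), by positivity, hμz, ?_, ?_⟩⟩
  · rw [hf, ← hmdef, div_self hm.ne']
  · intro x
    have hfx : f x ≤ μ x := by
      rw [hf, div_le_iff₀ hm]
      have := h.support_le hps x
      linarith
    by_cases hw : x - f x • z = 0
    · rw [hw, norm_zero, mul_zero, add_zero]
      exact hfx
    · set w : Fin d → ℝ := x - f x • z with hwdef
      have hwn : 0 < ‖w‖ := norm_pos_iff.mpr hw
      have hwn2 : ‖w‖ ^ 2 ≤ ∑ i, w i ^ 2 := by
        obtain ⟨j, -, hj⟩ := Finset.exists_max_image Finset.univ (fun i : Fin d => ‖w i‖)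
          ⟨⟨0, hd⟩, Finset.mem_univ _⟩
        have h1 : ‖w‖ ≤ ‖w j‖ := by
          rw [pi_norm_le_iff_of_nonneg (norm_nonneg _)]
          intro i
          exact hj i (Finset.mem_univ i)
        calc ‖w‖ ^ 2 ≤ ‖w j‖ ^ 2 := pow_le_pow_left₀ (norm_nonneg _) h1 2
          _ = w j ^ 2 := by rw [Real.norm_eq_abs, sq_abs]
          _ ≤ ∑ i, w i ^ 2 := Finset.single_le_sum (f := fun i => w i ^ 2)
              (fun i _ => sq_nonneg _) (Finset.mem_univ j)
      set q : Fin d → ℝ := (ρ / (2 * ‖w‖)) • w with hq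
      have hqn : ‖q‖ = ρ / 2 := by
        rw [hq, norm_smul, Real.norm_eq_abs, abs_of_pos (by positivity)]
        field_simp
      have hqs := hsup q (by rw [hqn]; linarith)
      have h1 := h.support_le hqs x
      have hpw : ∑ i, p i * x i = m * f x := by
        rw [hf]
        field_simp
      have hqx : ∑ i, q i * x i = ρ / (2 * ‖w‖) * (∑ i, w i ^ 2) + f x * ∑ i, q i * z i := by
        rw [Finset.mul_sum, Finset.mul_sum, ← Finset.sum_add_distrib]
        refine Finset.sum_congr rfl fun i _ => ?_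
        have h2 : x i = w i + f x * z i := by
          rw [hwdef, Pi.sub_apply, Pi.smul_apply, smul_eq_mul]
          ring
        rw [h2, hq, Pi.smul_apply, smul_eq_mul]
        ring
      have hsum : ∀ y : Fin d → ℝ, ∑ i, (p + q) i * y i = ∑ i, p i * y i + ∑ i, q i * y i := by
        intro y
        rw [← Finset.sum_add_distrib]
        exact Finset.sum_congr rfl fun i _ => by rw [Pi.add_apply]; ring
      rw [hsum x, hsum z, ← hmdef, hpw, hqx] at h1
      set Q : ℝ := ∑ i, q i * z i with hQ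
      have hQ1 : 0 ≤ m + Q := by
        have h2 := hqs 0 h0
        rw [hsum z, ← hmdef] at h2
        simpa using h2
      have hQ2 : m + Q ≤ D := by
        rw [hD, hQ, Finset.mul_sum]
        have h2 : ∑ i, q i * z i ≤ ∑ i, ρ / 2 * |z i| := by
          refine Finset.sum_le_sum fun i _ => ?_
          calc q i * z i ≤ |q i * z i| := le_abs_self _
            _ = |q i| * |z i| := abs_mul _ _
            _ ≤ ρ / 2 * |z i| := by
                apply mul_le_mul_of_nonneg_right _ (abs_nonneg _)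
                rw [← hqn]
                exact norm_le_pi_norm q i
        linarith
      have h3 : ρ / 2 * ‖w‖ ≤ ρ / (2 * ‖w‖) * (∑ i, w i ^ 2) := by
        calc ρ / 2 * ‖w‖ = ρ / (2 * ‖w‖) * ‖w‖ ^ 2 := by field_simp
          _ ≤ ρ / (2 * ‖w‖) * (∑ i, w i ^ 2) :=
              mul_le_mul_of_nonneg_left hwn2 (by positivity)
      have h4 : ρ / 2 * ‖w‖ ≤ (m + Q) * (μ x - f x) := by nlinarith
      have h5 : (m + Q) * (μ x - f x) ≤ D * (μ x - f x) :=
        mul_le_mul_of_nonneg_right hQ2 (by linarith)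
      have h6 : ρ / (2 * D) * ‖w‖ ≤ μ x - f x := by
        have h7 : ρ / (2 * D) * ‖w‖ = (ρ / 2 * ‖w‖) / D := by field_simp
        rw [h7, div_le_iff₀ hD0]
        linarith
      linarith

/-- The unit ball of a norm on `ℝ^d`, `d ≥ 1`, without vertices (points with a full dimensional normal cone): every
neighbourhood of every extreme point contains uncountably many points of curvature. -/
theorem NormFun.curved_condensation_of_vertex {μ : (Fin d → ℝ) → ℝ} (hd : 1 ≤ d) (h : NormFun μ)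
    (hv : IsEmpty (Vertex μ)) {z : Fin d → ℝ} (hz : z ∈ {x | μ x ≤ 1}.extremePoints ℝ)
    {U : Set (Fin d → ℝ)} (hU : U ∈ 𝓝 z) : ¬ (curvedPoints {x | μ x ≤ 1} ∩ U).Countable := by
  intro hcount
  obtain ⟨u, a, hua, hcap⟩ := exists_cap h.isCompact h.convex hz hU
  have hcount2 : (curvedPoints {x | μ x ≤ 1} ∩ {z | a < ∑ i, u i * z i}).Countable := by
    refine hcount.mono ?_
    rintro y ⟨hy1, hy2⟩
    exact ⟨hy1, hcap y hy1.1 hy2⟩
  obtain ⟨y, hy, c₀, ρ, hρ, hc⟩ := baire_centres h.isCompact hz.1 hua hcount2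
  obtain ⟨v⟩ := h.vertex_of_centres hd hρ hy hc
  exact hv.elim v

end Pool.Agent.W_1b8d5d_nc
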