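import Pool.Agent.W_1b8d5d_nc.VtxOf

/-!
MP_1b8d5d_pr, all dimensions: without a vertex the supporting forms at a point lie in a hyperplane.
-/

set_option autoImplicit false

open Filter Topology

namespace Pool.Agent.W_1b8d5d_nc

variable {d : ℕ} {μ : (Fin d → ℝ) → ℝ}

/-- The normal cone at `u` (as vectors). -/
def nCone (μ : (Fin d → ℝ) → ℝ) (u : Fin d → ℝ) : Set (Fin d → ℝ) :=
  {g | ∀ z, dotProduct g z ≤ dotProduct g u * μ z}

theorem nCone_convex (u : Fin d → ℝ) : Convex ℝ (nCone μ u) := by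
  intro g hg g' hg' a b ha hb _ z
  rw [add_dotProduct, add_dotProduct, smul_dotProduct, smul_dotProduct, smul_dotProduct, smul_dotProduct]
  simp only [smul_eq_mul]
  have h1 := mul_le_mul_of_nonneg_left (hg z) ha
  have h2 := mul_le_mul_of_nonneg_left (hg' z) hb
  linarith

theorem nCone_zero (u : Fin d → ℝ) : (0 : Fin d → ℝ) ∈ nCone μ u := by
  intro z
  simp

theorem dot_self_pos {g : Fin d → ℝ} (hg : g ≠ 0) : 0 < dotProduct g g := by
  obtain ⟨i, hi⟩ := Function.ne_iff.1 hg
  have hi' : g i ≠ 0 := hi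
  unfold dotProduct
  exact Finset.sum_pos' (fun j _ => mul_self_nonneg _) ⟨i, Finset.mem_univ i, mul_self_pos.2 hi'⟩

theorem abs_dot_le (g z : Fin d → ℝ) : |dotProduct g z| ≤ d * (‖g‖ * ‖z‖) := by
  unfold dotProduct
  refine (Finset.abs_sum_le_sum_abs _ _).trans ?_
  have h1 : ∑ i, |g i * z i| ≤ ∑ _i : Fin d, ‖g‖ * ‖z‖ := by
    refine Finset.sum_le_sum fun i _ => ?_
    rw [abs_mul]
    exact mul_le_mul (norm_le_pi_norm g i) (norm_le_pi_norm z i) (abs_nonneg _) (norm_nonneg _)
  rw [Finset.sum_const, Finset.card_univ, Fintype.card_fin, nsmul_eq_mul] at h1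
  exact h1

/-- `|w|_∞ ^ 2 ≤ ⟨w, w⟩`. -/
theorem sq_norm_le_dot (w : Fin d → ℝ) : ‖w‖ ^ 2 ≤ dotProduct w w := by
  rcases isEmpty_or_nonempty (Fin d) with hE | hE
  · have : w = 0 := Subsingleton.elim _ _
    rw [this]
    simp
  · obtain ⟨i, hi⟩ : ∃ i, ‖w‖ = |w i| := by
      obtain ⟨i, -, hi⟩ := Finset.exists_mem_eq_sup (Finset.univ : Finset (Fin d)) Finset.univ_nonempty
        (fun i => ‖w i‖₊)
      refine ⟨i, ?_⟩
      rw [Pi.norm_def, hi, coe_nnnorm, Real.norm_eq_abs]
    rw [hi, sq_abs]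
    unfold dotProduct
    have h1 := Finset.single_le_sum (f := fun j => w j * w j) (fun j _ => mul_self_nonneg _) (Finset.mem_univ i)
    nlinarith [h1]

/-- A normal cone with interior gives a vertex. -/
theorem vertex_of_interior (h : NormFun μ) {u : Fin d → ℝ} (hu : μ u = 1)
    (hint : (interior (nCone μ u)).Nonempty) : Nonempty (Vertex μ) := by
  -- the dimension is positive
  have hu0 : u ≠ 0 := by
    rintro rfl
    rw [h.zero] at hu
    exact zero_ne_one hu
  obtain ⟨g₁, hg₁⟩ := hint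
  -- a nonzero interior point with a ball
  obtain ⟨ρ₁, hρ₁, hb₁⟩ := Metric.isOpen_iff.1 isOpen_interior g₁ hg₁
  obtain ⟨g₀, hg₀, hb₀⟩ : ∃ g₀ : Fin d → ℝ, g₀ ≠ 0 ∧ g₀ ∈ Metric.ball g₁ ρ₁ := by
    by_cases h1 : g₁ = 0
    · refine ⟨(ρ₁ / (2 * ‖u‖)) • u, ?_, ?_⟩
      · have : 0 < ‖u‖ := norm_pos_iff.2 hu0
        exact smul_ne_zero (by positivity) hu0
      · have h2 : 0 < ‖u‖ := norm_pos_iff.2 hu0
        rw [h1, mem_ball_zero_iff, norm_smul, Real.norm_eq_abs, abs_of_pos (by positivity)]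
        have h3 : ρ₁ / (2 * ‖u‖) * ‖u‖ = ρ₁ / 2 := by
          field_simp
        rw [h3]
        linarith
    · exact ⟨g₁, h1, Metric.mem_ball_self hρ₁⟩
  have hg₀i : g₀ ∈ interior (nCone μ u) := hb₁ hb₀
  obtain ⟨ρ, hρ, hb⟩ := Metric.isOpen_iff.1 isOpen_interior g₀ hg₀i
  have hmem : ∀ q : Fin d → ℝ, ‖q‖ < ρ → g₀ + q ∈ nCone μ u := by
    intro q hq
    refine interior_subset (hb ?_)
    rw [Metric.mem_ball, dist_eq_norm, add_sub_cancel_left]
    exact hq
  have hg0c : g₀ ∈ nCone μ u := interior_subset hg₀i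
  -- `g₀ u > 0`
  set s := dotProduct g₀ u with hs
  have hspos : 0 < s := by
    have h1 := hg0c g₀
    have h2 := dot_self_pos hg₀
    have h3 := h.nonneg g₀
    by_contra hcon
    push Not at hcon
    have h4 : s * μ g₀ ≤ 0 := mul_nonpos_of_nonpos_of_nonneg hcon h3
    linarith
  set B : ℝ := s + d * (ρ * ‖u‖) with hB
  have hBpos : 0 < B := by
    have : 0 ≤ d * (ρ * ‖u‖) := by positivity
    linarith
  -- the form
  set L : (Fin d → ℝ) →ₗ[ℝ] ℝ :=
    { toFun := fun x => dotProduct g₀ x / s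
      map_add' := fun x y => by rw [dotProduct_add, add_div]
      map_smul' := fun c x => by
        rw [dotProduct_smul, smul_eq_mul, RingHom.id_apply, smul_eq_mul, mul_div_assoc] } with hL
  have hLx : ∀ x, L x = dotProduct g₀ x / s := fun x => rfl
  refine ⟨{ u := u, f := LinearMap.toContinuousLinearMap L, c := ρ / 2 / B, hc := by positivity, mu_u := hu
            fu := by show L u = 1; rw [hLx, ← hs, div_self hspos.ne'], low := fun x => ?_ }⟩
  show L x + ρ / 2 / B * ‖x - L x • u‖ ≤ μ x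
  set w := x - L x • u with hw
  have hgw : dotProduct g₀ w = 0 := by
    rw [hw, dotProduct_sub, dotProduct_smul, smul_eq_mul, hLx, ← hs, div_mul_cancel₀ _ hspos.ne', sub_self]
  by_cases hw0 : w = 0
  · rw [hw0, norm_zero, mul_zero, add_zero, hLx, div_le_iff₀ hspos, mul_comm]
    exact hg0c x
  · have hwn : 0 < ‖w‖ := norm_pos_iff.2 hw0
    set q : Fin d → ℝ := (ρ / 2 / ‖w‖) • w with hq
    have hqn : ‖q‖ = ρ / 2 := by
      rw [hq, norm_smul, Real.norm_eq_abs, abs_of_pos (by positivity), div_mul_cancel₀ _ hwn.ne']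
    have h1 := hmem q (by rw [hqn]; linarith) x
    rw [add_dotProduct, add_dotProduct, ← hs] at h1
    -- `⟨q, w⟩ ≥ ρ / 2 |w|`
    have h2 : ρ / 2 * ‖w‖ ≤ dotProduct q w := by
      rw [hq, smul_dotProduct, smul_eq_mul]
      have h3 := sq_norm_le_dot w
      have h4 := mul_le_mul_of_nonneg_left h3 (by positivity : 0 ≤ ρ / 2 / ‖w‖)
      have h5 : ρ / 2 / ‖w‖ * ‖w‖ ^ 2 = ρ / 2 * ‖w‖ := by
        field_simp
      linarith
    have h3 : dotProduct q x = L x * dotProduct q u + dotProduct q w := by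
      rw [hw, dotProduct_sub, dotProduct_smul, smul_eq_mul]
      ring
    have h4 : dotProduct g₀ x = L x * s := by
      rw [hLx, div_mul_cancel₀ _ hspos.ne']
    rw [h3, h4] at h1
    -- `s' = s + q u`
    have h5 : L x * (s + dotProduct q u) + ρ / 2 * ‖w‖ ≤ (s + dotProduct q u) * μ x := by
      linarith
    have h6 : |dotProduct q u| ≤ d * (ρ / 2 * ‖u‖) := by
      have := abs_dot_le q u
      rwa [hqn] at this
    have h7 : s + dotProduct q u ≤ B := by
      have h8 := (abs_le.1 h6).2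
      have h9 : d * (ρ / 2 * ‖u‖) ≤ d * (ρ * ‖u‖) := by
        have : 0 ≤ d * (ρ * ‖u‖) := by positivity
        nlinarith
      linarith
    have h8 : 0 < s + dotProduct q u := by
      have h9 := hmem q (by rw [hqn]; linarith) (g₀ + q)
      rw [add_dotProduct (g₀) q u, ← hs] at h9
      have hne : g₀ + q ≠ 0 := by
        intro h10
        have h11 : dotProduct (g₀ + q) w = 0 := by
          rw [h10, zero_dotProduct]
        rw [add_dotProduct, hgw, zero_add] at h11
        have : 0 < ρ / 2 * ‖w‖ := by positivity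
        linarith
      have h10 := dot_self_pos hne
      have h11 := h.nonneg (g₀ + q)
      by_contra hcon
      push Not at hcon
      have h12 := mul_nonpos_of_nonpos_of_nonneg hcon h11
      linarith
    -- divide
    have h9 : ρ / 2 / B * ‖w‖ ≤ ρ / 2 * ‖w‖ / (s + dotProduct q u) := by
      rw [div_mul_eq_mul_div]
      exact div_le_div_of_nonneg_left (by positivity) h8 h7
    have h10 : L x + ρ / 2 * ‖w‖ / (s + dotProduct q u) ≤ μ x := by
      rw [← le_sub_iff_add_le', div_le_iff₀ h8]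
      nlinarith
    linarith

/-- Without a vertex the supporting forms at a point lie in a hyperplane. -/
theorem normal_hyperplane (h : NormFun μ) (hno : IsEmpty (Vertex μ)) {x : Fin d → ℝ} (hx : x ≠ 0) :
    ∃ y : Fin d → ℝ, y ≠ 0 ∧ ∀ f : (Fin d → ℝ) →ₗ[ℝ] ℝ, (∀ z, f z ≤ μ z) → f x = μ x → f y = 0 := by
  have hμ := h.pos x hx
  set u : Fin d → ℝ := (μ x)⁻¹ • x with hu
  have hu1 : μ u = 1 := by
    rw [hu, h.hom _ _ (inv_nonneg.2 hμ.le), inv_mul_cancel₀ hμ.ne']
  have hint : ¬ (interior (nCone μ u)).Nonempty := fun hne => by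
    obtain ⟨k⟩ := vertex_of_interior h hu1 hne
    exact hno.elim k
  rw [(nCone_convex u).interior_nonempty_iff_affineSpan_eq_top] at hint
  have hlt : Submodule.span ℝ (nCone μ u) < ⊤ := by
    rw [lt_top_iff_ne_top]
    intro htop
    apply hint
    rw [AffineSubspace.affineSpan_eq_top_iff_vectorSpan_eq_top_of_nonempty ℝ (Fin d → ℝ) (Fin d → ℝ)
      ⟨0, nCone_zero u⟩, vectorSpan_eq_span_vsub_set_right ℝ (nCone_zero u)]
    have h1 : (fun x : Fin d → ℝ => x -ᵥ (0 : Fin d → ℝ)) '' nCone μ u = nCone μ u := by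
      simp
    rw [h1]
    exact htop
  obtain ⟨F, hF0, hF⟩ := Submodule.exists_le_ker_of_lt_top _ hlt
  refine ⟨fun i => F (Pi.single i 1), ?_, fun f hf hfx => ?_⟩
  · intro h0
    apply hF0
    refine LinearMap.ext fun z => ?_
    have h1 : z = ∑ i, z i • (Pi.single i (1 : ℝ) : Fin d → ℝ) := by
      funext j
      simp [Finset.sum_apply, Pi.single_apply]
    rw [h1, map_sum]
    refine (Finset.sum_eq_zero fun i _ => ?_).trans rfl
    rw [map_smul]
    have := congrFun h0 i
    simp only [Pi.zero_apply] at this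
    rw [this, smul_zero]
  · -- the vector of `f`
    have hdot : ∀ (G : (Fin d → ℝ) →ₗ[ℝ] ℝ) (z : Fin d → ℝ), G z = ∑ i, z i * G (Pi.single i 1) := by
      intro G z
      have h1 : z = ∑ i, z i • (Pi.single i (1 : ℝ) : Fin d → ℝ) := by
        funext j
        simp [Finset.sum_apply, Pi.single_apply]
      conv_lhs => rw [h1, map_sum]
      exact Finset.sum_congr rfl fun i _ => by rw [map_smul, smul_eq_mul]
    set g : Fin d → ℝ := fun i => f (Pi.single i 1) with hg
    have hgz : ∀ z, dotProduct g z = f z := by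
      intro z
      rw [hdot f z]
      unfold dotProduct
      exact Finset.sum_congr rfl fun i _ => mul_comm _ _
    have hgc : g ∈ nCone μ u := by
      intro z
      rw [hgz, hgz, hu, map_smul, smul_eq_mul, hfx, inv_mul_cancel₀ hμ.ne', one_mul]
      exact hf z
    have h1 : F g = 0 := hF (Submodule.subset_span hgc)
    rw [hdot F g] at h1
    rw [hdot f]
    rw [← h1]
    exact Finset.sum_congr rfl fun i _ => mul_comm _ _

end Pool.Agent.W_1b8d5d_nc
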