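import Mathlib

/-!
MP_1b8d5d_pr (no corner): if no extreme point of a compact convex set is isolated, there are uncountably many.
All dimensions (Baire category, the extreme points form a G-delta set).
-/

set_option autoImplicit false

open Set Metric Filter Topology

namespace Pool.Agent.W_1b8d5d_nc

variable {E : Type*} [NormedAddCommGroup E] [NormedSpace ℝ E]

/-- The midpoints of the chords of length at least `r`. -/
def mids (B : Set E) (r : ℝ) : Set E :=
  {z | ∃ x ∈ B, ∃ y ∈ B, r ≤ dist x y ∧ z = (1 / 2 : ℝ) • x + (1 / 2 : ℝ) • y}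

theorem isClosed_mids {B : Set E} (hc : IsCompact B) (r : ℝ) : IsClosed (mids B r) := by
  have h1 : mids B r = (fun q : E × E => (1 / 2 : ℝ) • q.1 + (1 / 2 : ℝ) • q.2) ''
      ((B ×ˢ B) ∩ {q : E × E | r ≤ dist q.1 q.2}) := by
    ext z
    constructor
    · rintro ⟨x, hx, y, hy, hr, rfl⟩
      exact ⟨(x, y), ⟨⟨hx, hy⟩, hr⟩, rfl⟩
    · rintro ⟨⟨x, y⟩, ⟨⟨hx, hy⟩, hr⟩, rfl⟩
      exact ⟨x, hx, y, hy, hr, rfl⟩
  rw [h1]
  refine IsCompact.isClosed (IsCompact.image ?_ (by fun_prop))
  exact (hc.prod hc).inter_right (isClosed_le continuous_const (by fun_prop))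

theorem extreme_not_mem_mids {B : Set E} {r : ℝ} (hr : 0 < r) {z : E}
    (hz : z ∈ B.extremePoints ℝ) : z ∉ mids B r := by
  rintro ⟨x, hx, y, hy, hxy, hzz⟩
  have hseg : z ∈ openSegment ℝ x y := ⟨1 / 2, 1 / 2, by norm_num, by norm_num, by norm_num, hzz.symm⟩
  have h1 := hz.2 hx hy hseg
  have hseg' : z ∈ openSegment ℝ y x := by
    rw [openSegment_symm]
    exact hseg
  have h2 := hz.2 hy hx hseg'
  rw [h1, h2, dist_self] at hxy
  linarith

theorem exists_mem_mids {B : Set E} (hconv : Convex ℝ B) {z : E} (hz : z ∈ B)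
    (hz' : z ∉ B.extremePoints ℝ) : ∃ n : ℕ, z ∈ mids B (1 / ((n : ℝ) + 1)) := by
  have h0 : ∃ x ∈ B, ∃ y ∈ B, z ∈ openSegment ℝ x y ∧ x ≠ z := by
    by_contra hcon
    push Not at hcon
    exact hz' ⟨hz, fun x hx y hy hxy => hcon x hx y hy hxy⟩
  obtain ⟨x, hx, y, hy, ⟨a, b, ha, hb, hab, rfl⟩, hxz⟩ := h0
  set z := a • x + b • y with hz0
  have hxy : x ≠ y := by
    rintro rfl
    apply hxz
    rw [hz0, ← add_smul, hab, one_smul]
  set m : ℝ := min a b with hm
  have hm0 : 0 < m := lt_min ha hb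
  have hma : m ≤ a := min_le_left _ _
  have hmb : m ≤ b := min_le_right _ _
  have hx' : z + m • (x - y) ∈ B := by
    have e1 : z + m • (x - y) = (a + m) • x + (b - m) • y := by
      rw [hz0]
      module
    rw [e1]
    exact hconv hx hy (by linarith) (by linarith) (by linarith)
  have hy' : z - m • (x - y) ∈ B := by
    have e1 : z - m • (x - y) = (a - m) • x + (b + m) • y := by
      rw [hz0]
      module
    rw [e1]
    exact hconv hx hy (by linarith) (by linarith) (by linarith)
  have hd : 0 < dist (z + m • (x - y)) (z - m • (x - y)) := by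
    rw [dist_pos]
    intro heq
    have h1 : (2 * m) • (x - y) = 0 := by
      have h2 : (z + m • (x - y)) - (z - m • (x - y)) = (2 * m) • (x - y) := by module
      rw [← h2, heq, sub_self]
    rcases smul_eq_zero.1 h1 with h2 | h2
    · linarith
    · exact hxy (sub_eq_zero.1 h2)
  obtain ⟨n, hn⟩ := exists_nat_one_div_lt hd
  refine ⟨n, _, hx', _, hy', hn.le, ?_⟩
  module

/-- No isolated extreme point implies uncountably many extreme points. -/
theorem not_countable_of_preperfect {B : Set E} (hc : IsCompact B) (hconv : Convex ℝ B)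
    (hp : Preperfect (B.extremePoints ℝ)) (hne : (B.extremePoints ℝ).Nonempty) :
    ¬ (B.extremePoints ℝ).Countable := by
  intro hcount
  set X := B.extremePoints ℝ with hX
  set K : Set E := closure X with hK
  have hXB : X ⊆ B := extremePoints_subset
  have hKB : K ⊆ B := hc.isClosed.closure_subset_iff.2 hXB
  have hKc : IsCompact K := hc.of_isClosed_subset isClosed_closure hKB
  haveI : CompactSpace K := isCompact_iff_compactSpace.1 hKc
  haveI : Nonempty K := ⟨⟨hne.some, subset_closure hne.some_mem⟩⟩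
  -- the dense open sets
  have hU : ∀ n : ℕ, IsOpen {z : K | (z : E) ∉ mids B (1 / ((n : ℝ) + 1))} ∧
      Dense {z : K | (z : E) ∉ mids B (1 / ((n : ℝ) + 1))} := by
    intro n
    constructor
    · exact (isClosed_mids hc _).isOpen_compl.preimage continuous_subtype_val
    · intro z
      rw [_root_.mem_closure_iff]
      intro o ho hz
      obtain ⟨o', ho', rfl⟩ := isOpen_induced_iff.1 ho
      obtain ⟨x, hxo, hx⟩ := _root_.mem_closure_iff.1 z.2 o' ho' hz
      exact ⟨⟨x, subset_closure hx⟩, hxo, extreme_not_mem_mids (by positivity) hx⟩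
  have hV : ∀ x ∈ X, IsOpen {z : K | (z : E) ≠ x} ∧ Dense {z : K | (z : E) ≠ x} := by
    intro x hx
    constructor
    · exact isOpen_compl_singleton.preimage continuous_subtype_val
    · intro z
      rw [_root_.mem_closure_iff]
      intro o ho hz
      obtain ⟨o', ho', rfl⟩ := isOpen_induced_iff.1 ho
      by_cases hzx : (z : E) = x
      · have h1 := hp x hx
        rw [accPt_iff_nhds] at h1
        obtain ⟨y, ⟨hy1, hy2⟩, hyx⟩ := h1 o' (ho'.mem_nhds (by rw [← hzx]; exact hz))
        exact ⟨⟨y, subset_closure hy2⟩, hy1, hyx⟩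
      · exact ⟨z, hz, hzx⟩
  set S : Set (Set K) := range (fun n : ℕ => {z : K | (z : E) ∉ mids B (1 / ((n : ℝ) + 1))}) ∪
    (fun x : E => {z : K | (z : E) ≠ x}) '' X with hS
  have hSc : S.Countable := (countable_range _).union (hcount.image _)
  have hd : Dense (⋂₀ S) := by
    refine dense_sInter_of_isOpen ?_ hSc ?_
    · rintro s (⟨n, rfl⟩ | ⟨x, hx, rfl⟩)
      · exact (hU n).1
      · exact (hV x hx).1
    · rintro s (⟨n, rfl⟩ | ⟨x, hx, rfl⟩)
      · exact (hU n).2
      · exact (hV x hx).2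
  obtain ⟨z, hz⟩ := hd.nonempty
  have hzX : (z : E) ∉ X := by
    intro hzX
    exact hz _ (Or.inr ⟨z, hzX, rfl⟩) rfl
  obtain ⟨n, hn⟩ := exists_mem_mids hconv (hKB z.2) hzX
  exact hz _ (Or.inl ⟨n, rfl⟩) hn

end Pool.Agent.W_1b8d5d_nc
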