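import Pool.Agent.W_1b8d5d_gd.Defs

/-!
MP_1b8d5d_pr, general dimension: the infimum over paths of the frozen statement `S19191` is the passage time `T`
of `W_1b8d5d_gd`.
-/

set_option autoImplicit false

namespace Pool.Agent.W_1b8d5d_nc

open Finset Pool.Agent.W_1b8d5d_gd

variable {d : ℕ}

/-- The passage time of one step in the frozen statement. -/
noncomputable def stepD (τ : Edge d → ℝ) (x y : V d) : ℝ :=
  ∑ i : Fin d, ((if y = x + (Pi.single i (1 : ℤ) : Fin d → ℤ) then τ (x, i) else 0) +
    (if x = y + (Pi.single i (1 : ℤ) : Fin d → ℤ) then τ (y, i) else 0))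

/-- The set of the passage times of the paths from `0` to `z` in the frozen statement. -/
def pathD (τ : Edge d → ℝ) (z : V d) : Set ℝ :=
  {t : ℝ | ∃ (m : ℕ) (p : ℕ → Fin d → ℤ), p 0 = 0 ∧ p m = z ∧
    (∀ k < m, ∑ i, |p (k+1) i - p k i| = 1) ∧
    t = ∑ k ∈ Finset.range m, stepD τ (p k) (p (k + 1))}

theorem sum_abs_dir (j : Fin d) : ∑ i, |(dir j : V d) i| = 1 := by
  unfold dir
  rw [Finset.sum_eq_single j]
  · simp
  · intro i _ hi
    simp [Pi.single_eq_of_ne hi]
  · intro h
    exact absurd (mem_univ j) h

theorem adjD_iff (x y : V d) : (grid d).Adj x y ↔ ∑ i, |y i - x i| = 1 := by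
  constructor
  · rintro ⟨j, h | h⟩
    · rw [← sum_abs_dir j]
      refine sum_congr rfl fun i _ => ?_
      rw [h, Pi.add_apply, add_sub_cancel_left]
    · rw [← sum_abs_dir j]
      refine sum_congr rfl fun i _ => ?_
      rw [h, Pi.add_apply, sub_add_cancel_left, abs_neg]
  · intro h
    -- one coordinate has a nonzero difference
    obtain ⟨j, hj⟩ : ∃ j, y j - x j ≠ 0 := by
      by_contra hcon
      push Not at hcon
      rw [sum_eq_zero (fun i _ => by rw [hcon i, abs_zero])] at h
      exact zero_ne_one h
    have hj1 : 1 ≤ |y j - x j| := Int.one_le_abs hj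
    have hsplit : |y j - x j| + ∑ i ∈ univ.erase j, |y i - x i| = 1 := by
      rw [add_sum_erase _ (fun i => |y i - x i|) (mem_univ j)]
      exact h
    have hnn : 0 ≤ ∑ i ∈ univ.erase j, |y i - x i| := sum_nonneg fun i _ => abs_nonneg _
    have hz : ∑ i ∈ univ.erase j, |y i - x i| = 0 := by omega
    have hz' : ∀ i, i ≠ j → y i - x i = 0 := by
      intro i hi
      have h1 := (sum_eq_zero_iff_of_nonneg (fun i _ => abs_nonneg (y i - x i))).1 hz i
        (mem_erase.2 ⟨hi, mem_univ i⟩)
      exact abs_eq_zero.1 h1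
    have hj2 : |y j - x j| = 1 := by omega
    refine ⟨j, ?_⟩
    rcases (abs_eq (by norm_num : (0 : ℤ) ≤ 1)).1 hj2 with h1 | h1
    · left
      funext i
      rw [Pi.add_apply]
      by_cases hi : i = j
      · subst hi
        have : (dir i : V d) i = 1 := by simp [dir]
        rw [this]
        omega
      · have : (dir j : V d) i = 0 := by simp [dir, Pi.single_eq_of_ne hi]
        rw [this]
        have := hz' i hi
        omega
    · right
      funext i
      rw [Pi.add_apply]
      by_cases hi : i = j
      · subst hi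
        have : (dir i : V d) i = 1 := by simp [dir]
        rw [this]
        omega
      · have : (dir j : V d) i = 0 := by simp [dir, Pi.single_eq_of_ne hi]
        rw [this]
        have := hz' i hi
        omega

theorem dir_inj {i j : Fin d} (h : (dir i : V d) = dir j) : i = j := by
  by_contra hij
  have h1 := congrFun h i
  simp [dir, Pi.single_eq_of_ne hij] at h1

theorem add_dir_dir_ne (x : V d) (i j : Fin d) : x ≠ x + dir j + dir i := by
  intro h
  have h1 := congrFun h j
  simp only [Pi.add_apply] at h1
  have h2 : (dir j : V d) j = 1 := by simp [dir]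
  have h3 : 0 ≤ (dir i : V d) j := by
    unfold dir
    by_cases hij : j = i
    · subst hij
      simp
    · simp [Pi.single_eq_of_ne hij]
  omega

theorem stepD_dir (τ : Edge d → ℝ) (x : V d) (j : Fin d) : stepD τ x (x + dir j) = τ (x, j) := by
  unfold stepD
  rw [Finset.sum_eq_single j]
  · have h1 : x + dir j = x + (Pi.single j (1 : ℤ) : Fin d → ℤ) := rfl
    have h2 : ¬ x = x + dir j + (Pi.single j (1 : ℤ) : Fin d → ℤ) := add_dir_dir_ne x j j
    rw [if_pos h1, if_neg h2, add_zero]
  · intro i _ hi
    have h1 : ¬ x + dir j = x + (Pi.single i (1 : ℤ) : Fin d → ℤ) := by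
      intro h
      exact hi (dir_inj (add_left_cancel h)).symm
    have h2 : ¬ x = x + dir j + (Pi.single i (1 : ℤ) : Fin d → ℤ) := add_dir_dir_ne x i j
    rw [if_neg h1, if_neg h2, add_zero]
  · intro h
    exact absurd (mem_univ j) h

theorem stepD_comm (τ : Edge d → ℝ) (x y : V d) : stepD τ x y = stepD τ y x := by
  unfold stepD
  exact sum_congr rfl fun i _ => add_comm _ _

variable [NeZero d]

theorem keD_dir (x : V d) (j : Fin d) : ke s(x, x + dir j) = (x, j) := by
  have h1 : x ⊓ (x + dir j) = x := by
    funext i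
    show min (x i) (x i + (dir j : V d) i) = x i
    have h3 : 0 ≤ (dir j : V d) i := by
      unfold dir
      by_cases hij : i = j
      · subst hij
        simp
      · simp [Pi.single_eq_of_ne hij]
    omega
  have h2 : dif x (x + dir j) = {j} := by
    ext i
    unfold dif
    simp only [mem_filter, mem_univ, true_and, mem_singleton, Pi.add_apply]
    constructor
    · intro h
      by_contra hi
      apply h
      have : (dir j : V d) i = 0 := by simp [dir, Pi.single_eq_of_ne hi]
      rw [this, add_zero]
    · rintro rfl h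
      have : (dir i : V d) i = 1 := by simp [dir]
      omega
  have h3 : idx x (x + dir j) = j := by
    unfold idx
    simp only [h2]
    simp
  show (x ⊓ (x + dir j), idx x (x + dir j)) = (x, j)
  rw [h1, h3]

theorem stepD_eq (τ : Edge d → ℝ) {x y : V d} (h : (grid d).Adj x y) :
    stepD τ x y = τ (ke s(x, y)) := by
  obtain ⟨j, rfl | rfl⟩ := h
  · rw [stepD_dir, keD_dir]
  · rw [stepD_comm, stepD_dir, Sym2.eq_swap, keD_dir]

theorem costD (τ : Edge d → ℝ) {x z : V d} (w : (grid d).Walk x z) :
    cost τ w = ∑ k ∈ Finset.range w.length, stepD τ (w.getVert k) (w.getVert (k + 1)) := by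
  induction w with
  | nil => simp [cost, wedges]
  | cons h p ih =>
    rw [SimpleGraph.Walk.length_cons, sum_range_succ', cost, wedges]
    rw [cost, wedges] at ih
    simp only [SimpleGraph.Walk.edges_cons, List.map_cons, List.sum_cons,
      SimpleGraph.Walk.getVert_cons_succ, SimpleGraph.Walk.getVert_zero]
    rw [ih, ← stepD_eq τ h, add_comm]

theorem walkD (τ : Edge d → ℝ) (p : ℕ → Fin d → ℤ) (m : ℕ)
    (hp : ∀ k < m, ∑ i, |p (k+1) i - p k i| = 1) :
    ∀ x z : V d, x = p 0 → z = p m → ∃ w : (grid d).Walk x z,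
      cost τ w = ∑ k ∈ Finset.range m, stepD τ (p k) (p (k + 1)) := by
  induction m with
  | zero =>
    intro x z hx hz
    have : x = z := hx.trans hz.symm
    subst this
    exact ⟨SimpleGraph.Walk.nil, by simp [cost, wedges]⟩
  | succ m ih =>
    intro x z hx hz
    obtain ⟨w, hw⟩ := ih (fun k hk => hp k (Nat.lt_succ_of_lt hk)) x (p m) hx rfl
    have hadj : (grid d).Adj (p m) z := by
      rw [adjD_iff, hz]
      exact hp m (Nat.lt_succ_self m)
    refine ⟨w.concat hadj, ?_⟩
    have hst := stepD_eq τ hadj
    rw [sum_range_succ, ← hw, ← hz, hst, cost, cost, wedges, wedges, SimpleGraph.Walk.edges_concat,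
      List.concat_eq_append]
    simp only [List.map_append, List.sum_append, List.map_cons, List.map_nil, List.sum_cons,
      List.sum_nil, add_zero]

theorem sInf_pathD (τ : Edge d → ℝ) (z : V d) : sInf (pathD τ z) = T τ 0 z := by
  have h : pathD τ z = Set.range (fun w : (grid d).Walk 0 z => cost τ w) := by
    ext t
    constructor
    · rintro ⟨m, p, h0, hm, hs, rfl⟩
      obtain ⟨w, hw⟩ := walkD τ p m hs 0 z h0.symm hm.symm
      exact ⟨w, hw⟩
    · rintro ⟨w, rfl⟩
      refine ⟨w.length, fun k => w.getVert k, ?_, ?_, ?_, costD τ w⟩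
      · beta_reduce
        rw [SimpleGraph.Walk.getVert_zero]
      · beta_reduce
        rw [SimpleGraph.Walk.getVert_length]
      · intro k hk
        exact (adjD_iff _ _).1 (w.adj_getVert_succ hk)
  rw [h]
  rfl

end Pool.Agent.W_1b8d5d_nc
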