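import Pool.Agent.W_1b8d5d_nc.NormD3
import Pool.Agent.W_1b8d5d_nc.WalksD
import Pool.Agent.W_1b8d5d_nc.CorVtx
import Pool.Agent.W_1b8d5d_nc.NormalC
import Pool.Agent.W_1b8d5d_nc.Unc
import Pool.Agent.W_1b8d5d_nc.Disc4
import Pool.Agent.W_1b8d5d_nc.DiffD

/-!
MP_1b8d5d_pr, all dimensions, all atomless laws on `[0, ∞)`: the final theorem in the form of the frozen statement, from
the core (no vertex).
-/

set_option autoImplicit false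

open MeasureTheory ProbabilityTheory Filter Topology

namespace Pool.Agent.W_1b8d5d_nc

open Pool.Agent.W_1b8d5d_gd

/-- The core: a vertex is impossible. -/
def CoreD : Prop := ∀ (d : ℕ) [NeZero d], 2 ≤ d → ∀ (ν : Measure ℝ), IsProbabilityMeasure ν → ν (Set.Iio 0) = 0 →
  (∀ a : ℝ, ν ({a} : Set ℝ) = 0) →
  ∀ (Ω : Type) [MeasurableSpace Ω] (P : Measure Ω) (τ : Edge d → Ω → ℝ), FppD ν P τ →
  ∀ (μ : (Fin d → ℝ) → ℝ), NormFun μ → LimD P τ μ → Vertex μ → False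

/-- The conclusions of the final theorem. -/
theorem conclD {d : ℕ} (hd : 2 ≤ d) {μ : (Fin d → ℝ) → ℝ} (hn : NormFun μ) (he : ∀ x, μ (-x) = μ x)
    (hperm : ∀ (σ : Equiv.Perm (Fin d)) (x : Fin d → ℝ), μ (fun i => x (σ i)) = μ x)
    (hsign : ∀ (ε : Fin d → ℤ), (∀ i, ε i = 1 ∨ ε i = -1) → ∀ x : Fin d → ℝ, μ (fun i => (ε i : ℝ) * x i) = μ x)
    (hv : IsEmpty (Vertex μ)) :
    (∀ z ∈ {x | μ x ≤ 1}.extremePoints ℝ, ∀ U ∈ 𝓝 z,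
      ¬ {y : Fin d → ℝ | y ∈ U ∧ μ y ≤ 1 ∧ ∃ (c : Fin d → ℝ) (r : ℝ),
        ∑ i, (y i - c i) ^ 2 = r ∧ ∀ x, μ x ≤ 1 → ∑ i, (x i - c i) ^ 2 ≤ r}.Countable) ∧
    (Preperfect ({x | μ x ≤ 1}.extremePoints ℝ) ∧ ¬ ({x | μ x ≤ 1}.extremePoints ℝ).Countable) ∧
    (∀ s : Set (Fin d → ℝ), s.Finite → {x | μ x ≤ 1} ≠ convexHull ℝ s) ∧
    (∀ x : Fin d → ℝ, x ≠ 0 → ∃ y : Fin d → ℝ, y ≠ 0 ∧ ∀ f : (Fin d → ℝ) →ₗ[ℝ] ℝ,
      (∀ z, f z ≤ μ z) → f x = μ x → f y = 0) ∧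
    ((∀ i : Fin d, DifferentiableAt ℝ μ (Pi.single i 1)) ∧
      ∀ ε : Fin d → ℤ, (∀ i, ε i = 1 ∨ ε i = -1) → DifferentiableAt ℝ μ (fun i => (ε i : ℝ))) ∧
    (d = 2 → Perfect ({x | μ x ≤ 1}.extremePoints ℝ) ∧
      (∀ x : Fin d → ℝ, x ≠ 0 → ∀ f f' : (Fin d → ℝ) →ₗ[ℝ] ℝ,
        (∀ z, f z ≤ μ z) → (∀ z, f' z ≤ μ z) → f x = μ x → f' x = μ x → f = f') ∧
      ∀ x : Fin d → ℝ, x ≠ 0 → DifferentiableAt ℝ μ x) := by
  haveI : NeZero d := ⟨by omega⟩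
  haveI : Nonempty (Fin d) := ⟨0⟩
  haveI : Nontrivial (Fin d → ℝ) := inferInstance
  have hp := hn.preperfect hv
  refine ⟨fun z hz U hU hcount => ?_, ⟨hp, ?_⟩, fun s hs => hn.not_polytope hv hs, fun x hx => normal_hyperplane hn hv hx,
    sym_diff (by omega) hn hv hperm hsign, ?_⟩
  · refine hn.curved_condensation_of_vertex (by omega) hv hz hU (hcount.mono ?_)
    rintro y ⟨⟨hy, c, r, hr, hall⟩, hyU⟩
    exact ⟨hyU, hy, c, r, hr, fun x hx => hall x hx⟩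
  · exact not_countable_of_preperfect hn.isCompact hn.convex hp hn.extreme_nonempty
  · rintro rfl
    obtain ⟨-, ⟨h1, -⟩, -, h2, h3⟩ := conclusions hn.cont (normLike_of_normFun hn he) (no_cor hv)
    exact ⟨h1, h2, h3⟩

/-- The final theorem, from the core. -/
theorem finalD (hC : CoreD) :
    ∀ (d : ℕ), 2 ≤ d →
    ∀ (ν : Measure ℝ), IsProbabilityMeasure ν → ν (Set.Iio 0) = 0 →
      (∀ a : ℝ, ν ({a} : Set ℝ) = 0) →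
    ∀ (Ω : Type) [MeasurableSpace Ω] (P : Measure Ω), IsProbabilityMeasure P →
    ∀ (τ : (Fin d → ℤ) × Fin d → Ω → ℝ),
      (∀ e, Measurable (τ e)) → iIndepFun τ P → (∀ e, P.map (τ e) = ν) →
    ∀ (μ : (Fin d → ℝ) → ℝ), Continuous μ →
      (∀ (c : ℝ) (x : Fin d → ℝ), 0 ≤ c → μ (c • x) = c * μ x) →
      (∀ x : Fin d → ℤ, TendstoInMeasure P
         (fun (n : ℕ) (ω : Ω) =>
            sInf {t : ℝ | ∃ (m : ℕ) (p : ℕ → Fin d → ℤ), p 0 = 0 ∧ p m = (n : ℤ) • x ∧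
              (∀ k < m, ∑ i, |p (k+1) i - p k i| = 1) ∧
              t = ∑ k ∈ Finset.range m, ∑ i : Fin d,
                ((if p (k+1) = p k + (Pi.single i (1 : ℤ) : Fin d → ℤ) then τ (p k, i) ω else 0) +
                 (if p k = p (k+1) + (Pi.single i (1 : ℤ) : Fin d → ℤ) then τ (p (k+1), i) ω else 0))}
            / (n : ℝ))
         atTop (fun _ => μ (fun i => (x i : ℝ)))) →
      (∀ z ∈ {x | μ x ≤ 1}.extremePoints ℝ, ∀ U ∈ 𝓝 z,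
        ¬ {y : Fin d → ℝ | y ∈ U ∧ μ y ≤ 1 ∧ ∃ (c : Fin d → ℝ) (r : ℝ),
          ∑ i, (y i - c i) ^ 2 = r ∧ ∀ x, μ x ≤ 1 → ∑ i, (x i - c i) ^ 2 ≤ r}.Countable) ∧
      (Preperfect ({x | μ x ≤ 1}.extremePoints ℝ) ∧ ¬ ({x | μ x ≤ 1}.extremePoints ℝ).Countable) ∧
      (∀ s : Set (Fin d → ℝ), s.Finite → {x | μ x ≤ 1} ≠ convexHull ℝ s) ∧
      (∀ x : Fin d → ℝ, x ≠ 0 → ∃ y : Fin d → ℝ, y ≠ 0 ∧ ∀ f : (Fin d → ℝ) →ₗ[ℝ] ℝ,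
        (∀ z, f z ≤ μ z) → f x = μ x → f y = 0) ∧
      ((∀ i : Fin d, DifferentiableAt ℝ μ (Pi.single i 1)) ∧
        ∀ ε : Fin d → ℤ, (∀ i, ε i = 1 ∨ ε i = -1) → DifferentiableAt ℝ μ (fun i => (ε i : ℝ))) ∧
      (d = 2 → Perfect ({x | μ x ≤ 1}.extremePoints ℝ) ∧
        (∀ x : Fin d → ℝ, x ≠ 0 → ∀ f f' : (Fin d → ℝ) →ₗ[ℝ] ℝ,
          (∀ z, f z ≤ μ z) → (∀ z, f' z ≤ μ z) → f x = μ x → f' x = μ x → f = f') ∧
        ∀ x : Fin d → ℝ, x ≠ 0 → DifferentiableAt ℝ μ x) := by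
  intro d hd ν hν hν0 hatom Ω _ P hP τ hm hi hl μ hμ hom hlim
  haveI : NeZero d := ⟨by omega⟩
  have hF : FppD ν P τ := ⟨hP, hm, hi, hl⟩
  have hlim' : LimD P τ μ := by
    intro x
    have h1 := hlim x
    have h2 : (fun (n : ℕ) (ω : Ω) => T (fun e => τ e ω) 0 (n • x) / (n : ℝ)) = fun (n : ℕ) (ω : Ω) =>
        sInf (pathD (fun e => τ e ω) ((n : ℤ) • x)) / (n : ℝ) := by
      funext n ω
      rw [sInf_pathD, natCast_zsmul]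
    rw [h2]
    exact h1
  obtain ⟨hn, he, -⟩ := hlim'.normFun hF hν0 (hatom 0) hμ hom
  exact conclD hd hn he (fun σ x => hlim'.perm hF hμ hom σ x) (fun ε hε x => hlim'.sign hF hμ hom hε x) ⟨fun k => hC d hd ν hν hν0 hatom Ω P τ hF μ hn hlim' k⟩

end Pool.Agent.W_1b8d5d_nc
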