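import Pool.Agent.W_1b8d5d_nc.Geo1

/-!
MP_1b8d5d_pr, proofs row 581 (no corner): a norm of the plane without corners is differentiable.
-/

set_option autoImplicit false

open Filter Topology

namespace Pool.Agent.W_1b8d5d_nc

variable {μ : ℝ × ℝ → ℝ}

/-- The one dimensional derivative from the two one-sided derivatives. -/
theorem hasDerivAt_of_sides {φ : ℝ → ℝ} (h0 : φ 0 = 1) {a : ℝ}
    (h1 : ∀ t : ℝ, 0 < t → 1 + t * a ≤ φ t) (h2 : ∀ t : ℝ, 0 < t → 1 - t * a ≤ φ (-t))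
    (h3 : ∀ ε : ℝ, 0 < ε → ∃ t₀ : ℝ, 0 < t₀ ∧ ∀ t : ℝ, 0 < t → t ≤ t₀ → φ t ≤ 1 + t * (a + ε))
    (h4 : ∀ ε : ℝ, 0 < ε → ∃ t₀ : ℝ, 0 < t₀ ∧ ∀ t : ℝ, 0 < t → t ≤ t₀ → φ (-t) ≤ 1 + t * (-a + ε)) :
    HasDerivAt φ a 0 := by
  rw [hasDerivAt_iff_isLittleO, Asymptotics.isLittleO_iff]
  intro ε hε
  obtain ⟨t₁, ht₁, H₁⟩ := h3 ε hε
  obtain ⟨t₂, ht₂, H₂⟩ := h4 ε hε
  have hmem : Set.Ioo (-(min t₁ t₂)) (min t₁ t₂) ∈ 𝓝 (0 : ℝ) :=
    Ioo_mem_nhds (by simp [ht₁, ht₂]) (by simp [ht₁, ht₂])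
  filter_upwards [hmem] with t ht
  rw [h0, sub_zero, smul_eq_mul, Real.norm_eq_abs, Real.norm_eq_abs]
  rcases lt_trichotomy t 0 with h | h | h
  · have hs : 0 < -t := by linarith
    have e1 := h2 (-t) hs
    have e2 := H₂ (-t) hs (by have := ht.1; have := min_le_right t₁ t₂; linarith)
    rw [neg_neg] at e1 e2
    rw [abs_of_neg h, abs_le]
    constructor <;> nlinarith
  · rw [h, h0]
    simp
  · have e1 := h1 t h
    have e2 := H₁ t h (by have := ht.2; have := min_le_left t₁ t₂; linarith)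
    rw [abs_of_pos h, abs_le]
    constructor <;> nlinarith

/-- Differentiability at the points of the unit sphere. -/
theorem NormLike.differentiableAt_one (h : NormLike μ) (hno : IsEmpty (Cor μ)) {v : ℝ × ℝ}
    (hv : μ v = 1) : DifferentiableAt ℝ μ v := by
  set w : ℝ × ℝ := (-v.2, v.1) with hw
  have hv0 : v ≠ 0 := by
    intro h1
    have h2 := h.hom 0 0 le_rfl
    rw [smul_zero, zero_mul] at h2
    rw [h1, h2] at hv
    exact zero_ne_one hv
  have hd : v.1 * w.2 - v.2 * w.1 = v.1 ^ 2 + v.2 ^ 2 := by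
    rw [hw]
    ring
  have hd0 : 0 < v.1 ^ 2 + v.2 ^ 2 := by
    by_contra h1
    push Not at h1
    refine hv0 (Prod.ext ?_ ?_)
    · show v.1 = 0
      nlinarith [sq_nonneg v.1, sq_nonneg v.2]
    · show v.2 = 0
      nlinarith [sq_nonneg v.1, sq_nonneg v.2]
  obtain ⟨a, ha, ha'⟩ := h.exists_deriv hv w
  obtain ⟨b, hb, hb'⟩ := h.exists_deriv hv (-w)
  have hab1 : a + b ≤ 0 := by
    by_contra h1
    push Not at h1
    exact hno.elim (h.exists_cor_of_deriv hv (by rw [hd]; exact hd0.ne') h1 ha hb ha' hb').some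
  have hab2 : 0 ≤ a + b := by
    refine le_of_forall_pos_le_add fun ε hε => ?_
    obtain ⟨t₁, ht₁, H₁⟩ := ha' (ε / 2) (half_pos hε)
    obtain ⟨t₂, ht₂, H₂⟩ := hb' (ε / 2) (half_pos hε)
    set t := min t₁ t₂ with ht
    have ht0 : 0 < t := lt_min ht₁ ht₂
    have e1 := H₁ t ht0 (min_le_left _ _)
    have e2 := H₂ t ht0 (min_le_right _ _)
    have e3 := h.add (v + t • w) (v + t • -w)
    have e4 : v + t • w + (v + t • -w) = (2 : ℝ) • v := by module
    rw [e4, h.hom 2 v (by norm_num), hv] at e3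
    have e5 : 0 ≤ t * (a + b + ε) := by nlinarith
    have e6 := nonneg_of_mul_nonneg_right e5 ht0
    linarith
  have hba : b = -a := by linarith
  subst hba
  set φ : ℝ → ℝ := fun t => μ (v + t • w) with hφ
  have hder : HasDerivAt φ a 0 := by
    refine hasDerivAt_of_sides ?_ ?_ ?_ ?_ ?_
    · show μ (v + (0 : ℝ) • w) = 1
      rw [zero_smul, add_zero, hv]
    · exact ha
    · intro t ht
      have h1 := hb t ht
      have e1 : v + t • -w = v + (-t) • w := by module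
      rw [e1] at h1
      show 1 - t * a ≤ μ (v + (-t) • w)
      linarith
    · exact ha'
    · intro ε hε
      obtain ⟨t₀, ht₀, H⟩ := hb' ε hε
      refine ⟨t₀, ht₀, fun t ht htt => ?_⟩
      have h1 := H t ht htt
      have e1 : v + t • -w = v + (-t) • w := by module
      rw [e1] at h1
      exact h1
  -- coordinates
  set A : ℝ × ℝ → ℝ := fun x => (x.1 * v.1 + x.2 * v.2) / (v.1 ^ 2 + v.2 ^ 2) with hA
  set B : ℝ × ℝ → ℝ := fun x => (v.1 * x.2 - v.2 * x.1) / (v.1 ^ 2 + v.2 ^ 2) with hB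
  have hAv : A v = 1 := by
    show (v.1 * v.1 + v.2 * v.2) / (v.1 ^ 2 + v.2 ^ 2) = 1
    rw [← sq, ← sq, div_self hd0.ne']
  have hBv : B v = 0 := by
    show (v.1 * v.2 - v.2 * v.1) / (v.1 ^ 2 + v.2 ^ 2) = 0
    rw [mul_comm v.2 v.1, sub_self, zero_div]
  have hAd : Differentiable ℝ A := by
    rw [hA]
    fun_prop
  have hBd : Differentiable ℝ B := by
    rw [hB]
    fun_prop
  have hloc : ∀ᶠ x in 𝓝 v, μ x = A x * φ (B x / A x) := by
    have h1 : ∀ᶠ x in 𝓝 v, 0 < A x := by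
      have h2 : Tendsto A (𝓝 v) (𝓝 1) := by
        rw [← hAv]
        exact hAd.continuous.continuousAt
      exact h2.eventually (lt_mem_nhds one_pos)
    filter_upwards [h1] with x hx
    show μ x = A x * μ (v + (B x / A x) • w)
    rw [← h.hom _ _ hx.le]
    congr 1
    rw [smul_add, smul_smul, mul_div_cancel₀ _ hx.ne']
    refine Prod.ext ?_ ?_
    · show x.1 = (x.1 * v.1 + x.2 * v.2) / (v.1 ^ 2 + v.2 ^ 2) * v.1
        + (v.1 * x.2 - v.2 * x.1) / (v.1 ^ 2 + v.2 ^ 2) * -v.2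
      field_simp
      ring
    · show x.2 = (x.1 * v.1 + x.2 * v.2) / (v.1 ^ 2 + v.2 ^ 2) * v.2
        + (v.1 * x.2 - v.2 * x.1) / (v.1 ^ 2 + v.2 ^ 2) * v.1
      field_simp
      ring
  refine DifferentiableAt.congr_of_eventuallyEq ?_ hloc
  have hφd : DifferentiableAt ℝ φ (B v / A v) := by
    rw [hBv, zero_div]
    exact hder.differentiableAt
  refine (hAd v).mul (DifferentiableAt.comp (g := φ) (f := fun x => B x / A x) v hφd ?_)
  have hA0 : A v ≠ 0 := by
    rw [hAv]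
    exact one_ne_zero
  have h5 : DifferentiableAt ℝ (fun x => (A x)⁻¹) v := (hAd v).fun_inv hA0
  have h6 : (fun x => B x / A x) = fun x => B x * (A x)⁻¹ := by
    funext x
    rw [div_eq_mul_inv]
  rw [h6]
  exact (hBd v).fun_mul h5

/-- A norm without corners is differentiable off the origin. -/
theorem NormLike.differentiableAt (h : NormLike μ) (hno : IsEmpty (Cor μ)) {x : ℝ × ℝ}
    (hx : x ≠ 0) : DifferentiableAt ℝ μ x := by
  have hμx := h.pos x hx
  have h1 : DifferentiableAt ℝ μ ((μ x)⁻¹ • x) := h.differentiableAt_one hno (by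
    rw [h.hom _ _ (inv_nonneg.2 hμx.le), inv_mul_cancel₀ hμx.ne'])
  have h2 : μ = fun z => μ x * μ ((μ x)⁻¹ • z) := by
    funext z
    rw [← h.hom _ _ hμx.le, smul_smul, mul_inv_cancel₀ hμx.ne', one_smul]
  rw [h2]
  refine DifferentiableAt.const_mul ?_ _
  exact DifferentiableAt.comp (g := μ) (f := fun z => (μ x)⁻¹ • z) x h1 (by fun_prop)

end Pool.Agent.W_1b8d5d_nc
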