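import Mathlib

/-!
MP_1b8d5d_pr, proofs row 581 (no corner): an isolated extreme point of a convex body is a vertex.
All dimensions.
-/

set_option autoImplicit false

open Set Metric

namespace Pool.Agent.W_1b8d5d_nc

variable {E : Type*} [NormedAddCommGroup E] [NormedSpace ℝ E]

/-- The convex hull of the union of two compact convex sets is compact. -/
theorem compact_hull_union {s t : Set E} (hs : IsCompact s) (ht : IsCompact t) (hs' : Convex ℝ s)
    (ht' : Convex ℝ t) : IsCompact (convexHull ℝ (s ∪ t)) := by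
  rcases s.eq_empty_or_nonempty with rfl | hs0
  · rw [empty_union, ht'.convexHull_eq]
    exact ht
  rcases t.eq_empty_or_nonempty with rfl | ht0
  · rw [union_empty, hs'.convexHull_eq]
    exact hs
  rw [hs'.convexHull_union ht' hs0 ht0]
  have h1 : convexJoin ℝ s t
      = (fun q : ℝ × E × E => (1 - q.1) • q.2.1 + q.1 • q.2.2) '' (Icc (0 : ℝ) 1 ×ˢ s ×ˢ t) := by
    ext x
    rw [mem_convexJoin]
    constructor
    · rintro ⟨a, ha, b, hb, hx⟩
      rw [segment_eq_image] at hx
      obtain ⟨c, hc, rfl⟩ := hx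
      exact ⟨(c, a, b), ⟨hc, ha, hb⟩, rfl⟩
    · rintro ⟨⟨c, a, b⟩, ⟨hc, ha, hb⟩, rfl⟩
      refine ⟨a, ha, b, hb, ?_⟩
      rw [segment_eq_image]
      exact ⟨c, hc, rfl⟩
  rw [h1]
  refine (isCompact_Icc.prod (hs.prod ht)).image ?_
  fun_prop

/-- The same for finitely many sets. -/
theorem compact_hull_iUnion {ι : Type*} (t : Finset ι) {K : ι → Set E}
    (hK : ∀ i ∈ t, IsCompact (K i)) (hK' : ∀ i ∈ t, Convex ℝ (K i)) :
    IsCompact (convexHull ℝ (⋃ i ∈ t, K i)) := by
  classical
  induction t using Finset.induction_on with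
  | empty => simp
  | insert a t ha ih =>
    rw [Finset.set_biUnion_insert, ← convexHull_convexHull_union_right]
    refine compact_hull_union (hK a (Finset.mem_insert_self a t))
      (ih (fun i hi => hK i (Finset.mem_insert_of_mem hi))
        (fun i hi => hK' i (Finset.mem_insert_of_mem hi)))
      (hK' a (Finset.mem_insert_self a t)) (convex_convexHull ℝ _)

/-- An isolated extreme point of a compact convex body is a vertex: it is the only contact point of
a supporting form with a linear gap. -/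
theorem exists_vertex_of_isolated {B : Set E} (hc : IsCompact B) (hconv : Convex ℝ B)
    (h0 : (0 : E) ∈ interior B) {v : E} (hv : v ∈ B.extremePoints ℝ) (hv0 : v ≠ 0) {ε : ℝ}
    (hε : 0 < ε) (hiso : ∀ w ∈ B.extremePoints ℝ, w ≠ v → ε ≤ dist w v) :
    ∃ (f : E →L[ℝ] ℝ) (δ : ℝ), 0 < δ ∧ f v = 1 ∧ ∀ w ∈ B, f w + δ * ‖w - f w • v‖ ≤ 1 := by
  classical
  -- the far part of `B` is covered by finitely many small balls
  set C : Set E := B \ ball v ε with hC
  have hCc : IsCompact C := hc.diff isOpen_ball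
  obtain ⟨t, htC, htcov⟩ := hCc.elim_nhds_subcover (fun x => closedBall x (ε / 2))
    (fun x _ => closedBall_mem_nhds x (half_pos hε))
  set K : Set E := convexHull ℝ (⋃ x ∈ t, B ∩ closedBall x (ε / 2)) with hK
  have hKc : IsCompact K := compact_hull_iUnion t
    (fun x _ => hc.inter_right isClosed_closedBall)
    (fun x _ => hconv.inter (convex_closedBall x _))
  have hKconv : Convex ℝ K := convex_convexHull ℝ _
  have hUB : (⋃ x ∈ t, B ∩ closedBall x (ε / 2)) ⊆ B := by
    refine iUnion₂_subset fun x _ => inter_subset_left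
  have hKB : K ⊆ B := convexHull_min hUB hconv
  have hCK : C ⊆ K := by
    intro x hx
    refine subset_convexHull ℝ _ ?_
    obtain ⟨y, hy, hxy⟩ := mem_iUnion₂.1 (htcov hx)
    exact mem_iUnion₂.2 ⟨y, hy, hx.1, hxy⟩
  have hvK : v ∉ K := by
    intro hvK
    have h1 : v ∈ K.extremePoints ℝ :=
      inter_extremePoints_subset_extremePoints_of_subset hKB ⟨hvK, hv⟩
    have h2 := extremePoints_convexHull_subset h1
    obtain ⟨y, hy, _, hvy⟩ := mem_iUnion₂.1 h2
    have h3 : y ∉ ball v ε := (htC y hy).2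
    rw [mem_ball, not_lt] at h3
    rw [mem_closedBall, dist_comm] at hvy
    linarith
  -- `B` is the hull of `v` and `K`
  have hBK : B ⊆ convexHull ℝ ({v} ∪ K) := by
    have hcl : IsCompact (convexHull ℝ ({v} ∪ K)) :=
      compact_hull_union isCompact_singleton hKc (convex_singleton v) hKconv
    rw [← closure_convexHull_extremePoints hc hconv]
    refine hcl.isClosed.closure_subset_iff.2 (convexHull_mono fun w hw => ?_)
    by_cases hwv : w = v
    · exact Or.inl hwv
    · refine Or.inr (hCK ⟨hw.1, ?_⟩)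
      rw [mem_ball, not_lt]
      exact hiso w hw hwv
  have hKne : K.Nonempty := by
    by_contra hne
    rw [not_nonempty_iff_eq_empty] at hne
    rw [hne, union_empty, convexHull_singleton] at hBK
    exact hv0 (hBK (interior_subset h0)).symm
  -- separation
  obtain ⟨f₀, u, hfK, hfv⟩ := geometric_hahn_banach_closed_point hKconv hKc.isClosed hvK
  have hseg : ∀ w ∈ B, ∃ s : ℝ, 0 ≤ s ∧ s ≤ 1 ∧ ∃ k ∈ K, w = (1 - s) • v + s • k := by
    intro w hw
    have h1 := hBK hw
    rw [(convex_singleton v).convexHull_union hKconv (singleton_nonempty v) hKne,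
      mem_convexJoin] at h1
    obtain ⟨a, ha, b, hb, hx⟩ := h1
    rw [mem_singleton_iff] at ha
    subst ha
    rw [segment_eq_image] at hx
    obtain ⟨c, hc1, rfl⟩ := hx
    exact ⟨c, hc1.1, hc1.2, b, hb, rfl⟩
  have hfB : ∀ w ∈ B, f₀ w ≤ f₀ v := by
    intro w hw
    obtain ⟨s, hs0, hs1, k, hk, rfl⟩ := hseg w hw
    rw [map_add, map_smul, map_smul, smul_eq_mul, smul_eq_mul]
    have h1 := (hfK k hk).trans hfv
    nlinarith
  have hfpos : 0 < f₀ v := by
    obtain ⟨k, hk⟩ := hKne
    have h1 := (hfK k hk).trans hfv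
    -- a small multiple of `v - k` is in `B`
    obtain ⟨r, hr, hball⟩ := Metric.isOpen_iff.1 isOpen_interior 0 h0
    have hn : 0 < ‖v - k‖ + 1 := by positivity
    have h2 : (r / (2 * (‖v - k‖ + 1))) • (v - k) ∈ B := by
      refine interior_subset (hball ?_)
      rw [mem_ball_zero_iff, norm_smul, Real.norm_of_nonneg (by positivity), div_mul_eq_mul_div,
        div_lt_iff₀ (by positivity)]
      nlinarith [norm_nonneg (v - k)]
    have h3 := hfB _ h2
    rw [map_smul, map_sub, smul_eq_mul] at h3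
    refine lt_of_lt_of_le (mul_pos (by positivity) ?_) h3
    linarith
  set f : E →L[ℝ] ℝ := (f₀ v)⁻¹ • f₀ with hf
  have hfx : ∀ x, f x = (f₀ v)⁻¹ * f₀ x := fun x => rfl
  have hfv1 : f v = 1 := by rw [hfx, inv_mul_cancel₀ hfpos.ne']
  set η : ℝ := 1 - (f₀ v)⁻¹ * u with hη
  have hη0 : 0 < η := by
    have h1 : (f₀ v)⁻¹ * u < (f₀ v)⁻¹ * f₀ v := mul_lt_mul_of_pos_left hfv (inv_pos.2 hfpos)
    rw [inv_mul_cancel₀ hfpos.ne'] at h1
    linarith
  have hfk : ∀ k ∈ K, f k ≤ 1 - η := by
    intro k hk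
    have h1 : (f₀ v)⁻¹ * f₀ k ≤ (f₀ v)⁻¹ * u :=
      mul_le_mul_of_nonneg_left (hfK k hk).le (inv_nonneg.2 hfpos.le)
    rw [hfx, hη]
    linarith
  obtain ⟨M, hM⟩ : ∃ M : ℝ, ∀ k ∈ K, ‖k - f k • v‖ ≤ M := by
    obtain ⟨M, hM⟩ := (hKc.image (f := fun k => k - f k • v) (by fun_prop)).isBounded.exists_norm_le
    exact ⟨M, fun k hk => hM _ (mem_image_of_mem _ hk)⟩
  have hM0 : 0 ≤ M := by
    obtain ⟨k, hk⟩ := hKne
    exact (norm_nonneg _).trans (hM k hk)
  refine ⟨f, η / (M + 1), by positivity, hfv1, fun w hw => ?_⟩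
  obtain ⟨s, hs0, hs1, k, hk, rfl⟩ := hseg w hw
  have e1 : f ((1 - s) • v + s • k) = 1 - s + s * f k := by
    rw [map_add, map_smul, map_smul, hfv1, smul_eq_mul, smul_eq_mul, mul_one]
  have e2 : (1 - s) • v + s • k - (1 - s + s * f k) • v = s • (k - f k • v) := by
    module
  rw [e1, e2, norm_smul, Real.norm_of_nonneg hs0]
  have h1 := hfk k hk
  have h2 := hM k hk
  have h3 : η / (M + 1) * ‖k - f k • v‖ ≤ η := by
    rw [div_mul_eq_mul_div, div_le_iff₀ (by positivity)]
    nlinarith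
  have h4 : s * (η / (M + 1) * ‖k - f k • v‖) ≤ s * η := mul_le_mul_of_nonneg_left h3 hs0
  have h5 : s * f k ≤ s * (1 - η) := mul_le_mul_of_nonneg_left h1 hs0
  nlinarith

end Pool.Agent.W_1b8d5d_nc
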