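import Pool.Agent.W_1b8d5d_nc.NormD3
import Pool.Agent.W_1b8d5d_nd.Mod

/-!
MP_1b8d5d_pr, general dimension: medians of the passage times, the time constant is the limit of the medians.
-/

set_option autoImplicit false

open MeasureTheory ProbabilityTheory Filter Topology

namespace Pool.Agent.W_1b8d5d_nc

open Pool.Agent.W_1b8d5d_gd

section median

variable {Ω : Type} [MeasurableSpace Ω] {P : Measure Ω} [IsProbabilityMeasure P]

private theorem MedD_anti {A : ℕ → Set Ω} (hA : ∀ n, MeasurableSet (A n)) (hanti : Antitone A) {c : ℝ}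
    (h : ∀ n, c ≤ P.real (A n)) : c ≤ P.real (⋂ n, A n) := by
  have h1 := tendsto_measure_iInter_atTop (μ := P) (fun n => (hA n).nullMeasurableSet) hanti
    ⟨0, measure_ne_top _ _⟩
  have h2 := (ENNReal.tendsto_toReal (measure_ne_top P (⋂ n, A n))).comp h1
  exact ge_of_tendsto' h2 h

private theorem MedD_seq {x y : ℝ} (h : ∀ n : ℕ, x ≤ y + 1 / ((n : ℝ) + 1)) : x ≤ y := by
  refine le_of_forall_pos_le_add fun ε hε => ?_
  obtain ⟨n, hn⟩ := exists_nat_one_div_lt hε
  linarith [h n]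

/-- Medians exist. -/
theorem exists_median {X : Ω → ℝ} (hX : Measurable X) :
    ∃ m : ℝ, 1 / 2 ≤ P.real {ω | X ω ≤ m} ∧ 1 / 2 ≤ P.real {ω | m ≤ X ω} := by
  set S : Set ℝ := {t | 1 / 2 ≤ P.real {ω | X ω ≤ t}} with hS
  have hmono : ∀ s t : ℝ, s ≤ t → P.real {ω | X ω ≤ s} ≤ P.real {ω | X ω ≤ t} := fun s t hst =>
    measureReal_mono (fun ω hω => le_trans hω hst) (measure_ne_top _ _)
  -- nonempty
  have hne : S.Nonempty := by
    have h1 := tendsto_measure_iUnion_atTop (μ := P) (s := fun n : ℕ => {ω | X ω ≤ n})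
      (fun m n hmn ω hω => show X ω ≤ (n : ℝ) from le_trans (show X ω ≤ (m : ℝ) from hω) (by exact_mod_cast hmn))
    have h2 : (⋃ n : ℕ, {ω | X ω ≤ n}) = Set.univ := by
      ext ω
      simp only [Set.mem_iUnion, Set.mem_ofPred_eq, Set.mem_univ, iff_true]
      exact exists_nat_ge (X ω)
    rw [h2] at h1
    have h3 := (ENNReal.tendsto_toReal (measure_ne_top P Set.univ)).comp h1
    rw [measure_univ, ENNReal.toReal_one] at h3
    obtain ⟨n, hn⟩ := ((tendsto_order.1 h3).1 (1 / 2) (by norm_num)).exists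
    exact ⟨n, hn.le⟩
  -- bounded below
  have hbd : BddBelow S := by
    by_contra hcon
    have h1 : ∀ n : ℕ, 1 / 2 ≤ P.real {ω | X ω ≤ -(n : ℝ)} := by
      intro n
      by_contra hlt
      push Not at hlt
      apply hcon
      refine ⟨-(n : ℝ), fun t ht => ?_⟩
      by_contra ht2
      push Not at ht2
      have ht' : 1 / 2 ≤ P.real {ω | X ω ≤ t} := ht
      linarith [hmono t (-(n : ℝ)) ht2.le]
    have h2 := MedD_anti (P := P) (A := fun n : ℕ => {ω | X ω ≤ -(n : ℝ)})
      (fun n => measurableSet_le hX measurable_const)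
      (fun m n hmn ω hω => show X ω ≤ -(m : ℝ) from
        le_trans (show X ω ≤ -(n : ℝ) from hω) (neg_le_neg (show (m : ℝ) ≤ n by exact_mod_cast hmn))) h1
    have h3 : (⋂ n : ℕ, {ω | X ω ≤ -(n : ℝ)}) = ∅ := by
      ext ω
      simp only [Set.mem_iInter, Set.mem_ofPred_eq, Set.mem_empty_iff_false, iff_false, not_forall, not_le]
      obtain ⟨n, hn⟩ := exists_nat_gt (-X ω)
      exact ⟨n, by linarith⟩
    rw [h3, measureReal_empty] at h2
    linarith
  refine ⟨sInf S, ?_, ?_⟩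
  · have h1 : ∀ n : ℕ, 1 / 2 ≤ P.real {ω | X ω ≤ sInf S + 1 / ((n : ℝ) + 1)} := by
      intro n
      obtain ⟨t, ht, htl⟩ := exists_lt_of_csInf_lt hne
        (show sInf S < sInf S + 1 / ((n : ℝ) + 1) by linarith [show (0 : ℝ) < 1 / ((n : ℝ) + 1) by positivity])
      exact le_trans ht (hmono _ _ htl.le)
    have h2 := MedD_anti (P := P) (A := fun n : ℕ => {ω | X ω ≤ sInf S + 1 / ((n : ℝ) + 1)})
      (fun n => measurableSet_le hX measurable_const)
      (fun m n hmn ω hω => le_trans (show X ω ≤ _ from hω) (by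
        have := Nat.one_div_le_one_div (α := ℝ) hmn
        linarith)) h1
    refine h2.trans (measureReal_mono ?_ (measure_ne_top _ _))
    intro ω hω
    exact MedD_seq fun n => (Set.mem_iInter.1 hω n)
  · have h1 : ∀ n : ℕ, 1 / 2 ≤ P.real {ω | sInf S - 1 / ((n : ℝ) + 1) ≤ X ω} := by
      intro n
      have hnot : sInf S - 1 / ((n : ℝ) + 1) ∉ S := by
        intro hmem
        have h3 := csInf_le hbd hmem
        have : (0 : ℝ) < 1 / ((n : ℝ) + 1) := by positivity
        linarith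
      have h3 : P.real {ω | X ω ≤ sInf S - 1 / ((n : ℝ) + 1)} < 1 / 2 := not_le.1 hnot
      have h4 : P.real (Set.univ : Set Ω) ≤
          P.real {ω | X ω ≤ sInf S - 1 / ((n : ℝ) + 1)} + P.real {ω | sInf S - 1 / ((n : ℝ) + 1) ≤ X ω} := by
        refine le_trans (measureReal_mono ?_ (measure_ne_top _ _)) (measureReal_union_le _ _)
        intro ω _
        exact le_total (X ω) _
      rw [probReal_univ] at h4
      linarith
    have h2 := MedD_anti (P := P) (A := fun n : ℕ => {ω | sInf S - 1 / ((n : ℝ) + 1) ≤ X ω})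
      (fun n => measurableSet_le measurable_const hX)
      (fun m n hmn ω hω => le_trans (by
        have := Nat.one_div_le_one_div (α := ℝ) hmn
        linarith) (show _ ≤ X ω from hω)) h1
    refine h2.trans (measureReal_mono ?_ (measure_ne_top _ _))
    intro ω hω
    refine MedD_seq fun n => ?_
    have h3 : sInf S - 1 / ((n : ℝ) + 1) ≤ X ω := Set.mem_iInter.1 hω n
    linarith

end median

variable {d : ℕ} [NeZero d] {ν : Measure ℝ} {Ω : Type} [MeasurableSpace Ω] {P : Measure Ω} {τ : Edge d → Ω → ℝ}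
  {μ : (Fin d → ℝ) → ℝ}

/-- Medians of the passage times exist. -/
theorem FppD.exists_medians (h : FppD ν P τ) : ∃ m : V d → ℝ, ∀ z,
    1 / 2 ≤ P.real {ω | T (fun e => τ e ω) 0 z ≤ m z} ∧ 1 / 2 ≤ P.real {ω | m z ≤ T (fun e => τ e ω) 0 z} := by
  have := h.prob
  choose m hm using fun z : V d => exists_median (P := P) (h.meas_T 0 z)
  exact ⟨m, hm⟩

/-- The time constant is the limit of the medians. -/
theorem LimD.med (h : FppD ν P τ) (hl : LimD P τ μ) {m : V d → ℝ}
    (hm : ∀ z, 1 / 2 ≤ P.real {ω | T (fun e => τ e ω) 0 z ≤ m z} ∧ 1 / 2 ≤ P.real {ω | m z ≤ T (fun e => τ e ω) 0 z})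
    (z : V d) : Tendsto (fun k : ℕ => m (k • z) / (k : ℝ)) atTop (𝓝 (μ (toRD z))) := by
  have := h.prob
  rw [Metric.tendsto_atTop]
  intro ε hε
  have h1 := hl.ev z (half_pos hε) (η := 1 / 2) (by norm_num)
  obtain ⟨N, hN⟩ := eventually_atTop.1 (h1.and (eventually_ge_atTop 1))
  refine ⟨N, fun k hk => ?_⟩
  obtain ⟨h2, hk1⟩ := hN k hk
  have hk0 : (0 : ℝ) < k := by exact_mod_cast hk1
  obtain ⟨hU, hL⟩ := hm (k • z)
  rw [Real.dist_eq, abs_lt]
  constructor
  · -- the median is not too small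
    by_contra hcon
    push Not at hcon
    have h3 : {ω | T (fun e => τ e ω) 0 (k • z) ≤ m (k • z)} ⊆
        {ω | ε / 2 ≤ |T (fun e => τ e ω) 0 (k • z) / (k : ℝ) - μ (toRD z)|} := by
      intro ω hω
      have hω' : T (fun e => τ e ω) 0 (k • z) ≤ m (k • z) := hω
      have h4 : T (fun e => τ e ω) 0 (k • z) / (k : ℝ) ≤ m (k • z) / (k : ℝ) :=
        div_le_div_of_nonneg_right hω' hk0.le
      show ε / 2 ≤ |T (fun e => τ e ω) 0 (k • z) / (k : ℝ) - μ (toRD z)|
      rw [le_abs]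
      right
      linarith
    have h4 := measureReal_mono (μ := P) h3 (measure_ne_top _ _)
    linarith
  · by_contra hcon
    push Not at hcon
    have h3 : {ω | m (k • z) ≤ T (fun e => τ e ω) 0 (k • z)} ⊆
        {ω | ε / 2 ≤ |T (fun e => τ e ω) 0 (k • z) / (k : ℝ) - μ (toRD z)|} := by
      intro ω hω
      have hω' : m (k • z) ≤ T (fun e => τ e ω) 0 (k • z) := hω
      have h4 : m (k • z) / (k : ℝ) ≤ T (fun e => τ e ω) 0 (k • z) / (k : ℝ) :=
        div_le_div_of_nonneg_right hω' hk0.le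
      show ε / 2 ≤ |T (fun e => τ e ω) 0 (k • z) / (k : ℝ) - μ (toRD z)|
      rw [le_abs]
      left
      linarith
    have h4 := measureReal_mono (μ := P) h3 (measure_ne_top _ _)
    linarith

/-- The interface of `W_1b8d5d_nd`. -/
theorem LimD.muM (h : FppD ν P τ) (hn : NormFun μ) (hl : LimD P τ μ) {m : V d → ℝ}
    (hm : ∀ z, 1 / 2 ≤ P.real {ω | T (fun e => τ e ω) 0 z ≤ m z} ∧
      1 / 2 ≤ P.real {ω | m z ≤ T (fun e => τ e ω) 0 z}) : Pool.Agent.W_1b8d5d_nd.MuM μ m :=
  ⟨hn.hom, hn.cont, fun z => hl.med h hm z⟩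

end Pool.Agent.W_1b8d5d_nc
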