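import Pool.Agent.W_1b8d5d_nc.Geo3

/-!
MP_1b8d5d_pr (no corner): Milman's theorem in finite dimension, and infinitely many points near every extreme point.
All dimensions.
-/

set_option autoImplicit false

open Set Metric Filter Topology

namespace Pool.Agent.W_1b8d5d_nc

variable {E : Type*} [NormedAddCommGroup E] [NormedSpace ℝ E]

/-- Milman's theorem: the extreme points of `B` are in the closure of every set with the closed convex
hull `B`. -/
theorem mem_closure_of_extreme {B C : Set E} (hc : IsCompact B) (hconv : Convex ℝ B) (hCB : C ⊆ B)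
    (hhull : B ⊆ closure (convexHull ℝ C)) {v : E} (hv : v ∈ B.extremePoints ℝ) :
    v ∈ closure C := by
  classical
  by_contra hvC
  obtain ⟨ε, hε, hball⟩ : ∃ ε : ℝ, 0 < ε ∧ ∀ w ∈ C, ε ≤ dist w v := by
    rw [Metric.mem_closure_iff] at hvC
    push Not at hvC
    obtain ⟨ε, hε, h⟩ := hvC
    exact ⟨ε, hε, fun w hw => by rw [dist_comm]; exact h w hw⟩
  set C' : Set E := B \ ball v ε with hC'
  have hCc : IsCompact C' := hc.diff isOpen_ball
  obtain ⟨t, htC, htcov⟩ := hCc.elim_nhds_subcover (fun x => closedBall x (ε / 2))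
    (fun x _ => closedBall_mem_nhds x (half_pos hε))
  set K : Set E := convexHull ℝ (⋃ x ∈ t, B ∩ closedBall x (ε / 2)) with hK
  have hKc : IsCompact K := compact_hull_iUnion t
    (fun x _ => hc.inter_right isClosed_closedBall)
    (fun x _ => hconv.inter (convex_closedBall x _))
  have hKconv : Convex ℝ K := convex_convexHull ℝ _
  have hUB : (⋃ x ∈ t, B ∩ closedBall x (ε / 2)) ⊆ B := by
    refine iUnion₂_subset fun x _ => inter_subset_left
  have hKB : K ⊆ B := convexHull_min hUB hconv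
  have hCK : C ⊆ K := by
    intro x hx
    refine subset_convexHull ℝ _ ?_
    have hx' : x ∈ C' := ⟨hCB hx, by rw [mem_ball, not_lt]; exact hball x hx⟩
    obtain ⟨y, hy, hxy⟩ := mem_iUnion₂.1 (htcov hx')
    exact mem_iUnion₂.2 ⟨y, hy, hCB hx, hxy⟩
  have hvK : v ∈ K := by
    have h1 : closure (convexHull ℝ C) ⊆ K :=
      hKc.isClosed.closure_subset_iff.2 (convexHull_min hCK hKconv)
    exact h1 (hhull hv.1)
  have h1 : v ∈ K.extremePoints ℝ :=
    inter_extremePoints_subset_extremePoints_of_subset hKB ⟨hvK, hv⟩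
  have h2 := extremePoints_convexHull_subset h1
  obtain ⟨y, hy, _, hvy⟩ := mem_iUnion₂.1 h2
  have h3 : y ∉ ball v ε := (htC y hy).2
  rw [mem_ball, not_lt] at h3
  rw [mem_closedBall, dist_comm] at hvy
  linarith

/-- If a set accumulates at all points of a preperfect set, then it is infinite near each of them. -/
theorem infinite_of_closure {X C : Set E} (hp : Preperfect X) (hX : X ⊆ closure C) {v : E}
    (hv : v ∈ X) {U : Set E} (hU : IsOpen U) (hvU : v ∈ U) : (C ∩ U).Infinite := by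
  intro hfin
  -- the finite set `C ∩ U` would contain `X ∩ U`
  have h1 : X ∩ U ⊆ C ∩ U := by
    rintro x ⟨hx, hxU⟩
    have h2 : x ∈ closure (C ∩ U) := by
      rw [_root_.mem_closure_iff]
      intro o ho hxo
      obtain ⟨y, ⟨hyo, hyU⟩, hyC⟩ := _root_.mem_closure_iff.1 (hX hx) (o ∩ U) (ho.inter hU) ⟨hxo, hxU⟩
      exact ⟨y, hyo, hyC, hyU⟩
    rwa [hfin.isClosed.closure_eq] at h2
  have h3 : (X ∩ U).Finite := hfin.subset h1
  have h4 := hp v hv
  rw [accPt_iff_frequently] at h4
  have h5 : IsClosed ((X ∩ U) \ {v}) := (h3.subset diff_subset).isClosed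
  have h6 : ∀ᶠ y in 𝓝 v, y ∉ (X ∩ U) \ {v} := h5.isOpen_compl.mem_nhds (fun h7 => h7.2 rfl)
  obtain ⟨y, ⟨⟨hy1, hy2⟩, hy3⟩, hy4⟩ :=
    ((h4.and_eventually h6).and_eventually (hU.eventually_mem hvU)).exists
  exact hy3 ⟨⟨hy2, hy4⟩, hy1⟩

end Pool.Agent.W_1b8d5d_nc
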