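import Pool.Agent.W_1b8d5d_nc.NcOne
import Pool.Agent.W_1b8d5d_LE.One

/-!
MP_1b8d5d_pr, track P, general laws (proofs row 650, (3)): THE DOUBLING INEQUALITY, ONE COORDINATE. The law is the law of `q U`,
`U` uniform on `[0, 1]`, `q` nondecreasing, with values in an interval of length one, not concentrated near the top (`Qn`). No
density and no continuity. The loss of the monotone coupling of `μ` and `(Z / I) μ` is moved from the slope at the source to the
slope at the target by `key`, and is then at most the increase of `log Z`. (helper67)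
-/

namespace Pool.Agent.W_1b8d5d_nc

open MeasureTheory Set Filter Topology
open Pool.Agent.W_7d29a1_h47 (EM)
open Pool.Agent.W_7d29a1_LE (G1 phi)
open Pool.Agent.W_1b8d5d_z (U01 BM)

noncomputable section

/-- `μ` is the law of `q U` with `U` uniform on `[0, 1]`. -/
structure Qm (μ : Measure ℝ) (q : ℝ → ℝ) (θ₀ C : ℝ) : Prop where
  law : μ = U01.map q
  qn : Qn q θ₀ C

variable {μ : Measure ℝ} {q : ℝ → ℝ} {θ₀ C : ℝ}

theorem Qm.meas (h : Qm μ q θ₀ C) : Measurable q := h.qn.mono.measurable

theorem Qm.prob (h : Qm μ q θ₀ C) : IsProbabilityMeasure μ := by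
  rw [h.law]
  exact Measure.isProbabilityMeasure_map h.meas.aemeasurable

theorem Qm.integral (h : Qm μ q θ₀ C) {f : ℝ → ℝ} (hf : Measurable f) : ∫ x, f x ∂μ = ∫ u, f (q u) ∂U01 := by
  rw [h.law, integral_map h.meas.aemeasurable hf.aestronglyMeasurable]

theorem Qm.em (h : Qm μ q θ₀ C) : EM μ := by
  intro b
  rw [h.law]
  have hc : Continuous fun u : ℝ => Real.exp (b * |u|) := by fun_prop
  rw [integrable_map_measure hc.measurable.aestronglyMeasurable h.meas.aemeasurable]
  obtain ⟨hm, K, hK⟩ := h.qn.bm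
  have hb : BM fun u => Real.exp (b * |q u|) := by
    refine ⟨hc.measurable.comp hm, Real.exp (|b| * K), fun x => ?_⟩
    rw [abs_of_pos (Real.exp_pos _)]
    apply Real.exp_le_exp.2
    have h1 : b * |q x| ≤ |b| * |q x| := mul_le_mul_of_nonneg_right (le_abs_self b) (abs_nonneg _)
    exact h1.trans (mul_le_mul_of_nonneg_left (hK x) (abs_nonneg b))
  exact hb.int

/-- The functions of exponential growth are bounded on the values of `q`. -/
theorem Qm.bg (h : Qm μ q θ₀ C) {f : ℝ → ℝ} (hf : G1 f) : BM fun u => f (q u) := by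
  obtain ⟨hfm, B, hB, hb⟩ := hf
  obtain ⟨hm, K, hK⟩ := h.qn.bm
  refine ⟨hfm.comp hm, B * Real.exp (B * K), fun x => (hb _).trans ?_⟩
  exact mul_le_mul_of_nonneg_left (Real.exp_le_exp.2 (mul_le_mul_of_nonneg_left (hK x) hB)) hB

/-- `exp t - 1 ≤ 2 t` for `0 ≤ t ≤ 1 / 4`. -/
theorem exp_sub_one_le {t : ℝ} (h0 : 0 ≤ t) (h1 : 4 * t ≤ 1) : Real.exp t - 1 ≤ 2 * t := by
  have h2 : t < 1 := by linarith
  have h3 := Real.exp_bound_div_one_sub_of_interval h0 h2
  have h4 : 1 / (1 - t) ≤ 1 + 2 * t := by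
    rw [div_le_iff₀ (by linarith)]
    nlinarith
  linarith

/-- ONE COORDINATE: the monotone coupling of `μ` and `(Z / I) μ`. -/
theorem one_coord (hq : Qm μ q θ₀ C) {t : ℝ} (ht : 0 < t) (ht1 : 4 * t ≤ 1) (ht0 : 4 * t ≤ θ₀) {Z G R Φ : ℝ → ℝ}
    (hZ : ∀ x, 0 < Z x) (hG0 : ∀ x, 0 ≤ G x) (hG1 : ∀ x, G x ≤ 1)
    (glo : ∀ x y, x ≤ y → t * G x * (y - x) ≤ Real.log (Z y) - Real.log (Z x))
    (ghi : ∀ x y, x ≤ y → Real.log (Z y) - Real.log (Z x) ≤ t * G y * (y - x))
    (mG : Measurable G) (gR : G1 R) (gΦ : G1 Φ) (hle : ∀ x y, R x + G x * (y - x) ≤ Φ y) :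
    ∫ x, Z x / (∫ u, Z u ∂μ) * R x ∂μ -
      6 * (1 + C) / t * ∫ x, Z x / (∫ u, Z u ∂μ) * (Real.log (Z x) - Real.log (∫ u, Z u ∂μ)) ∂μ ≤
      ∫ x, Φ x ∂μ := by
  have hqn := hq.qn
  have hC0 := hqn.C0
  have hqm := hq.meas
  set a : ℝ → ℝ := fun u => Real.log (Z (q u)) with ha
  set g : ℝ → ℝ := fun u => G (q u) with hg
  have mg : Measurable g := mG.comp hqm
  -- the slope is monotone
  have gmono : Monotone g := by
    intro u v huv
    rcases (hqn.mono huv).eq_or_lt with h1 | h1
    · show G (q u) ≤ G (q v)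
      rw [h1]
    · have h2 := (glo _ _ h1.le).trans (ghi _ _ h1.le)
      have h3 : 0 < t * (q v - q u) := mul_pos ht (by linarith)
      have h4 : G (q u) * (t * (q v - q u)) ≤ G (q v) * (t * (q v - q u)) := by
        have e1 : t * G (q u) * (q v - q u) = G (q u) * (t * (q v - q u)) := by ring
        have e2 : t * G (q v) * (q v - q u) = G (q v) * (t * (q v - q u)) := by ring
        rw [e1, e2] at h2
        exact h2
      exact le_of_mul_le_mul_right h4 h3
  have hstep : ∀ u v, u ≤ v → a u ≤ a v ∧ a v ≤ a u + t := by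
    intro u v huv
    have h1 := glo _ _ (hqn.mono huv)
    have h2 := ghi _ _ (hqn.mono huv)
    have h3 := hqn.one u v
    have h4 : 0 ≤ q v - q u := sub_nonneg.2 (hqn.mono huv)
    have h5 : 0 ≤ t * G (q u) * (q v - q u) := mul_nonneg (mul_nonneg ht.le (hG0 _)) h4
    have h6 : t * G (q v) * (q v - q u) ≤ t * 1 * 1 :=
      mul_le_mul (mul_le_mul_of_nonneg_left (hG1 _) ht.le) h3 h4 (by linarith)
    constructor
    · show Real.log (Z (q u)) ≤ Real.log (Z (q v))
      linarith
    · show Real.log (Z (q v)) ≤ Real.log (Z (q u)) + t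
      linarith
  have hamono : Monotone a := fun u v huv => (hstep u v huv).1
  have hosc : ∀ u v, a v ≤ a u + t := by
    intro u v
    rcases le_total u v with huv | huv
    · exact (hstep u v huv).2
    · have := (hstep v u huv).1
      linarith
  -- `Z` is measurable
  have mZ : Measurable Z := by
    have hl : LipschitzWith t.toNNReal fun x => Real.log (Z x) := by
      apply LipschitzWith.of_le_add_mul
      intro x y
      rw [Real.coe_toNNReal _ ht.le, Real.dist_eq]
      rcases le_total x y with hxy | hxy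
      · have h1 := glo x y hxy
        have h2 : 0 ≤ t * G x * (y - x) := mul_nonneg (mul_nonneg ht.le (hG0 _)) (sub_nonneg.2 hxy)
        have h3 : 0 ≤ t * |x - y| := mul_nonneg ht.le (abs_nonneg _)
        linarith
      · rw [abs_of_nonneg (by linarith)]
        have h1 := ghi y x hxy
        have h2 := mul_le_mul_of_nonneg_right (mul_le_mul_of_nonneg_left (hG1 x) ht.le) (sub_nonneg.2 hxy)
        linarith
    have e : Z = fun x => Real.exp (Real.log (Z x)) := funext fun x => (Real.exp_log (hZ x)).symm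
    rw [e]
    exact Real.measurable_exp.comp hl.continuous.measurable
  have hexpa : ∀ u, Real.exp (a u) = Z (q u) := fun u => Real.exp_log (hZ _)
  have ba : BM a := by
    refine ⟨hamono.measurable, |a 0| + t, fun x => ?_⟩
    have h1 := hosc 0 x
    have h2 := hosc x 0
    rw [abs_le]
    constructor
    · linarith [neg_abs_le (a 0)]
    · linarith [le_abs_self (a 0)]
  have bea : BM fun u => Real.exp (a u) := by
    refine ⟨Real.measurable_exp.comp hamono.measurable, Real.exp (a 0 + t), fun x => ?_⟩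
    rw [abs_of_pos (Real.exp_pos _)]
    exact Real.exp_le_exp.2 (hosc 0 x)
  set I := ∫ u, Z u ∂μ with hI
  have hI' : I = ∫ u, Real.exp (a u) ∂U01 := by
    rw [hI, hq.integral mZ]
    simp_rw [hexpa]
  have hI0 : ∀ u, Real.exp (a u - t) ≤ I := by
    intro u
    rw [hI']
    have h1 : ∫ _v, Real.exp (a u - t) ∂U01 ≤ ∫ v, Real.exp (a v) ∂U01 :=
      integral_mono (integrable_const _) bea.int fun v => Real.exp_le_exp.2 (by linarith [hosc v u])
    simpa using h1
  have hI1 : ∀ u, I ≤ Real.exp (a u + t) := by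
    intro u
    rw [hI']
    have h1 : ∫ v, Real.exp (a v) ∂U01 ≤ ∫ _v, Real.exp (a u + t) ∂U01 :=
      integral_mono bea.int (integrable_const _) fun v => Real.exp_le_exp.2 (hosc u v)
    simpa using h1
  have hIp : 0 < I := (Real.exp_pos _).trans_le (hI0 0)
  set hh : ℝ → ℝ := fun u => Real.exp (a u) / I with hhh
  have hhm : Monotone hh := fun u v huv => by
    show Real.exp (a u) / I ≤ Real.exp (a v) / I
    have := Real.exp_le_exp.2 (hamono huv)
    gcongr
  have hh0 : ∀ u, 0 ≤ hh u := fun u => (div_pos (Real.exp_pos _) hIp).le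
  have hhu : ∀ u, hh u ≤ Real.exp t := by
    intro u
    show Real.exp (a u) / I ≤ Real.exp t
    rw [div_le_iff₀ hIp]
    have h1 := mul_le_mul_of_nonneg_left (hI0 u) (Real.exp_pos t).le
    rw [← Real.exp_add] at h1
    have e : t + (a u - t) = a u := by ring
    rwa [e] at h1
  have hhl : ∀ u, Real.exp (-t) ≤ hh u := by
    intro u
    show Real.exp (-t) ≤ Real.exp (a u) / I
    rw [le_div_iff₀ hIp]
    have h1 := mul_le_mul_of_nonneg_left (hI1 u) (Real.exp_pos (-t)).le
    rw [← Real.exp_add] at h1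
    have e : -t + (a u + t) = a u := by ring
    rwa [e] at h1
  have hE := exp_sub_one_le ht.le ht1
  -- the density is near one
  have hdn : Dn hh (2 * t) := by
    refine ⟨hhm, fun u => ?_, ?_, by linarith⟩
    · rw [abs_le]
      constructor
      · have h1 := hhl u
        have h2 := Real.add_one_le_exp (-t)
        linarith
      · have h1 := hhu u
        linarith
    · rw [← int_U]
      show ∫ u, Real.exp (a u) / I ∂U01 = 1
      rw [integral_div, ← hI']
      exact div_self hIp.ne'
  have hint1 : ∫ u, hh u ∂U01 = 1 := by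
    rw [int_U]
    exact hdn.int1
  have bh := hdn.bm
  have hkey := key hqn hdn (by linarith) mg (fun u => hG0 _) (fun u => hG1 _) gmono
  -- change of variables
  have bΦ := hq.bg gΦ
  have bR := hq.bg gR
  have hcv := hdn.cv bΦ
  have hcva := hdn.cv ba
  have bgg : BM g := ⟨mg, 1, fun x => by rw [abs_of_nonneg (hG0 _)]; exact hG1 _⟩
  have bD := Dd_bm hqn hdn
  -- the coupling
  have hmain : ∫ u, hh u * R (q u) ∂U01 - ∫ u, g u * Dd q hh u ∂U01 ≤ ∫ x, Φ x ∂μ := by
    rw [hq.integral gΦ.1, ← hcv, ← integral_sub (bh.mul bR).int (bgg.mul bD).int]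
    refine integral_mono ((bh.mul bR).sub (bgg.mul bD)).int (bh.mul (hdn.bm_comp bΦ)).int fun u => ?_
    have h1 := mul_le_mul_of_nonneg_left (hle (q u) (q (Pr hh u))) (hh0 u)
    show hh u * R (q u) - G (q u) * (hh u * (q u - q (Pr hh u))) ≤ hh u * Φ (q (Pr hh u))
    refine le_trans (le_of_eq ?_) h1
    ring
  -- the increase of `log Z`
  have hinc : t * ∫ u, g (Pr hh u) * Dd q hh u ∂U01 ≤ ∫ u, a u * (hh u - 1) ∂U01 := by
    have e1 : ∫ u, a u * (hh u - 1) ∂U01 = ∫ u, (hh u * a u - hh u * a (Pr hh u)) ∂U01 := by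
      rw [integral_sub (bh.mul ba).int (bh.mul (hdn.bm_comp ba)).int, hcva, ← integral_sub (bh.mul ba).int ba.int]
      refine integral_congr_ae (Eventually.of_forall fun u => ?_)
      show a u * (hh u - 1) = hh u * a u - a u
      ring
    rw [e1, ← integral_const_mul]
    refine setIntegral_mono_on (((hdn.bm_comp bgg).mul bD).const_mul t).int
      ((bh.mul ba).sub (bh.mul (hdn.bm_comp ba))).int measurableSet_Icc fun u hu => ?_
    have h1 := glo _ _ (hqn.mono (hdn.pr_le hu.1 hu.2))
    have h2 := mul_le_mul_of_nonneg_left h1 (hh0 u)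
    show t * (G (q (Pr hh u)) * (hh u * (q u - q (Pr hh u)))) ≤
      hh u * Real.log (Z (q u)) - hh u * Real.log (Z (q (Pr hh u)))
    refine le_trans (le_of_eq ?_) (h2.trans (le_of_eq ?_)) <;> ring
  -- the entropy
  have hlogh : ∀ u, Real.log (hh u) = a u - Real.log I := fun u => by
    show Real.log (Real.exp (a u) / I) = _
    rw [Real.log_div (Real.exp_pos _).ne' hIp.ne', Real.log_exp]
  have ephi : (fun u => phi (hh u)) = fun u => hh u * (a u - Real.log I) - hh u + 1 := by
    funext u
    unfold phi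
    rw [hlogh]
  have bphi : BM fun u => phi (hh u) := by
    rw [ephi]
    exact ((bh.mul (ba.sub (BM.const _))).sub bh).add (BM.const 1)
  have h01 : ∫ u, (hh u - 1) ∂U01 = 0 := by
    rw [integral_sub bh.int (integrable_const _), hint1]
    simp
  have b01 : BM fun u => hh u - 1 := bh.sub (BM.const 1)
  have eR : ∫ x, Z x / I * R x ∂μ = ∫ u, hh u * R (q u) ∂U01 := by
    have m1 : Measurable fun x => Z x / I * R x := (mZ.div_const I).mul gR.1
    rw [hq.integral m1]
    refine integral_congr_ae (Eventually.of_forall fun u => ?_)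
    show Z (q u) / I * R (q u) = Real.exp (a u) / I * R (q u)
    rw [hexpa]
  have eE : ∫ x, Z x / I * (Real.log (Z x) - Real.log I) ∂μ = ∫ u, phi (hh u) ∂U01 := by
    have m1 : Measurable fun x => Z x / I * (Real.log (Z x) - Real.log I) :=
      (mZ.div_const I).mul ((Real.measurable_log.comp mZ).sub_const _)
    rw [hq.integral m1]
    have h1 : ∫ u, Z (q u) / I * (Real.log (Z (q u)) - Real.log I) ∂U01 = ∫ u, (phi (hh u) + (hh u - 1)) ∂U01 := by
      refine integral_congr_ae (Eventually.of_forall fun u => ?_)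
      show Z (q u) / I * (Real.log (Z (q u)) - Real.log I) = phi (hh u) + (hh u - 1)
      unfold phi
      rw [hlogh]
      show Z (q u) / I * (Real.log (Z (q u)) - Real.log I) =
        Real.exp (a u) / I * (Real.log (Z (q u)) - Real.log I) - hh u + 1 + (hh u - 1)
      rw [hexpa]
      ring
    rw [h1, integral_add bphi.int b01.int, h01, add_zero]
  have h6 : ∫ u, a u * (hh u - 1) ∂U01 ≤ 6 * ∫ u, phi (hh u) ∂U01 := by
    have blog : BM fun u => (hh u - 1) * Real.log (hh u) := by
      simp_rw [hlogh]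
      exact b01.mul (ba.sub (BM.const _))
    have h7 : ∫ u, a u * (hh u - 1) ∂U01 = ∫ u, (hh u - 1) * Real.log (hh u) ∂U01 := by
      have h8 : ∫ u, a u * (hh u - 1) ∂U01 =
          ∫ u, ((hh u - 1) * Real.log (hh u) + Real.log I * (hh u - 1)) ∂U01 := by
        refine integral_congr_ae (Eventually.of_forall fun u => ?_)
        show a u * (hh u - 1) = (hh u - 1) * Real.log (hh u) + Real.log I * (hh u - 1)
        rw [hlogh]
        ring
      rw [h8, integral_add blog.int (b01.const_mul _).int, integral_const_mul, h01, mul_zero, add_zero]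
    rw [h7, ← integral_const_mul]
    refine integral_mono blog.int (bphi.const_mul 6).int fun u => ?_
    refine Pool.Agent.W_1b8d5d_LE.log_phi ?_ ?_
    · exact (Real.exp_le_exp.2 (by linarith)).trans (hhl u)
    · exact (hhu u).trans (Real.exp_le_exp.2 (by linarith))
  rw [eR, eE]
  -- assemble
  have h10 := hinc.trans h6
  have h11 : ∫ u, g u * Dd q hh u ∂U01 ≤ 6 * (1 + C) / t * ∫ u, phi (hh u) ∂U01 := by
    refine hkey.trans ?_
    have h12 : ∫ u, g (Pr hh u) * Dd q hh u ∂U01 ≤ (6 * ∫ u, phi (hh u) ∂U01) / t := by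
      rw [le_div_iff₀ ht]
      linarith
    have h13 := mul_le_mul_of_nonneg_left h12 (by linarith : 0 ≤ 1 + C)
    refine h13.trans (le_of_eq ?_)
    ring
  linarith

end

end Pool.Agent.W_1b8d5d_nc
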