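import Pool.Agent.W_1b8d5d_p.Grow2

/-!
Track P, general laws (row 650 (7)): the facts about the levels of the weights which need only that the law of a weight has no atom
at its minimum `a` and charges every `[a, a + u]`. (helper61)
-/

namespace Pool.Agent.W_1b8d5d_nc

open MeasureTheory Set Filter Topology
open Pool.Agent.W_1b8d5d_p

noncomputable section

variable {F : Fm}

/-- No atom at `a`, in terms of the weights. -/
theorem atN (h0 : (F.nu.map F.g) {F.a} = 0) : F.nu {x | F.g x ≤ F.a} = 0 := by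
  rw [Measure.map_apply F.mg (measurableSet_singleton _)] at h0
  have e : {x | F.g x ≤ F.a} = F.g ⁻¹' {F.a} := by
    ext x
    simp only [Set.mem_ofPred_eq, mem_preimage, mem_singleton_iff]
    exact ⟨fun h => le_antisymm h (F.g1 x), fun h => h.le⟩
  rw [e]
  exact h0

/-- The weights near the minimum are rare. -/
theorem smallN (h0 : (F.nu.map F.g) {F.a} = 0) {ε : ℝ} (hε : 0 < ε) :
    ∃ t : ℝ, 0 < t ∧ F.nu.real {x | F.g x ≤ F.a + t} ≤ ε := by
  obtain ⟨s, hs⟩ : ∃ s : ℕ → Set ℝ, s = fun n : ℕ => {x | F.g x ≤ F.a + 1 / ((n : ℝ) + 1)} := ⟨_, rfl⟩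
  have hm : ∀ n, NullMeasurableSet (s n) F.nu := fun n => by
    rw [hs]
    exact (measurableSet_le F.mg measurable_const).nullMeasurableSet
  have hanti : Antitone s := by
    intro m n hmn x hx
    rw [hs] at hx ⊢
    have h1 : 1 / ((n : ℝ) + 1) ≤ 1 / ((m : ℝ) + 1) :=
      one_div_le_one_div_of_le (by positivity) (by exact_mod_cast Nat.succ_le_succ hmn)
    have h2 : F.g x ≤ F.a + 1 / ((n : ℝ) + 1) := hx
    show F.g x ≤ F.a + 1 / ((m : ℝ) + 1)
    linarith
  have hlim := tendsto_measure_iInter_atTop (μ := F.nu) hm hanti ⟨0, measure_ne_top _ _⟩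
  have hI : F.nu (⋂ n, s n) = 0 := by
    refine measure_mono_null (fun x hx => ?_) (atN h0)
    have h1 : ∀ n : ℕ, F.g x ≤ F.a + 1 / ((n : ℝ) + 1) := fun n => by
      have := mem_iInter.1 hx n
      rw [hs] at this
      exact this
    show F.g x ≤ F.a
    have h2 : Tendsto (fun n : ℕ => F.a + 1 / ((n : ℝ) + 1)) atTop (𝓝 (F.a + 0)) :=
      tendsto_const_nhds.add tendsto_one_div_add_atTop_nhds_zero_nat
    rw [add_zero] at h2
    exact ge_of_tendsto h2 (Eventually.of_forall h1)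
  rw [hI] at hlim
  have h1 := (hlim.eventually (gt_mem_nhds (ENNReal.ofReal_pos.2 hε))).exists
  obtain ⟨n, hn⟩ := h1
  refine ⟨1 / ((n : ℝ) + 1), by positivity, ?_⟩
  rw [measureReal_def]
  refine ENNReal.toReal_le_of_le_ofReal hε.le ?_
  have h2 : F.nu (s n) < ENNReal.ofReal ε := hn
  rw [hs] at h2
  exact h2.le

/-- The weights near the minimum exist. -/
theorem lowN (hpos : ∀ u : ℝ, 0 < u → 0 < (F.nu.map F.g).real (Iic (F.a + u))) (u : ℝ) (hu : 0 < u) :
    0 < F.nu.real {x | F.g x ≤ F.a + u} := by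
  have h1 := hpos u hu
  rwa [map_measureReal_apply F.mg measurableSet_Iic] at h1

/-- The two levels of the weights. -/
theorem levelsN (h0 : (F.nu.map F.g) {F.a} = 0) (hpos : ∀ u : ℝ, 0 < u → 0 < (F.nu.map F.g).real (Iic (F.a + u)))
    {ε : ℝ} (hε : 0 < ε) (hε1 : ε < 1) : ∃ t1 t2 : ℝ, t1 < t2 ∧ 0 < F.nu.real {u | F.g u ≤ t1} ∧
    0 < F.nu.real {u | t2 ≤ F.g u} ∧ F.nu.real {u | F.g u < t2} ≤ ε := by
  obtain ⟨t, ht, h1⟩ := smallN h0 hε
  have h2 : F.nu.real {u | F.g u < F.a + t} ≤ ε := by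
    have h4 : {u | F.g u < F.a + t} ⊆ {x | F.g x ≤ F.a + t} := fun x hx => le_of_lt (show F.g x < F.a + t from hx)
    exact (measureReal_mono h4 (measure_ne_top _ _)).trans h1
  refine ⟨F.a + t / 2, F.a + t, by linarith, lowN hpos _ (by linarith), ?_, h2⟩
  have h3 : {u | F.a + t ≤ F.g u} = {u | F.g u < F.a + t}ᶜ := by
    ext x
    simp only [Set.mem_ofPred_eq, mem_compl_iff, not_lt]
  rw [h3, probReal_compl_eq_one_sub (measurableSet_lt F.mg measurable_const)]
  linarith

/-- `a < b`. -/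
theorem abN (h0 : (F.nu.map F.g) {F.a} = 0) : F.a < F.b := by
  rcases F.ab.eq_or_lt with h | h
  · exfalso
    have h1 := atN h0
    have h2 : {x | F.g x ≤ F.a} = univ := by
      ext x
      simp only [Set.mem_ofPred_eq, mem_univ, iff_true]
      rw [h]
      exact F.g2 x
    rw [h2, measure_univ] at h1
    exact one_ne_zero h1
  · exact h

/-- **Growth** of the unit. -/
theorem growN {κ K : ℝ} {A : Set Dr} (hD : Dirs F κ K A) (h0 : (F.nu.map F.g) {F.a} = 0)
    (hpos : ∀ u : ℝ, 0 < u → 0 < (F.nu.map F.g).real (Iic (F.a + u))) : Grow F A := by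
  obtain ⟨t, ht, h1⟩ := smallN h0 (ε := 1 / 32) (by norm_num)
  exact grow hD ht h1 (lowN hpos)

end

end Pool.Agent.W_1b8d5d_nc
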