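import Pool.Agent.W_1b8d5d_nc.NcKey
import Pool.Agent.W_1b8d5d_p.ZRec

/-!
ZERO TEMPERATURE, general laws: one coordinate and the sections. `f` has the subgradient `γ` in the variable `Q x`, and `γ` is a
function of `Q x`. The gain of the tilt `1 + θ (f - m)` is at least `θ Var f / (1 + C)`. (helper4)
-/

namespace Pool.Agent.W_1b8d5d_nc

open MeasureTheory Set Filter Topology
open Pool.Agent.W_7d29a1_h42
open Pool.Agent.W_1b8d5d_z (U01 BM sc fm Vr int_fm)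

noncomputable section

variable {Q : ℝ → ℝ} {θ₀ C : ℝ}

/-- A function of one coordinate with the subgradient `γ`. -/
structure SG1 (Q : ℝ → ℝ) (γ f : ℝ → ℝ) : Prop where
  mγ : Measurable γ
  γ0 : ∀ x, 0 ≤ γ x
  γ1 : ∀ x, γ x ≤ 1
  fac : ∀ x y, Q x = Q y → γ x = γ y
  sub : ∀ x y, f x + γ x * (Q y - Q x) ≤ f y

/-- A subgradient `g` of `F` in the variables `Q (x i)`, with values in `[0, 1]`, function of the variables `Q (x i)`. -/
structure SG (Q : ℝ → ℝ) (N : ℕ) (g : Fin N → (Fin N → ℝ) → ℝ) (F : (Fin N → ℝ) → ℝ) : Prop where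
  mF : Measurable F
  mg : ∀ i, Measurable (g i)
  g0 : ∀ i x, 0 ≤ g i x
  g1 : ∀ i x, g i x ≤ 1
  fac : ∀ i x y, (∀ j, Q (x j) = Q (y j)) → g i x = g i y
  sub : ∀ x y, F x + ∑ i, g i x * (Q (y i) - Q (x i)) ≤ F y

/-- Subgradients on the cube give subgradients in the variables `Q`. -/
theorem SG.of_cube {N : ℕ} {g : Fin N → (Fin N → ℝ) → ℝ} {F : (Fin N → ℝ) → ℝ} (hQm : Measurable Q)
    (hQ1 : ∀ x, Q x ∈ Icc (0 : ℝ) 1) (mF : Measurable F) (mg : ∀ i, Measurable (g i))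
    (g0 : ∀ i x, (∀ j, x j ∈ Icc (0 : ℝ) 1) → 0 ≤ g i x) (g1 : ∀ i x, (∀ j, x j ∈ Icc (0 : ℝ) 1) → g i x ≤ 1)
    (sub : ∀ x y, (∀ j, x j ∈ Icc (0 : ℝ) 1) → (∀ j, y j ∈ Icc (0 : ℝ) 1) → F x + ∑ i, g i x * (y i - x i) ≤ F y) :
    SG Q N (fun i x => g i fun j => Q (x j)) fun x => F fun j => Q (x j) := by
  have hm : Measurable fun (x : Fin N → ℝ) (j : Fin N) => Q (x j) :=
    measurable_pi_lambda _ fun j => hQm.comp (measurable_pi_apply j)
  refine ⟨mF.comp hm, fun i => (mg i).comp hm, fun i x => g0 i _ fun j => hQ1 _,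
    fun i x => g1 i _ fun j => hQ1 _, fun i x y hxy => ?_, fun x y => sub _ _ (fun j => hQ1 _) fun j => hQ1 _⟩
  have e : (fun j => Q (x j)) = fun j => Q (y j) := funext hxy
  show g i (fun j => Q (x j)) = g i fun j => Q (y j)
  rw [e]

section one

variable {γ f : ℝ → ℝ}

theorem SG1.gmono (hQ : Qn Q θ₀ C) (h : SG1 Q γ f) : Monotone γ := by
  intro x y hxy
  rcases (hQ.mono hxy).eq_or_lt with h1 | h1
  · exact (h.fac x y h1).le
  · have h2 := h.sub x y
    have h3 := h.sub y x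
    have h4 : γ x * (Q y - Q x) ≤ γ y * (Q y - Q x) := by
      have e : γ y * (Q x - Q y) = -(γ y * (Q y - Q x)) := by ring
      rw [e] at h3
      linarith
    exact le_of_mul_le_mul_right h4 (by linarith)

theorem SG1.mono (hQ : Qn Q θ₀ C) (h : SG1 Q γ f) : Monotone f := by
  intro x y hxy
  have h1 := h.sub x y
  have h2 := mul_nonneg (h.γ0 x) (by linarith [hQ.mono hxy] : 0 ≤ Q y - Q x)
  linarith

theorem SG1.up (hQ : Qn Q θ₀ C) (h : SG1 Q γ f) {x y : ℝ} (hxy : x ≤ y) : f y - f x ≤ Q y - Q x := by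
  have h1 := h.sub y x
  have h2 : γ y * (Q y - Q x) ≤ 1 * (Q y - Q x) := mul_le_mul_of_nonneg_right (h.γ1 y) (by linarith [hQ.mono hxy])
  have h3 : γ y * (Q x - Q y) = -(γ y * (Q y - Q x)) := by ring
  linarith

theorem SG1.osc (hQ : Qn Q θ₀ C) (h : SG1 Q γ f) (x y : ℝ) : |f y - f x| ≤ 1 := by
  rcases le_total x y with h1 | h1
  · rw [abs_of_nonneg (by linarith [h.mono hQ h1])]
    exact (h.up hQ h1).trans (hQ.one x y)
  · rw [abs_sub_comm, abs_of_nonneg (by linarith [h.mono hQ h1])]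
    exact (h.up hQ h1).trans (hQ.one y x)

theorem SG1.bm (hQ : Qn Q θ₀ C) (h : SG1 Q γ f) : BM f := by
  refine ⟨(h.mono hQ).measurable, |f 0| + 1, fun y => ?_⟩
  have h1 := h.osc hQ 0 y
  have h2 : |f y| ≤ |f 0| + |f y - f 0| := by
    have := abs_add_le (f 0) (f y - f 0)
    rwa [add_sub_cancel] at this
  linarith

theorem SG1.osc_mean (hQ : Qn Q θ₀ C) (h : SG1 Q γ f) (x : ℝ) : |f x - ∫ y, f y ∂U01| ≤ 1 := by
  have e1 : f x - ∫ y, f y ∂U01 = ∫ y, (f x - f y) ∂U01 := by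
    rw [integral_sub (integrable_const _) (h.bm hQ).int]
    simp
  rw [e1]
  have h1 := norm_integral_le_of_norm_le_const (μ := U01) (f := fun y => f x - f y) (C := 1)
    (Filter.Eventually.of_forall fun y => by rw [Real.norm_eq_abs]; exact h.osc hQ y x)
  simpa using h1

theorem SG1.bγ (h : SG1 Q γ f) : BM γ :=
  ⟨h.mγ, 1, fun x => by rw [abs_of_nonneg (h.γ0 x)]; exact h.γ1 x⟩

/-- The source `τ s` of the target `s` (`s` has the density `1 + θ (f - m)`, `τ s` is uniform). -/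
def tau (θ : ℝ) (f : ℝ → ℝ) : ℝ → ℝ := Pr fun s => 1 + θ * (f s - ∫ x, f x ∂U01)

theorem SG1.dn (hQ : Qn Q θ₀ C) (h : SG1 Q γ f) {θ : ℝ} (hθ0 : 0 ≤ θ) (hθ1 : θ ≤ 1 / 2) :
    Dn (fun s => 1 + θ * (f s - ∫ x, f x ∂U01)) θ := by
  refine ⟨fun x y hxy => ?_, fun x => ?_, ?_, hθ1⟩
  · have h1 := mul_le_mul_of_nonneg_left (h.mono hQ hxy) hθ0
    show 1 + θ * (f x - ∫ x, f x ∂U01) ≤ 1 + θ * (f y - ∫ x, f x ∂U01)
    linarith
  · have e : 1 + θ * (f x - ∫ x, f x ∂U01) - 1 = θ * (f x - ∫ x, f x ∂U01) := by ring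
    rw [e, abs_mul, abs_of_nonneg hθ0]
    have := mul_le_mul_of_nonneg_left (h.osc_mean hQ x) hθ0
    linarith
  · rw [← int_U, integral_add (integrable_const _) (((h.bm hQ).sub (BM.const _)).const_mul θ).int, integral_const_mul,
      integral_sub (h.bm hQ).int (integrable_const _)]
    simp

theorem tau_meas (hQ : Qn Q θ₀ C) (h : SG1 Q γ f) {θ : ℝ} (hθ0 : 0 ≤ θ) (hθ1 : θ ≤ 1 / 2) : Measurable (tau θ f) :=
  (h.dn hQ hθ0 hθ1).pr_cont.measurable

/-- CHANGE OF VARIABLES. -/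
theorem tau_map (hQ : Qn Q θ₀ C) (h : SG1 Q γ f) {θ : ℝ} (hθ0 : 0 ≤ θ) (hθ1 : θ ≤ 1 / 2) {G : ℝ → ℝ}
    (hG : BM G) : ∫ y, (1 + θ * (f y - ∫ x, f x ∂U01)) * G (tau θ f y) ∂U01 = ∫ x, G x ∂U01 :=
  (h.dn hQ hθ0 hθ1).cv hG

/-- THE GAIN. -/
theorem gain (hQ : Qn Q θ₀ C) (h : SG1 Q γ f) {θ : ℝ} (hθ0 : 0 ≤ θ) (hθ1 : θ ≤ 1 / 2) (hθ2 : 2 * θ ≤ θ₀) :
    1 / (1 + C) * θ * Vr f ≤
      ∫ y, (1 + θ * (f y - ∫ x, f x ∂U01)) * (γ (tau θ f y) * (Q y - Q (tau θ f y))) ∂U01 := by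
  have hC := hQ.C0
  have hd := h.dn hQ hθ0 hθ1
  obtain ⟨m, hm⟩ : ∃ m, m = ∫ x, f x ∂U01 := ⟨_, rfl⟩
  have hf := h.bm hQ
  have hk := key hQ hd hθ2 h.mγ h.γ0 h.γ1 (h.gmono hQ)
  have hcv := hd.cv hf
  rw [← hm] at hd hk hcv ⊢
  obtain ⟨w, hw⟩ : ∃ w : ℝ → ℝ, w = fun s => 1 + θ * (f s - m) := ⟨_, rfl⟩
  have htau : tau θ f = Pr w := by
    unfold tau
    rw [hw, hm]
  rw [← hw] at hd hk hcv
  -- `θ Var f` is the gain at the slope of the target
  have bw := hd.bm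
  have b1 : BM fun y => w y * f y := bw.mul hf
  have b2 : BM fun y => w y * f (Pr w y) := bw.mul (hd.bm_comp hf)
  have b3 : BM fun y => γ y * Dd Q w y := h.bγ.mul (Dd_bm hQ hd)
  have h1 : θ * Vr f ≤ ∫ y, γ y * Dd Q w y ∂U01 := by
    have e1 : θ * Vr f = ∫ y, (w y * f y - w y * f (Pr w y)) ∂U01 := by
      rw [integral_sub b1.int b2.int]
      have e2 : ∫ y, w y * f (Pr w y) ∂U01 = m := by
        rw [hw] at hcv ⊢
        exact hcv
      have b4 : BM fun y => f y - m := hf.sub (BM.const m)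
      have e3 : ∫ y, w y * f y ∂U01 = m + θ * Vr f := by
        have h2 : ∀ y, w y * f y = f y + (θ * (f y - m) ^ 2 + θ * m * (f y - m)) := fun y => by
          rw [hw]
          ring
        simp_rw [h2]
        have h3 : ∫ x, (f x - m) ∂U01 = 0 := by
          rw [integral_sub hf.int (integrable_const _), ← hm]
          simp
        rw [integral_add hf.int (((b4.pow 2).const_mul θ).add (b4.const_mul _)).int,
          integral_add ((b4.pow 2).const_mul θ).int (b4.const_mul _).int, integral_const_mul, integral_const_mul, h3, ← hm]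
        unfold Vr
        rw [← hm]
        ring
      rw [e2, e3]
      ring
    rw [e1]
    refine setIntegral_mono_on (b1.sub b2).int b3.int measurableSet_Icc fun y hy => ?_
    have h2 := h.sub y (Pr w y)
    have h3 : f y - f (Pr w y) ≤ γ y * (Q y - Q (Pr w y)) := by
      have e : γ y * (Q (Pr w y) - Q y) = -(γ y * (Q y - Q (Pr w y))) := by ring
      rw [e] at h2
      linarith
    have h4 := mul_le_mul_of_nonneg_left h3 (by linarith [hd.lo y] : 0 ≤ w y)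
    show w y * f y - w y * f (Pr w y) ≤ γ y * (w y * (Q y - Q (Pr w y)))
    linarith
  have h2 := h1.trans hk
  have e4 : ∫ y, (1 + θ * (f y - m)) * (γ (tau θ f y) * (Q y - Q (tau θ f y))) ∂U01 =
      ∫ y, γ (Pr w y) * Dd Q w y ∂U01 := by
    refine integral_congr_ae (Eventually.of_forall fun y => ?_)
    show (1 + θ * (f y - m)) * (γ (tau θ f y) * (Q y - Q (tau θ f y))) = γ (Pr w y) * (w y * (Q y - Q (Pr w y)))
    rw [htau, hw]
    ring
  rw [e4]
  have h3 : 1 / (1 + C) * θ * Vr f = (θ * Vr f) / (1 + C) := by ring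
  rw [h3, div_le_iff₀ (by linarith)]
  linarith

end one

section sgs

variable {N : ℕ}

theorem SG.bm (hQ : Qn Q θ₀ C) {g : Fin N → (Fin N → ℝ) → ℝ} {F : (Fin N → ℝ) → ℝ} (h : SG Q N g F) : BM F := by
  refine ⟨h.mF, |F 0| + N, fun x => ?_⟩
  have e : ∀ (z : Fin N → ℝ) (x y : Fin N → ℝ), |∑ i, g i z * (Q (y i) - Q (x i))| ≤ N := by
    intro z x y
    calc |∑ i, g i z * (Q (y i) - Q (x i))| ≤ ∑ i, |g i z * (Q (y i) - Q (x i))| := Finset.abs_sum_le_sum_abs _ _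
      _ ≤ ∑ _i : Fin N, (1 : ℝ) := Finset.sum_le_sum fun i _ => by
          rw [abs_mul, abs_of_nonneg (h.g0 i z)]
          exact mul_le_one₀ (h.g1 i z) (abs_nonneg _) (hQ.osc _ _)
      _ = N := by simp
  have h1 := h.sub 0 x
  have h2 := h.sub x 0
  have h3 := abs_le.1 (e 0 0 x)
  have h4 := abs_le.1 (e x x 0)
  rw [abs_le]
  constructor
  · linarith [neg_abs_le (F 0), h3.1]
  · linarith [le_abs_self (F 0), h4.1]

theorem SG.bg {g : Fin N → (Fin N → ℝ) → ℝ} {F : (Fin N → ℝ) → ℝ} (h : SG Q N g F) (i : Fin N) : BM (g i) :=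
  ⟨h.mg i, 1, fun x => by rw [abs_of_nonneg (h.g0 i x)]; exact h.g1 i x⟩

theorem SG.sec {g : Fin (N + 1) → (Fin (N + 1) → ℝ) → ℝ} {F : (Fin (N + 1) → ℝ) → ℝ} (h : SG Q (N + 1) g F) (r : ℝ) :
    SG Q N (fun i z => g i.succ (cn r z)) (sc F r) := by
  refine ⟨h.mF.comp (measurable_cn_right r), fun i => (h.mg i.succ).comp (measurable_cn_right r), fun i z => h.g0 _ _,
    fun i z => h.g1 _ _, fun i x y hxy => h.fac _ _ _ fun j => ?_, fun x y => ?_⟩
  · refine Fin.cases ?_ (fun j => ?_) j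
    · simp only [cn_zero]
    · simp only [cn_succ]
      exact hxy j
  · have h1 := h.sub (cn r x) (cn r y)
    rw [Fin.sum_univ_succ] at h1
    simp only [cn_zero, cn_succ, sub_self, mul_zero, zero_add] at h1
    exact h1

theorem SG.one (hQ : Qn Q θ₀ C) {g : Fin (N + 1) → (Fin (N + 1) → ℝ) → ℝ} {F : (Fin (N + 1) → ℝ) → ℝ}
    (h : SG Q (N + 1) g F) : SG1 Q (fm (g 0)) (fm F) := by
  have hb := h.bm hQ
  refine ⟨measurable_int_cn (h.mg 0), fun x => integral_nonneg fun z => h.g0 _ _, fun x => ?_, fun x y hxy => ?_,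
    fun x y => ?_⟩
  · calc fm (g 0) x ≤ ∫ _z : Fin N → ℝ, (1 : ℝ) ∂(PN U01 N) :=
          integral_mono ((h.bg 0).sc x).int (integrable_const _) fun z => h.g1 _ _
      _ = 1 := by simp
  · show ∫ z, g 0 (cn x z) ∂(PN U01 N) = ∫ z, g 0 (cn y z) ∂(PN U01 N)
    refine integral_congr_ae (Eventually.of_forall fun z => h.fac _ _ _ fun j => ?_)
    refine Fin.cases ?_ (fun j => ?_) j
    · simp only [cn_zero]
      exact hxy
    · simp only [cn_succ]
  · have h1 : ∫ z, (F (cn x z) + g 0 (cn x z) * (Q y - Q x)) ∂(PN U01 N) ≤ ∫ z, F (cn y z) ∂(PN U01 N) := by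
      refine integral_mono ((hb.sc x).int.add (((h.bg 0).sc x).int.mul_const _)) (hb.sc y).int fun z => ?_
      have h2 := h.sub (cn x z) (cn y z)
      rw [Fin.sum_univ_succ] at h2
      simp only [cn_zero, cn_succ, sub_self, mul_zero, Finset.sum_const_zero, add_zero] at h2
      exact h2
    have j1 : Integrable (fun z => F (cn x z)) (PN U01 N) := (hb.sc x).int
    have j2 : Integrable (fun z => g 0 (cn x z) * (Q y - Q x)) (PN U01 N) := ((h.bg 0).sc x).int.mul_const _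
    rw [integral_add j1 j2, integral_mul_const] at h1
    exact h1

end sgs

end

end Pool.Agent.W_1b8d5d_nc
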