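import Pool.Agent.W_1b8d5d_nc.NcOne

/-!
ZERO TEMPERATURE, general laws (row 650 (1)): the tail of `F` in terms of the stopped variance `VS` (port of `ZRec`). (helper61)
-/

namespace Pool.Agent.W_1b8d5d_nc

open MeasureTheory Set
open Pool.Agent.W_7d29a1_h42
open Pool.Agent.W_1b8d5d_z (U01 BM sc fm Vr int_fm VS Vr_nonneg VS_sec_bm VS_le VS_nonneg int_sq)

noncomputable section

theorem Vr_le_one {Q : ℝ → ℝ} {θ₀ C : ℝ} (hQ : Qn Q θ₀ C) {γ f : ℝ → ℝ} (h : SG1 Q γ f) : Vr f ≤ 1 := by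
  have hm : Measurable f := (h.mono hQ).measurable
  have hosc : ∀ x, |f x - ∫ y, f y ∂U01| ≤ 1 := by
    intro x
    have hfb : BM f := ⟨hm, |f 0| + 1, fun y => by
      have h1 := h.osc hQ 0 y
      have h2 : |f y| ≤ |f 0| + |f y - f 0| := by
        have := abs_add_le (f 0) (f y - f 0)
        rwa [add_sub_cancel] at this
      linarith⟩
    have e1 : f x - ∫ y, f y ∂U01 = ∫ y, (f x - f y) ∂U01 := by
      rw [integral_sub (integrable_const _) hfb.int]
      simp
    rw [e1]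
    have h1 := norm_integral_le_of_norm_le_const (μ := U01) (f := fun y => f x - f y) (C := 1)
      (Filter.Eventually.of_forall fun y => by rw [Real.norm_eq_abs]; exact h.osc hQ y x)
    simpa using h1
  unfold Vr
  calc ∫ x, (f x - ∫ y, f y ∂U01) ^ 2 ∂U01 ≤ ∫ _x, (1 : ℝ) ∂U01 := by
        refine integral_mono_of_nonneg (Filter.Eventually.of_forall fun x => sq_nonneg _) (integrable_const _)
          (Filter.Eventually.of_forall fun x => ?_)
        have h1 := hosc x
        have h2 : |f x - ∫ y, f y ∂U01| ^ 2 ≤ 1 ^ 2 := pow_le_pow_left₀ (abs_nonneg _) h1 2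
        rw [sq_abs, one_pow] at h2
        exact h2
    _ = 1 := by simp

/-- THE TAIL (row 623 (5)). -/
theorem tailS {Q : ℝ → ℝ} {θ₀ C : ℝ} (hQ : Qn Q θ₀ C) {Λ κ : ℝ} (hΛ : 1 < Λ) (hκ : 0 < κ) (N : ℕ) :
    ∀ (F : (Fin N → ℝ) → ℝ) (g : Fin N → (Fin N → ℝ) → ℝ) (c L : ℝ), SG Q N g F → 0 ≤ L → L ≤ Λ →
      ∫ x, {x : Fin N → ℝ | κ ≤ |F x - c|}.indicator (fun _ => (1 : ℝ)) x ∂(PN U01 N) ≤
        (((∫ x, F x ∂(PN U01 N)) - c) ^ 2 + VS N F L) / κ ^ 2 + (VS N F L + (Λ - L)) / (Λ - 1) := by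
  have hκ2 : 0 < κ ^ 2 := by positivity
  have hΛ1 : 0 < Λ - 1 := by linarith
  have hset : ∀ {N : ℕ} {F : (Fin N → ℝ) → ℝ} (c : ℝ), Measurable F → MeasurableSet {x : Fin N → ℝ | κ ≤ |F x - c|} :=
    fun c hF => measurableSet_le measurable_const (hF.sub_const c).abs
  have hbm : ∀ {N : ℕ} {F : (Fin N → ℝ) → ℝ} (c : ℝ), Measurable F →
      BM fun x : Fin N → ℝ => {x : Fin N → ℝ | κ ≤ |F x - c|}.indicator (fun _ => (1 : ℝ)) x := by
    intro N F c hF
    refine ⟨measurable_const.indicator (hset c hF), 1, fun x => ?_⟩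
    dsimp only
    rw [Set.indicator_apply]
    split_ifs <;> simp
  induction N with
  | zero =>
    intro F g c L hF hL hLΛ
    have h0 : ∀ x : Fin 0 → ℝ, F x = F 0 := fun x => by rw [Subsingleton.elim x 0]
    have h1 : ∫ x, F x ∂(PN U01 0) = F 0 := by
      simp_rw [h0]
      simp
    rw [h1]
    simp only [VS]
    have h2 : ∫ x, {x : Fin 0 → ℝ | κ ≤ |F x - c|}.indicator (fun _ => (1 : ℝ)) x ∂(PN U01 0) ≤
        ∫ _x : Fin 0 → ℝ, (F 0 - c) ^ 2 / κ ^ 2 ∂(PN U01 0) := by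
      refine integral_mono (hbm c hF.mF).int (integrable_const _) fun x => ?_
      dsimp only
      rw [Set.indicator_apply]
      split_ifs with h3
      · have h4 : κ ≤ |F 0 - c| := by
          have : κ ≤ |F x - c| := h3
          rwa [h0 x] at this
        rw [le_div_iff₀ hκ2, one_mul, ← sq_abs (F 0 - c)]
        exact pow_le_pow_left₀ hκ.le h4 2
      · positivity
    have h3 : ∫ _x : Fin 0 → ℝ, (F 0 - c) ^ 2 / κ ^ 2 ∂(PN U01 0) = (F 0 - c) ^ 2 / κ ^ 2 := by simp
    rw [h3] at h2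
    have h4 : 0 ≤ (0 + (Λ - L)) / (Λ - 1) := div_nonneg (by linarith) hΛ1.le
    rw [add_zero]
    linarith
  | succ N ih =>
    intro F g c L hF hL hLΛ
    have hb := hF.bm hQ
    have hS := hF.one hQ
    simp only [VS]
    split_ifs with h1
    · obtain ⟨V, hV⟩ : ∃ V, V = Vr (fm F) := ⟨_, rfl⟩
      have hV0 : 0 ≤ V := by rw [hV]; exact Vr_nonneg _
      rw [← hV] at h1 ⊢
      obtain ⟨S, hSd⟩ : ∃ S : ℝ → ℝ, S = fun r => VS N (sc F r) (L - V) := ⟨_, rfl⟩
      have hSb : BM S := by rw [hSd]; exact VS_sec_bm hF.mF (by linarith)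
      have hstep : ∀ r, ∫ z, {x : Fin (N + 1) → ℝ | κ ≤ |F x - c|}.indicator (fun _ => (1 : ℝ)) (cn r z) ∂(PN U01 N) ≤
          ((fm F r - c) ^ 2 + S r) / κ ^ 2 + (S r + (Λ - (L - V))) / (Λ - 1) := by
        intro r
        have h2 := ih (sc F r) _ c (L - V) (hF.sec r) (by linarith) (by linarith)
        have e1 : ∀ z : Fin N → ℝ, {x : Fin (N + 1) → ℝ | κ ≤ |F x - c|}.indicator (fun _ => (1 : ℝ)) (cn r z) =
            {x : Fin N → ℝ | κ ≤ |sc F r x - c|}.indicator (fun _ => (1 : ℝ)) z := fun z => rfl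
        simp_rw [e1]
        rw [hSd]
        exact h2
      rw [int_cn (hbm c hF.mF).int]
      have hR : BM fun r => ((fm F r - c) ^ 2 + S r) / κ ^ 2 + (S r + (Λ - (L - V))) / (Λ - 1) := by
        have i1 : BM fun r => (κ ^ 2)⁻¹ * ((fm F r - c) ^ 2 + S r) :=
          (((hb.fm.sub (BM.const c)).pow 2).add hSb).const_mul _
        have i2 : BM fun r => (Λ - 1)⁻¹ * (S r + (Λ - (L - V))) := (hSb.add (BM.const _)).const_mul _
        have i3 := i1.add i2
        simpa [div_eq_inv_mul] using i3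
      have hL1 : BM fun r => ∫ z, {x : Fin (N + 1) → ℝ | κ ≤ |F x - c|}.indicator (fun _ => (1 : ℝ)) (cn r z)
          ∂(PN U01 N) := (hbm (F := F) c hF.mF).fm
      refine (integral_mono hL1.int hR.int hstep).trans (le_of_eq ?_)
      have i1 : BM fun r => (fm F r - c) ^ 2 := (hb.fm.sub (BM.const c)).pow 2
      rw [integral_add, integral_div, integral_div, integral_add i1.int hSb.int,
        integral_add hSb.int (integrable_const _), int_sq hb.fm c, ← int_fm hb, ← hV]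
      · rw [integral_const, probReal_univ, one_smul]
        have e1 : ∫ r, VS N (sc F r) (L - V) ∂U01 = ∫ r, S r ∂U01 := by rw [hSd]
        rw [e1]
        ring
      · exact (i1.add hSb).int.div_const _
      · exact (hSb.add (BM.const _)).int.div_const _
    · push Not at h1
      have h2 := Vr_le_one hQ hS
      have h3 : ∫ x, {x : Fin (N + 1) → ℝ | κ ≤ |F x - c|}.indicator (fun _ => (1 : ℝ)) x ∂(PN U01 (N + 1)) ≤ 1 := by
        calc ∫ x, {x : Fin (N + 1) → ℝ | κ ≤ |F x - c|}.indicator (fun _ => (1 : ℝ)) x ∂(PN U01 (N + 1)) ≤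
            ∫ _x : Fin (N + 1) → ℝ, (1 : ℝ) ∂(PN U01 (N + 1)) := by
              refine integral_mono (hbm c hF.mF).int (integrable_const _) fun x => ?_
              dsimp only
              rw [Set.indicator_apply]
              split_ifs <;> norm_num
          _ = 1 := by simp
      have h4 : 1 ≤ (0 + (Λ - L)) / (Λ - 1) := by
        rw [le_div_iff₀ hΛ1]
        linarith
      have h5 : 0 ≤ (((∫ x, F x ∂(PN U01 (N + 1))) - c) ^ 2 + 0) / κ ^ 2 := by positivity
      linarith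

end

end Pool.Agent.W_1b8d5d_nc
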