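import Pool.Agent.W_1b8d5d_nc.NcES

/-!
ZERO TEMPERATURE, general laws (row 650 (2)): `θ E F + c θ ^ 2 Var F ≤ log E exp (θ F)` for `0 ≤ θ ≤ t₀`, for functions of
independent weights with a law with `(NC)` and with a subgradient in `[0, 1]` (port of `VL0`). (helper91)
-/

namespace Pool.Agent.W_1b8d5d_nc

open MeasureTheory Set
open Pool.Agent.W_7d29a1_h42
open Pool.Agent.W_1b8d5d_z (U01 BM sc fm Vr int_fm VarN varN_succ varN_sec_bm SW map_PN Vr_nonneg)

noncomputable section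

variable {Q : ℝ → ℝ} {θ₀ C : ℝ}

/-- The logarithm of the exponential moment is bounded as the function is. -/
private theorem vl_log {α : Type} [MeasurableSpace α] {P : Measure α} [IsProbabilityMeasure P] {F : α → ℝ}
    (hm : Measurable F) {C : ℝ} (hC : ∀ x, |F x| ≤ C) :
    0 < ∫ x, Real.exp (F x) ∂P ∧ |Real.log (∫ x, Real.exp (F x) ∂P)| ≤ C := by
  have hb : BM fun x => Real.exp (F x) := BM.exp ⟨hm, C, hC⟩
  have h1 : Real.exp (-C) ≤ ∫ x, Real.exp (F x) ∂P := by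
    calc Real.exp (-C) = ∫ _x, Real.exp (-C) ∂P := by simp
      _ ≤ ∫ x, Real.exp (F x) ∂P := integral_mono (integrable_const _) hb.int fun x =>
          Real.exp_le_exp.2 (by linarith [neg_abs_le (F x), hC x])
  have h2 : ∫ x, Real.exp (F x) ∂P ≤ Real.exp C := by
    calc ∫ x, Real.exp (F x) ∂P ≤ ∫ _x, Real.exp C ∂P := integral_mono hb.int (integrable_const _) fun x =>
          Real.exp_le_exp.2 ((le_abs_self _).trans (hC x))
      _ = Real.exp C := by simp
  have h3 : 0 < ∫ x, Real.exp (F x) ∂P := lt_of_lt_of_le (Real.exp_pos _) h1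
  refine ⟨h3, abs_le.2 ⟨?_, ?_⟩⟩
  · rw [Real.le_log_iff_exp_le h3]
    exact h1
  · rw [Real.log_le_iff_le_exp h3]
    exact h2

/-- Gibbs' variational inequality, with `log h ≤ h - 1`. -/
private theorem vl_gibbs {l h : ℝ → ℝ} (hl : BM l) (hh : BM h) (h0 : ∀ x, 1 / 2 ≤ h x) (h1 : ∫ x, h x ∂U01 = 1) :
    ∫ x, h x * l x ∂U01 - ∫ x, (h x - 1) ^ 2 ∂U01 ≤ Real.log (∫ x, Real.exp (l x) ∂U01) := by
  have hpos : ∀ x, 0 < h x := fun x => by linarith [h0 x]
  obtain ⟨A, hA⟩ : ∃ A, A = ∫ x, h x * l x ∂U01 - ∫ x, (h x - 1) ^ 2 ∂U01 := ⟨_, rfl⟩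
  rw [← hA]
  obtain ⟨C, hC⟩ := hl.2
  have hZ := (vl_log (P := U01) hl.1 hC).1
  rw [Real.le_log_iff_exp_le hZ]
  have b1 : BM fun x => h x * l x := hh.mul hl
  have b2 : BM fun x => (h x - 1) ^ 2 := (hh.sub (BM.const 1)).pow 2
  have b3 : BM fun x => Real.exp (-A) * Real.exp (l x) := hl.exp.const_mul _
  have b4 : BM fun x => h x + (h x * l x - ((h x - 1) ^ 2 + (h x - 1)) - A * h x) :=
    hh.add ((b1.sub (b2.add (hh.sub (BM.const 1)))).sub (hh.const_mul A))
  have hpt : ∀ x, h x + (h x * l x - ((h x - 1) ^ 2 + (h x - 1)) - A * h x) ≤ Real.exp (-A) * Real.exp (l x) := by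
    intro x
    have e1 : Real.exp (-A) * Real.exp (l x) = h x * Real.exp (l x - Real.log (h x) - A) := by
      rw [Real.exp_sub, Real.exp_sub, Real.exp_log (hpos x), Real.exp_neg]
      have := (hpos x).ne'
      field_simp
    have e2 := Real.add_one_le_exp (l x - Real.log (h x) - A)
    have e3 := Real.log_le_sub_one_of_pos (hpos x)
    have e4 : h x * (l x - (h x - 1) - A + 1) ≤ h x * Real.exp (l x - Real.log (h x) - A) :=
      mul_le_mul_of_nonneg_left (by linarith) (hpos x).le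
    rw [e1]
    refine le_trans (le_of_eq ?_) e4
    ring
  have hint := integral_mono b4.int b3.int (μ := U01) hpt
  rw [integral_const_mul, integral_add hh.int ((b1.sub (b2.add (hh.sub (BM.const 1)))).sub (hh.const_mul A)).int,
    integral_sub (b1.sub (b2.add (hh.sub (BM.const 1)))).int (hh.const_mul A).int,
    integral_sub b1.int (b2.add (hh.sub (BM.const 1))).int, integral_add b2.int (hh.sub (BM.const 1)).int,
    integral_sub hh.int (integrable_const _), integral_const_mul, h1] at hint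
  have e5 : ∫ _x : ℝ, (1 : ℝ) ∂U01 = 1 := by simp
  rw [e5] at hint
  have h2 : 1 ≤ Real.exp (-A) * ∫ x, Real.exp (l x) ∂U01 := by linarith
  rw [Real.exp_neg, ← div_eq_inv_mul, le_div_iff₀ (Real.exp_pos _), one_mul] at h2
  exact h2

/-- THE INDUCTION. -/
theorem vl0n_key (hQ : Qn Q θ₀ C) {θ : ℝ} (hθ0 : 0 ≤ θ) (hθ1 : θ ≤ 1) (hθ2 : θ ≤ θ₀) (N : ℕ) :
    ∀ (F Go Fp : (Fin N → ℝ) → ℝ) (g : Fin N → (Fin N → ℝ) → ℝ), SG Q N g F → BM Go → BM Fp →
      (∀ x y, Go x + ∑ i, g i x * (Q (y i) - Q (x i)) ≤ Fp y) →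
      θ * ∫ x, Go x ∂(PN U01 N) + (1 / (1 + C)) ^ 2 / 4 * θ ^ 2 * VarN (PN U01 N) F ≤
      Real.log (∫ x, Real.exp (θ * Fp x) ∂(PN U01 N)) := by
  have hC0 := hQ.C0
  obtain ⟨c1, hc1⟩ : ∃ c1, c1 = 1 / (1 + C) := ⟨_, rfl⟩
  have hc10 : 0 < c1 := by rw [hc1]; positivity
  have hc11 : c1 ≤ 1 := by
    rw [hc1, div_le_iff₀ (by positivity)]
    linarith
  rw [← hc1]
  induction N with
  | zero =>
    intro F Go Fp g hF hGo hFp h
    have h0 : ∀ (f : (Fin 0 → ℝ) → ℝ) (x : Fin 0 → ℝ), f x = f 0 := fun f x => by rw [Subsingleton.elim x 0]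
    have h1 : ∀ f : (Fin 0 → ℝ) → ℝ, ∫ x, f x ∂(PN U01 0) = f 0 := fun f => by
      simp_rw [h0 f]
      simp
    have h2 := h 0 0
    simp only [Finset.univ_eq_empty, Finset.sum_empty, add_zero] at h2
    unfold VarN
    rw [h1, h1, h1, h1, Real.log_exp]
    simp only [sub_self]
    nlinarith
  | succ N ih =>
    intro F Go Fp g hF hGo hFp h
    have hFb := hF.bm hQ
    have h1s := hF.one hQ
    obtain ⟨m, hm⟩ : ∃ m, m = ∫ x, fm F x ∂U01 := ⟨_, rfl⟩
    obtain ⟨V, hV⟩ : ∃ V, V = Vr (fm F) := ⟨_, rfl⟩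
    have hV0 : 0 ≤ V := by rw [hV]; exact Vr_nonneg _
    obtain ⟨t, ht⟩ : ∃ t, t = c1 * θ / 2 := ⟨_, rfl⟩
    have ht0 : 0 ≤ t := by rw [ht]; positivity
    have ht3 : c1 * θ ≤ θ := by
      have := mul_le_mul_of_nonneg_right hc11 hθ0
      linarith
    have ht1 : t ≤ 1 / 2 := by rw [ht]; linarith
    have ht2 : 2 * t ≤ θ₀ := by rw [ht]; linarith
    have hosc : ∀ y, |fm F y - m| ≤ 1 := fun y => by rw [hm]; exact h1s.osc_mean hQ y
    have hr0 : ∀ y, 1 / 2 ≤ 1 + t * (fm F y - m) := fun y => by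
      have := abs_le.1 (hosc y)
      nlinarith
    obtain ⟨l, hl⟩ : ∃ l : ℝ → ℝ, l = fun y => Real.log (∫ z, Real.exp (θ * Fp (cn y z)) ∂(PN U01 N)) := ⟨_, rfl⟩
    obtain ⟨Cb, hCb⟩ := (hFp.const_mul θ).2
    have hlb : BM l := by
      rw [hl]
      refine ⟨Real.measurable_log.comp (hFp.const_mul θ).exp.fm.1, Cb, fun y => ?_⟩
      exact (vl_log (P := PN U01 N) (F := fun z => θ * Fp (cn y z))
        ((hFp.const_mul θ).1.comp (measurable_cn_right y)) fun z => hCb _).2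
    have hrb : BM fun y => 1 + t * (fm F y - m) := (BM.const 1).add ((hFb.fm.sub (BM.const m)).const_mul t)
    have er : ∫ y, (1 + t * (fm F y - m)) ∂U01 = 1 := by
      rw [integral_add (integrable_const _) ((hFb.fm.sub (BM.const m)).const_mul t).int, integral_const_mul,
        integral_sub hFb.fm.int (integrable_const _), ← hm]
      simp
    have hg := vl_gibbs hlb hrb hr0 er
    have e1 : ∫ y, (1 + t * (fm F y - m) - 1) ^ 2 ∂U01 = t ^ 2 * V := by
      have h1 : ∀ y, (1 + t * (fm F y - m) - 1) ^ 2 = t ^ 2 * (fm F y - m) ^ 2 := fun y => by ring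
      simp_rw [h1]
      rw [integral_const_mul, hV]
      unfold Vr
      rw [← hm]
    rw [e1] at hg
    -- the exponential moment
    have e2 : ∫ x, Real.exp (θ * Fp x) ∂(PN U01 (N + 1)) = ∫ y, Real.exp (l y) ∂U01 := by
      rw [int_fm (hFp.const_mul θ).exp]
      refine integral_congr_ae (Filter.Eventually.of_forall fun y => ?_)
      rw [hl]
      show fm (fun x => Real.exp (θ * Fp x)) y = Real.exp (Real.log (∫ z, Real.exp (θ * Fp (cn y z)) ∂(PN U01 N)))
      rw [Real.exp_log]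
      · rfl
      · exact (vl_log (P := PN U01 N) (F := fun z => θ * Fp (cn y z))
          ((hFp.const_mul θ).1.comp (measurable_cn_right y)) fun z => hCb _).1
    rw [e2]
    refine le_trans ?_ hg
    -- the induction hypothesis
    have hmain : ∀ x y, θ * (fm Go x + fm (g 0) x * (Q y - Q x)) + c1 ^ 2 / 4 * θ ^ 2 * VarN (PN U01 N) (sc F x) ≤ l y := by
      intro x y
      have hGx : BM fun z => Go (cn x z) + g 0 (cn x z) * (Q y - Q x) :=
        (hGo.sc x).add (((hF.bg 0).sc x).mul (BM.const (Q y - Q x)))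
      have h2 := ih (sc F x) (fun z => Go (cn x z) + g 0 (cn x z) * (Q y - Q x)) (fun z => Fp (cn y z))
        (fun i z => g i.succ (cn x z)) (hF.sec x) hGx (hFp.sc y) (fun z z' => by
          have h3 := h (cn x z) (cn y z')
          rw [Fin.sum_univ_succ] at h3
          simp only [cn_zero, cn_succ] at h3
          linarith)
      have j1 : Integrable (fun z => Go (cn x z)) (PN U01 N) := (hGo.sc x).int
      have j2 : Integrable (fun z => g 0 (cn x z) * (Q y - Q x)) (PN U01 N) := ((hF.bg 0).sc x).int.mul_const _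
      rw [integral_add j1 j2, integral_mul_const] at h2
      rw [hl]
      exact h2
    -- integrate
    have hτ : Measurable (tau t (fm F)) := tau_meas hQ h1s ht0 ht1
    have s1 := tau_map hQ h1s ht0 ht1 hGo.fm
    have s2 := tau_map hQ h1s ht0 ht1 (varN_sec_bm hFb)
    have s3 := gain hQ h1s ht0 ht1 ht2
    rw [← hm] at s1 s2 s3
    rw [← hc1, ← hV] at s3
    have hQb : BM fun y => Q y - Q (tau t (fm F) y) :=
      ⟨hQ.mono.measurable.sub (hQ.mono.measurable.comp hτ), 1, fun y => hQ.osc _ _⟩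
    have b1 : BM fun y => (1 + t * (fm F y - m)) * fm Go (tau t (fm F) y) := hrb.mul (hGo.fm.comp hτ)
    have b2 : BM fun y => (1 + t * (fm F y - m)) * (fm (g 0) (tau t (fm F) y) * (Q y - Q (tau t (fm F) y))) :=
      hrb.mul ((h1s.bγ.comp hτ).mul hQb)
    have b3 : BM fun y => (1 + t * (fm F y - m)) * VarN (PN U01 N) (sc F (tau t (fm F) y)) :=
      hrb.mul ((varN_sec_bm hFb).comp hτ)
    have hpt : ∀ y, θ * ((1 + t * (fm F y - m)) * fm Go (tau t (fm F) y)) +
        (θ * ((1 + t * (fm F y - m)) * (fm (g 0) (tau t (fm F) y) * (Q y - Q (tau t (fm F) y)))) +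
        c1 ^ 2 / 4 * θ ^ 2 * ((1 + t * (fm F y - m)) * VarN (PN U01 N) (sc F (tau t (fm F) y)))) ≤
        (1 + t * (fm F y - m)) * l y := by
      intro y
      have h1 := mul_le_mul_of_nonneg_left (hmain (tau t (fm F) y) y) (by linarith [hr0 y] : 0 ≤ 1 + t * (fm F y - m))
      refine le_trans (le_of_eq ?_) h1
      ring
    have hint := integral_mono ((b1.const_mul θ).add ((b2.const_mul θ).add (b3.const_mul _))).int
      (hrb.mul hlb).int (μ := U01) hpt
    rw [integral_add (b1.const_mul θ).int ((b2.const_mul θ).add (b3.const_mul _)).int,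
      integral_add (b2.const_mul θ).int (b3.const_mul _).int, integral_const_mul, integral_const_mul,
      integral_const_mul, s1, s2] at hint
    rw [int_fm hGo, varN_succ hFb, ← hV]
    have h5 := mul_le_mul_of_nonneg_left s3 hθ0
    have h6 : θ * (c1 * t * V) - t ^ 2 * V = c1 ^ 2 / 4 * θ ^ 2 * V := by
      rw [ht]
      ring
    linarith

/-- **VARIANCE AND LUCK AT ZERO TEMPERATURE** for the laws with `(NC)`. The constants depend on `θ₀, C` only. -/
theorem vl0n {θ₀ C : ℝ} (hθ₀ : 0 < θ₀) (hC : 0 ≤ C) : ∃ c t0 : ℝ, 0 < c ∧ 0 < t0 ∧ ∀ Q : ℝ → ℝ, Qn Q θ₀ C →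
    (∀ x, Q x ∈ Icc (0 : ℝ) 1) → ∀ (N : ℕ) (F : (Fin N → ℝ) → ℝ) (g : Fin N → (Fin N → ℝ) → ℝ), SW N g F →
    ∀ t : ℝ, 0 ≤ t → t ≤ t0 → t * ∫ x, F x ∂(PN (U01.map Q) N) +
      c * t ^ 2 * ∫ x, (F x - ∫ y, F y ∂(PN (U01.map Q) N)) ^ 2 ∂(PN (U01.map Q) N) ≤
        Real.log (∫ x, Real.exp (t * F x) ∂(PN (U01.map Q) N)) := by
  refine ⟨(1 / (1 + C)) ^ 2 / 4, min 1 θ₀, by positivity, lt_min one_pos hθ₀,
    fun Q hQ hQ1 N F g hF t ht0 ht1 => ?_⟩
  have hQm : Measurable Q := hQ.mono.measurable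
  obtain ⟨ν, hQν⟩ : ∃ ν : Measure ℝ, U01.map Q = ν := ⟨_, rfl⟩
  have hν : IsProbabilityMeasure ν := by
    rw [← hQν]
    exact Measure.isProbabilityMeasure_map hQm.aemeasurable
  rw [hQν]
  have hm : Measurable fun (x : Fin N → ℝ) (j : Fin N) => Q (x j) :=
    measurable_pi_lambda _ fun j => hQm.comp (measurable_pi_apply j)
  have hmap := map_PN hQm hQν N
  have hint : ∀ f : (Fin N → ℝ) → ℝ, Measurable f → ∫ x, f x ∂(PN ν N) = ∫ x, f (fun j => Q (x j)) ∂(PN U01 N) := by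
    intro f hf
    rw [← hmap, integral_map hm.aemeasurable hf.aestronglyMeasurable]
  have hS := toSG hQm hQ1 hF
  have hk := vl0n_key hQ ht0 (ht1.trans (min_le_left _ _)) (ht1.trans (min_le_right _ _)) N _ _ _ _ hS (hS.bm hQ)
    (hS.bm hQ) hS.sub
  unfold VarN at hk
  rw [hint _ ((hF.mF.sub_const _).pow_const 2),
    hint (fun x => Real.exp (t * F x)) (Real.measurable_exp.comp (hF.mF.const_mul t)), hint F hF.mF]
  exact hk

end

end Pool.Agent.W_1b8d5d_nc
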