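import Pool.Agent.W_1b8d5d_nc.NcRep
import Pool.Agent.W_1b8d5d_nc.NcVL

/-!
MP_1b8d5d_pr, track P, general laws: the lower bound of the log-Laplace transform by the variance on the law of the environment.
(helper4)
-/

namespace Pool.Agent.W_1b8d5d_nc

open MeasureTheory Set
open Pool.Agent.W_1b8d5d_h85 (V dir Env Edge grid wedges cost Bd sh)
open Pool.Agent.W_1b8d5d_p
open Pool.Agent.W_7d29a1_h42 (PN)
open Pool.Agent.W_1b8d5d_LE (Mx Dx Pot0_Mx Pot0)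
open Pool.Agent.W_1b8d5d_z (U01 BM SW)
open Pool.Agent.W_1b8d5d_h4p (Fz Bx nw nrm nw_meas nw_mem nrm_eq exists_rep exists_rep' rx rx_mp bm_sum)

noncomputable section

variable {F : Fm} {c0 C0 : ℝ}

/-- The lower bound of the log-Laplace transform by the variance, on the law of the environment. -/
theorem vl_q (hab : F.a < F.b) {Q : ℝ → ℝ} {θ C : ℝ} (hQ : Qn Q θ C) (hQ1 : ∀ x, Q x ∈ Icc (0 : ℝ) 1)
    (hν : U01.map Q = nrm F) : ∃ k t₀ : ℝ, 0 < k ∧ 0 < t₀ ∧ ∀ (S : Set Edge) (G : Env → ℝ), Fz F.a F.b S G →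
    ∀ t : ℝ, 0 ≤ t → t ≤ t₀ → t * ∫ η, G (F.tau η) ∂(law F) +
      k * t ^ 2 * ∫ η, (G (F.tau η) - ∫ ξ, G (F.tau ξ) ∂(law F)) ^ 2 ∂(law F) ≤
      Real.log (∫ η, Real.exp (t * G (F.tau η)) ∂(law F)) := by
  have hd : 0 < F.b - F.a := sub_pos.2 hab
  obtain ⟨k, t₀, hk0, ht₀, hk⟩ := vl0n hQ.th0 hQ.C0
  refine ⟨k, t₀ / (F.b - F.a), hk0, by positivity, fun S G hG t ht0 ht1 => ?_⟩
  obtain ⟨n, m, c', A, r, hA0, hA1, hr, hrS, hr01, hGr⟩ := exists_rep hab hG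
  have hsw := sw_Mx (c := c') (A := A) hA0 hA1
  have hmF := hsw.mF
  have e1 : ∀ f : ℝ → ℝ, Measurable f → ∫ x, f (Mx c' A x) ∂(PN (nrm F) n) = ∫ η, f (Mx c' A (r η)) ∂(law F) := by
    intro f hf
    rw [← hr.map_eq]
    exact integral_map hr.measurable.aemeasurable (hf.comp hmF).aestronglyMeasurable
  have e2 := e1 (fun t => t) measurable_id
  obtain ⟨mm, hmm⟩ : ∃ mm, mm = ∫ x, Mx c' A x ∂(PN (nrm F) n) := ⟨_, rfl⟩
  have e3 : ∫ η, G (F.tau η) ∂(law F) = (F.b - F.a) * mm := by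
    rw [hmm, e2, ← integral_const_mul]
    exact integral_congr_ae (Filter.Eventually.of_forall fun η => hGr η)
  have h1 := hk Q hQ hQ1 n _ _ hsw (t * (F.b - F.a)) (mul_nonneg ht0 hd.le) (by rwa [← le_div_iff₀ hd])
  rw [hν, ← hmm, e1 (fun s => (s - mm) ^ 2) (by fun_prop), e1 (fun s => Real.exp (t * (F.b - F.a) * s)) (by fun_prop)] at h1
  rw [e3]
  have e4 : ∀ η, (G (F.tau η) - (F.b - F.a) * mm) ^ 2 = (F.b - F.a) ^ 2 * (Mx c' A (r η) - mm) ^ 2 := by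
    intro η
    rw [hGr]
    ring
  have e5 : ∀ η, Real.exp (t * G (F.tau η)) = Real.exp (t * (F.b - F.a) * Mx c' A (r η)) := by
    intro η
    rw [hGr]
    congr 1
    ring
  simp_rw [e4, e5]
  rw [integral_const_mul]
  refine le_trans (le_of_eq ?_) h1
  ring

/-- The lower bound of the log-Laplace transform by the variance, on the law of the environment. -/
theorem vl_lawN (hL : LawN F c0 C0) : ∃ k t₀ : ℝ, 0 < k ∧ 0 < t₀ ∧ ∀ (S : Set Edge) (G : Env → ℝ), Fz F.a F.b S G →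
    ∀ t : ℝ, 0 ≤ t → t ≤ t₀ → t * ∫ η, G (F.tau η) ∂(law F) +
      k * t ^ 2 * ∫ η, (G (F.tau η) - ∫ ξ, G (F.tau ξ) ∂(law F)) ^ 2 ∂(law F) ≤
      Real.log (∫ η, Real.exp (t * G (F.tau η)) ∂(law F)) := by
  obtain ⟨Q, θ, C, hQ, hQ1, hν⟩ := hL.quant
  exact vl_q hL.ab hQ hQ1 hν

end

end Pool.Agent.W_1b8d5d_nc
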