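import Pool.Agent.W_1b8d5d_h85.FMuG
import Pool.Agent.W_1b8d5d_nc.Geo1

/-!
MP_1b8d5d_pr (no corner): the time constant is a norm; uniform convergence of the means.
-/

set_option autoImplicit false

open Filter Topology

namespace Pool.Agent.W_1b8d5d_nc

open Pool.Agent.W_1b8d5d_h85

variable {Q : Par} {g : V → ℝ} {μ : ℝ × ℝ → ℝ}

/-- Subadditivity on the lattice: `g (n • (x + y)) ≤ g (n • x) + g (n • y)`, limits. -/
theorem mu_add_lattice (hg : IsMean Q g)
    (hlim : ∀ x : V, Tendsto (fun n : ℕ => g (n • x) / n) atTop (𝓝 (μ (toR x)))) (x y : V) :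
    μ (toR (x + y)) ≤ μ (toR x) + μ (toR y) := by
  refine le_of_tendsto_of_tendsto' (hlim (x + y)) ((hlim x).add (hlim y)) fun n => ?_
  rw [smul_add, ← add_div]
  exact div_le_div_of_nonneg_right (hg.add _ _) (Nat.cast_nonneg _)

theorem mu_neg_lattice (hg : IsMean Q g)
    (hlim : ∀ x : V, Tendsto (fun n : ℕ => g (n • x) / n) atTop (𝓝 (μ (toR x)))) (x : V) :
    μ (toR (-x)) = μ (toR x) := by
  refine tendsto_nhds_unique (hlim (-x)) ((hlim x).congr fun n => ?_)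
  rw [smul_neg, hg.neg]

private theorem Nl_norm_le (x : ℝ × ℝ) : ‖x‖ ≤ rn x := by
  rw [Prod.norm_def, Real.norm_eq_abs, Real.norm_eq_abs]
  unfold rn
  exact max_le (by linarith [abs_nonneg x.2]) (by linarith [abs_nonneg x.1])

private theorem Nl_rn_le (x : ℝ × ℝ) : rn x ≤ 2 * ‖x‖ := by
  rw [Prod.norm_def, Real.norm_eq_abs, Real.norm_eq_abs]
  unfold rn
  linarith [le_max_left |x.1| |x.2|, le_max_right |x.1| |x.2|]

private theorem Nl_seq (x : ℝ × ℝ) : ∃ w : ℕ → V,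
    Tendsto (fun k : ℕ => (1 / ((k : ℝ) + 1)) • toR (w k)) atTop (𝓝 x) := by
  have h : ∀ k : ℕ, ∃ w : V, rn (toR w - ((k : ℝ) + 1) • x) ≤ 1 := fun k =>
    exists_round (((k : ℝ) + 1) • x)
  choose w hw using h
  refine ⟨w, ?_⟩
  rw [tendsto_iff_norm_sub_tendsto_zero]
  refine squeeze_zero (fun k => norm_nonneg _) (fun k => ?_) tendsto_one_div_add_atTop_nhds_zero_nat
  refine (Nl_norm_le _).trans ?_
  have hk : (0 : ℝ) < (k : ℝ) + 1 := by positivity
  have e : (1 / ((k : ℝ) + 1)) • toR (w k) - x =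
      (1 / ((k : ℝ) + 1)) • (toR (w k) - ((k : ℝ) + 1) • x) := by
    rw [smul_sub, smul_smul, one_div, inv_mul_cancel₀ hk.ne', one_smul]
  rw [e, rn_smul, abs_of_pos (by positivity)]
  calc 1 / ((k : ℝ) + 1) * rn (toR (w k) - ((k : ℝ) + 1) • x) ≤ 1 / ((k : ℝ) + 1) * 1 :=
        mul_le_mul_of_nonneg_left (hw k) (by positivity)
    _ = _ := mul_one _

/-- The time constant is a norm of the plane. PROOF: `add`: for `x, y` in the plane and `ε > 0` there is `N ≥ 1` large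
and lattice points `w, w'` with `rn (toR w - N x) ≤ 1`, `rn (toR w' - N y) ≤ 1` (`exists_round`), so
`toR w / N → x`, `toR w' / N → y`, `toR (w + w') / N → x + y` as `N → ∞`; `mu_add_lattice`, homogeneity and continuity.
`neg`: the same with `mu_neg_lattice`. `pos`: `mu_bounds` and `Q.ha`. -/
theorem normLike (hg : IsMean Q g) (hc : Continuous μ)
    (hom : ∀ (c : ℝ) (x : ℝ × ℝ), 0 ≤ c → μ (c • x) = c * μ x)
    (hlim : ∀ x : V, Tendsto (fun n : ℕ => g (n • x) / n) atTop (𝓝 (μ (toR x)))) : NormLike μ := by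
  refine ⟨hom, fun x y => ?_, fun x => ?_, fun x hx => ?_⟩
  · obtain ⟨w, hw⟩ := Nl_seq x
    obtain ⟨w', hw'⟩ := Nl_seq y
    have h1 : Tendsto (fun k : ℕ => (1 / ((k : ℝ) + 1)) • toR (w k + w' k)) atTop (𝓝 (x + y)) := by
      refine (hw.add hw').congr fun k => ?_
      rw [toR_add, smul_add]
    have h2 := (hc.tendsto (x + y)).comp h1
    have h3 := ((hc.tendsto x).comp hw).add ((hc.tendsto y).comp hw')
    refine le_of_tendsto_of_tendsto' h2 h3 fun k => ?_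
    have hk : (0 : ℝ) ≤ 1 / ((k : ℝ) + 1) := by positivity
    simp only [Function.comp_apply]
    rw [hom _ _ hk, hom _ _ hk, hom _ _ hk, ← mul_add]
    exact mul_le_mul_of_nonneg_left (mu_add_lattice hg hlim _ _) hk
  · obtain ⟨w, hw⟩ := Nl_seq x
    have h1 : Tendsto (fun k : ℕ => (1 / ((k : ℝ) + 1)) • toR (-(w k))) atTop (𝓝 (-x)) := by
      refine hw.neg.congr fun k => ?_
      rw [toR_neg, smul_neg]
    have h2 := (hc.tendsto (-x)).comp h1
    have h3 := (hc.tendsto x).comp hw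
    refine tendsto_nhds_unique h2 (h3.congr fun k => ?_)
    have hk : (0 : ℝ) ≤ 1 / ((k : ℝ) + 1) := by positivity
    simp only [Function.comp_apply]
    rw [hom _ _ hk, hom _ _ hk, mu_neg_lattice hg hlim]
  · have h1 := (mu_bounds hg hc hom hlim x).1
    have h2 : 0 < rn x := lt_of_le_of_ne (rn_nonneg x) fun h => hx (rn_eq_zero.1 h.symm)
    exact lt_of_lt_of_le (mul_pos Q.ha h2) h1

/-- Uniform upper bound: `g z ≤ μ z + o(|z|)`. PROOF: Let `v` run over a finite net of the compact set `{rn v = 1}` (or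
`{rn v ≤ 1}`) with mesh `ε'` (`ε' (2 Q.b + 1) ≤ ε / 2`). `nm z = n` is a natural number; choose `v` with
`rn (toR z / n - v) ≤ ε'`, a lattice point `x` with `rn (toR x - n v) ≤ 1` (`exists_round`); by `muG`.lim (with
`D = 1`, `ε'`) `g x ≤ n (μ v + ε')` for `n ≥ n₀(v)`; `IsMean.lip`: `g z ≤ g x + Q.b (n ε' + 1)`;
`μ v ≤ μ (toR z / n) + Q.b ε'` (`NormLike.add` and `mu_bounds`). -/
theorem g_le_mu (hg : IsMean Q g) (hc : Continuous μ)
    (hom : ∀ (c : ℝ) (x : ℝ × ℝ), 0 ≤ c → μ (c • x) = c * μ x)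
    (hlim : ∀ x : V, Tendsto (fun n : ℕ => g (n • x) / n) atTop (𝓝 (μ (toR x)))) {ε : ℝ}
    (hε : 0 < ε) : ∃ N : ℝ, ∀ z : V, N ≤ nm z → g z ≤ μ (toR z) + ε * nm z := by
  have hb : 0 < Q.b := Q.ha.trans Q.hab
  have hnl := normLike hg hc hom hlim
  set δ : ℝ := ε / (2 * (4 * Q.b + 1)) with hδ
  have hδ0 : 0 < δ := by positivity
  have hδ1 : δ * (4 * Q.b + 1) = ε / 2 := by
    rw [hδ]
    field_simp
  obtain ⟨t, -, htf, htc⟩ := (isCompact_closedBall (0 : ℝ × ℝ) 1).finite_cover_balls hδ0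
  have h1 : ∀ v : ℝ × ℝ, ∃ n₀ : ℕ, ∀ n : ℕ, n₀ ≤ n → ∀ x : V,
      rn (toR x - (n : ℝ) • v) ≤ 1 → g x ≤ n * (μ v + δ) := fun v =>
    mu_lim hg hc hom hlim v δ 1 hδ0
  choose n₀ hn₀ using h1
  obtain ⟨M, hM⟩ := (htf.image n₀).bddAbove
  refine ⟨max (M : ℝ) (max 1 (2 * Q.b / ε)), fun z hz => ?_⟩
  set n : ℕ := z.1.natAbs + z.2.natAbs with hn
  have hnz : nm z = (n : ℝ) := nm_eq_nat z
  rw [hnz] at hz ⊢
  have hz1 : (M : ℝ) ≤ n := (le_max_left _ _).trans hz
  have hz2 : (1 : ℝ) ≤ n := (le_max_left _ _).trans ((le_max_right _ _).trans hz)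
  have hz3 : 2 * Q.b / ε ≤ n := (le_max_right _ _).trans ((le_max_right _ _).trans hz)
  have hn0 : (0 : ℝ) < n := by linarith
  have hMn : M ≤ n := by exact_mod_cast hz1
  set u : ℝ × ℝ := (1 / (n : ℝ)) • toR z with hu
  have hnu : (n : ℝ) • u = toR z := by
    rw [hu, smul_smul, one_div, mul_inv_cancel₀ hn0.ne', one_smul]
  have hru : rn u = 1 := by
    rw [hu, rn_smul, abs_of_pos (by positivity), ← nm_eq_rn, hnz, one_div,
      inv_mul_cancel₀ hn0.ne']
  have hub : u ∈ Metric.closedBall (0 : ℝ × ℝ) 1 := by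
    rw [Metric.mem_closedBall, dist_zero_right]
    exact (Nl_norm_le u).trans hru.le
  obtain ⟨v, hvt, hv⟩ : ∃ v ∈ t, u ∈ Metric.ball v δ := by
    have := htc hub
    simp only [Set.mem_iUnion, exists_prop] at this
    exact this
  rw [Metric.mem_ball, dist_eq_norm] at hv
  have huv : rn (u - v) ≤ 2 * δ := (Nl_rn_le _).trans (by linarith)
  obtain ⟨x, hx⟩ := exists_round ((n : ℝ) • v)
  have hgx := hn₀ v n ((hM (Set.mem_image_of_mem _ hvt)).trans hMn) x hx
  have hgz := hg.lipF z x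
  have hnm : nm (z - x) ≤ n * (2 * δ) + 1 := by
    rw [nm_eq_rn, toR_sub]
    have e : toR z - toR x = (n : ℝ) • (u - v) + -(toR x - (n : ℝ) • v) := by
      rw [smul_sub, hnu]
      abel
    rw [e]
    refine (rn_add_le _ _).trans ?_
    rw [rn_neg, rn_smul, abs_of_pos hn0]
    have := mul_le_mul_of_nonneg_left huv hn0.le
    linarith
  have hmv : μ v ≤ μ u + Q.b * (2 * δ) := by
    have h2 := hnl.add u (v - u)
    rw [add_sub_cancel] at h2
    have h3 := (mu_bounds hg hc hom hlim (v - u)).2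
    have h4 : rn (v - u) = rn (u - v) := by rw [← rn_neg, neg_sub]
    rw [h4] at h3
    have h5 := mul_le_mul_of_nonneg_left huv hb.le
    linarith
  have hmu : μ (toR z) = n * μ u := by
    rw [← hnu, hom _ _ hn0.le]
  have h6 : (n : ℝ) * (μ v + δ) ≤ n * (μ u + Q.b * (2 * δ) + δ) :=
    mul_le_mul_of_nonneg_left (by linarith) hn0.le
  have h7 : Q.b * nm (z - x) ≤ Q.b * (n * (2 * δ) + 1) := mul_le_mul_of_nonneg_left hnm hb.le
  have h8 : Q.b ≤ n * (ε / 2) := by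
    rw [div_le_iff₀ hε] at hz3
    linarith
  have h9 : (n : ℝ) * (μ u + Q.b * (2 * δ) + δ) + Q.b * (n * (2 * δ) + 1) =
      n * μ u + n * (δ * (4 * Q.b + 1)) + Q.b := by ring
  rw [hδ1] at h9
  rw [hmu]
  linarith

end Pool.Agent.W_1b8d5d_nc
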