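import Pool.Agent.W_1b8d5d_nc.NormD1

/-!
MP_1b8d5d_pr, general dimension, general weights on `[0, ∞)` without an atom at `0`: long paths are expensive
(Chernoff bound for a path, union bound over the paths), so the time constant is positive.
-/

set_option autoImplicit false

open MeasureTheory ProbabilityTheory Filter Topology

namespace Pool.Agent.W_1b8d5d_nc

open Pool.Agent.W_1b8d5d_gd

variable {d : ℕ} [NeZero d]

/-- The edges of the lattice path with the given steps. -/
def stepsE : V d → List (Fin d × Bool) → List (Edge d)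
  | _, [] => []
  | x, (i, true) :: l => (x, i) :: stepsE (x + dir i) l
  | x, (i, false) :: l => (x - dir i, i) :: stepsE (x - dir i) l

omit [NeZero d] in
theorem length_stepsE (x : V d) (l : List (Fin d × Bool)) : (stepsE x l).length = l.length := by
  induction l generalizing x with
  | nil => rfl
  | cons s l ih =>
    obtain ⟨i, b⟩ := s
    cases b
    · show (stepsE (x - dir i) l).length + 1 = l.length + 1
      rw [ih]
    · show (stepsE (x + dir i) l).length + 1 = l.length + 1
      rw [ih]

theorem exists_stepsE {x y : V d} (w : (grid d).Walk x y) :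
    ∃ l : List (Fin d × Bool), l.length = w.length ∧ wedges w = stepsE x l := by
  induction w with
  | nil => exact ⟨[], rfl, rfl⟩
  | @cons u v z h p ih =>
    obtain ⟨l, hl1, hl2⟩ := ih
    obtain ⟨i, hi | hi⟩ := h
    · subst hi
      refine ⟨(i, true) :: l, by rw [SimpleGraph.Walk.length_cons, List.length_cons, hl1], ?_⟩
      unfold wedges at hl2 ⊢
      rw [SimpleGraph.Walk.edges_cons, List.map_cons, hl2, ke_dir]
      rfl
    · have hv : v = u - dir i := by rw [hi, add_sub_cancel_right]
      refine ⟨(i, false) :: l, by rw [SimpleGraph.Walk.length_cons, List.length_cons, hl1], ?_⟩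
      unfold wedges at hl2 ⊢
      rw [SimpleGraph.Walk.edges_cons, List.map_cons, hl2]
      show ke s(u, v) :: stepsE v l = (u - dir i, i) :: stepsE (u - dir i) l
      rw [← hv]
      have h1 : ke s(u, v) = (v, i) := by
        rw [hi]
        exact ke_dir' v i
      rw [h1]

/-- The Laplace transform of the weight. -/
noncomputable def lapD (ν : Measure ℝ) (s : ℝ) : ℝ := ∫ x, Real.exp (-s * x) ∂ν

theorem lapD_tendsto {ν : Measure ℝ} [IsProbabilityMeasure ν] (hν : ν (Set.Iic 0) = 0) :
    Tendsto (fun n : ℕ => lapD ν n) atTop (𝓝 0) := by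
  have hpos : ∀ᵐ x ∂ν, 0 < x := by
    rw [ae_iff]
    have h2 : {x : ℝ | ¬ 0 < x} = Set.Iic 0 := by
      ext x
      simp
    rw [h2]
    exact hν
  have h := tendsto_integral_of_dominated_convergence (μ := ν)
    (F := fun (n : ℕ) (x : ℝ) => Real.exp (-(n : ℝ) * x)) (f := fun _ => (0 : ℝ)) (fun _ => (1 : ℝ))
    (fun n => (Real.continuous_exp.comp (continuous_const.mul continuous_id)).aestronglyMeasurable)
    (integrable_const _) (fun n => ?_) ?_
  · simpa [lapD] using h
  · filter_upwards [hpos] with x hx
    rw [Real.norm_eq_abs, abs_of_pos (Real.exp_pos _)]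
    apply Real.exp_le_one_iff.2
    have : (0 : ℝ) ≤ n := Nat.cast_nonneg n
    nlinarith
  · filter_upwards [hpos] with x hx
    have h1 : Tendsto (fun n : ℕ => (n : ℝ) * x) atTop atTop :=
      tendsto_natCast_atTop_atTop.atTop_mul_const hx
    have h2 := Real.tendsto_exp_neg_atTop_nhds_zero.comp h1
    refine h2.congr fun n => ?_
    simp only [Function.comp_apply]
    congr 1
    ring

variable {ν : Measure ℝ} {Ω : Type} [MeasurableSpace Ω] {P : Measure Ω} {τ : Edge d → Ω → ℝ}

theorem FppD.mgf_eq (h : FppD ν P τ) (s : ℝ) (e : Edge d) : mgf (τ e) P (-s) = lapD ν s := by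
  unfold mgf lapD
  rw [← h.law e, integral_map (h.meas e).aemeasurable]
  exact (Real.continuous_exp.comp (continuous_const.mul continuous_id)).aestronglyMeasurable

/-- Chernoff bound for a list of different edges. -/
theorem FppD.chernoff (h : FppD ν P τ) (hν : ν (Set.Iio 0) = 0) {s : ℝ} (hs : 0 < s) {l : List (Edge d)}
    (hl : l.Nodup) :
    P.real {ω | (l.map fun e => τ e ω).sum ≤ l.length / s} ≤ (Real.exp 1 * lapD ν s) ^ l.length := by
  have := h.prob
  have hint : ∀ e, Integrable (fun ω => Real.exp (-s * τ e ω)) P := by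
    intro e
    refine Integrable.of_bound (C := 1)
      ((Real.continuous_exp.comp (continuous_const.mul continuous_id)).measurable.comp
        (h.meas e)).aestronglyMeasurable ?_
    filter_upwards [h.ae_nn hν] with ω hω
    show ‖Real.exp (-s * τ e ω)‖ ≤ 1
    rw [Real.norm_eq_abs, abs_of_pos (Real.exp_pos _)]
    apply Real.exp_le_one_iff.2
    have := hω e
    nlinarith [hω e]
  have h1 := h.indep.integrable_exp_mul_sum (t := -s) h.meas (s := l.toFinset) fun e _ => hint e
  have h2 := measure_le_le_exp_mul_mgf (μ := P) (X := ∑ e ∈ l.toFinset, τ e) (t := -s) (l.length / s)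
    (by linarith) h1
  rw [h.indep.mgf_sum h.meas] at h2
  have h3 : ∏ e ∈ l.toFinset, mgf (τ e) P (-s) = lapD ν s ^ l.length := by
    rw [Finset.prod_congr rfl fun e _ => h.mgf_eq s e, Finset.prod_const, List.toFinset_card_of_nodup hl]
  have h4 : -(-s) * (l.length / s) = l.length * (1 : ℝ) := by
    field_simp
  rw [h3, h4, Real.exp_nat_mul, ← mul_pow] at h2
  have h5 : {ω | (l.map fun e => τ e ω).sum ≤ l.length / s} =
      {ω | (∑ e ∈ l.toFinset, τ e) ω ≤ l.length / s} := by
    ext ω
    simp only [Set.mem_ofPred_eq, Finset.sum_apply]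
    rw [List.sum_toFinset _ hl]
  rw [h5]
  exact h2

/-- Some path of `n` edges from the origin is cheap. -/
def cheapD (τ : Env d) (n : ℕ) (t : ℝ) : Prop :=
  ∃ (z : V d) (w : (grid d).Walk 0 z), w.IsPath ∧ w.length = n ∧ cost τ w ≤ t

/-- The union bound. -/
theorem FppD.cheap_le (h : FppD ν P τ) (hν : ν (Set.Iio 0) = 0) {s : ℝ} (hs : 0 < s) (n : ℕ) :
    P.real {ω | cheapD (fun e => τ e ω) n (n / s)} ≤ (2 * d * (Real.exp 1 * lapD ν s)) ^ n := by
  classical
  have := h.prob
  set A : (Fin n → Fin d × Bool) → Set Ω := fun f =>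
    {ω | (stepsE 0 (List.ofFn f)).Nodup ∧ ((stepsE 0 (List.ofFn f)).map fun e => τ e ω).sum ≤ n / s} with hA
  have h1 : {ω | cheapD (fun e => τ e ω) n (n / s)} ⊆ ⋃ f ∈ (Finset.univ : Finset (Fin n → Fin d × Bool)), A f := by
    rintro ω ⟨z, w, hw, hn, hc⟩
    obtain ⟨l, hl1, hl2⟩ := exists_stepsE w
    have hln : l.length = n := hl1.trans hn
    subst hln
    refine Set.mem_biUnion (x := fun i : Fin l.length => l.get i) (Finset.mem_univ _) ?_
    show (stepsE 0 (List.ofFn fun i : Fin l.length => l.get i)).Nodup ∧ _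
    rw [List.ofFn_get, ← hl2]
    exact ⟨wedges_nodup hw, hc⟩
  have h2 : ∀ f ∈ (Finset.univ : Finset (Fin n → Fin d × Bool)), P.real (A f) ≤ (Real.exp 1 * lapD ν s) ^ n := by
    intro f _
    by_cases hnd : (stepsE 0 (List.ofFn f)).Nodup
    · have h3 := h.chernoff hν hs hnd
      rw [length_stepsE, List.length_ofFn] at h3
      refine le_trans (measureReal_mono ?_ (measure_ne_top _ _)) h3
      rintro ω ⟨-, h4⟩
      exact h4
    · have h3 : A f = ∅ := by
        ext ω
        simp only [hA, Set.mem_ofPred_eq, Set.mem_empty_iff_false, iff_false, not_and]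
        intro h4
        exact absurd h4 hnd
      rw [h3, measureReal_empty]
      have : 0 ≤ lapD ν s := integral_nonneg fun x => (Real.exp_pos _).le
      positivity
  refine (measureReal_mono h1 (measure_ne_top _ _)).trans ?_
  refine (measureReal_biUnion_finset_le _ _).trans ?_
  refine (Finset.sum_le_sum h2).trans ?_
  rw [Finset.sum_const, Finset.card_univ, Fintype.card_fun, Fintype.card_prod, Fintype.card_fin, Fintype.card_fin,
    Fintype.card_bool, nsmul_eq_mul]
  push_cast
  rw [← mul_pow, mul_comm (d : ℝ) 2]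

/-- Without a cheap path of `n` edges all vertices at distance at least `n` are at distance at least `t`. -/
theorem NnD.lower {τ : Env d} (h : NnD τ) {n : ℕ} {t : ℝ} (hc : ¬ cheapD τ n t) {z : V d} (hz : (n : ℝ) ≤ nm z) :
    t ≤ T τ 0 z := by
  classical
  apply le_ciInf
  intro w
  by_contra hcon
  push Not at hcon
  apply hc
  -- the first `n` edges of the bypass
  have h1 : nm (z - 0) ≤ w.bypass.length := nm_le_length w.bypass
  rw [sub_zero] at h1
  have h2 : n ≤ w.bypass.length := by exact_mod_cast hz.trans h1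
  refine ⟨_, w.bypass.take n, w.bypass_isPath.take n, ?_, ?_⟩
  · rw [SimpleGraph.Walk.take_length]
    exact min_eq_left h2
  · have h3 : cost τ (w.bypass.take n) ≤ cost τ w.bypass := by
      have h4 : cost τ w.bypass = cost τ (w.bypass.take n) + cost τ (w.bypass.drop n) := by
        rw [← cost_append, SimpleGraph.Walk.append_take_drop_eq]
      have h5 := h.cost_nonneg (w.bypass.drop n)
      linarith
    have h5 : cost τ w.bypass ≤ cost τ w := by
      unfold cost wedges
      refine List.Sublist.sum_le_sum ((w.edges_bypass_sublist_edges.map ke).map τ) ?_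
      intro a ha
      obtain ⟨e, -, rfl⟩ := List.mem_map.1 ha
      exact h e
    linarith

end Pool.Agent.W_1b8d5d_nc
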