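import Pool.Agent.W_1b8d5d_nc.NormD2
import Pool.Agent.W_1b8d5d_nc.Gen

/-!
MP_1b8d5d_pr, general dimension, general weights on `[0, ∞)` without an atom at `0`: the time constant is a norm.
-/

set_option autoImplicit false

open MeasureTheory ProbabilityTheory Filter Topology

namespace Pool.Agent.W_1b8d5d_nc

open Pool.Agent.W_1b8d5d_gd

variable {d : ℕ}

/-- Lattice approximation. -/
noncomputable def apxD (x : Fin d → ℝ) (n : ℕ) : V d := fun i => ⌊(n : ℝ) * x i⌋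

theorem apxD_tendsto (x : Fin d → ℝ) :
    Tendsto (fun n : ℕ => ((n : ℝ)⁻¹) • toRD (apxD x n)) atTop (𝓝 x) := by
  rw [tendsto_pi_nhds]
  intro i
  have h1 : Tendsto (fun n : ℕ => (n : ℝ)⁻¹) atTop (𝓝 0) := tendsto_inv_atTop_nhds_zero_nat
  have h2 : Tendsto (fun n : ℕ => x i - (n : ℝ)⁻¹) atTop (𝓝 (x i)) := by
    simpa using (tendsto_const_nhds (x := x i)).sub h1
  refine tendsto_of_tendsto_of_tendsto_of_le_of_le' h2 tendsto_const_nhds ?_ ?_
  · filter_upwards [eventually_ge_atTop 1] with n hn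
    have hn' : (0 : ℝ) < n := by exact_mod_cast hn
    have h3 := (Int.sub_one_lt_floor ((n : ℝ) * x i)).le
    show x i - (n : ℝ)⁻¹ ≤ (n : ℝ)⁻¹ * (⌊(n : ℝ) * x i⌋ : ℝ)
    have h4 : x i - (n : ℝ)⁻¹ = (n : ℝ)⁻¹ * ((n : ℝ) * x i - 1) := by
      field_simp
    rw [h4]
    exact mul_le_mul_of_nonneg_left h3 (inv_nonneg.2 hn'.le)
  · filter_upwards [eventually_ge_atTop 1] with n hn
    have hn' : (0 : ℝ) < n := by exact_mod_cast hn
    have h3 := Int.floor_le ((n : ℝ) * x i)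
    show (n : ℝ)⁻¹ * (⌊(n : ℝ) * x i⌋ : ℝ) ≤ x i
    have h4 : x i = (n : ℝ)⁻¹ * ((n : ℝ) * x i) := by
      field_simp
    conv_rhs => rw [h4]
    exact mul_le_mul_of_nonneg_left h3 (inv_nonneg.2 hn'.le)

variable {μ : (Fin d → ℝ) → ℝ}

theorem apxD_mu (hc : Continuous μ) (hhom : ∀ (c : ℝ) (x : Fin d → ℝ), 0 ≤ c → μ (c • x) = c * μ x)
    (x : Fin d → ℝ) : Tendsto (fun n : ℕ => (n : ℝ)⁻¹ * μ (toRD (apxD x n))) atTop (𝓝 (μ x)) := by
  have h1 := (hc.tendsto x).comp (apxD_tendsto x)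
  refine h1.congr fun n => ?_
  exact hhom _ _ (inv_nonneg.2 (Nat.cast_nonneg n))

theorem add_of_lattice (hc : Continuous μ) (hhom : ∀ (c : ℝ) (x : Fin d → ℝ), 0 ≤ c → μ (c • x) = c * μ x)
    (h : ∀ x y : V d, μ (toRD (x + y)) ≤ μ (toRD x) + μ (toRD y)) (x y : Fin d → ℝ) :
    μ (x + y) ≤ μ x + μ y := by
  have h1 : Tendsto (fun n : ℕ => (n : ℝ)⁻¹ * μ (toRD (apxD x n + apxD y n))) atTop (𝓝 (μ (x + y))) := by
    have h2 := (hc.tendsto (x + y)).comp ((apxD_tendsto x).add (apxD_tendsto y))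
    refine h2.congr fun n => ?_
    show μ ((n : ℝ)⁻¹ • toRD (apxD x n) + (n : ℝ)⁻¹ • toRD (apxD y n)) = _
    rw [← smul_add, ← toRD_add, hhom _ _ (inv_nonneg.2 (Nat.cast_nonneg n))]
  refine le_of_tendsto_of_tendsto' h1 ((apxD_mu hc hhom x).add (apxD_mu hc hhom y)) fun n => ?_
  rw [← mul_add]
  exact mul_le_mul_of_nonneg_left (h _ _) (inv_nonneg.2 (Nat.cast_nonneg n))

theorem even_of_lattice (hc : Continuous μ) (hhom : ∀ (c : ℝ) (x : Fin d → ℝ), 0 ≤ c → μ (c • x) = c * μ x)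
    (h : ∀ x : V d, μ (toRD (-x)) = μ (toRD x)) (x : Fin d → ℝ) : μ (-x) = μ x := by
  have h1 : Tendsto (fun n : ℕ => (n : ℝ)⁻¹ * μ (toRD (apxD x n))) atTop (𝓝 (μ (-x))) := by
    have h2 := (hc.tendsto (-x)).comp (apxD_tendsto x).neg
    refine h2.congr fun n => ?_
    show μ (-((n : ℝ)⁻¹ • toRD (apxD x n))) = _
    rw [← smul_neg, ← toRD_neg, hhom _ _ (inv_nonneg.2 (Nat.cast_nonneg n)), h]
  exact tendsto_nhds_unique h1 (apxD_mu hc hhom x)

theorem low_of_lattice (hc : Continuous μ) (hhom : ∀ (c : ℝ) (x : Fin d → ℝ), 0 ≤ c → μ (c • x) = c * μ x)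
    {c : ℝ} (h : ∀ x : V d, c * nm x ≤ μ (toRD x)) (x : Fin d → ℝ) : c * ∑ i, |x i| ≤ μ x := by
  have h1 : Tendsto (fun n : ℕ => c * ∑ i, |((n : ℝ)⁻¹ • toRD (apxD x n)) i|) atTop (𝓝 (c * ∑ i, |x i|)) := by
    have h2 : Continuous (fun y : Fin d → ℝ => c * ∑ i, |y i|) := by fun_prop
    exact (h2.tendsto x).comp (apxD_tendsto x)
  refine le_of_tendsto_of_tendsto' h1 (apxD_mu hc hhom x) fun n => ?_
  have hn : 0 ≤ (n : ℝ)⁻¹ := inv_nonneg.2 (Nat.cast_nonneg n)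
  have h2 : c * ∑ i, |((n : ℝ)⁻¹ • toRD (apxD x n)) i| = (n : ℝ)⁻¹ * (c * nm (apxD x n)) := by
    have h3 : ∑ i, |((n : ℝ)⁻¹ • toRD (apxD x n)) i| = (n : ℝ)⁻¹ * nm (apxD x n) := by
      unfold nm
      rw [Finset.mul_sum]
      refine Finset.sum_congr rfl fun i _ => ?_
      rw [Pi.smul_apply, smul_eq_mul, abs_mul, abs_of_nonneg hn]
      rfl
    rw [h3]
    ring
  rw [h2]
  exact mul_le_mul_of_nonneg_left (h _) hn

theorem nm_nsmulD (n : ℕ) (x : V d) : nm (n • x) = n * nm x := by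
  unfold nm
  rw [Finset.mul_sum]
  refine Finset.sum_congr rfl fun i _ => ?_
  simp [abs_mul]

variable [NeZero d] {ν : Measure ℝ} {Ω : Type} [MeasurableSpace Ω] {P : Measure Ω} {τ : Edge d → Ω → ℝ}

theorem FppD.exists_rate (h : FppD ν P τ) (hν : ν (Set.Iio 0) = 0) (hν0 : ν {0} = 0) :
    ∃ s : ℝ, 0 < s ∧ ∀ n : ℕ, 1 ≤ n → P.real {ω | cheapD (fun e => τ e ω) n (n / s)} < 1 / 3 := by
  have := h.prob
  haveI : IsProbabilityMeasure ν := by
    rw [← h.law (0, 0)]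
    exact Measure.isProbabilityMeasure_map (h.meas _).aemeasurable
  have hI : ν (Set.Iic 0) = 0 := by
    have h1 : (Set.Iic 0 : Set ℝ) = Set.Iio 0 ∪ {0} := by
      ext x
      simp [le_iff_lt_or_eq]
    rw [h1]
    exact measure_union_null hν hν0
  have h1 : Tendsto (fun n : ℕ => 2 * d * (Real.exp 1 * lapD ν n)) atTop (𝓝 (2 * d * (Real.exp 1 * 0))) :=
    ((lapD_tendsto hI).const_mul _).const_mul _
  rw [mul_zero, mul_zero] at h1
  obtain ⟨n, hn, hn1⟩ := (((tendsto_order.1 h1).2 (1 / 3) (by norm_num)).and (eventually_ge_atTop 1)).exists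
  have hs : (0 : ℝ) < n := by exact_mod_cast hn1
  have h0 : 0 ≤ 2 * d * (Real.exp 1 * lapD ν n) := by
    have : 0 ≤ lapD ν n := integral_nonneg fun x => (Real.exp_pos _).le
    positivity
  refine ⟨n, hs, fun m hm => lt_of_le_of_lt (h.cheap_le hν hs m) ?_⟩
  refine lt_of_le_of_lt (pow_le_of_le_one h0 (by linarith) (by omega)) hn

/-- The lower bound at the lattice vectors. -/
theorem LimD.low (h : FppD ν P τ) (hν : ν (Set.Iio 0) = 0) (hν0 : ν {0} = 0) (hl : LimD P τ μ) :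
    ∃ c : ℝ, 0 < c ∧ ∀ x : V d, c * nm x ≤ μ (toRD x) := by
  have := h.prob
  obtain ⟨s, hs, hrate⟩ := h.exists_rate hν hν0
  refine ⟨1 / s, by positivity, fun x => ?_⟩
  refine le_of_forall_pos_le_add fun ε hε => ?_
  obtain ⟨n, hn1, hn0⟩ := ((hl.ev x hε (η := 1 / 3) (by norm_num)).and (eventually_ge_atTop 1)).exists
  have hn : (0 : ℝ) < n := by exact_mod_cast hn0
  have h4 := h.ae_nn hν
  rw [ae_iff] at h4
  -- the norm is a natural number
  have hk : nm (n • x) = ((∑ i, ((n • x) i).natAbs : ℕ) : ℝ) := nm_eq_nat (n • x)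
  set k := ∑ i, ((n • x) i).natAbs with hkdef
  have h5 : nm (n • x) = n * nm x := nm_nsmulD n x
  rcases Nat.eq_zero_or_pos k with hk0 | hk0
  · -- x = 0
    have h6 : nm x = 0 := by
      rw [h5, hk0, Nat.cast_zero] at hk
      rcases mul_eq_zero.1 hk with h7 | h7
      · exact absurd h7 hn.ne'
      · exact h7
    rw [h6, mul_zero]
    -- μ is nonnegative up to ε
    obtain ⟨ω, ha, -, -, hd⟩ := exists_good3 (B := ∅) (C := ∅) h4 hn1 (by simp) (by simp)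
    simp only [Set.mem_ofPred_eq, not_le, not_not] at ha hd
    rw [abs_lt] at ha
    have h8 : 0 ≤ T (fun e => τ e ω) 0 (n • x) / (n : ℝ) := div_nonneg (hd.T_nonneg _ _) hn.le
    linarith [ha.2]
  · obtain ⟨ω, ha, hb, -, hd⟩ := exists_good3 (C := ∅) h4 hn1 (hrate k hk0) (by simp)
    simp only [Set.mem_ofPred_eq, not_le, not_not] at ha hb hd
    have h6 := hd.lower hb (z := n • x) hk.ge
    rw [← hk, h5] at h6
    rw [abs_lt] at ha
    have h7 : nm x / s ≤ T (fun e => τ e ω) 0 (n • x) / (n : ℝ) := by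
      rw [le_div_iff₀ hn]
      calc nm x / s * n = n * nm x / s := by ring
        _ ≤ _ := h6
    have h8 : 1 / s * nm x = nm x / s := by ring
    rw [h8]
    linarith [ha.2]

/-- The time constant is a norm: all dimensions, all laws on `[0, ∞)` without an atom at `0`. -/
theorem LimD.normFun (h : FppD ν P τ) (hν : ν (Set.Iio 0) = 0) (hν0 : ν {0} = 0) (hc : Continuous μ)
    (hhom : ∀ (c : ℝ) (x : Fin d → ℝ), 0 ≤ c → μ (c • x) = c * μ x) (hl : LimD P τ μ) :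
    NormFun μ ∧ (∀ x, μ (-x) = μ x) ∧ ∃ c : ℝ, 0 < c ∧ ∀ x, c * ∑ i, |x i| ≤ μ x := by
  obtain ⟨c, hcpos, hlow⟩ := hl.low h hν hν0
  have h1 := low_of_lattice hc hhom hlow
  refine ⟨⟨hc, hhom, add_of_lattice hc hhom (hl.add h hν), fun x hx => ?_⟩,
    even_of_lattice hc hhom (hl.neg h), c, hcpos, h1⟩
  refine lt_of_lt_of_le ?_ (h1 x)
  obtain ⟨i, hi⟩ : ∃ i, x i ≠ 0 := by
    by_contra hcon
    push Not at hcon
    exact hx (funext hcon)
  have h2 : |x i| ≤ ∑ j, |x j| := Finset.single_le_sum (f := fun j => |x j|) (fun _ _ => abs_nonneg _) (Finset.mem_univ i)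
  have h3 : 0 < |x i| := abs_pos.2 hi
  exact mul_pos hcpos (by linarith)

end Pool.Agent.W_1b8d5d_nc
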