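import Pool.Agent.W_1b8d5d_nc.NormD3
import Pool.Agent.W_1b8d5d_nc.NormalC

/-!
MP_1b8d5d_pr, all dimensions: invariance of the time constant under permutations and sign changes of the coordinates;
uniqueness of the supporting form in the directions of the axes and of the diagonals if there is no vertex.
-/

set_option autoImplicit false

open MeasureTheory ProbabilityTheory Filter Topology

namespace Pool.Agent.W_1b8d5d_nc

open Pool.Agent.W_1b8d5d_gd

/-! ### Invariance of the passage times -/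

section lattice

variable {d : ℕ} [NeZero d]

private theorem SymD_map (τ τ' : Env d) (f : V d → V d) (hf : ∀ x y, (grid d).Adj x y → (grid d).Adj (f x) (f y))
    (hc : ∀ x y, (grid d).Adj x y → τ (ke s(f x, f y)) = τ' (ke s(x, y))) {x y : V d}
    (w : (grid d).Walk x y) : ∃ w' : (grid d).Walk (f x) (f y), cost τ w' = cost τ' w := by
  induction w with
  | nil => exact ⟨SimpleGraph.Walk.nil, by simp [cost, wedges]⟩
  | @cons u v w h p ih =>
    obtain ⟨w', hw'⟩ := ih
    refine ⟨SimpleGraph.Walk.cons (hf _ _ h) w', ?_⟩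
    unfold cost wedges at hw' ⊢
    rw [SimpleGraph.Walk.edges_cons, SimpleGraph.Walk.edges_cons, List.map_cons, List.map_cons,
      List.map_cons, List.map_cons, List.sum_cons, List.sum_cons, hw', hc _ _ h]

theorem T_aut (τ τ' : Env d) (f g : V d → V d)
    (hf : ∀ x y, (grid d).Adj x y → (grid d).Adj (f x) (f y))
    (hg : ∀ x y, (grid d).Adj x y → (grid d).Adj (g x) (g y)) (hgf : ∀ x, g (f x) = x)
    (hfg : ∀ x, f (g x) = x)
    (hc : ∀ x y, (grid d).Adj x y → τ (ke s(f x, f y)) = τ' (ke s(x, y))) (x y : V d) :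
    T τ' x y = T τ (f x) (f y) := by
  unfold T iInf
  congr 1
  ext r
  constructor
  · rintro ⟨w, rfl⟩
    obtain ⟨w', hw'⟩ := SymD_map τ τ' f hf hc w
    exact ⟨w', hw'⟩
  · rintro ⟨w, rfl⟩
    have hc' : ∀ x y, (grid d).Adj x y → τ' (ke s(g x, g y)) = τ (ke s(x, y)) := by
      intro x y h
      rw [← hc _ _ (hg _ _ h), hfg, hfg]
    obtain ⟨w', hw'⟩ := SymD_map τ' τ g hg hc' w
    exact ⟨w'.copy (hgf x) (hgf y), by
      show cost τ' (w'.copy (hgf x) (hgf y)) = cost τ w
      rw [← hw']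
      unfold cost wedges
      rw [SimpleGraph.Walk.edges_copy]⟩

/-- Permutation of the coordinates. -/
def pm (σ : Equiv.Perm (Fin d)) (x : V d) : V d := fun i => x (σ i)

omit [NeZero d] in
theorem pm_dir (σ : Equiv.Perm (Fin d)) (x : V d) (s : Fin d) : pm σ (x + dir s) = pm σ x + dir (σ.symm s) := by
  funext i
  show x (σ i) + dir s (σ i) = x (σ i) + dir (σ.symm s) i
  unfold dir
  by_cases h : σ i = s
  · have h2 : i = σ.symm s := by rw [← h, Equiv.symm_apply_apply]
    subst h2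
    rw [Equiv.apply_symm_apply, Pi.single_eq_same, Pi.single_eq_same]
  · have h2 : i ≠ σ.symm s := fun h3 => h (by rw [h3, Equiv.apply_symm_apply])
    rw [Pi.single_eq_of_ne h, Pi.single_eq_of_ne h2]

theorem T_pm (σ : Equiv.Perm (Fin d)) (τ : Env d) (x y : V d) :
    T (fun e => τ (pm σ e.1, σ.symm e.2)) x y = T τ (pm σ x) (pm σ y) := by
  have hadj : ∀ (σ : Equiv.Perm (Fin d)) (x y : V d), (grid d).Adj x y → (grid d).Adj (pm σ x) (pm σ y) := by
    rintro σ x y ⟨s, h | h⟩
    · exact ⟨σ.symm s, Or.inl (by rw [h, pm_dir])⟩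
    · exact ⟨σ.symm s, Or.inr (by rw [h, pm_dir])⟩
  refine T_aut τ _ (pm σ) (pm σ.symm) (hadj σ) (hadj σ.symm) ?_ ?_ ?_ x y
  · intro x
    funext i
    show x (σ (σ.symm i)) = x i
    rw [Equiv.apply_symm_apply]
  · intro x
    funext i
    show x (σ.symm (σ i)) = x i
    rw [Equiv.symm_apply_apply]
  · rintro x y ⟨s, h | h⟩
    · subst h
      rw [pm_dir, ke_dir, ke_dir]
    · subst h
      rw [pm_dir, ke_dir', ke_dir']

/-- Sign changes. -/
def sg (ε : Fin d → ℤ) (x : V d) : V d := fun i => ε i * x i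

omit [NeZero d] in
theorem sg_dir (ε : Fin d → ℤ) (x : V d) (s : Fin d) : sg ε (x + dir s) = sg ε x + ε s • dir s := by
  funext i
  show ε i * (x i + dir s i) = ε i * x i + ε s * dir s i
  unfold dir
  by_cases h : i = s
  · subst h
    rw [Pi.single_eq_same]
    ring
  · rw [Pi.single_eq_of_ne h]
    ring

/-- The map on the edges. -/
def sgE (ε : Fin d → ℤ) (e : Edge d) : Edge d := (if ε e.2 = 1 then sg ε e.1 else sg ε e.1 - dir e.2, e.2)

omit [NeZero d] in
theorem sg_sg {ε : Fin d → ℤ} (hε : ∀ i, ε i = 1 ∨ ε i = -1) (x : V d) : sg ε (sg ε x) = x := by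
  funext i
  show ε i * (ε i * x i) = x i
  rcases hε i with h | h <;> rw [h] <;> ring

theorem T_sg {ε : Fin d → ℤ} (hε : ∀ i, ε i = 1 ∨ ε i = -1) (τ : Env d) (x y : V d) :
    T (fun e => τ (sgE ε e)) x y = T τ (sg ε x) (sg ε y) := by
  have hadj : ∀ x y : V d, (grid d).Adj x y → (grid d).Adj (sg ε x) (sg ε y) := by
    rintro x y ⟨s, h | h⟩
    · rcases hε s with hs | hs
      · exact ⟨s, Or.inl (by rw [h, sg_dir, hs, one_smul])⟩
      · exact ⟨s, Or.inr (by rw [h, sg_dir, hs, neg_one_smul]; abel)⟩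
    · rcases hε s with hs | hs
      · exact ⟨s, Or.inr (by rw [h, sg_dir, hs, one_smul])⟩
      · exact ⟨s, Or.inl (by rw [h, sg_dir, hs, neg_one_smul]; abel)⟩
  have hke : ∀ (x : V d) (s : Fin d), ke s(sg ε x, sg ε (x + dir s)) = sgE ε (x, s) := by
    intro x s
    rcases hε s with hs | hs
    · rw [sg_dir, hs, one_smul, ke_dir]
      unfold sgE
      simp only [hs, if_true]
    · have e : sg ε x = sg ε (x + dir s) + dir s := by
        rw [sg_dir, hs, neg_one_smul]
        abel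
      conv_lhs => rw [e]
      rw [ke_dir']
      unfold sgE
      have h1 : ¬ ((-1 : ℤ) = 1) := by norm_num
      simp only [hs, h1, if_false]
      rw [sg_dir, hs, neg_one_smul]
      rfl
  refine T_aut τ _ (sg ε) (sg ε) hadj hadj (sg_sg hε) (sg_sg hε) ?_ x y
  rintro x y ⟨s, h | h⟩
  · subst h
    rw [hke, ke_dir]
  · subst h
    rw [Sym2.eq_swap, hke, ke_dir']

omit [NeZero d] in
theorem sgE_injective {ε : Fin d → ℤ} (hε : ∀ i, ε i = 1 ∨ ε i = -1) : Function.Injective (sgE ε) := by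
  rintro ⟨u, i⟩ ⟨v, j⟩ huv
  unfold sgE at huv
  simp only [Prod.mk.injEq] at huv
  obtain ⟨h1, rfl⟩ := huv
  have h2 : sg ε u = sg ε v := by
    split_ifs at h1 with h
    · exact h1
    · exact sub_left_injective h1
  have h3 := congrArg (sg ε) h2
  rw [sg_sg hε, sg_sg hε] at h3
  rw [h3]

omit [NeZero d] in
theorem pmE_injective (σ : Equiv.Perm (Fin d)) : Function.Injective fun e : Edge d => ((pm σ e.1, σ.symm e.2) : Edge d) := by
  rintro ⟨u, i⟩ ⟨v, j⟩ huv
  simp only [Prod.mk.injEq] at huv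
  obtain ⟨h1, h2⟩ := huv
  refine Prod.ext ?_ (σ.symm.injective h2)
  funext k
  have h3 := congrFun h1 (σ.symm k)
  unfold pm at h3
  rwa [Equiv.apply_symm_apply] at h3

variable {ν : Measure ℝ} {Ω : Type} [MeasurableSpace Ω] {P : Measure Ω} {τ : Edge d → Ω → ℝ}

/-- Invariance of the law of the passage times under an automorphism. -/
theorem FppD.auto (h : FppD ν P τ) {F : Edge d → Edge d} (hF : Function.Injective F) {f : V d → V d}
    (hT : ∀ (τ : Env d) (x y : V d), T (fun e => τ (F e)) x y = T τ (f x) (f y)) (x y : V d) {S : Set ℝ}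
    (hS : MeasurableSet S) :
    P {ω | T (fun e => τ e ω) (f x) (f y) ∈ S} = P {ω | T (fun e => τ e ω) x y ∈ S} := by
  have h1 := h.relabel hF (S := {σ : Env d | T σ x y ∈ S}) (measurable_TD x y hS)
  have h2 : {ω | (fun e => τ (F e) ω : Env d) ∈ {σ : Env d | T σ x y ∈ S}} =
      {ω | T (fun e => τ e ω) (f x) (f y) ∈ S} := by
    ext ω
    exact iff_of_eq (congrArg (fun t => t ∈ S) (hT (fun e' => τ e' ω) x y))
  rw [h2] at h1
  exact h1

/-- Invariance of the time constant at the lattice vectors. -/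
theorem LimD.auto {μ : (Fin d → ℝ) → ℝ} (h : FppD ν P τ) (hl : LimD P τ μ) {F : Edge d → Edge d}
    (hF : Function.Injective F) {f : V d → V d}
    (hT : ∀ (τ : Env d) (x y : V d), T (fun e => τ (F e)) x y = T τ (f x) (f y)) (hf0 : f 0 = 0)
    (hfn : ∀ (n : ℕ) (x : V d), f (n • x) = n • f x) (x : V d) : μ (toRD (f x)) = μ (toRD x) := by
  have := h.prob
  have key : ∀ ε : ℝ, 0 < ε → |μ (toRD (f x)) - μ (toRD x)| ≤ ε := by
    intro ε hε
    have hε3 : 0 < ε / 2 := by linarith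
    have h1 := hl.ev (f x) hε3 (η := 1 / 3) (by norm_num)
    have h2 := hl.ev x hε3 (η := 1 / 3) (by norm_num)
    obtain ⟨n, hn1, hn2⟩ := (h1.and h2).exists
    have hrf : P.real {ω | ε / 2 ≤ |T (fun e => τ e ω) 0 (n • f x) / (n : ℝ) - μ (toRD x)|} < 1 / 3 := by
      have hS : MeasurableSet {t : ℝ | ε / 2 ≤ |t / (n : ℝ) - μ (toRD x)|} :=
        measurableSet_le measurable_const ((measurable_id.div_const _).sub_const _).abs
      have h5 := h.auto hF hT 0 (n • x) hS
      rw [hf0, hfn] at h5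
      have h6 := congrArg ENNReal.toReal h5
      have h7 : P.real {ω | ε / 2 ≤ |T (fun e => τ e ω) 0 (n • f x) / (n : ℝ) - μ (toRD x)|} =
          P.real {ω | ε / 2 ≤ |T (fun e => τ e ω) 0 (n • x) / (n : ℝ) - μ (toRD x)|} := h6
      rw [h7]
      exact hn2
    obtain ⟨ω, ha, hb, -, -⟩ := exists_good3 (C := ∅) (N := ∅) (P := P) (by simp) hn1 hrf (by simp)
    simp only [Set.mem_ofPred_eq, not_le] at ha hb
    rw [abs_lt] at ha hb
    rw [abs_le]
    constructor <;> linarith [ha.1, ha.2, hb.1, hb.2]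
  have h0 : |μ (toRD (f x)) - μ (toRD x)| ≤ 0 := le_of_forall_pos_le_add fun ε hε => by
    rw [zero_add]
    exact key ε hε
  have h1 := abs_eq_zero.1 (le_antisymm h0 (abs_nonneg _))
  linarith

end lattice

variable {d : ℕ}

/-- From the lattice to all vectors. -/
theorem inv_of_lattice {μ : (Fin d → ℝ) → ℝ} (hc : Continuous μ)
    (hhom : ∀ (c : ℝ) (x : Fin d → ℝ), 0 ≤ c → μ (c • x) = c * μ x) {f : V d → V d}
    {G : (Fin d → ℝ) → (Fin d → ℝ)} (hG : Continuous G) (hGs : ∀ (c : ℝ) (x : Fin d → ℝ), G (c • x) = c • G x)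
    (hfG : ∀ x, toRD (f x) = G (toRD x)) (h : ∀ x : V d, μ (toRD (f x)) = μ (toRD x)) (x : Fin d → ℝ) :
    μ (G x) = μ x := by
  have h1 : Tendsto (fun n : ℕ => (n : ℝ)⁻¹ * μ (toRD (apxD x n))) atTop (𝓝 (μ (G x))) := by
    have h2 := ((hc.comp hG).tendsto x).comp (apxD_tendsto x)
    refine h2.congr fun n => ?_
    show μ (G ((n : ℝ)⁻¹ • toRD (apxD x n))) = _
    rw [hGs, ← hfG, hhom _ _ (inv_nonneg.2 (Nat.cast_nonneg n)), h]
  exact tendsto_nhds_unique h1 (apxD_mu hc hhom x)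

/-- Invariance under permutations. -/
theorem LimD.perm [NeZero d] {ν : Measure ℝ} {Ω : Type} [MeasurableSpace Ω] {P : Measure Ω} {τ : Edge d → Ω → ℝ}
    {μ : (Fin d → ℝ) → ℝ} (hl : LimD P τ μ) (h : FppD ν P τ) (hc : Continuous μ)
    (hhom : ∀ (c : ℝ) (x : Fin d → ℝ), 0 ≤ c → μ (c • x) = c * μ x) (σ : Equiv.Perm (Fin d)) (x : Fin d → ℝ) :
    μ (fun i => x (σ i)) = μ x := by
  refine inv_of_lattice hc hhom (f := pm σ) (G := fun x i => x (σ i)) ?_ (fun _ _ => rfl) (fun _ => rfl)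
    (fun x => hl.auto h (pmE_injective σ) (T_pm σ) rfl (fun _ _ => rfl) x) x
  exact continuous_pi fun i => continuous_apply (σ i)

/-- Invariance under sign changes. -/
theorem LimD.sign [NeZero d] {ν : Measure ℝ} {Ω : Type} [MeasurableSpace Ω] {P : Measure Ω} {τ : Edge d → Ω → ℝ}
    {μ : (Fin d → ℝ) → ℝ} (hl : LimD P τ μ) (h : FppD ν P τ) (hc : Continuous μ)
    (hhom : ∀ (c : ℝ) (x : Fin d → ℝ), 0 ≤ c → μ (c • x) = c * μ x) {ε : Fin d → ℤ}
    (hε : ∀ i, ε i = 1 ∨ ε i = -1) (x : Fin d → ℝ) : μ (fun i => (ε i : ℝ) * x i) = μ x := by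
  refine inv_of_lattice hc hhom (f := sg ε) (G := fun x i => (ε i : ℝ) * x i) ?_ ?_ ?_
    (fun x => hl.auto h (sgE_injective hε) (T_sg hε) ?_ ?_ x) x
  · exact continuous_pi fun i => continuous_const.mul (continuous_apply i)
  · intro c x
    funext i
    simp only [Pi.smul_apply, smul_eq_mul]
    ring
  · intro x
    funext i
    simp [toRD, sg]
  · funext i
    simp [sg]
  · intro n x
    funext i
    simp only [sg, Pi.smul_apply, nsmul_eq_mul]
    ring

/-! ### Uniqueness of the supporting form at symmetric directions -/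

section unique

variable {μ : (Fin d → ℝ) → ℝ}

/-- `f` is a supporting form at `x`. -/
def Supp (μ : (Fin d → ℝ) → ℝ) (x : Fin d → ℝ) (f : (Fin d → ℝ) →ₗ[ℝ] ℝ) : Prop := (∀ z, f z ≤ μ z) ∧ f x = μ x

theorem form_eq_sum (f : (Fin d → ℝ) →ₗ[ℝ] ℝ) (z : Fin d → ℝ) : f z = ∑ i, z i * f (Pi.single i 1) := by
  have h1 : z = ∑ i, z i • (Pi.single i (1 : ℝ) : Fin d → ℝ) := by
    funext j
    simp [Finset.sum_apply, Pi.single_apply]
  conv_lhs => rw [h1, map_sum]
  exact Finset.sum_congr rfl fun i _ => by rw [map_smul, smul_eq_mul]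

/-- The linear map of a permutation. -/
def pmL (σ : Equiv.Perm (Fin d)) : (Fin d → ℝ) →ₗ[ℝ] (Fin d → ℝ) where
  toFun x i := x (σ i)
  map_add' _ _ := rfl
  map_smul' _ _ := rfl

/-- The linear map of a sign change. -/
def sgL (ε : Fin d → ℤ) : (Fin d → ℝ) →ₗ[ℝ] (Fin d → ℝ) where
  toFun x i := (ε i : ℝ) * x i
  map_add' x y := by
    funext i
    simp only [Pi.add_apply]
    ring
  map_smul' c x := by
    funext i
    simp only [Pi.smul_apply, smul_eq_mul, RingHom.id_apply]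
    ring

theorem Supp.comp {x : Fin d → ℝ} {f : (Fin d → ℝ) →ₗ[ℝ] ℝ} (h : Supp μ x f) {G : (Fin d → ℝ) →ₗ[ℝ] (Fin d → ℝ)}
    (hG : ∀ z, μ (G z) = μ z) (hx : G x = x) : Supp μ x (f.comp G) := by
  refine ⟨fun z => ?_, ?_⟩
  · rw [LinearMap.comp_apply, ← hG z]
    exact h.1 _
  · rw [LinearMap.comp_apply, hx]
    exact h.2

theorem pmL_single (σ : Equiv.Perm (Fin d)) (s : Fin d) :
    pmL σ (Pi.single s 1) = (Pi.single (σ.symm s) 1 : Fin d → ℝ) := by
  funext i
  show (Pi.single s 1 : Fin d → ℝ) (σ i) = (Pi.single (σ.symm s) 1 : Fin d → ℝ) i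
  by_cases h : σ i = s
  · have h2 : i = σ.symm s := by rw [← h, Equiv.symm_apply_apply]
    subst h2
    rw [Equiv.apply_symm_apply, Pi.single_eq_same, Pi.single_eq_same]
  · have h2 : i ≠ σ.symm s := fun h3 => h (by rw [h3, Equiv.apply_symm_apply])
    rw [Pi.single_eq_of_ne h, Pi.single_eq_of_ne h2]

/-- At an axis the supporting form is unique. -/
theorem axis_unique (hpos : ∀ x, x ≠ 0 → 0 < μ x) (hperm : ∀ (σ : Equiv.Perm (Fin d)) (x : Fin d → ℝ), μ (fun i => x (σ i)) = μ x)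
    (hsign : ∀ (ε : Fin d → ℤ), (∀ i, ε i = 1 ∨ ε i = -1) → ∀ x : Fin d → ℝ, μ (fun i => (ε i : ℝ) * x i) = μ x)
    (i : Fin d)
    (hy : ∃ y : Fin d → ℝ, y ≠ 0 ∧ ∀ f : (Fin d → ℝ) →ₗ[ℝ] ℝ, (∀ z, f z ≤ μ z) →
      f (Pi.single i 1) = μ (Pi.single i 1) → f y = 0)
    {f f' : (Fin d → ℝ) →ₗ[ℝ] ℝ} (hf : Supp μ (Pi.single i 1) f) (hf' : Supp μ (Pi.single i 1) f') : f = f' := by
  classical
  obtain ⟨y, hy0, hy⟩ := hy
  have hμ : 0 < μ (Pi.single i 1 : Fin d → ℝ) := hpos _ (by
    intro h0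
    have := congrFun h0 i
    simp at this)
  -- the flips
  have h1 : ∀ f, Supp μ (Pi.single i 1) f → ∀ k, k ≠ i → y k * f (Pi.single k 1) = 0 := by
    intro f hf k hk
    set ε : Fin d → ℤ := fun j => if j = k then -1 else 1 with hε
    have hε1 : ∀ j, ε j = 1 ∨ ε j = -1 := by
      intro j
      rw [hε]
      by_cases h : j = k
      · right
        simp [h]
      · left
        simp [h]
    have hG : sgL ε (Pi.single i 1) = (Pi.single i 1 : Fin d → ℝ) := by
      funext j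
      show (ε j : ℝ) * (Pi.single i 1 : Fin d → ℝ) j = _
      by_cases h : j = i
      · subst h
        have : ε j = 1 := by
          rw [hε]
          simp [Ne.symm hk]
        rw [this]
        simp
      · rw [Pi.single_eq_of_ne h]
        ring
    have h2 := hf.comp (G := sgL ε) (fun z => hsign ε hε1 z) hG
    have h3 := hy f hf.1 hf.2
    have h4 := hy _ h2.1 h2.2
    rw [LinearMap.comp_apply] at h4
    have h5 : y - sgL ε y = (2 * y k) • (Pi.single k 1 : Fin d → ℝ) := by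
      funext j
      show y j - (ε j : ℝ) * y j = 2 * y k * (Pi.single k 1 : Fin d → ℝ) j
      by_cases h : j = k
      · subst h
        have : ε j = -1 := by
          rw [hε]
          simp
        rw [this, Pi.single_eq_same]
        push_cast
        ring
      · have : ε j = 1 := by
          rw [hε]
          simp [h]
        rw [this, Pi.single_eq_of_ne h]
        push_cast
        ring
    have h6 := congrArg f h5
    rw [map_sub, h3, h4, map_smul, smul_eq_mul] at h6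
    linarith
  -- some coordinate of `y` off the axis is not zero
  have h2 : ∃ k, k ≠ i ∧ y k ≠ 0 := by
    by_contra hcon
    push Not at hcon
    have h3 := hy f hf.1 hf.2
    rw [form_eq_sum f y, Finset.sum_eq_single i] at h3
    · rw [hf.2] at h3
      rcases mul_eq_zero.1 h3 with h4 | h4
      · apply hy0
        funext j
        by_cases h5 : j = i
        · rw [h5, h4]
          rfl
        · rw [hcon j h5]
          rfl
      · exact hμ.ne' h4
    · intro j _ hj
      rw [hcon j hj, zero_mul]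
    · intro h4
      exact absurd (Finset.mem_univ i) h4
  obtain ⟨k, hk, hyk⟩ := h2
  have h3 : ∀ f, Supp μ (Pi.single i 1) f → ∀ j, j ≠ i → f (Pi.single j 1) = 0 := by
    intro f hf j hj
    have hG : pmL (Equiv.swap k j) (Pi.single i 1) = (Pi.single i 1 : Fin d → ℝ) := by
      rw [pmL_single, Equiv.symm_swap, Equiv.swap_apply_of_ne_of_ne hk.symm hj.symm]
    have h4 := hf.comp (G := pmL (Equiv.swap k j)) (fun z => hperm _ z) hG
    have h5 := h1 _ h4 k hk
    rw [LinearMap.comp_apply, pmL_single, Equiv.symm_swap, Equiv.swap_apply_left] at h5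
    exact (mul_eq_zero.1 h5).resolve_left hyk
  refine LinearMap.ext fun z => ?_
  rw [form_eq_sum f z, form_eq_sum f' z]
  refine Finset.sum_congr rfl fun j _ => ?_
  by_cases hj : j = i
  · rw [hj, hf.2, hf'.2]
  · rw [h3 f hf j hj, h3 f' hf' j hj]

/-- At the main diagonal the supporting form is unique. -/
theorem diag_unique_one (hpos : ∀ x, x ≠ 0 → 0 < μ x) (hperm : ∀ (σ : Equiv.Perm (Fin d)) (x : Fin d → ℝ), μ (fun i => x (σ i)) = μ x)
    (hd : 0 < d)
    (hy : ∃ y : Fin d → ℝ, y ≠ 0 ∧ ∀ f : (Fin d → ℝ) →ₗ[ℝ] ℝ, (∀ z, f z ≤ μ z) →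
      f (fun _ => 1) = μ (fun _ => 1) → f y = 0)
    {f f' : (Fin d → ℝ) →ₗ[ℝ] ℝ} (hf : Supp μ (fun _ => 1) f) (hf' : Supp μ (fun _ => 1) f') : f = f' := by
  classical
  obtain ⟨y, hy0, hy⟩ := hy
  have hμ : 0 < μ (fun _ : Fin d => (1 : ℝ)) := hpos _ (by
    intro h0
    have := congrFun h0 ⟨0, hd⟩
    simp at this)
  have hG : ∀ σ : Equiv.Perm (Fin d), pmL σ (fun _ => 1) = (fun _ => 1 : Fin d → ℝ) := fun σ => rfl
  have h1 : ∀ f, Supp μ (fun _ => 1) f → ∀ j k, (y j - y k) * (f (Pi.single j 1) - f (Pi.single k 1)) = 0 := by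
    intro f hf j k
    by_cases hjk : j = k
    · rw [hjk]
      ring
    have h2 := hf.comp (G := pmL (Equiv.swap j k)) (fun z => hperm _ z) (hG _)
    have h3 := hy f hf.1 hf.2
    have h4 := hy _ h2.1 h2.2
    rw [LinearMap.comp_apply] at h4
    have h5 : y - pmL (Equiv.swap j k) y = (y j - y k) • ((Pi.single j 1 : Fin d → ℝ) - Pi.single k 1) := by
      funext l
      show y l - y (Equiv.swap j k l) = (y j - y k) * ((Pi.single j 1 : Fin d → ℝ) l - (Pi.single k 1 : Fin d → ℝ) l)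
      by_cases hl : l = j
      · subst hl
        rw [Equiv.swap_apply_left, Pi.single_eq_same, Pi.single_eq_of_ne hjk]
        ring
      · by_cases hl2 : l = k
        · subst hl2
          rw [Equiv.swap_apply_right, Pi.single_eq_same, Pi.single_eq_of_ne hl]
          ring
        · rw [Equiv.swap_apply_of_ne_of_ne hl hl2, Pi.single_eq_of_ne hl, Pi.single_eq_of_ne hl2]
          ring
    have h6 := congrArg f h5
    rw [map_sub, h3, h4, map_smul, smul_eq_mul, map_sub] at h6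
    linarith
  have h2 : ∃ j k, y j ≠ y k := by
    by_contra hcon
    push Not at hcon
    have h3 : y = (y ⟨0, hd⟩) • (fun _ => 1 : Fin d → ℝ) := by
      funext l
      rw [Pi.smul_apply, smul_eq_mul, mul_one]
      exact hcon l _
    have h4 := hy f hf.1 hf.2
    rw [h3, map_smul, smul_eq_mul, hf.2] at h4
    rcases mul_eq_zero.1 h4 with h5 | h5
    · apply hy0
      rw [h3, h5, zero_smul]
    · exact hμ.ne' h5
  obtain ⟨j, k, hjk⟩ := h2
  have hne : j ≠ k := fun h => hjk (by rw [h])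
  have h3 : ∀ f, Supp μ (fun _ => 1) f → f (Pi.single j 1) = f (Pi.single k 1) := by
    intro f hf
    have h4 := (mul_eq_zero.1 (h1 f hf j k)).resolve_left (sub_ne_zero.2 hjk)
    linarith
  have h4 : ∀ f, Supp μ (fun _ => 1) f → ∀ l, f (Pi.single l 1) = f (Pi.single j 1) := by
    intro f hf l
    by_cases hlj : l = j
    · rw [hlj]
    have h5 := h3 _ (hf.comp (G := pmL (Equiv.swap k l)) (fun z => hperm _ z) (hG _))
    rw [LinearMap.comp_apply, LinearMap.comp_apply, pmL_single, pmL_single, Equiv.symm_swap,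
      Equiv.swap_apply_left] at h5
    by_cases hlk : l = k
    · rw [hlk, h3 f hf]
    · rw [Equiv.swap_apply_of_ne_of_ne hne (Ne.symm hlj)] at h5
      exact h5.symm
  have h5 : ∀ f, Supp μ (fun _ => 1) f → ∀ l, f (Pi.single l 1) = μ (fun _ => 1) / d := by
    intro f hf l
    have h6 : (fun _ => 1 : Fin d → ℝ) = ∑ i, (Pi.single i 1 : Fin d → ℝ) := by
      funext t
      simp [Finset.sum_apply, Pi.single_apply]
    have h7 := hf.2
    have h8 : f (fun _ => 1) = d * f (Pi.single l 1) := by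
      rw [form_eq_sum]
      have h9 : ∀ i ∈ (Finset.univ : Finset (Fin d)), (1 : ℝ) * f (Pi.single i 1) = f (Pi.single l 1) := by
        intro i _
        rw [one_mul, h4 f hf i, h4 f hf l]
      rw [Finset.sum_congr rfl h9, Finset.sum_const, Finset.card_univ, Fintype.card_fin, nsmul_eq_mul]
    have hd' : (0 : ℝ) < d := by exact_mod_cast hd
    rw [eq_div_iff hd'.ne', ← h7, h8]
    ring
  refine LinearMap.ext fun z => ?_
  rw [form_eq_sum f z, form_eq_sum f' z]
  exact Finset.sum_congr rfl fun l _ => by rw [h5 f hf l, h5 f' hf' l]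

/-- At all diagonals the supporting form is unique. -/
theorem diag_unique (hpos : ∀ x, x ≠ 0 → 0 < μ x) (hperm : ∀ (σ : Equiv.Perm (Fin d)) (x : Fin d → ℝ), μ (fun i => x (σ i)) = μ x)
    (hsign : ∀ (ε : Fin d → ℤ), (∀ i, ε i = 1 ∨ ε i = -1) → ∀ x : Fin d → ℝ, μ (fun i => (ε i : ℝ) * x i) = μ x)
    (hd : 0 < d)
    (hy : ∃ y : Fin d → ℝ, y ≠ 0 ∧ ∀ f : (Fin d → ℝ) →ₗ[ℝ] ℝ, (∀ z, f z ≤ μ z) →
      f (fun _ => 1) = μ (fun _ => 1) → f y = 0)
    {ε : Fin d → ℤ} (hε : ∀ i, ε i = 1 ∨ ε i = -1)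
    {f f' : (Fin d → ℝ) →ₗ[ℝ] ℝ} (hf : Supp μ (fun i => (ε i : ℝ)) f) (hf' : Supp μ (fun i => (ε i : ℝ)) f') :
    f = f' := by
  have h1 : sgL ε (fun _ => 1) = (fun i => (ε i : ℝ)) := by
    funext i
    show (ε i : ℝ) * 1 = ε i
    ring
  have h2 : ∀ z, sgL ε (sgL ε z) = z := by
    intro z
    funext i
    show (ε i : ℝ) * ((ε i : ℝ) * z i) = z i
    rcases hε i with h | h <;> rw [h] <;> push_cast <;> ring
  have h3 : ∀ f, Supp μ (fun i => (ε i : ℝ)) f → Supp μ (fun _ => 1) (f.comp (sgL ε)) := by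
    intro f hf
    refine ⟨fun z => ?_, ?_⟩
    · rw [LinearMap.comp_apply, ← hsign ε hε z]
      exact hf.1 _
    · rw [LinearMap.comp_apply, h1, hf.2]
      have h4 := hsign ε hε (fun _ => 1)
      simp only [mul_one] at h4
      exact h4
  have h4 := diag_unique_one hpos hperm hd hy (h3 f hf) (h3 f' hf')
  refine LinearMap.ext fun z => ?_
  have h5 := congrArg (fun F : (Fin d → ℝ) →ₗ[ℝ] ℝ => F (sgL ε z)) h4
  simp only [LinearMap.comp_apply, h2] at h5
  exact h5

end unique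

end Pool.Agent.W_1b8d5d_nc
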